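import Pool.Agent.Lib_helper31.LK.DefsP

/-! LSP3, part K, block KD2: Mellin transforms of the Cauchy kernel, positive side. -/

namespace Pool.Agent.LK

open Complex MeasureTheory Set
open Pool.Agent.LSP (tau GG tp KerL)
open scoped Topology

/-! ### functions with support in `(0, 1]` -/

/-- locally integrable, zero beyond `1`, of order `-b` at `0` -/
def kd2_N (b : ℝ) (f : ℝ → ℂ) : Prop :=
  LocallyIntegrableOn f (Ioi 0) ∧ (∀ x, 1 < x → f x = 0) ∧
    ∀ b' > b, f =O[𝓝[>] 0] (fun x : ℝ => x ^ (-b'))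

theorem kd2_top {f : ℝ → ℂ} (h : ∀ x, 1 < x → f x = 0) (a : ℝ) :
    f =O[Filter.atTop] (fun x : ℝ => x ^ (-a)) := by
  have h1 : f =ᶠ[Filter.atTop] (fun _ => (0 : ℂ)) := by
    filter_upwards [Filter.eventually_gt_atTop 1] with x hx
    exact h x hx
  exact h1.trans_isBigO (Asymptotics.isBigO_zero _ _)

theorem kd2_N_der {b : ℝ} {f : ℝ → ℂ} (h : kd2_N b f) {s : ℂ} (hs : b < s.re) :
    MellinConvergent f s ∧ HasDerivAt (mellin f) (mellin (fun t => Real.log t • f t) s) s := by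
  obtain ⟨b', hb1, hb2⟩ := exists_between hs
  refine ⟨?_, ?_⟩
  · exact mellinConvergent_of_isBigO_rpow h.1 (kd2_top h.2.1 (s.re + 1)) (by linarith)
      (h.2.2 b' hb1) hb2
  · exact (mellin_hasDerivAt_of_isBigO_rpow h.1 (kd2_top h.2.1 (s.re + 1)) (by linarith)
      (h.2.2 b' hb1) hb2).2

theorem kd2_N_log {b : ℝ} {f : ℝ → ℂ} (h : kd2_N b f) : kd2_N b (fun t => Real.log t • f t) := by
  refine ⟨?_, ?_, ?_⟩
  · refine h.1.continuousOn_smul isOpen_Ioi.isLocallyClosed ?_
    exact Real.continuousOn_log.mono (fun x hx => ne_of_gt hx)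
  · intro x hx
    simp only [h.2.1 x hx, smul_zero]
  · intro b' hb'
    obtain ⟨c, hc1, hc2⟩ := exists_between hb'
    exact isBigO_rpow_zero_log_smul hc2 (h.2.2 c hc1)

theorem kd2_locint {f : ℝ → ℂ} (h : IntegrableOn f (Ioc 0 1)) :
    LocallyIntegrableOn ((Ioc (0 : ℝ) 1).indicator f) (Ioi 0) :=
  ((integrable_indicator_iff measurableSet_Ioc).2 h).locallyIntegrable.locallyIntegrableOn _

theorem kd2_zero {f : ℝ → ℂ} (x : ℝ) (hx : 1 < x) : (Ioc (0 : ℝ) 1).indicator f x = 0 :=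
  indicator_of_notMem (fun h => absurd h.2 (not_le.2 hx)) _

/-- the Mellin transform of a function with support in `(0, 1]` -/
theorem kd2_mellin (f : ℝ → ℂ) (z : ℂ) :
    mellin ((Ioc (0 : ℝ) 1).indicator f) z = ∫ x in (0 : ℝ)..1, (x : ℂ) ^ (z - 1) * f x := by
  rw [mellin, intervalIntegral.integral_of_le zero_le_one]
  have h1 : ∀ t : ℝ, (t : ℂ) ^ (z - 1) • (Ioc (0 : ℝ) 1).indicator f t =
      (Ioc (0 : ℝ) 1).indicator (fun t : ℝ => (t : ℂ) ^ (z - 1) * f t) t := by
    intro t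
    by_cases h : t ∈ Ioc (0 : ℝ) 1
    · rw [indicator_of_mem h, indicator_of_mem h, smul_eq_mul]
    · rw [indicator_of_notMem h, indicator_of_notMem h, smul_zero]
  simp only [h1]
  rw [setIntegral_indicator measurableSet_Ioc, inter_eq_self_of_subset_right Ioc_subset_Ioi_self]

/-! ### the functions `(1-x)^(w-1)` and `log^k (1-y)` -/

/-- the function `(1-x)^(w-1)` on `(0, 1]` -/
noncomputable def kd2_b (w : ℂ) : ℝ → ℂ :=
  (Ioc (0 : ℝ) 1).indicator fun x => (1 - (x : ℂ)) ^ (w - 1)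

theorem kd2_b_N {w : ℂ} (hw : 0 < w.re) : kd2_N 0 (kd2_b w) := by
  refine ⟨?_, kd2_zero, ?_⟩
  · apply kd2_locint
    have h := betaIntegral_convergent (u := 1) (v := w) (by simp) hw
    rw [intervalIntegrable_iff_integrableOn_Ioc_of_le zero_le_one] at h
    simpa using h
  · intro b' hb'
    have h1 : ContinuousAt (fun x : ℝ => (1 - (x : ℂ)) ^ (w - 1)) 0 := by
      refine ContinuousAt.cpow (by fun_prop) continuousAt_const ?_
      simp
    have h2 : (fun x : ℝ => (1 - (x : ℂ)) ^ (w - 1)) =O[𝓝[>] 0] (fun _ => (1 : ℝ)) :=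
      (h1.isBigO_one ℝ).mono nhdsWithin_le_nhds
    have h3 : (fun _ : ℝ => (1 : ℝ)) =O[𝓝[>] 0] (fun x : ℝ => x ^ (-b')) := by
      apply Asymptotics.IsBigO.of_bound 1
      filter_upwards [Ioo_mem_nhdsGT (zero_lt_one' ℝ)] with x hx
      rw [norm_one, one_mul, Real.norm_of_nonneg (Real.rpow_nonneg hx.1.le _)]
      exact Real.one_le_rpow_of_pos_of_le_one_of_nonpos hx.1 hx.2.le (by linarith)
    refine Asymptotics.IsBigO.trans ?_ (h2.trans h3)
    apply Asymptotics.IsBigO.of_bound 1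
    filter_upwards with x
    rw [one_mul]
    exact norm_indicator_le_norm_self _ _

theorem kd2_b_mellin (w z : ℂ) : mellin (kd2_b w) z = betaIntegral z w := by
  rw [kd2_b, kd2_mellin, betaIntegral]

/-- the function `log^k (1-y)` on `(0, 1]` -/
noncomputable def kd2_h (k : ℕ) : ℝ → ℂ :=
  (Ioc (0 : ℝ) 1).indicator fun y => ((Real.log (1 - y) : ℝ) : ℂ) ^ k

theorem kd2_log_int (k : ℕ) (hk : k ≤ 2) :
    IntervalIntegrable (fun x : ℝ => ((Real.log x : ℝ) : ℂ) ^ k) volume 0 1 := by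
  have h0 : kd2_N 0 (kd2_b 1) := kd2_b_N (by simp)
  have h1 := kd2_N_log h0
  have h2 := kd2_N_log h1
  have e0 : ∀ x ∈ Ioc (0 : ℝ) 1, kd2_b 1 x = 1 := by
    intro x hx
    rw [kd2_b, indicator_of_mem hx]
    simp
  have key : ∀ f : ℝ → ℂ, kd2_N 0 f → (∀ x ∈ Ioc (0 : ℝ) 1, f x = ((Real.log x : ℝ) : ℂ) ^ k) →
      IntervalIntegrable (fun x : ℝ => ((Real.log x : ℝ) : ℂ) ^ k) volume 0 1 := by
    intro f hf he
    have h3 := (kd2_N_der hf (s := 1) (by simp)).1
    rw [MellinConvergent] at h3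
    rw [intervalIntegrable_iff_integrableOn_Ioc_of_le zero_le_one]
    refine (h3.mono_set Ioc_subset_Ioi_self).congr_fun (fun x hx => ?_) measurableSet_Ioc
    simp only [he x hx]
    simp
  interval_cases k
  · exact key _ h0 (fun x hx => by rw [e0 x hx, pow_zero])
  · exact key _ h1 (fun x hx => by simp [e0 x hx])
  · exact key _ h2 (fun x hx => by simp [e0 x hx, sq])

theorem kd2_h_locint (k : ℕ) (hk : k ≤ 2) : LocallyIntegrableOn (kd2_h k) (Ioi 0) := by
  apply kd2_locint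
  have h := (kd2_log_int k hk).comp_sub_left 1
  rw [sub_self, sub_zero] at h
  have h' := h.symm
  rw [intervalIntegrable_iff_integrableOn_Ioc_of_le zero_le_one] at h'
  exact h'

theorem kd2_log_O : (fun y : ℝ => ((Real.log (1 - y) : ℝ) : ℂ)) =O[𝓝 0] (fun y : ℝ => y) := by
  have h1 : HasDerivAt (fun y : ℝ => Real.log (1 - y)) (-1 / (1 - 0)) 0 := by
    have h2 : HasDerivAt (fun y : ℝ => 1 - y) (-1) 0 := by
      simpa using (hasDerivAt_id (0 : ℝ)).const_sub 1
    exact h2.log (by norm_num)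
  have h3 := h1.isBigO_sub
  simp only [sub_zero, Real.log_one] at h3
  rw [← Asymptotics.isBigO_norm_left] at h3 ⊢
  simpa using h3

theorem kd2_h_N {k : ℕ} (hk1 : 1 ≤ k) (hk : k ≤ 2) : kd2_N (-1) (kd2_h k) := by
  refine ⟨kd2_h_locint k hk, kd2_zero, ?_⟩
  intro b' hb'
  have h0 : (fun y : ℝ => ((Real.log (1 - y) : ℝ) : ℂ) ^ k) =O[𝓝 0] (fun y : ℝ => y) := by
    have h1 := kd2_log_O
    have h2 : (fun y : ℝ => ((Real.log (1 - y) : ℝ) : ℂ)) =O[𝓝 0] (fun _ : ℝ => (1 : ℝ)) := by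
      refine h1.trans ?_
      exact (continuousAt_id (x := (0 : ℝ))).isBigO_one ℝ
    interval_cases k
    · simpa using h1
    · have h3 := h1.mul h2
      simpa [sq] using h3
  have h3 : (fun y : ℝ => y) =O[𝓝[>] 0] (fun x : ℝ => x ^ (-b')) := by
    apply Asymptotics.IsBigO.of_bound 1
    filter_upwards [Ioo_mem_nhdsGT (zero_lt_one' ℝ)] with x hx
    rw [one_mul, Real.norm_of_nonneg hx.1.le, Real.norm_of_nonneg (Real.rpow_nonneg hx.1.le _)]
    calc x = x ^ (1 : ℝ) := (Real.rpow_one x).symm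
      _ ≤ x ^ (-b') := Real.rpow_le_rpow_of_exponent_ge hx.1 hx.2.le (by linarith)
  refine Asymptotics.IsBigO.trans ?_ ((h0.mono nhdsWithin_le_nhds).trans h3)
  apply Asymptotics.IsBigO.of_bound 1
  filter_upwards with x
  rw [one_mul]
  exact norm_indicator_le_norm_self _ _

/-- symmetry of the Beta integral -/
theorem kd2_h_mellin (k : ℕ) (w : ℂ) :
    mellin (kd2_h k) w = ∫ x in (0 : ℝ)..1, ((Real.log x : ℝ) : ℂ) ^ k * (1 - (x : ℂ)) ^ (w - 1) := by
  rw [kd2_h, kd2_mellin]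
  have h := intervalIntegral.integral_comp_sub_left (a := 0) (b := 1)
    (fun x : ℝ => ((Real.log x : ℝ) : ℂ) ^ k * (1 - (x : ℂ)) ^ (w - 1)) 1
  rw [sub_self, sub_zero] at h
  rw [← h]
  congr 1
  funext y
  push_cast
  rw [sub_sub_cancel, mul_comm]

/-- `B(z, w)` and its first two derivatives in `z` -/
theorem kd2_beta {w : ℂ} (hw : 0 < w.re) :
    (∀ z : ℂ, 0 < z.re → HasDerivAt (mellin (kd2_b w))
      (mellin (fun t => Real.log t • kd2_b w t) z) z) ∧
    (∀ z : ℂ, 0 < z.re → HasDerivAt (mellin (fun t => Real.log t • kd2_b w t))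
      (mellin (fun t => Real.log t • Real.log t • kd2_b w t) z) z) ∧
    mellin (fun t => Real.log t • kd2_b w t) 1 = mellin (kd2_h 1) w ∧
    mellin (fun t => Real.log t • Real.log t • kd2_b w t) 1 = mellin (kd2_h 2) w := by
  have h0 := kd2_b_N hw
  have h1 := kd2_N_log h0
  have e1 : (fun t : ℝ => Real.log t • kd2_b w t) = (Ioc (0 : ℝ) 1).indicator
      fun x : ℝ => ((Real.log x : ℝ) : ℂ) ^ 1 * (1 - (x : ℂ)) ^ (w - 1) := by
    funext t
    rw [kd2_b]
    by_cases h : t ∈ Ioc (0 : ℝ) 1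
    · rw [indicator_of_mem h, indicator_of_mem h, pow_one, Complex.real_smul]
    · rw [indicator_of_notMem h, indicator_of_notMem h, smul_zero]
  have e2 : (fun t : ℝ => Real.log t • Real.log t • kd2_b w t) = (Ioc (0 : ℝ) 1).indicator
      fun x : ℝ => ((Real.log x : ℝ) : ℂ) ^ 2 * (1 - (x : ℂ)) ^ (w - 1) := by
    funext t
    rw [kd2_b]
    by_cases h : t ∈ Ioc (0 : ℝ) 1
    · rw [indicator_of_mem h, indicator_of_mem h, Complex.real_smul, Complex.real_smul]
      ring
    · rw [indicator_of_notMem h, indicator_of_notMem h, smul_zero, smul_zero]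
  refine ⟨fun z hz => (kd2_N_der h0 hz).2, fun z hz => (kd2_N_der h1 hz).2, ?_, ?_⟩
  · rw [e1, kd2_mellin, kd2_h_mellin]
    congr 1
    funext x
    rw [sub_self, cpow_zero, one_mul]
  · rw [e2, kd2_mellin, kd2_h_mellin]
    congr 1
    funext x
    rw [sub_self, cpow_zero, one_mul]

/-! ### the digamma function on the right half plane -/

theorem kd2_open (a : ℝ) : IsOpen {z : ℂ | a < z.re} := isOpen_lt continuous_const continuous_re

theorem kd2_gam_ne {z : ℂ} (hz : 0 < z.re) (m : ℕ) : z ≠ -m := by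
  intro h
  rw [h] at hz
  simp at hz
  have : (0 : ℝ) ≤ m := Nat.cast_nonneg m
  linarith

theorem kd2_gam_an : AnalyticOnNhd ℂ Gamma {z : ℂ | 0 < z.re} := by
  apply DifferentiableOn.analyticOnNhd _ (kd2_open 0)
  intro z hz
  exact (differentiableAt_Gamma z (kd2_gam_ne hz)).differentiableWithinAt

theorem kd2_dig_an : AnalyticOnNhd ℂ digamma {z : ℂ | 0 < z.re} := by
  intro z hz
  exact ((kd2_gam_an z hz).deriv).div (kd2_gam_an z hz) (Gamma_ne_zero_of_re_pos hz)

theorem kd2_gam_der {z : ℂ} (hz : 0 < z.re) : HasDerivAt Gamma (Gamma z * digamma z) z := by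
  have h1 := (differentiableAt_Gamma z (kd2_gam_ne hz)).hasDerivAt
  have h2 : Gamma z * digamma z = deriv Gamma z := by
    rw [digamma_def, logDeriv_apply]
    have := Gamma_ne_zero_of_re_pos hz
    field_simp
  rw [h2]
  exact h1

theorem kd2_dig_der {z : ℂ} (hz : 0 < z.re) : HasDerivAt digamma (deriv digamma z) z :=
  (kd2_dig_an z hz).differentiableAt.hasDerivAt

theorem kd2_dig_succ {z : ℂ} (hz : 0 < z.re) : digamma (1 + z) = digamma z + z⁻¹ := by
  rw [add_comm, digamma_apply_add_one z (kd2_gam_ne hz)]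

theorem kd2_dig_succ' {z : ℂ} (hz : 0 < z.re) :
    deriv digamma (1 + z) = deriv digamma z - 1 / z ^ 2 := by
  have hz' : 0 < (1 + z).re := by
    rw [add_re, one_re]
    linarith
  have hz0 : z ≠ 0 := by
    rintro rfl
    simp at hz
  have h1 : HasDerivAt (fun w : ℂ => digamma (1 + w)) (deriv digamma (1 + z)) z :=
    (kd2_dig_der hz').comp_const_add 1 z
  have h2 : HasDerivAt (fun w : ℂ => digamma w + w⁻¹) (deriv digamma z + -(z ^ 2)⁻¹) z :=
    (kd2_dig_der hz).add (hasDerivAt_inv hz0)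
  have h3 : (fun w : ℂ => digamma (1 + w)) =ᶠ[𝓝 z] fun w : ℂ => digamma w + w⁻¹ := by
    filter_upwards [(kd2_open 0).mem_nhds hz] with w hw
    exact kd2_dig_succ hw
  rw [h1.unique (h2.congr_of_eventuallyEq h3)]
  ring

/-- the reflection formula -/
theorem kd2_refl {s : ℂ} (h0 : 0 < s.re) (h1 : s.re < 1) :
    digamma (1 - s) = digamma s +
      Real.pi * (Complex.cos (Real.pi * s) / Complex.sin (Real.pi * s)) := by
  have h1' : 0 < (1 - s).re := by
    rw [sub_re, one_re]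
    linarith
  have hpi : (Real.pi : ℂ) ≠ 0 := ofReal_ne_zero.2 Real.pi_ne_zero
  have hG := Complex.Gamma_mul_Gamma_one_sub s
  have hne : Gamma s * Gamma (1 - s) ≠ 0 :=
    mul_ne_zero (Gamma_ne_zero_of_re_pos h0) (Gamma_ne_zero_of_re_pos h1')
  have hsin : Complex.sin (Real.pi * s) ≠ 0 := by
    intro h
    rw [hG, h, div_zero] at hne
    exact hne rfl
  have e1 : HasDerivAt (fun z : ℂ => Gamma z * Gamma (1 - z))
      (Gamma s * digamma s * Gamma (1 - s) + Gamma s * -(Gamma (1 - s) * digamma (1 - s))) s :=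
    (kd2_gam_der h0).mul ((kd2_gam_der h1').comp_const_sub 1 s)
  have e2 : HasDerivAt (fun z : ℂ => Complex.sin (Real.pi * z))
      (Complex.cos (Real.pi * s) * Real.pi) s := by
    have h2 : HasDerivAt (fun z : ℂ => (Real.pi : ℂ) * z) (Real.pi : ℂ) s := by
      simpa using (hasDerivAt_id s).const_mul (Real.pi : ℂ)
    exact h2.csin
  have e3 : HasDerivAt (fun z : ℂ => (Real.pi : ℂ) / Complex.sin (Real.pi * z))
      ((0 * Complex.sin (Real.pi * s) - Real.pi * (Complex.cos (Real.pi * s) * Real.pi)) /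
        Complex.sin (Real.pi * s) ^ 2) s :=
    (hasDerivAt_const s (Real.pi : ℂ)).div e2 hsin
  have e4 : (fun z : ℂ => Gamma z * Gamma (1 - z)) =
      fun z : ℂ => (Real.pi : ℂ) / Complex.sin (Real.pi * z) := by
    funext z
    exact Complex.Gamma_mul_Gamma_one_sub z
  rw [e4] at e1
  have e5 := e1.unique e3
  have e6 : Gamma s * digamma s * Gamma (1 - s) + Gamma s * -(Gamma (1 - s) * digamma (1 - s)) =
      (Gamma s * Gamma (1 - s)) * (digamma s - digamma (1 - s)) := by ring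
  rw [e6, hG] at e5
  have e7 : Complex.sin (Real.pi * s) * (digamma s - digamma (1 - s)) =
      -(Real.pi * Complex.cos (Real.pi * s)) := by
    apply mul_left_cancel₀ hpi
    field_simp at e5
    linear_combination e5
  have e8 : digamma (1 - s) - digamma s =
      Real.pi * (Complex.cos (Real.pi * s) / Complex.sin (Real.pi * s)) := by
    rw [← mul_div_assoc, eq_div_iff hsin]
    linear_combination -e7
  linear_combination e8

theorem kd2_sin_ne {s : ℂ} (h0 : 0 < s.re) (h1 : s.re < 1) : Complex.sin (Real.pi * s) ≠ 0 := by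
  have h1' : 0 < (1 - s).re := by
    rw [sub_re, one_re]
    linarith
  have hG := Complex.Gamma_mul_Gamma_one_sub s
  have hne : Gamma s * Gamma (1 - s) ≠ 0 :=
    mul_ne_zero (Gamma_ne_zero_of_re_pos h0) (Gamma_ne_zero_of_re_pos h1')
  intro h
  rw [hG, h, div_zero] at hne
  exact hne rfl

theorem kd2_refl' {s : ℂ} (h0 : 0 < s.re) (h1 : s.re < 1) :
    deriv digamma (1 - s) = (Real.pi / Complex.sin (Real.pi * s)) ^ 2 - deriv digamma s := by
  have h1' : 0 < (1 - s).re := by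
    rw [sub_re, one_re]
    linarith
  have hsin := kd2_sin_ne h0 h1
  have e1 : HasDerivAt (fun z : ℂ => digamma (1 - z)) (-deriv digamma (1 - s)) s :=
    (kd2_dig_der h1').comp_const_sub 1 s
  have h2 : HasDerivAt (fun z : ℂ => (Real.pi : ℂ) * z) (Real.pi : ℂ) s := by
    simpa using (hasDerivAt_id s).const_mul (Real.pi : ℂ)
  have e2 := (kd2_dig_der h0).add ((h2.ccos.div h2.csin hsin).const_mul (Real.pi : ℂ))
  have e3 : (fun z : ℂ => digamma (1 - z)) =ᶠ[𝓝 s] fun z : ℂ => digamma z +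
      Real.pi * (Complex.cos (Real.pi * z) / Complex.sin (Real.pi * z)) := by
    have hU : {z : ℂ | 0 < z.re} ∩ {z : ℂ | z.re < 1} ∈ 𝓝 s :=
      Filter.inter_mem ((kd2_open 0).mem_nhds h0)
        ((isOpen_lt continuous_re continuous_const).mem_nhds h1)
    filter_upwards [hU] with z hz
    exact kd2_refl hz.1 hz.2
  have e4 := e1.unique (e2.congr_of_eventuallyEq e3)
  have hsq := Complex.sin_sq_add_cos_sq (Real.pi * s)
  have e5 : deriv digamma (1 - s) = -(deriv digamma s + Real.pi *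
      ((-Complex.sin (Real.pi * s) * Real.pi * Complex.sin (Real.pi * s) -
        Complex.cos (Real.pi * s) * (Complex.cos (Real.pi * s) * Real.pi)) /
          Complex.sin (Real.pi * s) ^ 2)) := by
    rw [← e4, neg_neg]
  rw [e5]
  field_simp
  linear_combination (Real.pi : ℂ) ^ 2 * hsq

/-! ### the Mellin transforms of `log^k (1-y)` -/

theorem kd2_B {z w : ℂ} (hz : 0 < z.re) (hw : 0 < w.re) :
    mellin (kd2_b w) z = Gamma z * Gamma w / Gamma (z + w) := by
  have hzw : 0 < (z + w).re := by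
    rw [add_re]
    linarith
  rw [kd2_b_mellin, Complex.Gamma_mul_Gamma_eq_betaIntegral hz hw,
    mul_div_cancel_left₀ _ (Gamma_ne_zero_of_re_pos hzw)]

theorem kd2_B_one {w : ℂ} (hw : 0 < w.re) : mellin (kd2_b w) 1 = 1 / w := by
  have hw0 : w ≠ 0 := by
    rintro rfl
    simp at hw
  rw [kd2_B (by simp) hw, Gamma_one, one_mul, add_comm, Gamma_add_one w hw0]
  have := Gamma_ne_zero_of_re_pos hw
  field_simp

theorem kd2_D1 {z w : ℂ} (hz : 0 < z.re) (hw : 0 < w.re) :
    mellin (fun t => Real.log t • kd2_b w t) z =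
      mellin (kd2_b w) z * (digamma z - digamma (z + w)) := by
  have hzw : 0 < (z + w).re := by
    rw [add_re]
    linarith
  have h1 := (kd2_beta hw).1 z hz
  have h2 : HasDerivAt (fun z : ℂ => Gamma z * Gamma w / Gamma (z + w))
      ((Gamma z * digamma z * Gamma w * Gamma (z + w) -
        Gamma z * Gamma w * (Gamma (z + w) * digamma (z + w))) / Gamma (z + w) ^ 2) z :=
    ((kd2_gam_der hz).mul_const (Gamma w)).div ((kd2_gam_der hzw).comp_add_const z w)
      (Gamma_ne_zero_of_re_pos hzw)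
  have h3 : mellin (kd2_b w) =ᶠ[𝓝 z] fun z : ℂ => Gamma z * Gamma w / Gamma (z + w) := by
    filter_upwards [(kd2_open 0).mem_nhds hz] with x hx
    exact kd2_B hx hw
  rw [h1.unique (h2.congr_of_eventuallyEq h3), kd2_B hz hw]
  have := Gamma_ne_zero_of_re_pos hzw
  field_simp

theorem kd2_D2 {w : ℂ} (hw : 0 < w.re) :
    mellin (fun t => Real.log t • Real.log t • kd2_b w t) 1 =
      1 / w * ((digamma 1 - digamma (1 + w)) ^ 2 + deriv digamma 1 - deriv digamma (1 + w)) := by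
  have hz : 0 < (1 : ℂ).re := by simp
  have hzw : 0 < (1 + w).re := by
    rw [add_re]
    linarith
  have h1 := (kd2_beta hw).2.1 1 hz
  have h2 := ((kd2_beta hw).1 1 hz).mul ((kd2_dig_der hz).sub
    ((kd2_dig_der hzw).comp_add_const 1 w))
  have h3 : mellin (fun t => Real.log t • kd2_b w t) =ᶠ[𝓝 1]
      fun z : ℂ => mellin (kd2_b w) z * (digamma z - digamma (z + w)) := by
    filter_upwards [(kd2_open 0).mem_nhds hz] with x hx
    exact kd2_D1 hx hw
  rw [h1.unique (h2.congr_of_eventuallyEq h3), kd2_D1 hz hw, kd2_B_one hw, Pi.sub_apply]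
  ring

theorem kd2_h1_pos {w : ℂ} (hw : 0 < w.re) :
    w * mellin (kd2_h 1) w = digamma 1 - digamma (1 + w) := by
  have hw0 : w ≠ 0 := by
    rintro rfl
    simp at hw
  rw [← (kd2_beta hw).2.2.1, kd2_D1 (by simp) hw, kd2_B_one hw]
  field_simp

theorem kd2_h2_pos {w : ℂ} (hw : 0 < w.re) :
    w * mellin (kd2_h 2) w =
      (digamma 1 - digamma (1 + w)) ^ 2 + deriv digamma 1 - deriv digamma (1 + w) := by
  have hw0 : w ≠ 0 := by
    rintro rfl
    simp at hw
  rw [← (kd2_beta hw).2.2.2, kd2_D2 hw]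
  field_simp

theorem kd2_ext {f g : ℂ → ℂ} (hf : DifferentiableOn ℂ f {w : ℂ | -1 < w.re})
    (hg : DifferentiableOn ℂ g {w : ℂ | -1 < w.re}) (h : ∀ w : ℂ, 0 < w.re → f w = g w) {w : ℂ}
    (hw : -1 < w.re) : f w = g w := by
  have h1 : f =ᶠ[𝓝 1] g := by
    filter_upwards [(kd2_open 0).mem_nhds (show (1 : ℂ) ∈ {z : ℂ | 0 < z.re} by simp)] with x hx
    exact h x hx
  exact (hf.analyticOnNhd (kd2_open (-1))).eqOn_of_preconnected_of_eventuallyEq
    (hg.analyticOnNhd (kd2_open (-1))) (convex_halfSpace_re_gt (-1)).isPreconnected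
    (show (1 : ℂ) ∈ {w : ℂ | -1 < w.re} by simp) h1 hw

theorem kd2_dig_comp {w : ℂ} (hw : -1 < w.re) :
    DifferentiableAt ℂ (fun w : ℂ => digamma (1 + w)) w ∧
      DifferentiableAt ℂ (fun w : ℂ => deriv digamma (1 + w)) w := by
  have h1 : 0 < (1 + w).re := by
    rw [add_re, one_re]
    linarith
  have h2 : DifferentiableAt ℂ (fun w : ℂ => 1 + w) w := by fun_prop
  exact ⟨(kd2_dig_an _ h1).differentiableAt.comp w h2,
    (kd2_dig_an _ h1).deriv.differentiableAt.comp w h2⟩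

theorem kd2_mul_diff {k : ℕ} (hk1 : 1 ≤ k) (hk : k ≤ 2) {w : ℂ} (hw : -1 < w.re) :
    DifferentiableAt ℂ (fun w : ℂ => w * mellin (kd2_h k) w) w :=
  differentiableAt_id.mul (kd2_N_der (kd2_h_N hk1 hk) hw).2.differentiableAt

theorem kd2_h1 {w : ℂ} (hw : -1 < w.re) :
    w * mellin (kd2_h 1) w = digamma 1 - digamma (1 + w) :=
  kd2_ext (f := fun w => w * mellin (kd2_h 1) w) (g := fun w => digamma 1 - digamma (1 + w))
    (fun w hw => (kd2_mul_diff le_rfl (by norm_num) hw).differentiableWithinAt)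
    (fun w hw => ((kd2_dig_comp hw).1.const_sub _).differentiableWithinAt)
    (fun w hw => kd2_h1_pos hw) hw

theorem kd2_h2 {w : ℂ} (hw : -1 < w.re) :
    w * mellin (kd2_h 2) w =
      (digamma 1 - digamma (1 + w)) ^ 2 + deriv digamma 1 - deriv digamma (1 + w) :=
  kd2_ext (f := fun w => w * mellin (kd2_h 2) w)
    (g := fun w => (digamma 1 - digamma (1 + w)) ^ 2 + deriv digamma 1 - deriv digamma (1 + w))
    (fun w hw => (kd2_mul_diff (by norm_num) le_rfl hw).differentiableWithinAt)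
    (fun w hw => ((((kd2_dig_comp hw).1.const_sub _).pow 2).add_const _ |>.sub
      (kd2_dig_comp hw).2).differentiableWithinAt)
    (fun w hw => kd2_h2_pos hw) hw

/-- the derivative of the transform of `log (1-y)` -/
theorem kd2_h1_log {s : ℂ} (h0 : 0 < s.re) :
    mellin (fun t => Real.log t • kd2_h 1 t) s =
      -deriv digamma (1 + s) / s - (digamma 1 - digamma (1 + s)) / s ^ 2 := by
  have hs0 : s ≠ 0 := by
    rintro rfl
    simp at h0
  have hs1 : 0 < (1 + s).re := by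
    rw [add_re, one_re]
    linarith
  have h1 := (kd2_N_der (kd2_h_N le_rfl (by norm_num)) (show (-1 : ℝ) < s.re by linarith)).2
  have h2 : HasDerivAt (fun w : ℂ => (digamma 1 - digamma (1 + w)) / w)
      ((-deriv digamma (1 + s) * s - (digamma 1 - digamma (1 + s)) * 1) / s ^ 2) s :=
    (((kd2_dig_der hs1).comp_const_add 1 s).const_sub (digamma 1)).div (hasDerivAt_id s) hs0
  have h3 : mellin (kd2_h 1) =ᶠ[𝓝 s] fun w : ℂ => (digamma 1 - digamma (1 + w)) / w := by
    filter_upwards [(kd2_open 0).mem_nhds h0] with w hw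
    have hw0 : w ≠ 0 := by
      rintro rfl
      simp at hw
    rw [← kd2_h1_pos hw]
    field_simp
  rw [h1.unique (h2.congr_of_eventuallyEq h3)]
  field_simp

/-! ### powers of the logarithm -/

theorem kd2_l0 {s : ℂ} (h0 : 0 < s.re) : mellin (kd2_b 1) s = 1 / s := by
  rw [kd2_B h0 (by simp), Gamma_one, mul_one]
  have hs0 : s ≠ 0 := by
    rintro rfl
    simp at h0
  rw [Gamma_add_one s hs0]
  have := Gamma_ne_zero_of_re_pos h0
  field_simp

theorem kd2_l1 {s : ℂ} (h0 : 0 < s.re) :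
    mellin (fun t => Real.log t • kd2_b 1 t) s = -1 / s ^ 2 := by
  have hs0 : s ≠ 0 := by
    rintro rfl
    simp at h0
  have h1 := (kd2_beta (w := 1) (by simp)).1 s h0
  have h2 : HasDerivAt (fun w : ℂ => 1 / w) ((0 * s - 1 * 1) / s ^ 2) s :=
    (hasDerivAt_const s (1 : ℂ)).div (hasDerivAt_id s) hs0
  have h3 : mellin (kd2_b 1) =ᶠ[𝓝 s] fun w : ℂ => 1 / w := by
    filter_upwards [(kd2_open 0).mem_nhds h0] with w hw
    exact kd2_l0 hw
  rw [h1.unique (h2.congr_of_eventuallyEq h3)]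
  ring

theorem kd2_l2 {s : ℂ} (h0 : 0 < s.re) :
    mellin (fun t => Real.log t • Real.log t • kd2_b 1 t) s = 2 / s ^ 3 := by
  have hs0 : s ≠ 0 := by
    rintro rfl
    simp at h0
  have h1 := (kd2_beta (w := 1) (by simp)).2.1 s h0
  have h2 : HasDerivAt (fun w : ℂ => -1 / w ^ 2) ((0 * s ^ 2 - -1 * (2 * s ^ (2 - 1) * 1)) /
      (s ^ 2) ^ 2) s := by
    refine (hasDerivAt_const s (-1 : ℂ)).div ?_ (pow_ne_zero 2 hs0)
    simpa using hasDerivAt_pow 2 s
  have h3 : mellin (fun t => Real.log t • kd2_b 1 t) =ᶠ[𝓝 s] fun w : ℂ => -1 / w ^ 2 := by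
    filter_upwards [(kd2_open 0).mem_nhds h0] with w hw
    exact kd2_l1 hw
  rw [h1.unique (h2.congr_of_eventuallyEq h3)]
  field_simp
  ring

/-! ### the kernel -/

theorem kd2_split {v : ℝ} (hv : 0 < v) :
    (kd2_h 1 v - Real.log v • kd2_b 1 v + kd2_h 1 v⁻¹ = ((Real.log |1 - 1 / v| : ℝ) : ℂ)) ∧
    (kd2_h 2 v - (2 : ℂ) • (Real.log v • kd2_h 1 v) + Real.log v • Real.log v • kd2_b 1 v +
      kd2_h 2 v⁻¹ = ((Real.log |1 - 1 / v| : ℝ) : ℂ) ^ 2) := by
  rcases lt_trichotomy v 1 with h | h | h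
  · have m1 : v ∈ Ioc (0 : ℝ) 1 := ⟨hv, h.le⟩
    have m2 : v⁻¹ ∉ Ioc (0 : ℝ) 1 := fun h2 => absurd h2.2 (not_le.2 ((one_lt_inv₀ hv).2 h))
    have e1 : Real.log |1 - 1 / v| = Real.log (1 - v) - Real.log v := by
      have h3 : (1 : ℝ) - 1 / v = -((1 - v) / v) := by
        field_simp
        ring
      rw [h3, abs_neg, Real.log_abs, Real.log_div (by linarith) hv.ne']
    unfold kd2_h kd2_b
    rw [indicator_of_mem m1, indicator_of_mem m1, indicator_of_mem m1, indicator_of_notMem m2,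
      indicator_of_notMem m2, e1]
    simp only [Complex.real_smul, sub_self, cpow_zero, smul_eq_mul]
    push_cast
    constructor <;> ring
  · subst h
    unfold kd2_h kd2_b
    have m1 : (1 : ℝ) ∈ Ioc (0 : ℝ) 1 := ⟨one_pos, le_rfl⟩
    rw [inv_one, indicator_of_mem m1, indicator_of_mem m1, indicator_of_mem m1]
    simp
  · have m1 : v ∉ Ioc (0 : ℝ) 1 := fun h2 => absurd h2.2 (not_le.2 h)
    have m2 : v⁻¹ ∈ Ioc (0 : ℝ) 1 := ⟨inv_pos.2 hv, (inv_le_one₀ hv).2 h.le⟩
    unfold kd2_h kd2_b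
    rw [indicator_of_notMem m1, indicator_of_notMem m1, indicator_of_notMem m1,
      indicator_of_mem m2, indicator_of_mem m2]
    simp only [smul_zero, sub_zero, zero_add, pow_one, one_div, Real.log_abs, and_self]

theorem kd2_mellin_congr {f g : ℝ → ℂ} {s : ℂ} (h : ∀ v : ℝ, 0 < v → f v = g v) :
    mellin f s = mellin g s := by
  unfold mellin
  exact setIntegral_congr_fun measurableSet_Ioi (fun v hv => by simp only [h v hv])

theorem kd2_alg (s P P' S C g D p : ℂ) (hs : s ≠ 0) (hS : S ≠ 0) (h : S ^ 2 + C ^ 2 = 1) :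
    ((-g - (P + s⁻¹)) ^ 2 + D - (P' - 1 / s ^ 2)) / s -
      2 * (-(P' - 1 / s ^ 2) / s - (-g - (P + s⁻¹)) / s ^ 2) + 2 / s ^ 3 +
      -(((-g - (P + p * (C / S))) ^ 2 + D - ((p / S) ^ 2 - P')) / s) =
    p * ((p - 2 * C / S * (g + P)) / s) := by
  field_simp
  linear_combination (-p ^ 2 * s ^ 2) * h

/-- the two integrals -/
theorem kd2_C {s : ℂ} (h0 : 0 < s.re) (h1 : s.re < 1) :
    mellin (fun v : ℝ => ((Real.log |1 - 1 / v| : ℝ) : ℂ)) s =
      Real.pi * (Complex.cos (Real.pi * s) / Complex.sin (Real.pi * s)) / s ∧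
    mellin (fun v : ℝ => ((Real.log |1 - 1 / v| : ℝ) : ℂ) ^ 2) s =
      Real.pi * ((Real.pi - 2 * Complex.cos (Real.pi * s) / Complex.sin (Real.pi * s) *
        (Real.eulerMascheroniConstant + digamma s)) / s) := by
  have hs0 : s ≠ 0 := by
    rintro rfl
    simp at h0
  have hs1 : (-1 : ℝ) < s.re := by linarith
  have hs2 : (-1 : ℝ) < (-s).re := by
    rw [neg_re]
    linarith
  have hsin := kd2_sin_ne h0 h1
  have b0 : kd2_N 0 (kd2_b 1) := kd2_b_N (by simp)
  have b1 := kd2_N_log b0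
  have b2 := kd2_N_log b1
  have a1 : kd2_N (-1) (kd2_h 1) := kd2_h_N le_rfl (by norm_num)
  have a2 : kd2_N (-1) (kd2_h 2) := kd2_h_N (by norm_num) le_rfl
  have c0 : ∀ f : ℝ → ℂ, MellinConvergent f (-s) → MellinConvergent (fun t : ℝ => f t⁻¹) s := by
    intro f hf
    have h2 := (MellinConvergent.comp_rpow (f := f) (s := s) (a := -1) (by norm_num)).2
      (by simpa [div_neg] using hf)
    simpa only [Real.rpow_neg_one] using h2
  have c1 : MellinConvergent (fun t : ℝ => kd2_h 1 t⁻¹) s := c0 _ (kd2_N_der a1 hs2).1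
  have c2 : MellinConvergent (fun t : ℝ => kd2_h 2 t⁻¹) s := c0 _ (kd2_N_der a2 hs2).1
  -- the values
  have v1 : mellin (kd2_h 1) s = (digamma 1 - (digamma s + s⁻¹)) / s := by
    rw [← kd2_dig_succ h0, ← kd2_h1_pos h0]
    field_simp
  have v2 : mellin (kd2_h 2) s = ((digamma 1 - (digamma s + s⁻¹)) ^ 2 + deriv digamma 1 -
      (deriv digamma s - 1 / s ^ 2)) / s := by
    rw [← kd2_dig_succ h0, ← kd2_dig_succ' h0, ← kd2_h2_pos h0]
    field_simp
  have v3 : mellin (fun t => Real.log t • kd2_h 1 t) s =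
      -(deriv digamma s - 1 / s ^ 2) / s - (digamma 1 - (digamma s + s⁻¹)) / s ^ 2 := by
    rw [kd2_h1_log h0, kd2_dig_succ h0, kd2_dig_succ' h0]
  have v4 : mellin (fun t : ℝ => kd2_h 1 t⁻¹) s = -((digamma 1 - digamma (1 - s)) / s) := by
    rw [mellin_comp_inv]
    have h2 := kd2_h1 hs2
    rw [← sub_eq_add_neg] at h2
    rw [← h2]
    field_simp
  have v5 : mellin (fun t : ℝ => kd2_h 2 t⁻¹) s = -(((digamma 1 - digamma (1 - s)) ^ 2 +
      deriv digamma 1 - deriv digamma (1 - s)) / s) := by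
    rw [mellin_comp_inv]
    have h2 := kd2_h2 hs2
    rw [← sub_eq_add_neg] at h2
    rw [← h2]
    field_simp
  have hsq := Complex.sin_sq_add_cos_sq (Real.pi * s)
  constructor
  · have e1 : mellin (fun v : ℝ => ((Real.log |1 - 1 / v| : ℝ) : ℂ)) s =
        mellin (fun v : ℝ => kd2_h 1 v - Real.log v • kd2_b 1 v + kd2_h 1 v⁻¹) s :=
      kd2_mellin_congr (fun v hv => ((kd2_split hv).1).symm)
    have s1 := hasMellin_sub (kd2_N_der a1 hs1).1 (kd2_N_der b1 h0).1
    have s2 := hasMellin_add s1.1 c1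
    rw [e1, s2.2, s1.2, v1, v4, kd2_l1 h0, kd2_refl h0 h1]
    field_simp
    ring
  · have e1 : mellin (fun v : ℝ => ((Real.log |1 - 1 / v| : ℝ) : ℂ) ^ 2) s =
        mellin (fun v : ℝ => kd2_h 2 v - (2 : ℂ) • (Real.log v • kd2_h 1 v) +
          Real.log v • Real.log v • kd2_b 1 v + kd2_h 2 v⁻¹) s :=
      kd2_mellin_congr (fun v hv => ((kd2_split hv).2).symm)
    have s0 := hasMellin_const_smul (kd2_N_der (kd2_N_log a1) hs1).1 (2 : ℂ)
    have s1 := hasMellin_sub (kd2_N_der a2 hs1).1 s0.1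
    have s2 := hasMellin_add s1.1 (kd2_N_der b2 h0).1
    have s3 := hasMellin_add s2.1 c2
    rw [e1, s3.2, s2.2, s1.2, s0.2, v2, v3, v5, kd2_l2 h0, kd2_refl h0 h1, kd2_refl' h0 h1,
      digamma_one, smul_eq_mul]
    exact kd2_alg _ _ _ _ _ _ _ _ hs0 hsin hsq

/-- block KD2: Mellin transforms of the Cauchy kernel -/
theorem goo_mellin_pos_pr {s : ℂ} (h0 : 0 < s.re) (h1 : s.re < 1) :
    M0 Goo 1 s = Complex.cos (Real.pi * s) / (s * Complex.sin (Real.pi * s)) ∧
    M1 Goo 1 s = (Real.pi - 2 * Complex.cos (Real.pi * s) / Complex.sin (Real.pi * s) *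
      (Real.eulerMascheroniConstant + digamma s)) / s := by
  have hpi : (Real.pi : ℂ) ≠ 0 := ofReal_ne_zero.2 Real.pi_ne_zero
  have hs0 : s ≠ 0 := by
    rintro rfl
    simp at h0
  have hsin := kd2_sin_ne h0 h1
  obtain ⟨c1, c2⟩ := kd2_C h0 h1
  constructor
  · have e1 : M0 Goo 1 s =
        (1 / (Real.pi : ℂ)) • mellin (fun v : ℝ => ((Real.log |1 - 1 / v| : ℝ) : ℂ)) s := by
      rw [← mellin_const_smul]
      unfold M0 mellin
      refine setIntegral_congr_fun measurableSet_Ioi (fun v hv => ?_)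
      simp only [Goo, Int.cast_one, one_mul, smul_eq_mul]
      push_cast
      ring
    rw [e1, c1, smul_eq_mul]
    field_simp
  · have e1 : M1 Goo 1 s =
        (1 / (Real.pi : ℂ)) • mellin (fun v : ℝ => ((Real.log |1 - 1 / v| : ℝ) : ℂ) ^ 2) s := by
      rw [← mellin_const_smul]
      unfold M1 mellin
      refine setIntegral_congr_fun measurableSet_Ioi (fun v hv => ?_)
      simp only [Goo, Int.cast_one, one_mul, smul_eq_mul]
      rw [abs_sub_comm (1 / v) 1]
      push_cast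
      ring
    rw [e1, c2, smul_eq_mul]
    field_simp

end Pool.Agent.LK
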