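import Pool.Agent.Lib_helper31.LK.DefsP
import Pool.Agent.Lib_helper41.LSPG.KFA
import Pool.Agent.Lib_helper41.LSPG.KFB

/-! # LK block KG1: size, support and smoothness of the kernel, uniformly in `T` -/

namespace Pool.Agent.LK

open Complex MeasureTheory Set
open Pool.Agent.LSP (tau GG tp KerL)

section kg1
open Filter Topology
open Pool.Agent.LSP (kfb_F kfb_S kfb_range kfb_int kfb_meas kfb_gg gg_supp)

/-- the pointwise bounds -/
theorem kg1_point {T : ℝ} {ρ : ℝ → ℝ} (hρ : KerL T ρ) {U L R C1 C3 C5 K : ℝ} (hU : 1 ≤ U)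
    (hL : 0 ≤ L) (hR : 0 ≤ R) (hLip : ∀ s t, |ρ s - ρ t| ≤ L * |s - t|) (hB : ∀ s, |ρ s| ≤ R)
    (hLip2 : ∀ s t, |s * ρ s - t * ρ t| ≤ (T * L + R) * |s - t|)
    (hC1 : C1 = T + (1 + U) * (1 + T ^ 2) + (1 + 2 * U) * T)
    (hC3 : C3 = C1 + (1 + T ^ 2) * C1 + 2 * T * U)
    (hC5 : C5 = ((1 + 2 * U) * L + T * (T * L + R)) * C3 + 2 * R * U)
    (hK : K = (1 + 2 * U + T ^ 2) * R * R * C1 + R * C1 * C5 + 1) :
    0 < K ∧ 0 < C1 ∧ ∀ u v : ℝ, u ≠ 0 → u ≠ 1 → v ≠ 0 → v ≠ 1 → |u| ≤ U → |v| ≤ U →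
      (∀ t y, 0 < y → |kfb_F ρ u t y| ≤ K * kfb_S u v) ∧
      (∀ t y, 0 < y → (T < |t| ∨ C1 * kfb_S u v < y) → kfb_F ρ u t y = 0) ∧
      (∀ t y, 0 < y → |kfb_F ρ u t y - kfb_F ρ v t y| ≤ K * |u - v| * kfb_S u v ^ 2) := by
  have hT := hρ.T1
  have hT0 : 0 ≤ T := by linarith
  have hU0 : 0 ≤ U := by linarith
  have hC10 : 0 < C1 := by rw [hC1]; positivity
  have hC30 : 0 ≤ C3 := by rw [hC3]; positivity
  have hC50 : 0 ≤ C5 := by rw [hC5]; positivity
  subst hK
  refine ⟨by positivity, hC10, ?_⟩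
  intro u v hu0 hu1 hv0 hv1 hu hv
  have p1 : 0 < 1 / |u| := by have := abs_pos.mpr hu0; positivity
  have p2 : 0 < 1 / |1 - u| := by
    have := abs_pos.mpr (sub_ne_zero.mpr (Ne.symm hu1)); positivity
  have p3 : 0 < 1 / |v| := by have := abs_pos.mpr hv0; positivity
  have p4 : 0 < 1 / |1 - v| := by
    have := abs_pos.mpr (sub_ne_zero.mpr (Ne.symm hv1)); positivity
  obtain ⟨S, hS⟩ : ∃ S, S = kfb_S u v := ⟨_, rfl⟩
  rw [← hS]
  have hS' : S = 1 / |u| + 1 / |1 - u| + 1 / |v| + 1 / |1 - v| := hS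
  have hSpos : 0 < S := by rw [hS']; positivity
  have hUS : 1 ≤ U * S := by
    have h1 : 1 ≤ U * (1 / |u|) := by
      rw [mul_one_div, le_div_iff₀ (abs_pos.mpr hu0)]; linarith
    have h2 : 1 / |u| ≤ S := by rw [hS']; linarith
    calc (1 : ℝ) ≤ U * (1 / |u|) := h1
      _ ≤ U * S := mul_le_mul_of_nonneg_left h2 hU0
  have hru : ∀ t y, 0 < y → |t| ≤ T → |tp u t y| ≤ T → y ≤ C1 * S ∧ 1 / y ≤ C1 * S := by
    intro t y hy ht h
    obtain ⟨h1, h2⟩ := kfb_range hT hU hu0 hu1 hu ht hy h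
    rw [← hC1] at h1 h2
    exact ⟨h1.trans (mul_le_mul_of_nonneg_left (by rw [hS']; linarith) hC10.le),
      h2.trans (mul_le_mul_of_nonneg_left (by rw [hS']; linarith) hC10.le)⟩
  have hrv : ∀ t y, 0 < y → |t| ≤ T → |tp v t y| ≤ T → y ≤ C1 * S ∧ 1 / y ≤ C1 * S := by
    intro t y hy ht h
    obtain ⟨h1, h2⟩ := kfb_range hT hU hv0 hv1 hv ht hy h
    rw [← hC1] at h1 h2
    exact ⟨h1.trans (mul_le_mul_of_nonneg_left (by rw [hS']; linarith) hC10.le),
      h2.trans (mul_le_mul_of_nonneg_left (by rw [hS']; linarith) hC10.le)⟩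
  have hz1 : ∀ w t y, T < |t| → kfb_F ρ w t y = 0 := by
    intro w t y ht
    unfold kfb_F
    rw [hρ.supp t ht]; simp
  have hz2 : ∀ w t y, T < |tp w t y| → kfb_F ρ w t y = 0 := by
    intro w t y ht
    unfold kfb_F
    rw [hρ.supp (tp w t y) ht]; simp
  refine ⟨?_, ?_, ?_⟩
  · intro t y hy
    by_cases ht : |t| ≤ T
    · by_cases ht' : |tp u t y| ≤ T
      · obtain ⟨h1, h2⟩ := hru t y hy ht ht'
        have h3 : |1 - 2 * u + t * tp u t y| ≤ 1 + 2 * U + T ^ 2 := by
          refine (abs_add_le _ _).trans ?_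
          have e1 : |1 - 2 * u| ≤ 1 + 2 * U := by
            rw [abs_le] at hu ⊢; constructor <;> linarith [hu.1, hu.2]
          have e2 : |t * tp u t y| ≤ T ^ 2 := by
            rw [abs_mul, sq]; exact mul_le_mul ht ht' (abs_nonneg _) hT0
          linarith
        have h4 : |kfb_F ρ u t y| = |1 - 2 * u + t * tp u t y| * |ρ t| * |ρ (tp u t y)| * (1 / y) := by
          unfold kfb_F
          rw [abs_div, abs_mul, abs_mul, abs_of_pos hy]; ring
        rw [h4]
        have hy1 : 0 ≤ 1 / y := by positivity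
        calc |1 - 2 * u + t * tp u t y| * |ρ t| * |ρ (tp u t y)| * (1 / y)
            ≤ (1 + 2 * U + T ^ 2) * R * R * (C1 * S) := by
              gcongr
              · exact hB t
              · exact hB _
          _ = (1 + 2 * U + T ^ 2) * R * R * C1 * S := by ring
          _ ≤ ((1 + 2 * U + T ^ 2) * R * R * C1 + R * C1 * C5 + 1) * S := by
              refine mul_le_mul_of_nonneg_right ?_ hSpos.le
              have : 0 ≤ R * C1 * C5 := by positivity
              linarith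
      · push Not at ht'
        rw [hz2 u t y ht', abs_zero]; positivity
    · push Not at ht
      rw [hz1 u t y ht, abs_zero]; positivity
  · intro t y hy h
    rcases h with h | h
    · exact hz1 u t y h
    · by_cases ht : |t| ≤ T
      · by_cases ht' : |tp u t y| ≤ T
        · exact absurd (hru t y hy ht ht').1 (not_le.mpr h)
        · exact hz2 u t y (not_le.mp ht')
      · exact hz1 u t y (not_le.mp ht)
  · intro t y hy
    by_cases ht : |t| ≤ T
    · by_cases ht' : |tp u t y| ≤ T ∨ |tp v t y| ≤ T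
      · obtain ⟨h1, h2⟩ : y ≤ C1 * S ∧ 1 / y ≤ C1 * S := by
          rcases ht' with h | h
          · exact hru t y hy ht h
          · exact hrv t y hy ht h
        have hd : |tp u t y - tp v t y| ≤ |u - v| * (C3 * S) := by
          have e1 : tp u t y - tp v t y = (u - v) * (-(1 / y) + (-((1 + t ^ 2) * y)) + (-(2 * t))) := by
            unfold tp; field_simp; ring
          rw [e1, abs_mul]
          refine mul_le_mul_of_nonneg_left ?_ (abs_nonneg _)
          refine (abs_add_le _ _).trans ?_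
          have e2 : |-(1 / y) + -((1 + t ^ 2) * y)| ≤ 1 / y + (1 + t ^ 2) * y := by
            refine (abs_add_le _ _).trans ?_
            rw [abs_neg, abs_neg, abs_of_pos (by positivity), abs_of_pos (by positivity)]
          have e3 : |-(2 * t)| ≤ 2 * T := by
            rw [abs_neg, abs_mul, abs_two]; linarith
          have ht2 : t ^ 2 ≤ T ^ 2 := by
            rw [← sq_abs t]; exact pow_le_pow_left₀ (abs_nonneg _) ht 2
          have e4 : (1 + t ^ 2) * y ≤ (1 + T ^ 2) * (C1 * S) := by gcongr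
          have e5 : 2 * T ≤ 2 * T * (U * S) := by
            have : 0 ≤ 2 * T := by linarith
            nlinarith
          rw [hC3]
          nlinarith
        have hN : |(1 - 2 * u + t * tp u t y) * ρ (tp u t y) -
            (1 - 2 * v + t * tp v t y) * ρ (tp v t y)| ≤ |u - v| * (C5 * S) := by
          have e1 : (1 - 2 * u + t * tp u t y) * ρ (tp u t y) -
            (1 - 2 * v + t * tp v t y) * ρ (tp v t y) =
            (1 - 2 * u) * (ρ (tp u t y) - ρ (tp v t y)) + (-(2 * (u - v) * ρ (tp v t y))) +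
              t * (tp u t y * ρ (tp u t y) - tp v t y * ρ (tp v t y)) := by ring
          have f1 : |(1 - 2 * u) * (ρ (tp u t y) - ρ (tp v t y))| ≤
              (1 + 2 * U) * (L * (|u - v| * (C3 * S))) := by
            rw [abs_mul]
            have e1 : |1 - 2 * u| ≤ 1 + 2 * U := by
              rw [abs_le] at hu ⊢; constructor <;> linarith [hu.1, hu.2]
            refine mul_le_mul e1 ?_ (abs_nonneg _) (by positivity)
            exact (hLip _ _).trans (mul_le_mul_of_nonneg_left hd hL)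
          have f2 : |-(2 * (u - v) * ρ (tp v t y))| ≤ 2 * |u - v| * R * (U * S) := by
            rw [abs_neg, abs_mul, abs_mul, abs_two]
            calc 2 * |u - v| * |ρ (tp v t y)| ≤ 2 * |u - v| * R := by
                  refine mul_le_mul_of_nonneg_left (hB _) (by positivity)
              _ ≤ 2 * |u - v| * R * (U * S) :=
                  le_mul_of_one_le_right (by positivity) hUS
          have f3 : |t * (tp u t y * ρ (tp u t y) - tp v t y * ρ (tp v t y))| ≤
              T * ((T * L + R) * (|u - v| * (C3 * S))) := by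
            rw [abs_mul]
            refine mul_le_mul ht ?_ (abs_nonneg _) hT0
            exact (hLip2 _ _).trans (mul_le_mul_of_nonneg_left hd (by positivity))
          rw [e1]
          refine (abs_add_le _ _).trans ?_
          refine (add_le_add ((abs_add_le _ _).trans (add_le_add f1 f2)) f3).trans (le_of_eq ?_)
          rw [hC5]; ring
        have e1 : kfb_F ρ u t y - kfb_F ρ v t y = ((1 - 2 * u + t * tp u t y) * ρ (tp u t y) -
            (1 - 2 * v + t * tp v t y) * ρ (tp v t y)) * ρ t * (1 / y) := by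
          unfold kfb_F; ring
        rw [e1, abs_mul, abs_mul, abs_of_pos (by positivity : 0 < 1 / y)]
        calc |(1 - 2 * u + t * tp u t y) * ρ (tp u t y) -
            (1 - 2 * v + t * tp v t y) * ρ (tp v t y)| * |ρ t| * (1 / y)
            ≤ (|u - v| * (C5 * S)) * R * (C1 * S) := by
              gcongr
              exact hB t
          _ = (R * C1 * C5) * |u - v| * S ^ 2 := by ring
          _ ≤ _ := by
              gcongr
              have : 0 ≤ (1 + 2 * U + T ^ 2) * R * R * C1 := by positivity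
              linarith
      · push Not at ht'
        rw [hz2 u t y ht'.1, hz2 v t y ht'.2, sub_zero, abs_zero]; positivity
    · push Not at ht
      rw [hz1 u t y ht, hz1 v t y ht, sub_zero, abs_zero]; positivity

theorem kg1_lip {T : ℝ} {ρ : ℝ → ℝ} (hρ : KerL T ρ) {U L R C C3 C5 K : ℝ} (hUd : U = 2 + T ^ 2)
    (hL : 0 ≤ L) (hR : 0 ≤ R) (hLip : ∀ s t, |ρ s - ρ t| ≤ L * |s - t|) (hB : ∀ s, |ρ s| ≤ R)
    (hLip2 : ∀ s t, |s * ρ s - t * ρ t| ≤ (T * L + R) * |s - t|)
    (hC1 : C = T + (1 + U) * (1 + T ^ 2) + (1 + 2 * U) * T)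
    (hC3 : C3 = C + (1 + T ^ 2) * C + 2 * T * U)
    (hC5 : C5 = ((1 + 2 * U) * L + T * (T * L + R)) * C3 + 2 * R * U)
    (hKd : K = (1 + 2 * U + T ^ 2) * R * R * C + R * C * C5 + 1) : ∀ u v : ℝ, u ≠ 0 → u ≠ 1 →
    v ≠ 0 → v ≠ 1 → |GG ρ u - GG ρ v| ≤
      (8 * T * K * C * (U + 1)) * |u - v| * (1 / |u| + 1 / |1 - u| + 1 / |v| + 1 / |1 - v|) ^ 3 := by
  have hT := hρ.T1
  have hT0 : 0 ≤ T := by linarith
  have hU : 1 ≤ U := by rw [hUd]; nlinarith
  obtain ⟨hK, hC, hp⟩ := kg1_point hρ hU hL hR hLip hB hLip2 hC1 hC3 hC5 hKd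
  clear hC1 hC3 hC5 hKd hLip hB hLip2
  have hmeas : ∀ u, Measurable (fun p : ℝ × ℝ => kfb_F ρ u p.1 p.2) := fun u =>
    (kfb_meas hρ.cont).comp ((measurable_const.prodMk measurable_fst).prodMk measurable_snd)
  have hSpos : ∀ u v : ℝ, u ≠ 0 → 0 < kfb_S u v := by
    intro u v hu
    have := abs_pos.mpr hu
    unfold kfb_S
    positivity
  have hsingle : ∀ v : ℝ, v ≠ 0 → v ≠ 1 → |v| ≤ U →
      |GG ρ v| ≤ 2 * T * ((K * kfb_S v v) * (C * kfb_S v v)) := by
    intro v h0 h1 hv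
    obtain ⟨a1, a2, _⟩ := hp v v h0 h1 h0 h1 hv hv
    have hS := hSpos v v h0
    exact (kfb_int (hmeas v) hT0 (by positivity) (by positivity) a1 a2).2.2
  have hfar : ∀ u v : ℝ, u ≠ 0 → u ≠ 1 → v ≠ 0 → v ≠ 1 → U < |u| → |v| ≤ U →
      |GG ρ v| ≤ (8 * T * K * C * (U + 1)) * |u - v| * kfb_S u v ^ 3 := by
    intro u v hu0 hu1 hv0 hv1 hu hv
    by_cases hv2 : 1 + T ^ 2 < |v|
    · rw [gg_supp hρ hv2, abs_zero]
      have := hSpos u v hu0
      positivity
    · push Not at hv2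
      have huv : 1 ≤ |u - v| := by
        have := abs_sub_abs_le_abs_sub u v
        rw [hUd] at hu
        linarith
      have h1 := hsingle v hv0 hv1 hv
      have hS := hSpos u v hu0
      have hSv := hSpos v v hv0
      have h2 : kfb_S v v ≤ 2 * kfb_S u v := by
        unfold kfb_S
        have : 0 ≤ 1 / |u| := by positivity
        have : 0 ≤ 1 / |1 - u| := by positivity
        linarith
      have hUS : 1 ≤ U * kfb_S u v := by
        have h1 : 1 ≤ U * (1 / |v|) := by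
          rw [mul_one_div, le_div_iff₀ (abs_pos.mpr hv0)]; linarith
        have h2 : 1 / |v| ≤ kfb_S u v := by
          unfold kfb_S
          have : 0 ≤ 1 / |u| := by positivity
          have : 0 ≤ 1 / |1 - u| := by positivity
          have : 0 ≤ 1 / |1 - v| := by positivity
          linarith
        calc (1 : ℝ) ≤ U * (1 / |v|) := h1
          _ ≤ U * kfb_S u v := mul_le_mul_of_nonneg_left h2 (by linarith)
      calc |GG ρ v| ≤ 2 * T * ((K * kfb_S v v) * (C * kfb_S v v)) := h1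
        _ ≤ 2 * T * ((K * (2 * kfb_S u v)) * (C * (2 * kfb_S u v))) := by gcongr
        _ = (8 * T * K * C) * kfb_S u v ^ 2 * 1 * 1 := by ring
        _ ≤ (8 * T * K * C) * kfb_S u v ^ 2 * (U * kfb_S u v) * |u - v| := by gcongr
        _ = (8 * T * K * C * U) * |u - v| * kfb_S u v ^ 3 := by ring
        _ ≤ _ := by
            gcongr
            linarith
  have hsymm : ∀ u v : ℝ, kfb_S u v = kfb_S v u := by
    intro u v; unfold kfb_S; ring
  intro u v hu0 hu1 hv0 hv1
  change |GG ρ u - GG ρ v| ≤ (8 * T * K * C * (U + 1)) * |u - v| * kfb_S u v ^ 3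
  by_cases hu : |u| ≤ U
  · by_cases hv : |v| ≤ U
    · obtain ⟨a1, a2, a3⟩ := hp u v hu0 hu1 hv0 hv1 hu hv
      obtain ⟨b1, b2, _⟩ := hp v u hv0 hv1 hu0 hu1 hv hu
      have hS := hSpos u v hu0
      rw [hsymm v u] at b1 b2
      obtain ⟨c1, c2, _⟩ := kfb_int (hmeas u) hT0 (by positivity) (by positivity) a1 a2
      obtain ⟨d1, d2, _⟩ := kfb_int (hmeas v) hT0 (by positivity) (by positivity) b1 b2
      have e1 := (kfb_int (f := fun t y => kfb_F ρ u t y - kfb_F ρ v t y)
        ((hmeas u).sub (hmeas v)) hT0 (Y := C * kfb_S u v)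
        (W := K * |u - v| * kfb_S u v ^ 2) (by positivity) (by positivity) a3
        (fun t y hy h => by rw [a2 t y hy h, b2 t y hy h, sub_zero])).2.2
      have e2 : GG ρ u - GG ρ v =
          ∫ t : ℝ, ∫ y in Set.Ioi (0 : ℝ), (kfb_F ρ u t y - kfb_F ρ v t y) := by
        rw [kfb_gg, kfb_gg, ← integral_sub c2 d2]
        refine integral_congr_ae (Eventually.of_forall fun t => ?_)
        exact (integral_sub (c1 t) (d1 t)).symm
      rw [e2]
      refine e1.trans ?_
      calc 2 * T * (K * |u - v| * kfb_S u v ^ 2 * (C * kfb_S u v))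
          = (2 * T * K * C * 1) * |u - v| * kfb_S u v ^ 3 := by ring
        _ ≤ (8 * T * K * C * (U + 1)) * |u - v| * kfb_S u v ^ 3 := by
            gcongr <;> linarith
    · push Not at hv
      have hv2 : 1 + T ^ 2 < |v| := by rw [hUd] at hv; linarith
      rw [gg_supp hρ hv2, sub_zero]
      have := hfar v u hv0 hv1 hu0 hu1 hv hu
      rwa [hsymm v u, abs_sub_comm v u] at this
  · push Not at hu
    have hu2 : 1 + T ^ 2 < |u| := by rw [hUd] at hu; linarith
    rw [gg_supp hρ hu2, zero_sub, abs_neg]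
    by_cases hv : |v| ≤ U
    · exact hfar u v hu0 hu1 hv0 hv1 hu hv
    · push Not at hv
      have hv2 : 1 + T ^ 2 < |v| := by rw [hUd] at hv; linarith
      rw [gg_supp hρ hv2, abs_zero]
      have := hSpos u v hu0
      positivity


/-- the weight is at most `1` -/
theorem kg1_le {T : ℝ} {ρ : ℝ → ℝ} (hρ : KerC T ρ) (t : ℝ) : ρ t ≤ 1 := by
  refine (hρ.le t).trans ?_
  have hp : 2 < Real.pi := by linarith [Real.pi_gt_three]
  unfold rinf
  rw [mul_one_div, div_le_one (by positivity)]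
  nlinarith [sq_nonneg t, mul_nonneg (sub_nonneg.2 hp.le) (sq_nonneg t)]

theorem kg1_lip2 {T : ℝ} {ρ : ℝ → ℝ} (hρ : KerC T ρ) (s t : ℝ) :
    |s * ρ s - t * ρ t| ≤ (T * 8 + 1) * |s - t| := by
  have hT := hρ.T1
  have hR : ∀ s, |ρ s| ≤ 1 := fun s => by
    rw [abs_of_nonneg (hρ.nonneg s)]
    exact kg1_le hρ s
  have key : ∀ s t, |s| ≤ T → |s * ρ s - t * ρ t| ≤ (T * 8 + 1) * |s - t| := by
    intro s t hs
    have e1 : s * ρ s - t * ρ t = s * (ρ s - ρ t) + (s - t) * ρ t := by ring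
    rw [e1]
    refine (abs_add_le _ _).trans ?_
    rw [abs_mul, abs_mul]
    have h1 : |s| * |ρ s - ρ t| ≤ T * (8 * |s - t|) :=
      mul_le_mul hs (hρ.lipc s t) (abs_nonneg _) (by linarith)
    have h2 : |s - t| * |ρ t| ≤ |s - t| * 1 :=
      mul_le_mul_of_nonneg_left (hR t) (abs_nonneg _)
    nlinarith
  by_cases hs : |s| ≤ T
  · exact key s t hs
  · by_cases ht : |t| ≤ T
    · have := key t s ht
      rw [abs_sub_comm, abs_sub_comm s t]
      exact this
    · push Not at hs ht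
      rw [hρ.supp s hs, hρ.supp t ht]
      simp only [mul_zero, sub_zero, abs_zero]
      positivity

/-- the numerical constants -/
theorem kg1_num {T U C C3 C5 K : ℝ} (hT : 1 ≤ T) (hUd : U = 2 + T ^ 2)
    (hC1 : C = T + (1 + U) * (1 + T ^ 2) + (1 + 2 * U) * T)
    (hC3 : C3 = C + (1 + T ^ 2) * C + 2 * T * U)
    (hC5 : C5 = ((1 + 2 * U) * 8 + T * (T * 8 + 1)) * C3 + 2 * 1 * U)
    (hKd : K = (1 + 2 * U + T ^ 2) * 1 * 1 * C + 1 * C * C5 + 1) :
    8 * T * K * C * (U + 1) ≤ 10 ^ 8 * T ^ 30 := by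
  have hT0 : 0 ≤ T := by linarith
  have pw : ∀ {a b : ℕ}, a ≤ b → T ^ a ≤ T ^ b := fun h => pow_le_pow_right₀ hT h
  have p1 : 1 ≤ T ^ 2 := one_le_pow₀ hT
  have hU3 : U ≤ 3 * T ^ 2 := by linarith
  have hU0 : 0 ≤ U := by rw [hUd]; positivity
  have hC0 : 0 ≤ C := by rw [hC1]; positivity
  have hC30 : 0 ≤ C3 := by rw [hC3]; positivity
  have hC50 : 0 ≤ C5 := by rw [hC5]; positivity
  have hK0 : 0 ≤ K := by rw [hKd]; positivity
  have bC : C ≤ 16 * T ^ 4 := by
    calc C ≤ T + (4 * T ^ 2) * (2 * T ^ 2) + (7 * T ^ 2) * T := by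
          rw [hC1]
          have a1 : (1 + U) * (1 + T ^ 2) ≤ (4 * T ^ 2) * (2 * T ^ 2) :=
            mul_le_mul (by linarith) (by linarith) (by positivity) (by positivity)
          have a2 : (1 + 2 * U) * T ≤ (7 * T ^ 2) * T :=
            mul_le_mul_of_nonneg_right (by linarith) hT0
          linarith
      _ = T ^ 1 + 8 * T ^ 4 + 7 * T ^ 3 := by ring
      _ ≤ 16 * T ^ 4 := by
          have a1 : T ^ 1 ≤ T ^ 4 := pw (by norm_num)
          have a2 : T ^ 3 ≤ T ^ 4 := pw (by norm_num)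
          linarith
  have bC3 : C3 ≤ 54 * T ^ 6 := by
    calc C3 ≤ 16 * T ^ 4 + (2 * T ^ 2) * (16 * T ^ 4) + 2 * T * (3 * T ^ 2) := by
          rw [hC3]
          have a1 : (1 + T ^ 2) * C ≤ (2 * T ^ 2) * (16 * T ^ 4) :=
            mul_le_mul (by linarith) bC hC0 (by positivity)
          have a2 : 2 * T * U ≤ 2 * T * (3 * T ^ 2) :=
            mul_le_mul_of_nonneg_left hU3 (by positivity)
          linarith
      _ = 16 * T ^ 4 + 32 * T ^ 6 + 6 * T ^ 3 := by ring
      _ ≤ 54 * T ^ 6 := by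
          have a1 : T ^ 4 ≤ T ^ 6 := pw (by norm_num)
          have a2 : T ^ 3 ≤ T ^ 6 := pw (by norm_num)
          linarith
  have bC5 : C5 ≤ 3516 * T ^ 8 := by
    calc C5 ≤ (65 * T ^ 2) * (54 * T ^ 6) + 6 * T ^ 2 := by
          rw [hC5]
          have a0 : (1 + 2 * U) * 8 + T * (T * 8 + 1) ≤ 65 * T ^ 2 := by
            have b1 : T * (T * 8 + 1) = 8 * T ^ 2 + T ^ 1 := by ring
            have b2 : T ^ 1 ≤ T ^ 2 := pw (by norm_num)
            rw [b1]
            linarith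
          have a1 : ((1 + 2 * U) * 8 + T * (T * 8 + 1)) * C3 ≤ (65 * T ^ 2) * (54 * T ^ 6) :=
            mul_le_mul a0 bC3 hC30 (by positivity)
          linarith
      _ = 3510 * T ^ 8 + 6 * T ^ 2 := by ring
      _ ≤ 3516 * T ^ 8 := by
          have a1 : T ^ 2 ≤ T ^ 8 := pw (by norm_num)
          linarith
  have bK : K ≤ 57000 * T ^ 12 := by
    calc K ≤ (8 * T ^ 2) * (16 * T ^ 4) + (16 * T ^ 4) * (3516 * T ^ 8) + 1 := by
          rw [hKd]
          have a1 : (1 + 2 * U + T ^ 2) * 1 * 1 * C ≤ (8 * T ^ 2) * (16 * T ^ 4) := by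
            rw [mul_one, mul_one]
            exact mul_le_mul (by linarith) bC hC0 (by positivity)
          have a2 : 1 * C * C5 ≤ (16 * T ^ 4) * (3516 * T ^ 8) := by
            rw [one_mul]
            exact mul_le_mul bC bC5 hC50 (by positivity)
          linarith
      _ = 128 * T ^ 6 + 56256 * T ^ 12 + 1 := by ring
      _ ≤ 57000 * T ^ 12 := by
          have a1 : T ^ 6 ≤ T ^ 12 := pw (by norm_num)
          have a2 : 1 ≤ T ^ 12 := one_le_pow₀ hT
          linarith
  calc 8 * T * K * C * (U + 1) ≤ 8 * T * (57000 * T ^ 12) * (16 * T ^ 4) * (4 * T ^ 2) := by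
        have a1 : 8 * T * K ≤ 8 * T * (57000 * T ^ 12) :=
          mul_le_mul_of_nonneg_left bK (by positivity)
        have a2 : 8 * T * K * C ≤ 8 * T * (57000 * T ^ 12) * (16 * T ^ 4) :=
          mul_le_mul a1 bC hC0 (by positivity)
        exact mul_le_mul a2 (by linarith) (by linarith) (by positivity)
    _ = 29184000 * T ^ 19 := by ring
    _ ≤ 10 ^ 8 * T ^ 30 := by
        have a1 : T ^ 19 ≤ T ^ 30 := pw (by norm_num)
        have a2 : 0 ≤ T ^ 30 := by positivity
        linarith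

theorem kg1_bound {T : ℝ} {ρ : ℝ → ℝ} (hρ : KerC T ρ) {u : ℝ} (hu : u ≠ 0) (hu1 : u ≠ 1) :
    |GG ρ u| ≤ (10 ^ 8 * T ^ 30) * (1 + |Real.log u| + |Real.log (1 - u)|) := by
  have hR := kg1_le hρ
  have hT1 := hρ.T1
  have hT0 : (0 : ℝ) ≤ T := le_trans zero_le_one hT1
  have hC1 : 1 ≤ Pool.Agent.LSP.kfC T := by
    unfold Pool.Agent.LSP.kfC
    nlinarith [mul_nonneg hT0 hT0, mul_nonneg (mul_nonneg hT0 hT0) hT0,
      mul_nonneg (mul_nonneg (mul_nonneg hT0 hT0) hT0) hT0]
  have hlog := Real.log_nonneg hC1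
  have h2 : Integrable ((Set.Icc (-T) T).indicator (fun _ : ℝ =>
      (1 + T ^ 2) * (1:ℝ) ^ 2 * (2 * Real.log (Pool.Agent.LSP.kfC T) + |Real.log u| +
        |Real.log (1 - u)|))) := by
    rw [integrable_indicator_iff measurableSet_Icc]
    exact integrableOn_const (by rw [Real.volume_Icc]; exact ENNReal.ofReal_ne_top)
  have h1 := norm_integral_le_of_norm_le
    (f := fun t => ∫ y in Set.Ioi (0 : ℝ), Pool.Agent.LSP.kfF ρ u t y) h2
    (Filter.Eventually.of_forall fun t => by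
      rw [Real.norm_eq_abs]
      exact (Pool.Agent.LSP.kfa_inner hρ.toKer hR hu hu1 t).2)
  rw [integral_indicator measurableSet_Icc, setIntegral_const, Real.norm_eq_abs, smul_eq_mul,
    measureReal_def, Real.volume_Icc, ENNReal.toReal_ofReal (by linarith)] at h1
  rw [Pool.Agent.LSP.kfa_eq]
  refine h1.trans ?_
  set X := |Real.log u| + |Real.log (1 - u)| with hX
  have hX0 : 0 ≤ X := by positivity
  have hlog2 : Real.log (Pool.Agent.LSP.kfC T) ≤ 320 * T ^ 4 := by
    refine (Real.log_le_self (by linarith)).trans ?_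
    unfold Pool.Agent.LSP.kfC
    calc 20 * (1 + T) ^ 4 ≤ 20 * (2 * T) ^ 4 := by
          refine mul_le_mul_of_nonneg_left (pow_le_pow_left₀ (by linarith) (by linarith) 4)
            (by norm_num)
      _ = 320 * T ^ 4 := by ring
  have pw : ∀ {a b : ℕ}, a ≤ b → T ^ a ≤ T ^ b := fun h => pow_le_pow_right₀ hT1 h
  have p1 : 1 ≤ T ^ 2 := one_le_pow₀ hT1
  have p4 : 1 ≤ T ^ 4 := one_le_pow₀ hT1
  have e3 : 2 * Real.log (Pool.Agent.LSP.kfC T) + |Real.log u| + |Real.log (1 - u)| ≤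
      (641 * T ^ 4) * (1 + X) := by
    have a1 : X ≤ (641 * T ^ 4) * X := le_mul_of_one_le_left hX0 (by linarith)
    have a2 : (641 * T ^ 4) * (1 + X) = 641 * T ^ 4 + (641 * T ^ 4) * X := by ring
    rw [a2]
    have a3 : 2 * Real.log (Pool.Agent.LSP.kfC T) + |Real.log u| + |Real.log (1 - u)| =
      2 * Real.log (Pool.Agent.LSP.kfC T) + X := by rw [hX]; ring
    rw [a3]
    linarith
  calc (T - -T) * ((1 + T ^ 2) * 1 ^ 2 *
      (2 * Real.log (Pool.Agent.LSP.kfC T) + |Real.log u| + |Real.log (1 - u)|))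
      ≤ (T - -T) * ((2 * T ^ 2) * ((641 * T ^ 4) * (1 + X))) := by
        refine mul_le_mul_of_nonneg_left ?_ (by linarith)
        refine mul_le_mul (by linarith) e3 (by positivity) (by positivity)
    _ = 2564 * T ^ 7 * (1 + X) := by ring
    _ ≤ (10 ^ 8 * T ^ 30) * (1 + X) := by
        refine mul_le_mul_of_nonneg_right ?_ (by linarith)
        have a1 : T ^ 7 ≤ T ^ 30 := pw (by norm_num)
        have a2 : 0 ≤ T ^ 30 := by positivity
        linarith
    _ = _ := by rw [hX]; ring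

end kg1

theorem gok_unif_pr : ∃ C : ℝ, ∀ T : ℝ, 4 ≤ T → ∀ ρ : ℝ → ℝ, KerC T ρ → Measurable (GG ρ) ∧
    Pool.Agent.LSPO.GOK (GG ρ) (1 + T ^ 2) (C * T ^ 30) := by
  refine ⟨10 ^ 8, fun T hT ρ hρ => ⟨Pool.Agent.LSP.gg_meas hρ.toKerL, ?_, ?_, ?_, ?_, ?_⟩⟩
  · nlinarith [sq_nonneg T]
  · have : 1 ≤ T ^ 30 := one_le_pow₀ (by linarith)
    linarith
  · intro u hu
    exact Pool.Agent.LSP.gg_supp hρ.toKerL hu
  · intro u hu hu1
    rw [Real.log_abs, Real.log_abs]
    exact kg1_bound hρ hu hu1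
  · intro u v hu hu1 hv hv1
    have hR : ∀ s, |ρ s| ≤ 1 := fun s => by
      rw [abs_of_nonneg (hρ.nonneg s)]
      exact kg1_le hρ s
    have h1 := kg1_lip hρ.toKerL (L := 8) (R := 1) rfl (by norm_num) zero_le_one hρ.lipc hR
      (kg1_lip2 hρ) rfl rfl rfl rfl u v hu hu1 hv hv1
    rw [one_div, one_div, one_div, one_div] at h1
    refine h1.trans ?_
    refine mul_le_mul_of_nonneg_right ?_ (by positivity)
    refine mul_le_mul_of_nonneg_right ?_ (abs_nonneg _)
    exact kg1_num (by linarith) rfl rfl rfl rfl rfl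

end Pool.Agent.LK
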