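import Pool.Agent.Lib_helper31.LK.DefsP

/-! LSP3, part K, block KD3: convergence -/

namespace Pool.Agent.LK

open Complex MeasureTheory Set
open Pool.Agent.LSP (tau GG tp KerL)

theorem kd3_log {x : ℝ} (hx : 0 < x) :
    |Real.log x| ≤ 8 * (x ^ (1 / 8 : ℝ) + x ^ (-(1 / 8) : ℝ)) := by
  have h1 : Real.log x ≤ x ^ (1 / 8 : ℝ) / (1 / 8) := Real.log_le_rpow_div hx.le (by norm_num)
  have h2 : Real.log x⁻¹ ≤ x⁻¹ ^ (1 / 8 : ℝ) / (1 / 8) :=
    Real.log_le_rpow_div (inv_nonneg.2 hx.le) (by norm_num)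
  rw [Real.log_inv, Real.inv_rpow hx.le, ← Real.rpow_neg hx.le] at h2
  have p1 : 0 < x ^ (1 / 8 : ℝ) := Real.rpow_pos_of_pos hx _
  have p2 : 0 < x ^ (-(1 / 8) : ℝ) := Real.rpow_pos_of_pos hx _
  rw [abs_le]
  constructor <;> linarith

theorem kd3_log_sq {x : ℝ} (hx : 0 < x) :
    |Real.log x| * (1 + |Real.log x|) ≤
      1 + 256 * (x ^ (1 / 4 : ℝ) + x ^ (-(1 / 4) : ℝ)) := by
  have h := kd3_log hx
  have h0 := abs_nonneg (Real.log x)
  have p1 : 0 < x ^ (1 / 8 : ℝ) := Real.rpow_pos_of_pos hx _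
  have p2 : 0 < x ^ (-(1 / 8) : ℝ) := Real.rpow_pos_of_pos hx _
  have e1 : x ^ (1 / 4 : ℝ) = (x ^ (1 / 8 : ℝ)) ^ 2 := by
    rw [← Real.rpow_natCast, ← Real.rpow_mul hx.le]; norm_num
  have e2 : x ^ (-(1 / 4) : ℝ) = (x ^ (-(1 / 8) : ℝ)) ^ 2 := by
    rw [← Real.rpow_natCast, ← Real.rpow_mul hx.le]; norm_num
  rw [e1, e2]
  set a := |Real.log x|
  set p := x ^ (1 / 8 : ℝ)
  set q := x ^ (-(1 / 8) : ℝ)
  have hsq : a ^ 2 ≤ (8 * (p + q)) ^ 2 := by
    apply pow_le_pow_left₀ h0 h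
  nlinarith [sq_nonneg (p - q), sq_nonneg (a - 1)]

theorem kd3_int_sub : IntegrableOn (fun v : ℝ => |v - 1| ^ (-(1 / 2) : ℝ)) (Ioc 0 2) := by
  have h0 : IntervalIntegrable (fun x : ℝ => x ^ (-(1 / 2) : ℝ)) volume 0 1 :=
    intervalIntegral.intervalIntegrable_rpow' (by norm_num)
  have h1 : IntervalIntegrable (fun x : ℝ => (1 - x) ^ (-(1 / 2) : ℝ)) volume (1 - 0) (1 - 1) :=
    h0.comp_sub_left 1
  have h2 : IntervalIntegrable (fun x : ℝ => (x - 1) ^ (-(1 / 2) : ℝ)) volume (0 + 1) (1 + 1) :=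
    h0.comp_sub_right 1
  norm_num at h1 h2
  have h1' : IntervalIntegrable (fun x : ℝ => (1 - x) ^ (-(1 / 2) : ℝ)) volume 0 1 := by
    have := h1.symm
    norm_num at this ⊢
    exact this
  have a1 : IntegrableOn (fun v : ℝ => |v - 1| ^ (-(1 / 2) : ℝ)) (Ioc 0 1) := by
    rw [intervalIntegrable_iff_integrableOn_Ioc_of_le (by norm_num)] at h1'
    refine h1'.congr_fun (fun x hx => ?_) measurableSet_Ioc
    simp only
    rw [abs_sub_comm, abs_of_nonneg (by linarith [hx.2])]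
  have a2 : IntegrableOn (fun v : ℝ => |v - 1| ^ (-(1 / 2) : ℝ)) (Ioc 1 2) := by
    rw [intervalIntegrable_iff_integrableOn_Ioc_of_le (by norm_num)] at h2
    refine h2.congr_fun (fun x hx => ?_) measurableSet_Ioc
    simp only
    rw [abs_of_nonneg (by linarith [hx.1])]
  have := a1.union a2
  rwa [Ioc_union_Ioc_eq_Ioc (by norm_num) (by norm_num)] at this

theorem kd3_int_rpow {r : ℝ} (hr : -1 < r) : IntegrableOn (fun v : ℝ => v ^ r) (Ioc 0 2) := by
  have h0 : IntervalIntegrable (fun x : ℝ => x ^ r) volume 0 2 :=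
    intervalIntegral.intervalIntegrable_rpow' hr
  rwa [intervalIntegrable_iff_integrableOn_Ioc_of_le (by norm_num)] at h0

theorem kd3_int_shift {ς : ℤ} (hς : ς = 1 ∨ ς = -1) :
    IntegrableOn (fun v : ℝ => |v - ς| ^ (-(1 / 2) : ℝ)) (Ioc 0 2) := by
  rcases hς with rfl | rfl
  · simpa using kd3_int_sub
  · have hc : IntegrableOn (fun _ : ℝ => (1 : ℝ)) (Ioc 0 2) := by
      simp
    refine Integrable.mono' hc ?_ ?_
    · exact (by fun_prop : Measurable fun v : ℝ => |v - ((-1 : ℤ) : ℝ)| ^ (-(1 / 2) : ℝ)).aestronglyMeasurable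
    · refine (ae_restrict_iff' measurableSet_Ioc).2 (Filter.Eventually.of_forall fun v hv => ?_)
      have h1 : (1 : ℝ) ≤ |v - ((-1 : ℤ) : ℝ)| := by
        push_cast
        rw [abs_of_pos (by linarith [hv.1])]
        linarith [hv.1]
      rw [Real.norm_of_nonneg (by positivity)]
      exact Real.rpow_le_one_of_one_le_of_nonpos h1 (by norm_num)

theorem kd3_eq {ς : ℤ} (hς : ς = 1 ∨ ς = -1) {v : ℝ} (hv : 0 < v) :
    |1 - 1 / (ς * v)| = |v - ς| / v ∧ |1 / v - ς| = |v - ς| / v := by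
  have hv0 : v ≠ 0 := hv.ne'
  rcases hς with rfl | rfl
  · constructor
    · push_cast
      rw [← abs_of_pos hv, ← abs_div, abs_of_pos hv]
      congr 1
      field_simp
    · push_cast
      rw [← abs_neg (v - 1), ← abs_of_pos hv, ← abs_div, abs_of_pos hv]
      congr 1
      field_simp
      ring
  · constructor
    · push_cast
      rw [← abs_of_pos hv, ← abs_div, abs_of_pos hv]
      congr 1
      field_simp
    · push_cast
      rw [← abs_of_pos hv, ← abs_div, abs_of_pos hv]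
      congr 1
      field_simp
      ring

theorem kd3_meas (ς : ℤ) : Measurable (fun v : ℝ => v ^ (-(1 / 2) : ℝ) * |Goo (ς * v)| *
      (1 + |Real.log (|1 / v - ς|)|)) := by
  unfold Goo
  fun_prop

theorem goo_int_pr {ς : ℤ} (hς : ς = 1 ∨ ς = -1) :
    IntegrableOn (fun v : ℝ => v ^ (-(1 / 2) : ℝ) * |Goo (ς * v)| *
      (1 + |Real.log (|1 / v - ς|)|)) (Ioi 0) := by
  have hpi : 0 < 1 / Real.pi := by positivity
  have hpi1 : 1 / Real.pi ≤ 1 := by
    rw [div_le_one Real.pi_pos]; linarith [Real.pi_gt_three]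
  have hς1 : |(ς : ℝ)| = 1 := by rcases hς with rfl | rfl <;> simp
  have hval : ∀ v : ℝ, 0 < v → v ^ (-(1 / 2) : ℝ) * |Goo (ς * v)| *
      (1 + |Real.log (|1 / v - ς|)|) = v ^ (-(1 / 2) : ℝ) * (1 / Real.pi) *
        (|Real.log (|v - ς| / v)| * (1 + |Real.log (|v - ς| / v)|)) := by
    intro v hv
    obtain ⟨e1, e2⟩ := kd3_eq hς hv
    unfold Goo
    rw [e1, e2, abs_mul, abs_of_pos hpi]
    ring
  have hnn : ∀ v : ℝ, 0 < v → 0 ≤ v ^ (-(1 / 2) : ℝ) * |Goo (ς * v)| *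
      (1 + |Real.log (|1 / v - ς|)|) := by
    intro v hv
    positivity
  rw [← Ioc_union_Ioi_eq_Ioi (show (0:ℝ) ≤ 2 by norm_num)]
  refine IntegrableOn.union ?_ ?_
  · -- on (0,2]
    have hb : IntegrableOn (fun v : ℝ => v ^ (-(1 / 2) : ℝ) + 256 * (2 * v ^ (-(3 / 4) : ℝ) +
        (v ^ (-(1 / 2) : ℝ) + |v - ς| ^ (-(1 / 2) : ℝ)))) (Ioc 0 2) := by
      have i1 := kd3_int_rpow (r := -(1 / 2)) (by norm_num)
      have i2 := kd3_int_rpow (r := -(3 / 4)) (by norm_num)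
      have i3 := kd3_int_shift hς
      exact i1.add (((i2.const_mul 2).add (i1.add i3)).const_mul 256)
    refine Integrable.mono' hb (kd3_meas ς).aestronglyMeasurable ?_
    refine (ae_restrict_iff' measurableSet_Ioc).2 (Filter.Eventually.of_forall fun v hv => ?_)
    have hv0 := hv.1
    rw [Real.norm_of_nonneg (hnn v hv0), hval v hv0]
    have p0 : 0 < v ^ (-(1 / 2) : ℝ) := Real.rpow_pos_of_pos hv0 _
    have p1 : 0 < v ^ (-(3 / 4) : ℝ) := Real.rpow_pos_of_pos hv0 _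
    have p3 : 0 ≤ |v - ς| ^ (-(1 / 2) : ℝ) := Real.rpow_nonneg (abs_nonneg _) _
    rcases eq_or_ne (v - ς) 0 with hz | hz
    · rw [hz, abs_zero, zero_div, Real.log_zero, abs_zero, zero_mul, mul_zero]
      rw [hz, abs_zero] at p3
      positivity
    · have hA : 0 < |v - ς| := abs_pos.2 hz
      have hx : 0 < |v - ς| / v := by positivity
      have h1 := kd3_log_sq hx
      have hA3 : |v - ς| ≤ 16 := by
        have := abs_sub v (ς : ℝ)
        rw [hς1, abs_of_pos hv0] at this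
        linarith [hv.2]
      have q1 : v ^ (-(1 / 2) : ℝ) * (|v - ς| / v) ^ (1 / 4 : ℝ) ≤ 2 * v ^ (-(3 / 4) : ℝ) := by
        have e : (|v - ς| / v) ^ (1 / 4 : ℝ) ≤ 2 * v ^ (-(1 / 4) : ℝ) := by
          rw [Real.div_rpow hA.le hv0.le, Real.rpow_neg hv0.le, ← div_eq_mul_inv]
          have : |v - ς| ^ (1 / 4 : ℝ) ≤ 2 := by
            calc |v - ς| ^ (1 / 4 : ℝ) ≤ (16:ℝ) ^ (1 / 4 : ℝ) :=
                  Real.rpow_le_rpow hA.le hA3 (by norm_num)
              _ = 2 := by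
                  rw [show (16:ℝ) = 2 ^ (4:ℝ) by norm_num, ← Real.rpow_mul (by norm_num)]
                  norm_num
          gcongr
        have e3 : v ^ (-(3 / 4) : ℝ) = v ^ (-(1 / 2) : ℝ) * v ^ (-(1 / 4) : ℝ) := by
          rw [← Real.rpow_add hv0]; norm_num
        rw [e3]
        calc v ^ (-(1 / 2) : ℝ) * (|v - ς| / v) ^ (1 / 4 : ℝ)
            ≤ v ^ (-(1 / 2) : ℝ) * (2 * v ^ (-(1 / 4) : ℝ)) := by gcongr
          _ = 2 * (v ^ (-(1 / 2) : ℝ) * v ^ (-(1 / 4) : ℝ)) := by ring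
      have q2 : v ^ (-(1 / 2) : ℝ) * (|v - ς| / v) ^ (-(1 / 4) : ℝ) ≤
          v ^ (-(1 / 2) : ℝ) + |v - ς| ^ (-(1 / 2) : ℝ) := by
        have e : v ^ (-(1 / 2) : ℝ) * (|v - ς| / v) ^ (-(1 / 4) : ℝ) =
            v ^ (-(1 / 4) : ℝ) * |v - ς| ^ (-(1 / 4) : ℝ) := by
          have h4 : (v ^ (-(1 / 4) : ℝ))⁻¹ = v ^ (1 / 4 : ℝ) := by
            rw [← Real.rpow_neg hv0.le, neg_neg]
          have h5 : v ^ (-(1 / 4) : ℝ) = v ^ (-(1 / 2) : ℝ) * v ^ (1 / 4 : ℝ) := by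
            rw [← Real.rpow_add hv0]; norm_num
          rw [Real.div_rpow hA.le hv0.le, div_eq_mul_inv (|v - ς| ^ (-(1 / 4) : ℝ)), h4]
          rw [h5]; ring
        have e4 : v ^ (-(1 / 2) : ℝ) = (v ^ (-(1 / 4) : ℝ)) ^ 2 := by
          rw [← Real.rpow_natCast, ← Real.rpow_mul hv0.le]; norm_num
        have e5 : |v - ς| ^ (-(1 / 2) : ℝ) = (|v - ς| ^ (-(1 / 4) : ℝ)) ^ 2 := by
          rw [← Real.rpow_natCast, ← Real.rpow_mul hA.le]; norm_num
        rw [e, e4, e5]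
        nlinarith [sq_nonneg (v ^ (-(1 / 4) : ℝ) - |v - ς| ^ (-(1 / 4) : ℝ)),
          sq_nonneg (v ^ (-(1 / 4) : ℝ)), sq_nonneg (|v - ς| ^ (-(1 / 4) : ℝ))]
      have h0 : 0 ≤ |Real.log (|v - ς| / v)| * (1 + |Real.log (|v - ς| / v)|) := by positivity
      calc v ^ (-(1 / 2) : ℝ) * (1 / Real.pi) *
            (|Real.log (|v - ς| / v)| * (1 + |Real.log (|v - ς| / v)|))
          ≤ v ^ (-(1 / 2) : ℝ) * 1 *
            (|Real.log (|v - ς| / v)| * (1 + |Real.log (|v - ς| / v)|)) := by gcongr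
        _ ≤ v ^ (-(1 / 2) : ℝ) * 1 *
            (1 + 256 * ((|v - ς| / v) ^ (1 / 4 : ℝ) + (|v - ς| / v) ^ (-(1 / 4) : ℝ))) := by
            gcongr
        _ = v ^ (-(1 / 2) : ℝ) + 256 * (v ^ (-(1 / 2) : ℝ) * (|v - ς| / v) ^ (1 / 4 : ℝ) +
              v ^ (-(1 / 2) : ℝ) * (|v - ς| / v) ^ (-(1 / 4) : ℝ)) := by ring
        _ ≤ _ := by gcongr
  · -- on (2,∞)
    have hb : IntegrableOn (fun v : ℝ => 4 * v ^ (-(3 / 2) : ℝ)) (Ioi 2) :=
      (integrableOn_Ioi_rpow_of_lt (by norm_num) (by norm_num)).const_mul 4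
    refine Integrable.mono' hb (kd3_meas ς).aestronglyMeasurable ?_
    refine (ae_restrict_iff' measurableSet_Ioi).2 (Filter.Eventually.of_forall fun v hv => ?_)
    have hv2 : 2 < v := hv
    have hv0 : 0 < v := by linarith
    rw [Real.norm_of_nonneg (hnn v hv0), hval v hv0]
    have p0 : 0 < v ^ (-(1 / 2) : ℝ) := Real.rpow_pos_of_pos hv0 _
    have hςv : |(ς : ℝ)| ≤ 1 := hς1.le
    obtain ⟨s1, s2⟩ := abs_le.1 hςv
    have hAp : 0 < v - ς := by linarith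
    have hx : 0 < |v - ς| / v := by
      rw [abs_of_pos hAp]; positivity
    have hL : |Real.log (|v - ς| / v)| ≤ 2 / v := by
      rw [abs_of_pos hAp] at hx ⊢
      have l1 := Real.log_le_sub_one_of_pos hx
      have l2 := Real.one_sub_inv_le_log_of_pos hx
      have e1 : (v - ς) / v - 1 ≤ 2 / v := by
        rw [div_sub_one hv0.ne', div_le_div_iff_of_pos_right hv0]; linarith
      have e2 : -(2 / v) ≤ 1 - ((v - ς) / v)⁻¹ := by
        rw [inv_div, one_sub_div hAp.ne', ← neg_div, div_le_div_iff₀ hv0 hAp]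
        nlinarith
      rw [abs_le]
      constructor <;> linarith
    have hL1 : |Real.log (|v - ς| / v)| ≤ 1 := by
      refine hL.trans ?_
      rw [div_le_one hv0]; exact hv2.le
    have e3 : v ^ (-(3 / 2) : ℝ) = v ^ (-(1 / 2) : ℝ) / v := by
      rw [← Real.rpow_sub_one hv0.ne']; norm_num
    calc v ^ (-(1 / 2) : ℝ) * (1 / Real.pi) *
          (|Real.log (|v - ς| / v)| * (1 + |Real.log (|v - ς| / v)|))
        ≤ v ^ (-(1 / 2) : ℝ) * 1 * (2 / v * (1 + 1)) := by gcongr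
      _ = 4 * v ^ (-(3 / 2) : ℝ) := by rw [e3]; ring

end Pool.Agent.LK
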