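import Pool.Agent.Lib_helper31.LK.DefsP

/-! LSP3, part K, block KI: the Dirichlet series of `τ(kg) χ(g)` -/

namespace Pool.Agent.LK

open Complex MeasureTheory Set
open Pool.Agent.LSP (tau GG tp KerL)

theorem ki_congr {f g : ℕ → ℂ} {a : ℂ} (h : HasSum g a) (h' : ∀ n, f n = g n) : HasSum f a := by
  rw [show f = g from funext h']
  exact h

theorem ki_mob (n : ℕ) :
    ∑ h ∈ n.divisors, ArithmeticFunction.moebius h = if n = 1 then 1 else 0 := by
  rw [← ArithmeticFunction.coe_mul_zeta_apply, ArithmeticFunction.moebius_mul_coe_zeta,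
    ArithmeticFunction.one_apply]

theorem ki_card {k g : ℕ} (hk : 0 < k) (hg : 0 < g) : (k * g).divisors.card =
    ((k.divisors ×ˢ g.divisors).filter (fun x => Nat.Coprime x.2 (k / x.1))).card := by
  refine Finset.card_nbij' (fun d => (Nat.gcd d k, d / Nat.gcd d k)) (fun x => x.1 * x.2) ?_ ?_ ?_ ?_
  · intro d hd
    have hd' : d ∈ (k * g).divisors := hd
    obtain ⟨hdv, -⟩ := Nat.mem_divisors.mp hd'
    have ha : 0 < Nat.gcd d k := Nat.gcd_pos_of_pos_right d hk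
    have hco : Nat.Coprime (d / Nat.gcd d k) (k / Nat.gcd d k) := Nat.coprime_div_gcd_div_gcd ha
    have h1 : d / Nat.gcd d k ∣ k / Nat.gcd d k * g := by
      have h2 : Nat.gcd d k * (d / Nat.gcd d k) ∣ Nat.gcd d k * (k / Nat.gcd d k * g) := by
        rw [Nat.mul_div_cancel' (Nat.gcd_dvd_left d k), ← mul_assoc,
          Nat.mul_div_cancel' (Nat.gcd_dvd_right d k)]
        exact hdv
      exact Nat.dvd_of_mul_dvd_mul_left ha h2
    show (Nat.gcd d k, d / Nat.gcd d k) ∈ ((k.divisors ×ˢ g.divisors).filter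
      (fun x => Nat.Coprime x.2 (k / x.1)))
    rw [Finset.mem_filter, Finset.mem_product]
    exact ⟨⟨Nat.mem_divisors.mpr ⟨Nat.gcd_dvd_right d k, hk.ne'⟩,
      Nat.mem_divisors.mpr ⟨hco.dvd_of_dvd_mul_left h1, hg.ne'⟩⟩, hco⟩
  · intro x hx
    have hx' : x ∈ ((k.divisors ×ˢ g.divisors).filter
      (fun x => Nat.Coprime x.2 (k / x.1))) := hx
    rw [Finset.mem_filter, Finset.mem_product] at hx'
    obtain ⟨⟨hx1, hx2⟩, -⟩ := hx'
    show x.1 * x.2 ∈ (k * g).divisors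
    exact Nat.mem_divisors.mpr ⟨Nat.mul_dvd_mul (Nat.mem_divisors.mp hx1).1
      (Nat.mem_divisors.mp hx2).1, (Nat.mul_pos hk hg).ne'⟩
  · intro d _
    exact Nat.mul_div_cancel' (Nat.gcd_dvd_left d k)
  · intro x hx
    have hx' : x ∈ ((k.divisors ×ˢ g.divisors).filter
      (fun x => Nat.Coprime x.2 (k / x.1))) := hx
    rw [Finset.mem_filter, Finset.mem_product] at hx'
    obtain ⟨⟨hx1, hx2⟩, hx3⟩ := hx'
    obtain ⟨k', hk'⟩ := (Nat.mem_divisors.mp hx1).1
    have hx0 : 0 < x.1 := Nat.pos_of_mem_divisors hx1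
    have h1 : Nat.gcd (x.1 * x.2) k = x.1 := by
      rw [hk', Nat.mul_div_cancel_left k' hx0] at hx3
      rw [hk', Nat.gcd_mul_left, hx3.gcd_eq_one, mul_one]
    show (Nat.gcd (x.1 * x.2) k, x.1 * x.2 / Nat.gcd (x.1 * x.2) k) = x
    rw [h1, Nat.mul_div_cancel_left _ hx0]

theorem ki_cnt {k h : ℕ} (hk : 0 < k) (hh : h ∣ k) :
    ∑ a ∈ k.divisors, (if h ∣ k / a then (1 : ℤ) else 0) = ((k / h).divisors.card : ℤ) := by
  have hh0 : 0 < h := Nat.pos_of_dvd_of_pos hh hk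
  rw [Finset.sum_boole]
  congr 2
  ext a
  rw [Finset.mem_filter, Nat.mem_divisors, Nat.mem_divisors]
  constructor
  · rintro ⟨⟨h1, -⟩, h2⟩
    refine ⟨?_, (Nat.div_pos (Nat.le_of_dvd hk hh) hh0).ne'⟩
    rw [Nat.dvd_div_iff_mul_dvd h1] at h2
    rw [Nat.dvd_div_iff_mul_dvd hh, mul_comm]
    exact h2
  · rintro ⟨h1, -⟩
    rw [Nat.dvd_div_iff_mul_dvd hh] at h1
    have h2 : a ∣ k := (Dvd.intro_left h rfl).trans h1
    refine ⟨⟨h2, hk.ne'⟩, ?_⟩
    rw [Nat.dvd_div_iff_mul_dvd h2, mul_comm]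
    exact h1

theorem ki_int {k g : ℕ} (hk : 0 < k) (hg : 0 < g) : ((k * g).divisors.card : ℤ) =
    ∑ h ∈ k.divisors, if h ∣ g then ArithmeticFunction.moebius h * ((k / h).divisors.card : ℤ) *
      ((g / h).divisors.card : ℤ) else 0 := by
  rw [ki_card hk hg, Finset.card_filter]
  push_cast
  rw [Finset.sum_product]
  have h1 : ∀ a ∈ k.divisors, ∀ b ∈ g.divisors,
      (if Nat.Coprime b (k / a) then (1 : ℤ) else 0) =
        ∑ h ∈ k.divisors, ArithmeticFunction.moebius h *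
          ((if h ∣ k / a then (1 : ℤ) else 0) * (if h ∣ b then (1 : ℤ) else 0)) := by
    intro a ha b hb
    obtain ⟨hak, -⟩ := Nat.mem_divisors.mp ha
    have hb0 : 0 < b := Nat.pos_of_mem_divisors hb
    have hg0 : Nat.gcd b (k / a) ≠ 0 := (Nat.gcd_pos_of_pos_left _ hb0).ne'
    have h2 := ki_mob (Nat.gcd b (k / a))
    rw [show (if Nat.Coprime b (k / a) then (1 : ℤ) else 0) =
      if Nat.gcd b (k / a) = 1 then 1 else 0 from rfl, ← h2]
    have h3 : (Nat.gcd b (k / a)).divisors =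
        k.divisors.filter (fun h => h ∣ k / a ∧ h ∣ b) := by
      ext h
      rw [Finset.mem_filter, Nat.mem_divisors, Nat.mem_divisors]
      constructor
      · rintro ⟨h4, -⟩
        have h5 := h4.trans (Nat.gcd_dvd_right b (k / a))
        exact ⟨⟨h5.trans (Nat.div_dvd_of_dvd hak), hk.ne'⟩, h5,
          h4.trans (Nat.gcd_dvd_left b (k / a))⟩
      · rintro ⟨-, h4, h5⟩
        exact ⟨Nat.dvd_gcd h5 h4, hg0⟩
    rw [h3, Finset.sum_filter]
    refine Finset.sum_congr rfl fun h _ => ?_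
    by_cases h4 : h ∣ k / a
    · by_cases h5 : h ∣ b
      · simp [h4, h5]
      · simp [h4, h5]
    · simp [h4]
  rw [Finset.sum_congr rfl fun a ha => Finset.sum_congr rfl fun b hb => h1 a ha b hb]
  rw [Finset.sum_congr rfl fun a _ => Finset.sum_comm, Finset.sum_comm]
  refine Finset.sum_congr rfl fun h hh => ?_
  obtain ⟨hhk, -⟩ := Nat.mem_divisors.mp hh
  have h2 : ∑ a ∈ k.divisors, ∑ b ∈ g.divisors, ArithmeticFunction.moebius h *
      ((if h ∣ k / a then (1 : ℤ) else 0) * (if h ∣ b then (1 : ℤ) else 0)) =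
      ArithmeticFunction.moebius h * (∑ a ∈ k.divisors, (if h ∣ k / a then (1 : ℤ) else 0)) *
        ∑ b ∈ g.divisors, (if h ∣ b then (1 : ℤ) else 0) := by
    rw [mul_assoc, Finset.sum_mul_sum, Finset.mul_sum]
    refine Finset.sum_congr rfl fun a _ => ?_
    rw [Finset.mul_sum]
  rw [h2, ki_cnt hk hhk]
  have h3 : ∑ b ∈ g.divisors, (if h ∣ b then (1 : ℤ) else 0) =
      ∑ b ∈ g.divisors, (if h ∣ g / b then (1 : ℤ) else 0) :=
    (Nat.sum_div_divisors g fun b => if h ∣ b then (1 : ℤ) else 0).symm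
  rw [h3]
  by_cases hhg : h ∣ g
  · rw [if_pos hhg, ki_cnt hg hhg]
  · rw [if_neg hhg, Finset.sum_eq_zero, mul_zero]
    intro b hb
    rw [if_neg]
    intro h4
    exact hhg (h4.trans (Nat.div_dvd_of_dvd (Nat.mem_divisors.mp hb).1))

theorem ki_id {k g : ℕ} (hk : 0 < k) (hg : 0 < g) : (tau (k * g) : ℂ) =
    ∑ h ∈ k.divisors, if h ∣ g then (ArithmeticFunction.moebius h : ℂ) * (tau (k / h) : ℂ) *
      (tau (g / h) : ℂ) else 0 := by
  have h1 := congrArg (fun z : ℤ => (z : ℂ)) (ki_int hk hg)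
  unfold tau
  push_cast at h1 ⊢
  rw [h1]

theorem ki_tau_zero : tau 0 = 0 := by
  unfold tau
  simp

/-- the twisted divisor function is a convolution -/
theorem ki_conv {m : ℕ} (χ : DirichletCharacter ℂ m) :
    (fun g : ℕ => (tau g : ℂ) * χ g) =
      LSeries.convolution (fun n : ℕ => χ n) (fun n : ℕ => χ n) := by
  have h := DirichletCharacter.mul_convolution_distrib χ (1 : ℕ → ℂ) (1 : ℕ → ℂ)
  rw [mul_one] at h
  rw [h]
  funext g
  rw [Pi.mul_apply, LSeries.convolution_def]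
  have h2 : ∑ p ∈ g.divisorsAntidiagonal, (1 : ℕ → ℂ) p.1 * (1 : ℕ → ℂ) p.2 = (tau g : ℂ) := by
    unfold tau
    rw [Nat.sum_divisorsAntidiagonal (f := fun i j => (1 : ℕ → ℂ) i * (1 : ℕ → ℂ) j)]
    simp
  show (tau g : ℂ) * χ g = χ g * ∑ p ∈ g.divisorsAntidiagonal, (1 : ℕ → ℂ) p.1 * (1 : ℕ → ℂ) p.2
  rw [h2, mul_comm]

theorem ki_hasSum {m : ℕ} [NeZero m] (χ : DirichletCharacter ℂ m) {s : ℂ} (hs : 1 < s.re) :
    HasSum (fun g : ℕ => (tau g : ℂ) * χ g * (g : ℂ) ^ (-s))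
      (DirichletCharacter.LFunction χ s ^ 2) := by
  have h1 : LSeriesHasSum (fun n : ℕ => χ n) s (DirichletCharacter.LFunction χ s) := by
    rw [DirichletCharacter.LFunction_eq_LSeries χ hs]
    exact (DirichletCharacter.LSeriesSummable_of_one_lt_re χ hs).LSeriesHasSum
  have h2 := h1.convolution h1
  rw [← ki_conv, ← pow_two] at h2
  have h3 : LSeries.term (fun g : ℕ => (tau g : ℂ) * χ g) s =
      fun g : ℕ => (tau g : ℂ) * χ g * (g : ℂ) ^ (-s) := by
    funext g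
    exact LSeries.term_def₀ (by rw [ki_tau_zero]; simp) s g
  have h4 : HasSum (LSeries.term (fun g : ℕ => (tau g : ℂ) * χ g) s)
      (DirichletCharacter.LFunction χ s ^ 2) := h2
  rwa [h3] at h4

theorem ki_hasSum_k {m : ℕ} [NeZero m] (χ : DirichletCharacter ℂ m) {k : ℕ} (hk : 1 ≤ k) {s : ℂ}
    (hs : 1 < s.re) : HasSum (fun g : ℕ => (tau (k * g) : ℂ) * χ g * (g : ℂ) ^ (-s))
      (Zk χ k s) := by
  have h1 : ∀ h ∈ k.divisors, HasSum (fun g : ℕ => if h ∣ g then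
      (ArithmeticFunction.moebius h : ℂ) * (tau (k / h) : ℂ) * (tau (g / h) : ℂ) * χ g *
        (g : ℂ) ^ (-s) else 0)
      ((ArithmeticFunction.moebius h : ℂ) * χ h * (h : ℂ) ^ (-s) * (tau (k / h) : ℂ) *
        DirichletCharacter.LFunction χ s ^ 2) := by
    intro h hh
    have hh0 : 0 < h := Nat.pos_of_mem_divisors hh
    have hinj : Function.Injective (fun g : ℕ => h * g) := fun a b hab =>
      Nat.eq_of_mul_eq_mul_left hh0 hab
    rw [← hinj.hasSum_iff]
    · have h2 := (ki_hasSum χ hs).mul_left ((ArithmeticFunction.moebius h : ℂ) * χ h *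
        (h : ℂ) ^ (-s) * (tau (k / h) : ℂ))
      refine ki_congr h2 fun g => ?_
      rw [Function.comp_apply, if_pos (Dvd.intro g rfl), Nat.mul_div_cancel_left g hh0]
      push_cast
      rw [map_mul, Complex.natCast_mul_natCast_cpow]
      ring
    · intro g hg
      rw [if_neg]
      rintro ⟨g', rfl⟩
      exact hg ⟨g', rfl⟩
  have h2 := hasSum_sum h1
  have h3 : ∑ h ∈ k.divisors, (ArithmeticFunction.moebius h : ℂ) * χ h * (h : ℂ) ^ (-s) *
      (tau (k / h) : ℂ) * DirichletCharacter.LFunction χ s ^ 2 = Zk χ k s := by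
    unfold Zk Pk
    rw [← Finset.sum_mul, mul_comm]
  rw [h3] at h2
  refine ki_congr h2 fun g => ?_
  rcases Nat.eq_zero_or_pos g with rfl | hg
  · rw [mul_zero, ki_tau_zero]
    simp [ki_tau_zero]
  · rw [ki_id (by omega) hg, Finset.sum_mul, Finset.sum_mul]
    refine Finset.sum_congr rfl fun h _ => ?_
    by_cases hd : h ∣ g
    · rw [if_pos hd, if_pos hd]
    · rw [if_neg hd, if_neg hd, zero_mul, zero_mul]

/-- the coefficients -/
noncomputable def ki_f {m : ℕ} (χ : DirichletCharacter ℂ m) (k : ℕ) (g : ℕ) : ℂ :=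
  (tau (k * g) : ℂ) * χ g

theorem ki_f_zero {m : ℕ} (χ : DirichletCharacter ℂ m) (k : ℕ) : ki_f χ k 0 = 0 := by
  unfold ki_f
  rw [mul_zero, ki_tau_zero]
  simp

theorem ki_series {m : ℕ} [NeZero m] (χ : DirichletCharacter ℂ m) {k : ℕ} (hk : 1 ≤ k) {s : ℂ}
    (hs : 1 < s.re) : LSeriesHasSum (ki_f χ k) s (Zk χ k s) := by
  have h1 := ki_hasSum_k χ hk hs
  show HasSum (LSeries.term (ki_f χ k) s) (Zk χ k s)
  exact ki_congr h1 fun g => LSeries.term_def₀ (ki_f_zero χ k) s g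

theorem ki_absc {m : ℕ} [NeZero m] (χ : DirichletCharacter ℂ m) {k : ℕ} (hk : 1 ≤ k) {s : ℂ}
    (hs : 1 < s.re) : LSeries.abscissaOfAbsConv (ki_f χ k) < s.re := by
  refine lt_of_le_of_lt (LSeries.abscissaOfAbsConv_le_of_forall_lt_LSeriesSummable (x := 1)
    fun y hy => (ki_series χ hk (s := (y : ℂ)) (by simpa using hy)).LSeriesSummable) ?_
  exact_mod_cast hs

variable {q : ℕ} [NeZero q]

theorem ki_log {m : ℕ} [NeZero m] (χ : DirichletCharacter ℂ m) {k : ℕ} (hk : 1 ≤ k) {s : ℂ}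
    (hs : 1 < s.re) : ∑' g : ℕ, (tau (k * g) : ℂ) * χ g * (Real.log g : ℂ) * (g : ℂ) ^ (-s) =
      -deriv (Zk χ k) s := by
  have h1 : deriv (Zk χ k) s = deriv (LSeries (ki_f χ k)) s := by
    refine Filter.EventuallyEq.deriv_eq ?_
    filter_upwards [(isOpen_lt continuous_const Complex.continuous_re).mem_nhds hs] with z hz
    exact (ki_series χ hk hz).LSeries_eq.symm
  rw [h1, LSeries_deriv (ki_absc χ hk hs), neg_neg]
  unfold LSeries
  refine tsum_congr fun g => ?_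
  rw [LSeries.term_def₀ (by rw [LSeries.logMul, ki_f_zero, mul_zero]) s g, LSeries.logMul,
    ← Complex.natCast_log]
  unfold ki_f
  ring

theorem ki_summable {k : ℕ} (hk : 1 ≤ k) {σ : ℝ} (hσ : 1 < σ) :
    Summable fun g : ℕ => tau (k * g) * (g : ℝ) ^ (-σ) * (1 + Real.log g) := by
  have hs : (1 : ℝ) < ((σ : ℂ)).re := by simpa using hσ
  have h1 : LSeriesSummable (ki_f (1 : DirichletCharacter ℂ 1) k) (σ : ℂ) :=
    (ki_series (1 : DirichletCharacter ℂ 1) hk hs).LSeriesSummable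
  have h2 : LSeriesSummable (LSeries.logMul (ki_f (1 : DirichletCharacter ℂ 1) k)) (σ : ℂ) :=
    LSeriesSummable_logMul_of_lt_re (ki_absc _ hk hs)
  have h3 : Summable fun g : ℕ => ‖LSeries.term (ki_f (1 : DirichletCharacter ℂ 1) k) (σ : ℂ) g‖ +
      ‖LSeries.term (LSeries.logMul (ki_f (1 : DirichletCharacter ℂ 1) k)) (σ : ℂ) g‖ :=
    (Summable.norm h1).add (Summable.norm h2)
  refine h3.congr fun g => ?_
  rcases Nat.eq_zero_or_pos g with rfl | hg
  · rw [mul_zero, ki_tau_zero]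
    simp
  · have hg' : g ≠ 0 := hg.ne'
    have h4 : ‖(g : ℂ) ^ (σ : ℂ)‖ = (g : ℝ) ^ σ := by
      rw [Complex.norm_natCast_cpow_of_pos hg]
      simp
    have h5 : ‖ki_f (1 : DirichletCharacter ℂ 1) k g‖ = tau (k * g) := by
      unfold ki_f
      have h6 : (1 : DirichletCharacter ℂ 1) (g : ZMod 1) = 1 := by
        rw [MulChar.one_apply]
        exact isUnit_of_subsingleton _
      rw [h6, mul_one, Complex.norm_real, Real.norm_of_nonneg]
      unfold tau
      positivity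
    have h7 : ‖Complex.log (g : ℂ)‖ = Real.log g := by
      rw [← Complex.natCast_log, Complex.norm_real, Real.norm_of_nonneg (Real.log_natCast_nonneg g)]
    rw [LSeries.term_of_ne_zero hg', LSeries.term_of_ne_zero hg', norm_div, norm_div, h4, h5,
      LSeries.logMul, norm_mul, h5, h7, Real.rpow_neg (Nat.cast_nonneg g)]
    ring

/-- block KI: the Dirichlet series -/
theorem zk_series_pr (χ : DirichletCharacter ℂ q) (hχ : χ ≠ 1) {k : ℕ} (hk : 1 ≤ k) {s : ℂ}
    (hs : 1 < s.re) :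
    (Summable fun g : ℕ => tau (k * g) * (g : ℝ) ^ (-s.re) * (1 + Real.log g)) ∧
    ∑' g : ℕ, (tau (k * g) : ℂ) * χ g * (g : ℂ) ^ (-s) = Zk χ k s ∧
    ∑' g : ℕ, (tau (k * g) : ℂ) * χ g * (Real.log g : ℂ) * (g : ℂ) ^ (-s) =
      -deriv (Zk χ k) s :=
  ⟨ki_summable hk hs, (ki_hasSum_k χ hk hs).tsum_eq, ki_log χ hk hs⟩


end Pool.Agent.LK
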