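import Pool.Agent.Lib_helper31.LK.DefsP
import Pool.Agent.Lib_helper41.LSPG.GOKB
import Pool.Agent.Lib_helper31.LKF.KI

/-! block KJ: the physical side to the line Re s = 2 -/

namespace Pool.Agent.LK

open Complex MeasureTheory Set
open Pool.Agent.LSP (tau GG tp KerL)

section

theorem kj_meas {G : ℝ → ℝ} {U c : ℝ} (hG : Pool.Agent.LSPO.GOK G U c) : Measurable G := by
  refine measurable_of_measurable_on_compl_finite ({0, 1} : Set ℝ) (by simp) ?_
  refine Continuous.measurable ?_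
  have hc : ContinuousOn G ({0, 1} : Set ℝ)ᶜ := by
    intro u hu
    have hu0 : u ≠ 0 := fun h => hu (by simp [h])
    have hu1 : u ≠ 1 := fun h => hu (by simp [h])
    refine ContinuousAt.continuousWithinAt ?_
    rw [ContinuousAt, tendsto_iff_dist_tendsto_zero]
    have hb : Filter.Tendsto (fun v : ℝ => c * |v - u| * (|v|⁻¹ + |1 - v|⁻¹ + |u|⁻¹ + |1 - u|⁻¹) ^ 3)
        (nhds u) (nhds 0) := by
      have h1 : ContinuousAt (fun v : ℝ => c * |v - u| *
          (|v|⁻¹ + |1 - v|⁻¹ + |u|⁻¹ + |1 - u|⁻¹) ^ 3) u := by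
        have a1 : ContinuousAt (fun v : ℝ => |v|⁻¹) u :=
          (continuous_abs.continuousAt).inv₀ (abs_ne_zero.mpr hu0)
        have a2 : ContinuousAt (fun v : ℝ => |1 - v|⁻¹) u :=
          ((continuous_abs.comp (continuous_const.sub continuous_id)).continuousAt).inv₀
            (abs_ne_zero.mpr (sub_ne_zero.mpr (Ne.symm hu1)))
        have a3 : ContinuousAt (fun v : ℝ => c * |v - u|) u := by fun_prop
        exact a3.mul ((((a1.add a2).add continuousAt_const).add continuousAt_const).pow 3)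
      have h2 : c * |u - u| * (|u|⁻¹ + |1 - u|⁻¹ + |u|⁻¹ + |1 - u|⁻¹) ^ 3 = 0 := by simp
      rw [← h2]
      exact h1
    refine squeeze_zero' (Filter.Eventually.of_forall fun v => dist_nonneg) ?_ hb
    have h3 : ∀ᶠ v : ℝ in nhds u, v ≠ 0 ∧ v ≠ 1 :=
      (isOpen_ne.eventually_mem hu0).and (isOpen_ne.eventually_mem hu1)
    filter_upwards [h3] with v hv
    rw [Real.dist_eq]
    exact hG.lip v u hv.1 hv.2 hu0 hu1
  exact continuousOn_iff_continuous_domRestrict.mp hc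

/-- `|log x| ≤ 4 (x^{1/4} + x^{-1/4})` in the form used here -/
theorem kj_log {x M : ℝ} (hx : 0 < x) (hM : x ≤ M) :
    |Real.log x| ≤ 4 * (1 + M + x ^ (-(1 / 4) : ℝ)) := by
  have h1 : Real.log x ≤ 4 * (1 + M) := by
    have := Real.log_le_sub_one_of_pos hx
    linarith
  have h2 : -Real.log x ≤ 4 * x ^ (-(1 / 4) : ℝ) := by
    have h3 := Real.log_le_sub_one_of_pos (Real.rpow_pos_of_pos hx (-(1 / 4)))
    rw [Real.log_rpow hx] at h3
    linarith
  have h4 : 0 ≤ x ^ (-(1 / 4) : ℝ) := (Real.rpow_pos_of_pos hx _).le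
  rw [abs_le]
  constructor <;> linarith

theorem kj_pow_int (M c : ℝ) (hM : 0 ≤ M) :
    IntegrableOn (fun v : ℝ => |c - v| ^ (-(1 / 2) : ℝ)) (Ioc 0 M) := by
  have h1 : IntervalIntegrable (fun x : ℝ => |x| ^ (-(1 / 2) : ℝ)) volume (c - 0) (c - M) := by
    have h := (intervalIntegral.intervalIntegrable_cpow' (a := c - 0) (b := c - M)
      (r := ((-(1 / 2) : ℝ) : ℂ)) (by rw [ofReal_re]; norm_num)).norm
    refine h.congr fun x _ => ?_
    rw [Complex.norm_cpow_real, Complex.norm_real, Real.norm_eq_abs]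
  have h2 := h1.comp_sub_left c
  rw [sub_sub_cancel, sub_sub_cancel] at h2
  exact (intervalIntegrable_iff_integrableOn_Ioc_of_le hM).mp h2

/-- the majorant -/
theorem kj_int {G : ℝ → ℝ} {U c : ℝ} (hG : Pool.Agent.LSPO.GOK G U c) {ς : ℝ} (hς : ς = 1 ∨ ς = -1) :
    IntegrableOn (fun v : ℝ => v * |G (ς * v)| * (1 + |Real.log (|1 / v - ς|)|)) (Ioi 0) := by
  have hGm := kj_meas hG
  have hU : 0 ≤ U := by linarith [hG.one_le]
  have hc : 0 ≤ c := by linarith [hG.one_le']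
  have hς1 : |ς| = 1 := by rcases hς with h | h <;> simp [h]
  have hς2 : ς * ς = 1 := by rcases hς with h | h <;> simp [h]
  have hς0 : ς ≠ 0 := by rcases hς with h | h <;> simp [h]
  have hmeas : Measurable (fun v : ℝ => v * |G (ς * v)| * (1 + |Real.log (|1 / v - ς|)|)) := by
    have m1 : Measurable (fun v : ℝ => G (ς * v)) := hGm.comp (measurable_const.mul measurable_id)
    have m2 : Measurable (fun v : ℝ => Real.log (|1 / v - ς|)) :=
      Real.measurable_log.comp (measurable_norm.comp ((measurable_const.div measurable_id).sub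
        measurable_const))
    exact (measurable_id.mul (measurable_norm.comp m1)).mul
      (measurable_const.add (measurable_norm.comp m2))
  -- zero beyond `U`
  have hsplit : IntegrableOn (fun v : ℝ => v * |G (ς * v)| * (1 + |Real.log (|1 / v - ς|)|)) (Ioc 0 U) := by
    set D : ℝ := 4 * (6 + 2 * U) * 1 with hD
    have hmaj : IntegrableOn (fun v : ℝ => U * c * (3 * (40 + 20 * U) ^ 2) *
        (1 + |0 - v| ^ (-(1 / 2) : ℝ) + |ς - v| ^ (-(1 / 2) : ℝ))) (Ioc 0 U) := by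
      refine Integrable.const_mul ?_ _
      refine ((integrableOn_const (by simp)).add (kj_pow_int U 0 hU)).add (kj_pow_int U ς hU)
    refine Integrable.mono' hmaj hmeas.aestronglyMeasurable ?_
    have hne : ∀ᵐ v : ℝ ∂(volume.restrict (Ioc 0 U)), v ≠ 1 :=
      ae_restrict_of_ae (Measure.ae_ne volume 1)
    filter_upwards [hne, ae_restrict_mem measurableSet_Ioc] with v hv1 hv
    have hv0 : 0 < v := hv.1
    have hvU : v ≤ U := hv.2
    have hςv : ς - v ≠ 0 := by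
      rcases hς with h | h
      · rw [h]; exact sub_ne_zero.mpr (Ne.symm hv1)
      · rw [h]; linarith
    have hs : 0 < |ς - v| := abs_pos.mpr hςv
    have hsM : |ς - v| ≤ 1 + U := by
      calc |ς - v| ≤ |ς| + |v| := abs_sub _ _
        _ ≤ 1 + U := by rw [hς1, abs_of_pos hv0]; linarith
    have e1 : |1 - ς * v| = |ς - v| := by
      have : 1 - ς * v = ς * (ς - v) := by rw [mul_sub, hς2]
      rw [this, abs_mul, hς1, one_mul]
    have e2 : |1 / v - ς| = |1 - ς * v| / v := by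
      have : 1 / v - ς = (1 - ς * v) / v := by field_simp
      rw [this, abs_div, abs_of_pos hv0]
    have l1 := kj_log hv0 (hvU.trans (by linarith : U ≤ 1 + U))
    have l2 := kj_log hs hsM
    set a : ℝ := v ^ (-(1 / 4) : ℝ) with ha
    set b : ℝ := |ς - v| ^ (-(1 / 4) : ℝ) with hb
    have ha0 : 0 ≤ a := (Real.rpow_pos_of_pos hv0 _).le
    have hb0 : 0 ≤ b := (Real.rpow_pos_of_pos hs _).le
    have ha2 : |0 - v| ^ (-(1 / 2) : ℝ) = a ^ 2 := by
      rw [zero_sub, abs_neg, abs_of_pos hv0, ha, ← Real.rpow_natCast, ← Real.rpow_mul hv0.le]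
      norm_num
    have hb2 : |ς - v| ^ (-(1 / 2) : ℝ) = b ^ 2 := by
      rw [hb, ← Real.rpow_natCast, ← Real.rpow_mul hs.le]
      norm_num
    have hGb : |G (ς * v)| ≤ c * (1 + |Real.log v| + |Real.log (|ς - v|)|) := by
      have h := hG.bd (ς * v) (mul_ne_zero hς0 hv0.ne') (by
        intro h
        have : 1 - ς * v = 0 := by rw [h]; ring
        rw [this, abs_zero] at e1
        exact hs.ne e1)
      rw [abs_mul, hς1, one_mul, abs_of_pos hv0, e1] at h
      exact h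
    have hL : |Real.log (|1 / v - ς|)| ≤ |Real.log v| + |Real.log (|ς - v|)| := by
      rw [e2, e1, Real.log_div hs.ne' hv0.ne']
      calc |Real.log (|ς - v|) - Real.log v| ≤ |Real.log (|ς - v|)| + |Real.log v| := abs_sub _ _
        _ = _ := by ring
    set S : ℝ := 1 + |Real.log v| + |Real.log (|ς - v|)| with hS
    have hS0 : 0 ≤ S := by positivity
    have hSb : S ≤ (40 + 20 * U) * (1 + a + b) := by
      have : S ≤ 1 + 4 * (1 + (1 + U) + a) + 4 * (1 + (1 + U) + b) := by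
        rw [hS]; linarith
      have h2 : 0 ≤ U * a := mul_nonneg hU ha0
      have h3 : 0 ≤ U * b := mul_nonneg hU hb0
      nlinarith
    have hab : (1 + a + b) ^ 2 ≤ 3 * (1 + a ^ 2 + b ^ 2) := by
      nlinarith [sq_nonneg (1 - a), sq_nonneg (1 - b), sq_nonneg (a - b)]
    rw [Real.norm_eq_abs, abs_of_nonneg (by positivity), ha2, hb2]
    calc v * |G (ς * v)| * (1 + |Real.log (|1 / v - ς|)|) ≤ U * (c * S) * S := by
          refine mul_le_mul (mul_le_mul hvU hGb (abs_nonneg _) hU) ?_ (by positivity) (by positivity)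
          rw [hS]; linarith
      _ = U * c * S ^ 2 := by ring
      _ ≤ U * c * ((40 + 20 * U) * (1 + a + b)) ^ 2 := by
          refine mul_le_mul_of_nonneg_left ?_ (mul_nonneg hU hc)
          exact pow_le_pow_left₀ hS0 hSb 2
      _ = U * c * (40 + 20 * U) ^ 2 * (1 + a + b) ^ 2 := by ring
      _ ≤ U * c * (40 + 20 * U) ^ 2 * (3 * (1 + a ^ 2 + b ^ 2)) := by
          refine mul_le_mul_of_nonneg_left hab (by positivity)
      _ = _ := by ring
  have hz : IntegrableOn (fun v : ℝ => v * |G (ς * v)| * (1 + |Real.log (|1 / v - ς|)|)) (Ioi U) := by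
    refine (integrableOn_zero (ε' := ℝ)).congr_fun (fun v hv => ?_) measurableSet_Ioi
    have hvU : U < v := hv
    have hv0 : 0 < v := hU.trans_lt hvU
    have : G (ς * v) = 0 := hG.supp _ (by rw [abs_mul, hς1, one_mul, abs_of_pos hv0]; exact hvU)
    simp only [this, abs_zero, mul_zero, zero_mul]
  have := hsplit.union hz
  rwa [Ioc_union_Ioi_eq_Ioi hU] at this

end

section

section
variable {G : ℝ → ℝ} {z : ℤ}

theorem kj_norm_v {v : ℝ} (hv : 0 < v) {s : ℂ} (hs : s.re = 2) : ‖(v : ℂ) ^ (s - 1)‖ = v := by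
  rw [Complex.norm_cpow_eq_rpow_re_of_pos hv, sub_re, hs, one_re]
  norm_num

theorem kj_F_meas (hG : Measurable G) (E : ℝ → ℝ) (hE : Measurable E) (s : ℂ) :
    Measurable (fun v : ℝ => (v : ℂ) ^ (s - 1) * ((G (z * v) * E v : ℝ) : ℂ)) := by
  have m1 : Measurable (fun v : ℝ => (v : ℂ) ^ (s - 1)) := measurable_ofReal.pow_const _
  have m2 : Measurable (fun v : ℝ => ((G (z * v) * E v : ℝ) : ℂ)) :=
    measurable_ofReal.comp ((hG.comp (measurable_const.mul measurable_id)).mul hE)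
  exact m1.mul m2

theorem kj_L_meas : Measurable (fun v : ℝ => Real.log (|1 / v - (z : ℝ)|)) :=
  Real.measurable_log.comp (measurable_norm.comp ((measurable_const.div measurable_id).sub
    measurable_const))

/-- a dominated Mellin integral on the line `Re s = 2` -/
theorem kj_dom (hG : Measurable G) {E : ℝ → ℝ} (hE : Measurable E) {B : ℝ → ℝ}
    (hB : IntegrableOn B (Ioi 0)) (hle : ∀ v : ℝ, 0 < v → v * |G (z * v)| * |E v| ≤ B v) :
    (∀ t : ℝ, IntegrableOn (fun v : ℝ => (v : ℂ) ^ ((2 + t * I : ℂ) - 1) *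
      ((G (z * v) * E v : ℝ) : ℂ)) (Ioi 0)) ∧
    (∀ t : ℝ, ‖∫ v in Ioi (0 : ℝ), (v : ℂ) ^ ((2 + t * I : ℂ) - 1) *
      ((G (z * v) * E v : ℝ) : ℂ)‖ ≤ ∫ v in Ioi (0 : ℝ), B v) ∧
    Continuous (fun t : ℝ => ∫ v in Ioi (0 : ℝ), (v : ℂ) ^ ((2 + t * I : ℂ) - 1) *
      ((G (z * v) * E v : ℝ) : ℂ)) := by
  have hre : ∀ t : ℝ, (2 + t * I : ℂ).re = 2 := fun t => by simp
  have hb : ∀ t : ℝ, ∀ᵐ v : ℝ ∂(volume.restrict (Ioi 0)), ‖(v : ℂ) ^ ((2 + t * I : ℂ) - 1) *
      ((G (z * v) * E v : ℝ) : ℂ)‖ ≤ B v := by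
    intro t
    filter_upwards [ae_restrict_mem measurableSet_Ioi] with v hv
    rw [norm_mul, kj_norm_v hv (hre t), Complex.norm_real, Real.norm_eq_abs, abs_mul, ← mul_assoc]
    exact hle v hv
  have hm : ∀ t : ℝ, AEStronglyMeasurable (fun v : ℝ => (v : ℂ) ^ ((2 + t * I : ℂ) - 1) *
      ((G (z * v) * E v : ℝ) : ℂ)) (volume.restrict (Ioi 0)) :=
    fun t => (kj_F_meas hG E hE _).aestronglyMeasurable
  refine ⟨fun t => Integrable.mono' hB (hm t) (hb t), fun t => norm_integral_le_of_norm_le hB (hb t),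
    continuous_of_dominated hm hb hB ?_⟩
  filter_upwards [ae_restrict_mem measurableSet_Ioi] with v hv
  have hv' : (v : ℂ) ≠ 0 := ofReal_ne_zero.mpr (ne_of_gt hv)
  refine Continuous.mul ?_ continuous_const
  exact Continuous.const_cpow (by fun_prop) (Or.inl hv')

/-- the hypotheses on the kernel -/
structure KjH (G : ℝ → ℝ) (z : ℤ) (K : ℝ) : Prop where
  meas : Measurable G
  int : IntegrableOn (fun v : ℝ => v * |G (z * v)| * (1 + |Real.log (|1 / v - (z : ℝ)|)|)) (Ioi 0)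
  eq : ∫ v in Ioi (0 : ℝ), v * |G (z * v)| * (1 + |Real.log (|1 / v - (z : ℝ)|)|) = K

theorem kj_M0 {K : ℝ} (h : KjH G z K) :
    (∀ t : ℝ, IntegrableOn (fun v : ℝ => (v : ℂ) ^ ((2 + t * I : ℂ) - 1) *
      (G (z * v) : ℂ)) (Ioi 0)) ∧
    (∀ t : ℝ, ‖M0 G z (2 + t * I)‖ ≤ K) ∧ Continuous (fun t : ℝ => M0 G z (2 + t * I)) := by
  have h1 := kj_dom (z := z) h.meas (E := fun _ => 1) measurable_const h.int (fun v hv => by
    rw [abs_one]
    refine mul_le_mul_of_nonneg_left ?_ (mul_nonneg hv.le (abs_nonneg _))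
    linarith [abs_nonneg (Real.log (|1 / v - (z : ℝ)|))])
  simp only [mul_one, h.eq] at h1
  exact h1

theorem kj_M1 {K : ℝ} (h : KjH G z K) :
    (∀ t : ℝ, IntegrableOn (fun v : ℝ => (v : ℂ) ^ ((2 + t * I : ℂ) - 1) *
      ((G (z * v) * Real.log (|1 / v - (z : ℝ)|) : ℝ) : ℂ)) (Ioi 0)) ∧
    (∀ t : ℝ, ‖M1 G z (2 + t * I)‖ ≤ K) ∧ Continuous (fun t : ℝ => M1 G z (2 + t * I)) := by
  have h1 := kj_dom (z := z) h.meas (E := fun v => Real.log (|1 / v - (z : ℝ)|)) kj_L_meas h.int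
    (fun v hv => by
    refine mul_le_mul_of_nonneg_left ?_ (mul_nonneg hv.le (abs_nonneg _))
    linarith [abs_nonneg (Real.log (|1 / v - (z : ℝ)|))])
  simp only [h.eq] at h1
  exact h1

theorem kj_exp : Integrable (fun t : ℝ => Real.exp (-|t|)) := by
  rw [← integrableOn_univ, ← Iic_union_Ioi (a := (0:ℝ))]
  refine IntegrableOn.union ?_ ?_
  · refine (integrableOn_exp_Iic 0).congr_fun (fun t ht => ?_) measurableSet_Iic
    rw [abs_of_nonpos ht, neg_neg]
  · refine (exp_neg_integrableOn_Ioi 0 one_pos).congr_fun (fun t ht => ?_) measurableSet_Ioi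
    rw [abs_of_pos ht]
    show Real.exp (-1 * t) = Real.exp (-t)
    rw [neg_one_mul]

/-- `W` on the line `Re s = 2` -/
theorem kj_W {w : ℝ → ℝ} {W : ℂ → ℂ} (hw : MW w W) :
    Continuous (fun t : ℝ => W (2 + t * I)) ∧ Integrable (fun t : ℝ => W (2 + t * I)) := by
  have hc : Continuous (fun t : ℝ => W (2 + t * I)) := by
    rw [continuous_iff_continuousAt]
    intro t
    have h1 : DifferentiableAt ℂ W (2 + t * I) := hw.diff _ (by simp)
    have h2 : ContinuousAt (fun t : ℝ => (2 + t * I : ℂ)) t := by fun_prop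
    exact ContinuousAt.comp (g := W) h1.continuousAt h2
  refine ⟨hc, ?_⟩
  obtain ⟨C, hC⟩ := hw.bdd 2 2 (by norm_num)
  have h3 : Integrable (fun t : ℝ => C * Real.exp (-|t|)) := by
    exact kj_exp.const_mul _
  refine Integrable.mono' h3 hc.aestronglyMeasurable (Filter.Eventually.of_forall fun t => ?_)
  have h4 := hC (2 + t * I) (by simp) (by simp)
  simpa using h4

end

end

section

variable {G : ℝ → ℝ} {z : ℤ}

theorem kj_cpow_split {v : ℝ} (hv : 0 < v) (t : ℝ) :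
    (v : ℂ) ^ ((2 + t * I : ℂ) - 1) = (v : ℂ) * (v : ℂ) ^ ((t : ℂ) * I) := by
  have hv' : (v : ℂ) ≠ 0 := ofReal_ne_zero.mpr hv.ne'
  rw [show (2 + t * I : ℂ) - 1 = 1 + t * I by ring, Complex.cpow_add _ _ hv', Complex.cpow_one]

theorem kj_cpow_div {y0 v : ℝ} (hy : 0 < y0) (hv : 0 < v) (t : ℝ) :
    ((y0 / v : ℝ) : ℂ) ^ (-(2 + t * I : ℂ)) =
      (y0 : ℂ) ^ (-(2 + t * I : ℂ)) * ((v : ℂ) * ((v : ℂ) * (v : ℂ) ^ ((t : ℂ) * I))) := by
  have hv' : (v : ℂ) ≠ 0 := ofReal_ne_zero.mpr hv.ne'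
  have h1 : ((y0 / v : ℝ) : ℂ) = ((y0 : ℝ) : ℂ) * ((v⁻¹ : ℝ) : ℂ) := by
    rw [← ofReal_mul, div_eq_mul_inv]
  rw [h1, Complex.mul_cpow_ofReal_nonneg hy.le (inv_nonneg.mpr hv.le)]
  congr 1
  have h2 : ((v⁻¹ : ℝ) : ℂ) ^ (-(2 + t * I : ℂ)) = (v : ℂ) ^ (2 + t * I : ℂ) := by
    rw [ofReal_inv, Complex.inv_cpow _ _ (by
      rw [Complex.arg_ofReal_of_nonneg hv.le]; exact Real.pi_pos.ne), Complex.cpow_neg, inv_inv]
  rw [h2, show (2 + t * I : ℂ) = 1 + (1 + t * I) by ring, Complex.cpow_add _ _ hv',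
    Complex.cpow_add _ _ hv', Complex.cpow_one]

theorem kj_norm_it (v t : ℝ) : ‖((|v| : ℝ) : ℂ) ^ ((t : ℂ) * I)‖ ≤ 1 := by
  rcases eq_or_ne v 0 with h | h
  · subst h
    rw [abs_zero, ofReal_zero]
    by_cases ht : (t : ℂ) * I = 0
    · rw [ht, Complex.cpow_zero]; simp
    · rw [Complex.zero_cpow ht]; simp
  · rw [Complex.norm_cpow_eq_rpow_re_of_pos (abs_pos.mpr h)]
    simp

theorem kj_one {w : ℝ → ℝ} {W : ℂ → ℂ} (hw : MW w W) {K : ℝ} (h : KjH G z K) {y0 : ℝ}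
    (hy : 0 < y0) (A : ℝ) :
    ((∫ v in Ioi (0 : ℝ), w (y0 / v) / v * G (z * v) *
      (A + Real.log (|1 / v - (z : ℝ)|)) : ℝ) : ℂ) =
    1 / (2 * Real.pi) * ∫ t : ℝ, W (2 + t * I) * (y0 : ℂ) ^ (-(2 + t * I : ℂ)) *
      (A * M0 G z (2 + t * I) + M1 G z (2 + t * I)) := by
  set L : ℝ → ℝ := fun v => Real.log (|1 / v - (z : ℝ)|) with hL
  have hLm : Measurable L := kj_L_meas
  set be : ℝ → ℂ := fun v => ((v * (G (z * v) * (A + L v)) : ℝ) : ℂ) with hbe
  set al : ℝ → ℂ := fun t => W (2 + t * I) * (y0 : ℂ) ^ (-(2 + t * I : ℂ)) with hal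
  set F : ℝ → ℝ → ℂ := fun v t => be v * al t * ((|v| : ℝ) : ℂ) ^ ((t : ℂ) * I) with hF
  have hy' : (y0 : ℂ) ≠ 0 := ofReal_ne_zero.mpr hy.ne'
  have hbm : Measurable be := by
    refine measurable_ofReal.comp (measurable_id.mul ?_)
    exact (h.meas.comp (measurable_const.mul measurable_id)).mul (measurable_const.add hLm)
  have hbi : IntegrableOn be (Ioi 0) := by
    refine Integrable.mono' (h.int.const_mul (1 + |A|)) hbm.aestronglyMeasurable ?_
    filter_upwards [ae_restrict_mem measurableSet_Ioi] with v hv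
    have hv0 : 0 < v := hv
    rw [hbe]
    simp only []
    rw [Complex.norm_real, Real.norm_eq_abs, abs_mul, abs_mul, abs_of_pos hv0]
    have h1 : |A + L v| ≤ (1 + |A|) * (1 + |L v|) := by
      have := abs_add_le A (L v)
      nlinarith [abs_nonneg A, abs_nonneg (L v), mul_nonneg (abs_nonneg A) (abs_nonneg (L v))]
    have h2 : 0 ≤ v * |G (z * v)| := mul_nonneg hv0.le (abs_nonneg _)
    calc v * (|G (z * v)| * |A + L v|) = v * |G (z * v)| * |A + L v| := by ring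
      _ ≤ v * |G (z * v)| * ((1 + |A|) * (1 + |L v|)) := mul_le_mul_of_nonneg_left h1 h2
      _ = (1 + |A|) * (v * |G (z * v)| * (1 + |L v|)) := by ring
  obtain ⟨hWc, hWi⟩ := kj_W hw
  have hyc : Continuous (fun t : ℝ => (y0 : ℂ) ^ (-(2 + t * I : ℂ))) :=
    Continuous.const_cpow (by fun_prop) (Or.inl hy')
  have hyn : ∀ t : ℝ, ‖(y0 : ℂ) ^ (-(2 + t * I : ℂ))‖ ≤ y0 ^ (-2 : ℝ) := by
    intro t
    rw [Complex.norm_cpow_eq_rpow_re_of_pos hy]
    simp
  have hai : Integrable al := by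
    exact hWi.mul_bdd hyc.aestronglyMeasurable (Filter.Eventually.of_forall hyn)
  have hum : Measurable (fun p : ℝ × ℝ => ((|p.1| : ℝ) : ℂ) ^ ((p.2 : ℂ) * I)) := by
    refine Measurable.pow ?_ ?_
    · exact measurable_ofReal.comp (measurable_norm.comp measurable_fst)
    · exact (measurable_ofReal.comp measurable_snd).mul_const _
  have hFi : Integrable (Function.uncurry F) ((volume.restrict (Ioi (0 : ℝ))).prod volume) := by
    have h1 := (hbi.mul_prod hai).mul_bdd (c := 1) (g := fun p : ℝ × ℝ =>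
      ((|p.1| : ℝ) : ℂ) ^ ((p.2 : ℂ) * I)) hum.aestronglyMeasurable
      (Filter.Eventually.of_forall fun p => kj_norm_it p.1 p.2)
    exact h1
  have e1 : ∀ v ∈ Ioi (0 : ℝ), ((w (y0 / v) / v * G (z * v) * (A + L v) : ℝ) : ℂ) =
      1 / (2 * Real.pi) * ∫ t : ℝ, F v t := by
    intro v hv
    have hv0 : 0 < v := hv
    have hv' : (v : ℂ) ≠ 0 := ofReal_ne_zero.mpr hv0.ne'
    have hinv := hw.inv 2 (by norm_num) (y0 / v) (div_pos hy hv0)
    have h2 : (((2 : ℝ) : ℂ)) = 2 := by norm_num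
    rw [h2] at hinv
    have h3 : ∀ t : ℝ, F v t = (be v / ((v : ℂ) * v)) * (W (2 + t * I) *
        ((y0 / v : ℝ) : ℂ) ^ (-(2 + t * I : ℂ))) := by
      intro t
      rw [hF]
      simp only []
      rw [kj_cpow_div hy hv0, abs_of_pos hv0, hal]
      simp only []
      field_simp
    have h4 : ((w (y0 / v) / v * G (z * v) * (A + L v) : ℝ) : ℂ) =
        (w (y0 / v) : ℂ) * ((be v / ((v : ℂ) * v))) := by
      rw [hbe]
      simp only []
      push_cast
      field_simp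
    rw [integral_congr_ae (Filter.Eventually.of_forall h3), integral_const_mul, h4, hinv]
    ring
  have e2 : ∀ t : ℝ, ∫ v in Ioi (0 : ℝ), F v t = al t * (A * M0 G z (2 + t * I) + M1 G z (2 + t * I)) := by
    intro t
    have h1 : ∀ v ∈ Ioi (0 : ℝ), F v t = al t * ((A : ℂ) * ((v : ℂ) ^ ((2 + t * I : ℂ) - 1) *
        (G (z * v) : ℂ)) + (v : ℂ) ^ ((2 + t * I : ℂ) - 1) * ((G (z * v) * L v : ℝ) : ℂ)) := by
      intro v hv
      have hv0 : 0 < v := hv
      rw [hF]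
      simp only []
      rw [kj_cpow_split hv0, abs_of_pos hv0, hbe]
      simp only []
      push_cast
      ring
    rw [setIntegral_congr_fun measurableSet_Ioi h1, integral_const_mul, integral_add
      (((kj_M0 h).1 t).const_mul _) ((kj_M1 h).1 t), integral_const_mul]
    rfl
  rw [← integral_complex_ofReal, setIntegral_congr_fun measurableSet_Ioi e1, integral_const_mul,
    integral_integral_swap hFi]
  congr 1
  exact integral_congr_ae (Filter.Eventually.of_forall e2)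

end

section

variable {G : ℝ → ℝ} {z : ℤ} {q : ℕ} [NeZero q]

theorem kj_tau0 : tau 0 = 0 := by simp [tau]

theorem kj_tau_nonneg (n : ℕ) : 0 ≤ tau n := by unfold tau; positivity

/-- the bound of the series -/
noncomputable def kjS (k : ℕ) : ℝ := ∑' g : ℕ, tau (k * g) * (g : ℝ) ^ (-2 : ℝ) * (1 + Real.log g)

theorem kj_hs {χ : DirichletCharacter ℂ q} (hχ : χ ≠ 1) {k : ℕ} (hk : 1 ≤ k) (t : ℝ) :
    (Summable fun g : ℕ => tau (k * g) * (g : ℝ) ^ (-2 : ℝ) * (1 + Real.log g)) ∧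
    HasSum (fun g : ℕ => (tau (k * g) : ℂ) * χ g * (g : ℂ) ^ (-(2 + t * I : ℂ))) (Zk χ k (2 + t * I)) ∧
    HasSum (fun g : ℕ => (tau (k * g) : ℂ) * χ g * (Real.log g : ℂ) * (g : ℂ) ^ (-(2 + t * I : ℂ)))
      (-deriv (Zk χ k) (2 + t * I)) ∧
    ‖Zk χ k (2 + t * I)‖ ≤ kjS k ∧ ‖deriv (Zk χ k) (2 + t * I)‖ ≤ kjS k := by
  have hre : (2 + t * I : ℂ).re = 2 := by simp
  obtain ⟨h1, h2, h3⟩ := zk_series_pr χ hχ hk (s := 2 + t * I) (by rw [hre]; norm_num)
  rw [hre] at h1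
  have hlog : ∀ g : ℕ, 0 ≤ Real.log g := fun g => Real.log_natCast_nonneg g
  have hn : ∀ g : ℕ, ‖(g : ℂ) ^ (-(2 + t * I : ℂ))‖ = (g : ℝ) ^ (-2 : ℝ) := by
    intro g
    rcases Nat.eq_zero_or_pos g with h | h
    · subst h
      have h0 : (-(2 + t * I : ℂ)) ≠ 0 := by
        intro h
        have := congrArg Complex.re h
        simp at this
      rw [Nat.cast_zero, Complex.zero_cpow h0, norm_zero, Nat.cast_zero, Real.zero_rpow (by norm_num)]
    · rw [Complex.norm_natCast_cpow_of_pos h]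
      simp
  have hp : ∀ g : ℕ, 0 ≤ tau (k * g) * (g : ℝ) ^ (-2 : ℝ) := fun g =>
    mul_nonneg (kj_tau_nonneg _) (Real.rpow_nonneg (Nat.cast_nonneg _) _)
  have n1 : ∀ g : ℕ, ‖(tau (k * g) : ℂ) * χ g * (g : ℂ) ^ (-(2 + t * I : ℂ))‖ ≤
      tau (k * g) * (g : ℝ) ^ (-2 : ℝ) * (1 + Real.log g) := by
    intro g
    rw [norm_mul, norm_mul, hn, Complex.norm_real, Real.norm_eq_abs, abs_of_nonneg (kj_tau_nonneg _)]
    have hx : ‖χ (g : ZMod q)‖ ≤ 1 := χ.norm_le_one _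
    calc tau (k * g) * ‖χ (g : ZMod q)‖ * (g : ℝ) ^ (-2 : ℝ)
        ≤ tau (k * g) * 1 * (g : ℝ) ^ (-2 : ℝ) := by
          refine mul_le_mul_of_nonneg_right (mul_le_mul_of_nonneg_left hx (kj_tau_nonneg _))
            (Real.rpow_nonneg (Nat.cast_nonneg _) _)
      _ = tau (k * g) * (g : ℝ) ^ (-2 : ℝ) * 1 := by ring
      _ ≤ _ := mul_le_mul_of_nonneg_left (by linarith [hlog g]) (hp g)
  have n2 : ∀ g : ℕ, ‖(tau (k * g) : ℂ) * χ g * (Real.log g : ℂ) * (g : ℂ) ^ (-(2 + t * I : ℂ))‖ ≤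
      tau (k * g) * (g : ℝ) ^ (-2 : ℝ) * (1 + Real.log g) := by
    intro g
    rw [norm_mul, norm_mul, norm_mul, hn, Complex.norm_real, Real.norm_eq_abs,
      abs_of_nonneg (kj_tau_nonneg _), Complex.norm_real, Real.norm_eq_abs, abs_of_nonneg (hlog g)]
    have hx : ‖χ (g : ZMod q)‖ ≤ 1 := χ.norm_le_one _
    calc tau (k * g) * ‖χ (g : ZMod q)‖ * Real.log g * (g : ℝ) ^ (-2 : ℝ)
        ≤ tau (k * g) * 1 * Real.log g * (g : ℝ) ^ (-2 : ℝ) := by
          refine mul_le_mul_of_nonneg_right (mul_le_mul_of_nonneg_right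
            (mul_le_mul_of_nonneg_left hx (kj_tau_nonneg _)) (hlog g))
            (Real.rpow_nonneg (Nat.cast_nonneg _) _)
      _ = tau (k * g) * (g : ℝ) ^ (-2 : ℝ) * Real.log g := by ring
      _ ≤ _ := mul_le_mul_of_nonneg_left (by linarith [hlog g]) (hp g)
  have s1 := Summable.of_norm_bounded h1 n1
  have s2 := Summable.of_norm_bounded h1 n2
  refine ⟨h1, ?_, ?_, ?_, ?_⟩
  · rw [← h2]; exact s1.hasSum
  · rw [← h3]; exact s2.hasSum
  · rw [← h2]; exact tsum_of_norm_bounded h1.hasSum n1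
  · rw [← norm_neg, ← h3]; exact tsum_of_norm_bounded h1.hasSum n2

theorem kj_zk_diff {χ : DirichletCharacter ℂ q} (hχ : χ ≠ 1) (k : ℕ) :
    Differentiable ℂ (Zk χ k) ∧ Differentiable ℂ (deriv (Zk χ k)) := by
  have h1 : Differentiable ℂ (Zk χ k) := by
    unfold Zk
    refine ((DirichletCharacter.differentiable_LFunction hχ).pow 2).mul ?_
    unfold Pk
    refine Differentiable.fun_sum fun h hh => ?_
    have hh0 : (h : ℂ) ≠ 0 := Nat.cast_ne_zero.mpr (Nat.pos_of_mem_divisors hh).ne'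
    refine Differentiable.mul_const (Differentiable.const_mul ?_ _) _
    exact (differentiable_neg).const_cpow (Or.inl hh0)
  refine ⟨h1, ?_⟩
  have h2 := (h1.differentiableOn (s := Set.univ)).deriv isOpen_univ
  exact differentiableOn_univ.mp h2

/-- the integrand of the right hand side -/
noncomputable def kjR (W : ℂ → ℂ) (χ : DirichletCharacter ℂ q) (k : ℕ) (G : ℝ → ℝ) (z : ℤ)
    (c0 A : ℝ) (t : ℝ) : ℂ :=
  W (2 + t * I) * (c0 : ℂ) ^ (-(2 + t * I : ℂ)) * (Zk χ k (2 + t * I) *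
    (A * M0 G z (2 + t * I) + M1 G z (2 + t * I)) - deriv (Zk χ k) (2 + t * I) * M0 G z (2 + t * I))

theorem kj_c0 {c0 : ℝ} (hc : 0 < c0) : (Continuous fun t : ℝ => (c0 : ℂ) ^ (-(2 + t * I : ℂ))) ∧
    ∀ t : ℝ, ‖(c0 : ℂ) ^ (-(2 + t * I : ℂ))‖ = c0 ^ (-2 : ℝ) := by
  refine ⟨Continuous.const_cpow (by fun_prop) (Or.inl (ofReal_ne_zero.mpr hc.ne')), fun t => ?_⟩
  rw [Complex.norm_cpow_eq_rpow_re_of_pos hc]
  simp

theorem kj_R_int {χ : DirichletCharacter ℂ q} (hχ : χ ≠ 1) {w : ℝ → ℝ} {W : ℂ → ℂ} (hw : MW w W)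
    {K : ℝ} (h : KjH G z K) {k : ℕ} (hk : 1 ≤ k) {c0 : ℝ} (hc : 0 < c0) (A : ℝ) :
    Integrable (kjR W χ k G z c0 A) := by
  obtain ⟨hWc, hWi⟩ := kj_W hw
  obtain ⟨-, m0b, m0c⟩ := kj_M0 h
  obtain ⟨-, m1b, m1c⟩ := kj_M1 h
  obtain ⟨hcc, hcn⟩ := kj_c0 hc
  obtain ⟨z1, z2⟩ := kj_zk_diff hχ k
  have hl : Continuous (fun t : ℝ => (2 + t * I : ℂ)) := by fun_prop
  have hK : 0 ≤ K := (norm_nonneg _).trans (m0b 0)
  have hS : 0 ≤ kjS k := (norm_nonneg _).trans (kj_hs hχ hk 0).2.2.2.1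
  have hc2 : 0 ≤ c0 ^ (-2 : ℝ) := Real.rpow_nonneg hc.le _
  have hcont : Continuous (fun t : ℝ => (c0 : ℂ) ^ (-(2 + t * I : ℂ)) * (Zk χ k (2 + t * I) *
      (A * M0 G z (2 + t * I) + M1 G z (2 + t * I)) -
      deriv (Zk χ k) (2 + t * I) * M0 G z (2 + t * I))) := by
    refine hcc.mul (Continuous.sub (Continuous.mul (z1.continuous.comp hl) ?_)
      ((z2.continuous.comp hl).mul m0c))
    exact (continuous_const.mul m0c).add m1c
  have hb : ∀ t : ℝ, ‖(c0 : ℂ) ^ (-(2 + t * I : ℂ)) * (Zk χ k (2 + t * I) *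
      (A * M0 G z (2 + t * I) + M1 G z (2 + t * I)) -
      deriv (Zk χ k) (2 + t * I) * M0 G z (2 + t * I))‖ ≤
      c0 ^ (-2 : ℝ) * (kjS k * (|A| * K + K) + kjS k * K) := by
    intro t
    obtain ⟨-, -, -, b1, b2⟩ := kj_hs hχ hk t
    rw [norm_mul, hcn]
    refine mul_le_mul_of_nonneg_left ?_ hc2
    refine (norm_sub_le _ _).trans (add_le_add ?_ ?_)
    · rw [norm_mul]
      refine mul_le_mul b1 ?_ (norm_nonneg _) hS
      refine (norm_add_le _ _).trans (add_le_add ?_ (m1b t))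
      rw [norm_mul, Complex.norm_real, Real.norm_eq_abs]
      exact mul_le_mul_of_nonneg_left (m0b t) (abs_nonneg _)
    · rw [norm_mul]
      exact mul_le_mul b2 (m0b t) (norm_nonneg _) hS
  have := hWi.mul_bdd hcont.aestronglyMeasurable (Filter.Eventually.of_forall hb)
  refine this.congr (Filter.Eventually.of_forall fun t => ?_)
  simp only []
  unfold kjR
  ring

theorem kj_sum {χ : DirichletCharacter ℂ q} (hχ : χ ≠ 1) {w : ℝ → ℝ} {W : ℂ → ℂ} (hw : MW w W)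
    {K : ℝ} (h : KjH G z K) {k : ℕ} (hk : 1 ≤ k) {c0 : ℝ} (hc : 0 < c0) (A : ℝ) :
    HasSum (fun m : ℕ => (tau (k * m) : ℂ) * χ m *
      ((∫ v in Ioi (0 : ℝ), w (c0 * m / v) / v * G (z * v) *
        (A + Real.log m + Real.log (|1 / v - (z : ℝ)|)) : ℝ) : ℂ))
      (1 / (2 * Real.pi) * ∫ t : ℝ, kjR W χ k G z c0 A t) := by
  obtain ⟨hWc, hWi⟩ := kj_W hw
  obtain ⟨-, m0b, m0c⟩ := kj_M0 h
  obtain ⟨-, m1b, m1c⟩ := kj_M1 h
  obtain ⟨hcc, hcn⟩ := kj_c0 hc
  have hK : 0 ≤ K := (norm_nonneg _).trans (m0b 0)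
  have hc2 : 0 ≤ c0 ^ (-2 : ℝ) := Real.rpow_nonneg hc.le _
  set P : ℂ := 1 / (2 * (Real.pi : ℂ)) with hP
  set F : ℕ → ℝ → ℂ := fun m t => P * (W (2 + t * I) * (c0 : ℂ) ^ (-(2 + t * I : ℂ)) *
    ((A * M0 G z (2 + t * I) + M1 G z (2 + t * I)) *
      ((tau (k * m) : ℂ) * χ m * (m : ℂ) ^ (-(2 + t * I : ℂ))) +
      M0 G z (2 + t * I) * ((tau (k * m) : ℂ) * χ m * (Real.log m : ℂ) *
        (m : ℂ) ^ (-(2 + t * I : ℂ))))) with hF
  -- the terms
  have hterm : ∀ m : ℕ, (tau (k * m) : ℂ) * χ m *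
      ((∫ v in Ioi (0 : ℝ), w (c0 * m / v) / v * G (z * v) *
        (A + Real.log m + Real.log (|1 / v - (z : ℝ)|)) : ℝ) : ℂ) = ∫ t : ℝ, F m t := by
    intro m
    rcases Nat.eq_zero_or_pos m with h0 | h0
    · subst h0
      have : ∀ t : ℝ, F 0 t = 0 := by
        intro t
        rw [hF]
        simp [kj_tau0]
      rw [integral_congr_ae (Filter.Eventually.of_forall this)]
      simp [kj_tau0]
    · have hm : (0 : ℝ) < m := Nat.cast_pos.mpr h0
      rw [kj_one hw h (mul_pos hc hm) (A + Real.log m), ← mul_assoc, ← integral_const_mul]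
      refine integral_congr_ae (Filter.Eventually.of_forall fun t => ?_)
      simp only [hF]
      rw [show ((c0 * m : ℝ) : ℂ) = ((c0 : ℝ) : ℂ) * (((m : ℝ)) : ℂ) by push_cast; ring,
        Complex.mul_cpow_ofReal_nonneg hc.le hm.le]
      push_cast
      ring
  -- bounds
  have hbd : ∀ (m : ℕ) (t : ℝ), ‖F m t‖ ≤ (‖P‖ * c0 ^ (-2 : ℝ) * (|A| * K + 2 * K)) *
      (tau (k * m) * (m : ℝ) ^ (-2 : ℝ) * (1 + Real.log m)) * ‖W (2 + t * I)‖ := by
    intro m t
    have hlog : 0 ≤ Real.log m := Real.log_natCast_nonneg m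
    have hn : ‖(m : ℂ) ^ (-(2 + t * I : ℂ))‖ = (m : ℝ) ^ (-2 : ℝ) := by
      rcases Nat.eq_zero_or_pos m with h | h
      · subst h
        have h0 : (-(2 + t * I : ℂ)) ≠ 0 := by
          intro h
          have := congrArg Complex.re h
          simp at this
        rw [Nat.cast_zero, Complex.zero_cpow h0, norm_zero, Nat.cast_zero,
          Real.zero_rpow (by norm_num)]
      · rw [Complex.norm_natCast_cpow_of_pos h]
        simp
    have hx : ‖χ (m : ZMod q)‖ ≤ 1 := χ.norm_le_one _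
    have ht : 0 ≤ tau (k * m) := kj_tau_nonneg _
    have hr : 0 ≤ (m : ℝ) ^ (-2 : ℝ) := Real.rpow_nonneg (Nat.cast_nonneg _) _
    have hA : ‖(A : ℂ) * M0 G z (2 + t * I) + M1 G z (2 + t * I)‖ ≤ |A| * K + K := by
      refine (norm_add_le _ _).trans (add_le_add ?_ (m1b t))
      rw [norm_mul, Complex.norm_real, Real.norm_eq_abs]
      exact mul_le_mul_of_nonneg_left (m0b t) (abs_nonneg _)
    have hT : tau (k * m) * ‖χ (m : ZMod q)‖ * (m : ℝ) ^ (-2 : ℝ) ≤ tau (k * m) * (m : ℝ) ^ (-2 : ℝ) := by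
      have := mul_le_mul_of_nonneg_right (mul_le_mul_of_nonneg_left hx ht) hr
      rwa [mul_one] at this
    have hT0 : 0 ≤ tau (k * m) * (m : ℝ) ^ (-2 : ℝ) := mul_nonneg ht hr
    simp only [hF]
    rw [norm_mul, norm_mul, norm_mul, hcn]
    have hin : ‖((A : ℂ) * M0 G z (2 + t * I) + M1 G z (2 + t * I)) *
        ((tau (k * m) : ℂ) * χ m * (m : ℂ) ^ (-(2 + t * I : ℂ))) +
        M0 G z (2 + t * I) * ((tau (k * m) : ℂ) * χ m * (Real.log m : ℂ) *
          (m : ℂ) ^ (-(2 + t * I : ℂ)))‖ ≤ (|A| * K + 2 * K) *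
          (tau (k * m) * (m : ℝ) ^ (-2 : ℝ) * (1 + Real.log m)) := by
      refine (norm_add_le _ _).trans ?_
      rw [norm_mul, norm_mul, norm_mul, norm_mul, norm_mul, norm_mul, norm_mul, hn,
        Complex.norm_real, Complex.norm_real, Real.norm_eq_abs, Real.norm_eq_abs, abs_of_nonneg ht,
        abs_of_nonneg hlog]
      have a1 := mul_le_mul hA hT (mul_nonneg (mul_nonneg ht (norm_nonneg _)) hr) (by positivity)
      have a2 : ‖M0 G z (2 + t * I)‖ * (tau (k * m) * ‖χ (m : ZMod q)‖ * Real.log m *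
          (m : ℝ) ^ (-2 : ℝ)) ≤ K * (tau (k * m) * (m : ℝ) ^ (-2 : ℝ) * Real.log m) := by
        refine mul_le_mul (m0b t) ?_ (by positivity) hK
        have := mul_le_mul_of_nonneg_right hT hlog
        calc tau (k * m) * ‖χ (m : ZMod q)‖ * Real.log m * (m : ℝ) ^ (-2 : ℝ)
            = tau (k * m) * ‖χ (m : ZMod q)‖ * (m : ℝ) ^ (-2 : ℝ) * Real.log m := by ring
          _ ≤ _ := this
      have a3 : 0 ≤ (|A| * K + K) * (tau (k * m) * (m : ℝ) ^ (-2 : ℝ) * Real.log m) := by positivity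
      have a4 : 0 ≤ K * (tau (k * m) * (m : ℝ) ^ (-2 : ℝ)) := by positivity
      linarith
    calc ‖P‖ * (‖W (2 + t * I)‖ * c0 ^ (-2 : ℝ) * _) ≤
        ‖P‖ * (‖W (2 + t * I)‖ * c0 ^ (-2 : ℝ) * ((|A| * K + 2 * K) *
          (tau (k * m) * (m : ℝ) ^ (-2 : ℝ) * (1 + Real.log m)))) := by
          refine mul_le_mul_of_nonneg_left (mul_le_mul_of_nonneg_left hin ?_) (norm_nonneg _)
          exact mul_nonneg (norm_nonneg _) hc2
      _ = _ := by ring
  have hcont : ∀ m : ℕ, Continuous (F m) := by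
    intro m
    rcases Nat.eq_zero_or_pos m with h0 | h0
    · have : F m = fun _ => 0 := by
        funext t
        rw [hF, h0]
        simp [kj_tau0]
      rw [this]
      exact continuous_const
    · have hm' : (m : ℂ) ≠ 0 := Nat.cast_ne_zero.mpr h0.ne'
      have h1 : Continuous (fun t : ℝ => (m : ℂ) ^ (-(2 + t * I : ℂ))) :=
        Continuous.const_cpow (by fun_prop) (Or.inl hm')
      simp only [hF]
      refine continuous_const.mul ((hWc.mul hcc).mul (Continuous.add ?_ ?_))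
      · exact ((continuous_const.mul m0c).add m1c).mul (continuous_const.mul h1)
      · exact m0c.mul (continuous_const.mul h1)
  have hint : ∀ m : ℕ, Integrable (F m) := fun m =>
    Integrable.mono' (hWi.norm.const_mul _) (hcont m).aestronglyMeasurable
      (Filter.Eventually.of_forall (hbd m))
  have hsum : Summable fun m : ℕ => ∫ t : ℝ, ‖F m t‖ := by
    have hs := (kj_hs hχ hk 0).1
    refine Summable.of_nonneg_of_le (fun m => integral_nonneg fun t => norm_nonneg _) (fun m => ?_)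
      ((hs.mul_left (‖P‖ * c0 ^ (-2 : ℝ) * (|A| * K + 2 * K))).mul_right
        (∫ t : ℝ, ‖W (2 + t * I)‖))
    rw [← integral_const_mul]
    exact integral_mono (hint m).norm (hWi.norm.const_mul _) (hbd m)
  have hmain := hasSum_integral_of_summable_integral_norm hint hsum
  have hfun : (fun m : ℕ => (tau (k * m) : ℂ) * χ m *
      ((∫ v in Ioi (0 : ℝ), w (c0 * m / v) / v * G (z * v) *
        (A + Real.log m + Real.log (|1 / v - (z : ℝ)|)) : ℝ) : ℂ)) = fun m => ∫ t : ℝ, F m t :=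
    funext hterm
  rw [hfun]
  have hval : 1 / (2 * (Real.pi : ℂ)) * ∫ t : ℝ, kjR W χ k G z c0 A t = ∫ t : ℝ, ∑' m : ℕ, F m t := by
    rw [← integral_const_mul]
    refine integral_congr_ae (Filter.Eventually.of_forall fun t => ?_)
    obtain ⟨-, t1, t2, -, -⟩ := kj_hs hχ hk t
    have h3 := (((t1.mul_left (A * M0 G z (2 + t * I) + M1 G z (2 + t * I))).add
      (t2.mul_left (M0 G z (2 + t * I)))).mul_left
      (W (2 + t * I) * (c0 : ℂ) ^ (-(2 + t * I : ℂ)))).mul_left P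
    simp only [hF]
    rw [h3.tsum_eq]
    unfold kjR
    ring
  rw [hval]
  exact hmain

end

section

theorem kj_cov {κ : ℝ} (hκ : 0 < κ) (g : ℝ → ℝ) :
    ∫ a in Ioi (0 : ℝ), g a = ∫ v in Ioi (0 : ℝ), κ / v ^ 2 * g (κ / v) := by
  have h1 : (fun v : ℝ => κ / v) '' (Ioi 0) = Ioi 0 := by
    ext a
    constructor
    · rintro ⟨v, hv, rfl⟩
      exact div_pos hκ hv
    · intro ha
      have ha' : 0 < a := ha
      refine ⟨κ / a, div_pos hκ ha', ?_⟩
      simp only []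
      field_simp
  have h2 := integral_image_eq_integral_abs_deriv_smul (f := fun v : ℝ => κ / v)
    (f' := fun v : ℝ => -(κ / v ^ 2)) (s := Ioi (0 : ℝ)) measurableSet_Ioi (fun v hv => by
      have hv' : v ≠ 0 := ne_of_gt hv
      have := ((hasDerivAt_inv hv').const_mul κ)
      have h3 : HasDerivAt (fun v : ℝ => κ / v) (-(κ / v ^ 2)) v := by
        have e : κ * -(v ^ 2)⁻¹ = -(κ / v ^ 2) := by rw [mul_neg, div_eq_mul_inv]
        rw [e] at this
        exact this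
      exact h3.hasDerivWithinAt) (fun v hv v' hv' h => by
      have h1 : 0 < v := hv
      have h2 : 0 < v' := hv'
      simp only [] at h
      field_simp at h
      exact h.symm) g
  rw [h1] at h2
  rw [h2]
  refine setIntegral_congr_fun measurableSet_Ioi fun v hv => ?_
  have hv0 : 0 < v := hv
  simp only [smul_eq_mul]
  rw [abs_neg, abs_of_pos (by positivity)]

/-- the integral in the main term -/
noncomputable def kjI (G : ℝ → ℝ) (w : ℝ → ℝ) (Y : ℝ) (N j b : ℕ) (B : ℝ) (g : ℤ) : ℝ :=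
  ∫ a in Ioi (0 : ℝ), w (j * a / Y) / a * G (g * N / (a * b)) * (Real.log |a * b - g * N| + B)

theorem kj_I {G : ℝ → ℝ} {w : ℝ → ℝ} {Y : ℝ} (hY : 0 < Y) {N j b k m : ℕ} (hN : 1 ≤ N)
    (hj : 1 ≤ j) (hb : 1 ≤ b) (hk : 1 ≤ k) (hm : 1 ≤ m) (B : ℝ) {z : ℤ} (hz : z = 1 ∨ z = -1) :
    kjI G w Y N j b B (k * (z * m)) =
      ∫ v in Ioi (0 : ℝ), w ((j * k * N / (b * Y) : ℝ) * m / v) / v * G (z * v) *
        ((Real.log (k * N) + B) + Real.log m + Real.log (|1 / v - (z : ℝ)|)) := by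
  have hN' : (0 : ℝ) < N := by exact_mod_cast hN
  have hb' : (0 : ℝ) < b := by exact_mod_cast hb
  have hk' : (0 : ℝ) < k := by exact_mod_cast hk
  have hm' : (0 : ℝ) < m := by exact_mod_cast hm
  have hκ : (0 : ℝ) < k * m * N / b := by positivity
  unfold kjI
  rw [kj_cov hκ]
  refine integral_congr_ae ?_
  have hne : ∀ᵐ v : ℝ ∂(volume.restrict (Ioi 0)), v ≠ 1 :=
    ae_restrict_of_ae (Measure.ae_ne volume 1)
  filter_upwards [hne, ae_restrict_mem measurableSet_Ioi] with v hv1 hv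
  have hv0 : 0 < v := hv
  have e1 : (j : ℝ) * (k * m * N / b / v) / Y = (j * k * N / (b * Y) : ℝ) * m / v := by
    field_simp
  have e2 : (((k : ℤ) * (z * m) : ℤ) : ℝ) * N / ((k * m * N / b / v) * b) = z * v := by
    push_cast
    field_simp
  have e3 : (k * m * N / b / v : ℝ) * b - (((k : ℤ) * (z * m) : ℤ) : ℝ) * N =
      (k * N) * m * (1 / v - z) := by
    push_cast
    field_simp
  have hzv : (1 / v - (z : ℝ)) ≠ 0 := by
    rcases hz with h | h
    · rw [h]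
      push_cast
      intro h2
      apply hv1
      field_simp at h2
      linarith
    · rw [h]
      push_cast
      have : 0 < 1 / v := by positivity
      linarith
  rw [e1, e2, e3, abs_mul, abs_mul, abs_mul, Real.log_mul (by positivity) (abs_ne_zero.mpr hzv),
    Real.log_mul (by positivity) (by positivity), abs_of_pos hk', abs_of_pos hN', abs_of_pos hm']
  field_simp
  ring

variable {q : ℕ} [NeZero q]

theorem kj_nat {χ : DirichletCharacter ℂ q} (hχ : χ ≠ 1) {w : ℝ → ℝ} {W : ℂ → ℂ} (hw : MW w W)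
    {G : ℝ → ℝ} {K : ℝ} {z : ℤ} (h : KjH G z K) {Y : ℝ} (hY : 0 < Y) {N j b k : ℕ} (hN : 1 ≤ N)
    (hj : 1 ≤ j) (hb : 1 ≤ b) (hk : 1 ≤ k) (B : ℝ) (hz : z = 1 ∨ z = -1) :
    HasSum (fun m : ℕ => (tau ((k : ℤ) * (z * m)).natAbs : ℂ) * χ ((z * m : ℤ) : ZMod q) *
      (kjI G w Y N j b B (k * (z * m)) : ℂ))
      (χ (z : ZMod q) * (1 / (2 * Real.pi) * ∫ t : ℝ, kjR W χ k G z (j * k * N / (b * Y))
        (Real.log (k * N) + B) t)) := by
  have hN' : (0 : ℝ) < N := by exact_mod_cast hN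
  have hb' : (0 : ℝ) < b := by exact_mod_cast hb
  have hk' : (0 : ℝ) < k := by exact_mod_cast hk
  have hj' : (0 : ℝ) < j := by exact_mod_cast hj
  have h1 := (kj_sum hχ hw h hk (c0 := (j * k * N / (b * Y) : ℝ)) (by positivity)
    (Real.log (k * N) + B)).mul_left (χ (z : ZMod q))
  have hfun : (fun m : ℕ => (tau ((k : ℤ) * (z * m)).natAbs : ℂ) * χ ((z * m : ℤ) : ZMod q) *
      (kjI G w Y N j b B (k * (z * m)) : ℂ)) = fun m : ℕ => χ (z : ZMod q) *
      ((tau (k * m) : ℂ) * χ m *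
      ((∫ v in Ioi (0 : ℝ), w ((j * k * N / (b * Y) : ℝ) * m / v) / v * G (z * v) *
        ((Real.log (k * N) + B) + Real.log m + Real.log (|1 / v - (z : ℝ)|)) : ℝ) : ℂ)) := by
    funext m
    have hna : ((k : ℤ) * (z * m)).natAbs = k * m := by
      rw [Int.natAbs_mul, Int.natAbs_mul, Int.natAbs_natCast, Int.natAbs_natCast]
      rcases hz with h | h <;> simp [h]
    rw [hna]
    rcases Nat.eq_zero_or_pos m with h0 | h0
    · subst h0
      simp [kj_tau0]
    · rw [kj_I hY hN hj hb hk h0 B hz]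
      push_cast
      rw [map_mul]
      ring
  rw [hfun]
  exact h1

theorem kj_Z {χ : DirichletCharacter ℂ q} (hχ : χ ≠ 1) {w : ℝ → ℝ} {W : ℂ → ℂ} (hw : MW w W)
    {G : ℝ → ℝ} {K K' : ℝ} (h : KjH G 1 K) (h' : KjH G (-1) K') {Y : ℝ} (hY : 0 < Y)
    {N j b k : ℕ} (hN : 1 ≤ N) (hj : 1 ≤ j) (hb : 1 ≤ b) (hk : 1 ≤ k) (B : ℝ) :
    HasSum (fun g : ℤ => (tau ((k : ℤ) * g).natAbs : ℂ) * χ (g : ZMod q) *
      (kjI G w Y N j b B (k * g) : ℂ))
      (∑ z ∈ ({1, -1} : Finset ℤ), χ (z : ZMod q) * (1 / (2 * Real.pi) * ∫ t : ℝ,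
        kjR W χ k G z (j * k * N / (b * Y)) (Real.log (k * N) + B) t)) := by
  have h1 := kj_nat hχ hw h hY hN hj hb hk B (Or.inl rfl)
  have h2 := kj_nat hχ hw h' hY hN hj hb hk B (Or.inr rfl)
  simp only [one_mul] at h1
  simp only [neg_mul, one_mul] at h2
  have h3 := HasSum.of_nat_of_neg (f := fun g : ℤ => (tau ((k : ℤ) * g).natAbs : ℂ) *
    χ (g : ZMod q) * (kjI G w Y N j b B (k * g) : ℂ)) h1 h2
  have h4 : (tau ((k : ℤ) * 0).natAbs : ℂ) * χ ((0 : ℤ) : ZMod q) *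
      (kjI G w Y N j b B (k * 0) : ℂ) = 0 := by
    simp [kj_tau0]
  rw [h4, sub_zero] at h3
  rw [Finset.sum_pair (by norm_num)]
  exact h3

end

section

variable {q : ℕ} [NeZero q]

theorem kj_H {G : ℝ → ℝ} {U c : ℝ} (hG : Pool.Agent.LSPO.GOK G U c) {z : ℤ} (hz : z = 1 ∨ z = -1) :
    KjH G z (∫ v in Ioi (0 : ℝ), v * |G (z * v)| * (1 + |Real.log (|1 / v - (z : ℝ)|)|)) :=
  ⟨kj_meas hG, kj_int hG (by rcases hz with h | h <;> simp [h]), rfl⟩

/-- the constant of the index `l` -/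
noncomputable def kjB (q k l : ℕ) : ℝ :=
  2 * Real.eulerMascheroniConstant - 2 * Real.log (q * k * l)

/-- one index `k` -/
theorem kj_k {χ : DirichletCharacter ℂ q} (hχ : χ ≠ 1) {w : ℝ → ℝ} {W : ℂ → ℂ} (hw : MW w W)
    {G : ℝ → ℝ} {K K' : ℝ} (h : KjH G 1 K) (h' : KjH G (-1) K') {Y : ℝ} (hY : 0 < Y)
    {N j b k : ℕ} (hN : 1 ≤ N) (hj : 1 ≤ j) (hb : 1 ≤ b) (hk : 1 ≤ k) :
    HasSum (fun g : ℤ => if (k : ℤ) ∣ g then (tau g.natAbs : ℂ) * (χ N / q *
      (χ ((g / (k : ℤ) : ℤ)) * χ ((b / k : ℕ)) * ∑ l ∈ (b / k).divisors,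
        (ArithmeticFunction.moebius l : ℂ) / l * (kjI G w Y N j b (kjB q k l) g : ℂ))) else 0)
      (χ N / q * (χ ((b / k : ℕ)) * ∑ l ∈ (b / k).divisors,
        (ArithmeticFunction.moebius l : ℂ) / l * ∑ z ∈ ({1, -1} : Finset ℤ), χ (z : ZMod q) *
          (1 / (2 * Real.pi) * ∫ t : ℝ, kjR W χ k G z (j * k * N / (b * Y))
            (Real.log (k * N) + kjB q k l) t))) := by
  have hk0 : (k : ℤ) ≠ 0 := by exact_mod_cast (Nat.one_le_iff_ne_zero.mp hk)
  have hinj : Function.Injective (fun g : ℤ => (k : ℤ) * g) := fun a b hab =>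
    mul_left_cancel₀ hk0 hab
  refine (hinj.hasSum_iff ?_).mp ?_
  · intro g hg
    rw [if_neg]
    rintro ⟨c, hc⟩
    exact hg ⟨c, hc.symm⟩
  · have h1 : ∀ l ∈ (b / k).divisors, HasSum (fun g : ℤ =>
        (ArithmeticFunction.moebius l : ℂ) / l * ((tau ((k : ℤ) * g).natAbs : ℂ) * χ (g : ZMod q) *
        (kjI G w Y N j b (kjB q k l) (k * g) : ℂ)))
        ((ArithmeticFunction.moebius l : ℂ) / l * ∑ z ∈ ({1, -1} : Finset ℤ), χ (z : ZMod q) *
          (1 / (2 * Real.pi) * ∫ t : ℝ, kjR W χ k G z (j * k * N / (b * Y))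
            (Real.log (k * N) + kjB q k l) t)) := fun l _ =>
      (kj_Z hχ hw h h' hY hN hj hb hk (kjB q k l)).mul_left _
    have h2 := ((hasSum_sum h1).mul_left (χ ((b / k : ℕ)))).mul_left (χ N / q)
    refine Eq.mp (congrArg (fun f => HasSum f _) (funext fun g => ?_)) h2
    simp only [Function.comp_apply]
    rw [if_pos (dvd_mul_right _ _), Int.mul_ediv_cancel_left _ hk0]
    rw [Finset.mul_sum, Finset.mul_sum, Finset.mul_sum, Finset.mul_sum, Finset.mul_sum]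
    refine Finset.sum_congr rfl fun l _ => ?_
    ring

theorem kj_p {χ : DirichletCharacter ℂ q} (hχ : χ ≠ 1) {w : ℝ → ℝ} {W : ℂ → ℂ} (hw : MW w W)
    {ρ : ℝ → ℝ} {K K' : ℝ} (h : KjH (GG ρ) 1 K) (h' : KjH (GG ρ) (-1) K') {Y : ℝ} (hY : 0 < Y)
    {N j b : ℕ} (hN : 1 ≤ N) (hj : 1 ≤ j) (hb : 1 ≤ b) :
    ∑' g : ℤ, (tau g.natAbs : ℂ) * MT ρ χ N (fun y => w (y / Y)) j b g =
      ∑ k ∈ b.divisors, χ N / q * (χ ((b / k : ℕ)) * ∑ l ∈ (b / k).divisors,
        (ArithmeticFunction.moebius l : ℂ) / l * ∑ z ∈ ({1, -1} : Finset ℤ), χ (z : ZMod q) *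
          (1 / (2 * Real.pi) * ∫ t : ℝ, kjR W χ k (GG ρ) z (j * k * N / (b * Y))
            (Real.log (k * N) + kjB q k l) t)) := by
  have h1 := hasSum_sum (fun k (hk : k ∈ b.divisors) =>
    kj_k hχ hw h h' hY hN hj hb (Nat.pos_of_mem_divisors hk))
  rw [← h1.tsum_eq]
  refine tsum_congr fun g => ?_
  unfold MT
  rw [Finset.mul_sum, Finset.mul_sum, Finset.sum_filter]
  refine Finset.sum_congr rfl fun k _ => ?_
  by_cases hk : (k : ℤ) ∣ g
  · rw [if_pos hk, if_pos hk]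
    congr 3
    refine Finset.sum_congr rfl fun l _ => ?_
    congr 2
    unfold kjI kjB
    refine integral_congr_ae (Filter.Eventually.of_forall fun a => ?_)
    simp only []
    ring
  · rw [if_neg hk, if_neg hk]

theorem kj_c0_pow {c d : ℝ} (hc : 0 < c) (hd : 0 < d) (t : ℝ) :
    ((c / d : ℝ) : ℂ) ^ (-(2 + t * I : ℂ)) =
      ((d : ℝ) : ℂ) ^ (2 + t * I : ℂ) * ((c : ℝ) : ℂ) ^ (-(2 + t * I : ℂ)) := by
  have h1 : ((c / d : ℝ) : ℂ) = ((c : ℝ) : ℂ) * ((d⁻¹ : ℝ) : ℂ) := by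
    rw [← ofReal_mul, div_eq_mul_inv]
  rw [h1, Complex.mul_cpow_ofReal_nonneg hc.le (inv_nonneg.mpr hd.le), mul_comm]
  congr 1
  rw [ofReal_inv, Complex.inv_cpow _ _ (by
      rw [Complex.arg_ofReal_of_nonneg hd.le]; exact Real.pi_pos.ne), Complex.cpow_neg, inv_inv]

theorem om_mellin_pr {χ : DirichletCharacter ℂ q} (hχ : χ ≠ 1) {T : ℝ} {ρ : ℝ → ℝ} (hρ : KerC T ρ)
    {w : ℝ → ℝ} {W : ℂ → ℂ} (hw : MW w W) {N e : ℕ} (hN : 1 ≤ N) (he : 1 ≤ e) {Y : ℝ}
    (hY : 0 < Y) :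
    OM ρ χ N (fun y => w (y / Y)) e = χ N * (1 / (2 * Real.pi)) * ∫ t : ℝ, W (2 + t * I) *
      (((Y / N : ℝ) : ℂ) ^ (2 + t * I : ℂ)) * PH χ N e (GG ρ) (2 + t * I) := by
  obtain ⟨c, hG⟩ := Pool.Agent.LSP.gok_gg hρ.toKerL
  have h := kj_H hG (z := 1) (Or.inl rfl)
  have h' := kj_H hG (z := -1) (Or.inr rfl)
  have hN' : (0 : ℝ) < N := by exact_mod_cast hN
  have hint : ∀ p ∈ e.divisorsAntidiagonal, ∀ k ∈ p.2.divisors, ∀ l ∈ (p.2 / k).divisors,
      ∀ z ∈ ({1, -1} : Finset ℤ), Integrable (kjR W χ k (GG ρ) z (p.1 * k * N / (p.2 * Y))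
        (Real.log (k * N) + kjB q k l)) := by
    intro p hp k hk l _ z hz
    obtain ⟨hpe, he0⟩ := Nat.mem_divisorsAntidiagonal.mp hp
    have h1 : 0 < p.1 := Nat.pos_of_ne_zero fun h => he0 (by rw [← hpe, h, zero_mul])
    have h2 : 0 < p.2 := Nat.pos_of_ne_zero fun h => he0 (by rw [← hpe, h, mul_zero])
    have hk0 : 0 < k := Nat.pos_of_mem_divisors hk
    have hz' : z = 1 ∨ z = -1 := by simpa using hz
    have h1' : (0 : ℝ) < p.1 := by exact_mod_cast h1
    have h2' : (0 : ℝ) < p.2 := by exact_mod_cast h2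
    have hk' : (0 : ℝ) < k := by exact_mod_cast hk0
    exact kj_R_int hχ hw (kj_H hG hz') hk0 (by positivity) _
  -- the integrand
  have hR : ∀ t : ℝ, W (2 + t * I) * (((Y / N : ℝ) : ℂ) ^ (2 + t * I : ℂ)) *
      PH χ N e (GG ρ) (2 + t * I) = ∑ p ∈ e.divisorsAntidiagonal, ∑ k ∈ p.2.divisors,
        ∑ l ∈ (p.2 / k).divisors, ∑ z ∈ ({1, -1} : Finset ℤ),
          (2 * Real.pi / (q * e) * χ p.1 * χ ((p.2 / k : ℕ)) *
            ((ArithmeticFunction.moebius l : ℂ) / l) * χ (z : ZMod q)) *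
            kjR W χ k (GG ρ) z (p.1 * k * N / (p.2 * Y)) (Real.log (k * N) + kjB q k l) t := by
    intro t
    unfold PH
    simp only [Finset.mul_sum]
    refine Finset.sum_congr rfl fun p hp => Finset.sum_congr rfl fun k hk =>
      Finset.sum_congr rfl fun l _ => Finset.sum_congr rfl fun z _ => ?_
    obtain ⟨hpe, he0⟩ := Nat.mem_divisorsAntidiagonal.mp hp
    have h1 : 0 < p.1 := Nat.pos_of_ne_zero fun h => he0 (by rw [← hpe, h, zero_mul])
    have h2 : 0 < p.2 := Nat.pos_of_ne_zero fun h => he0 (by rw [← hpe, h, mul_zero])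
    have hk0 : 0 < k := Nat.pos_of_mem_divisors hk
    have h1' : (0 : ℝ) < p.1 := by exact_mod_cast h1
    have h2' : (0 : ℝ) < p.2 := by exact_mod_cast h2
    have hk' : (0 : ℝ) < k := by exact_mod_cast hk0
    have hc : (p.1 * k * N / (p.2 * Y) : ℝ) = ((p.1 * k : ℝ) / p.2) / (Y / N) := by
      field_simp
    have hA : (Real.log (k * N) + 2 * Real.eulerMascheroniConstant -
        2 * Real.log (q * k * l) : ℝ) = Real.log (k * N) + kjB q k l := by
      unfold kjB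
      ring
    unfold kjR
    rw [hc, kj_c0_pow (c := (p.1 * k : ℝ) / p.2) (d := Y / N) (by positivity) (by positivity), hA]
    ring
  rw [integral_congr_ae (Filter.Eventually.of_forall hR)]
  rw [integral_finsetSum _ fun p hp => integrable_finsetSum _ fun k hk =>
    integrable_finsetSum _ fun l hl => integrable_finsetSum _ fun z hz =>
      (hint p hp k hk l hl z hz).const_mul _]
  unfold OM
  rw [Finset.mul_sum, Finset.mul_sum]
  refine Finset.sum_congr rfl fun p hp => ?_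
  obtain ⟨hpe, he0⟩ := Nat.mem_divisorsAntidiagonal.mp hp
  have h1 : 0 < p.1 := Nat.pos_of_ne_zero fun h => he0 (by rw [← hpe, h, zero_mul])
  have h2 : 0 < p.2 := Nat.pos_of_ne_zero fun h => he0 (by rw [← hpe, h, mul_zero])
  rw [kj_p hχ hw h h' hY hN h1 h2]
  rw [integral_finsetSum _ fun k hk => integrable_finsetSum _ fun l hl =>
    integrable_finsetSum _ fun z hz => (hint p hp k hk l hl z hz).const_mul _]
  rw [Finset.mul_sum, Finset.mul_sum, Finset.mul_sum]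
  refine Finset.sum_congr rfl fun k hk => ?_
  rw [integral_finsetSum _ fun l hl => integrable_finsetSum _ fun z hz =>
    (hint p hp k hk l hl z hz).const_mul _]
  simp only [Finset.mul_sum]
  refine Finset.sum_congr rfl fun l hl => ?_
  rw [integral_finsetSum _ fun z hz => (hint p hp k hk l hl z hz).const_mul _]
  simp only [Finset.mul_sum]
  refine Finset.sum_congr rfl fun z hz => ?_
  rw [integral_const_mul]
  ring

end

end Pool.Agent.LK
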