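import Pool.Agent.Lib_helper31.LK.DefsP
import Pool.Agent.Lib_helper98.GAF.Lgr

/-! LSP3, part K, block KG2: bounds for `L` and `Zk`. -/

namespace Pool.Agent.LK

open Complex MeasureTheory Set
open Pool.Agent.LSP (tau GG tp KerL)

variable {q : ℕ} [NeZero q]

theorem kg2_tau_le {k h : ℕ} (hk : k ≠ 0) (hh : h ∣ k) : tau (k / h) ≤ tau k := by
  unfold tau
  exact_mod_cast Finset.card_le_card (Nat.divisors_subset_of_dvd hk (Nat.div_dvd_of_dvd hh))

theorem kg2_mu (h : ℕ) : ‖(ArithmeticFunction.moebius h : ℂ)‖ ≤ 1 := by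
  have h1 : |(ArithmeticFunction.moebius h : ℤ)| ≤ 1 := ArithmeticFunction.abs_moebius_le_one
  rw [Complex.norm_intCast]
  exact_mod_cast h1

theorem kg2_pow {h : ℕ} (hh : 0 < h) {s : ℂ} (hs : 0 ≤ s.re) : ‖(h : ℂ) ^ (-s)‖ ≤ 1 := by
  rw [Complex.norm_natCast_cpow_of_pos hh]
  refine Real.rpow_le_one_of_one_le_of_nonpos (by exact_mod_cast hh) ?_
  rw [neg_re]
  linarith

theorem kg2_P (χ : DirichletCharacter ℂ q) {k : ℕ} (hk : 1 ≤ k) {s : ℂ} (hs : 0 ≤ s.re) :
    ‖Pk χ k s‖ ≤ tau k ^ 2 := by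
  have hk0 : k ≠ 0 := by omega
  unfold Pk
  refine (norm_sum_le _ _).trans ?_
  calc ∑ h ∈ k.divisors, ‖(ArithmeticFunction.moebius h : ℂ) * χ h * (h : ℂ) ^ (-s) *
        (tau (k / h) : ℂ)‖ ≤ ∑ h ∈ k.divisors, tau k := by
        refine Finset.sum_le_sum fun h hh => ?_
        have hd := Nat.dvd_of_mem_divisors hh
        have hp := Nat.pos_of_mem_divisors hh
        have ht : ‖(tau (k / h) : ℂ)‖ ≤ tau k := by
          rw [Complex.norm_real, Real.norm_of_nonneg (by unfold tau; positivity)]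
          exact kg2_tau_le hk0 hd
        rw [norm_mul, norm_mul, norm_mul]
        calc ‖(ArithmeticFunction.moebius h : ℂ)‖ * ‖χ h‖ * ‖(h : ℂ) ^ (-s)‖ * ‖(tau (k / h) : ℂ)‖
            ≤ 1 * 1 * 1 * tau k := by
              gcongr
              · exact kg2_mu h
              · exact DirichletCharacter.norm_le_one _ _
              · exact kg2_pow hp hs
          _ = tau k := by ring
    _ = tau k ^ 2 := by
        rw [Finset.sum_const, nsmul_eq_mul, sq]
        rfl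

theorem kg2_P' (χ : DirichletCharacter ℂ q) {k : ℕ} (hk : 1 ≤ k) {s : ℂ} (hs : 0 ≤ s.re) :
    DifferentiableAt ℂ (Pk χ k) s ∧ ‖deriv (Pk χ k) s‖ ≤ tau k ^ 2 * Real.log k := by
  have hk0 : k ≠ 0 := by omega
  have hd : HasDerivAt (Pk χ k) (∑ h ∈ k.divisors, (ArithmeticFunction.moebius h : ℂ) * χ h *
      ((h : ℂ) ^ (-s) * Complex.log h * (-1)) * (tau (k / h) : ℂ)) s := by
    have h1 : Pk χ k = fun s => ∑ h ∈ k.divisors, (ArithmeticFunction.moebius h : ℂ) * χ h *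
        (h : ℂ) ^ (-s) * (tau (k / h) : ℂ) := rfl
    rw [h1]
    refine HasDerivAt.fun_sum fun h hh => ?_
    have hp := Nat.pos_of_mem_divisors hh
    have h2 : HasDerivAt (fun s : ℂ => (h : ℂ) ^ (-s)) ((h : ℂ) ^ (-s) * Complex.log h * (-1)) s :=
      (hasDerivAt_id s).neg.const_cpow (Or.inl (by exact_mod_cast hp.ne'))
    exact (h2.const_mul _).mul_const _
  refine ⟨hd.differentiableAt, ?_⟩
  rw [hd.deriv]
  refine (norm_sum_le _ _).trans ?_
  calc ∑ h ∈ k.divisors, ‖(ArithmeticFunction.moebius h : ℂ) * χ h *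
        ((h : ℂ) ^ (-s) * Complex.log h * (-1)) * (tau (k / h) : ℂ)‖
        ≤ ∑ h ∈ k.divisors, tau k * Real.log k := by
        refine Finset.sum_le_sum fun h hh => ?_
        have hd := Nat.dvd_of_mem_divisors hh
        have hp := Nat.pos_of_mem_divisors hh
        have ht : ‖(tau (k / h) : ℂ)‖ ≤ tau k := by
          rw [Complex.norm_real, Real.norm_of_nonneg (by unfold tau; positivity)]
          exact kg2_tau_le hk0 hd
        have hl : ‖Complex.log (h : ℂ)‖ ≤ Real.log k := by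
          rw [← Complex.natCast_log, Complex.norm_real, Real.norm_of_nonneg
            (Real.log_natCast_nonneg h)]
          exact Real.log_le_log (by exact_mod_cast hp) (by exact_mod_cast Nat.le_of_dvd hk hd)
        rw [norm_mul, norm_mul, norm_mul, norm_mul, norm_mul, norm_neg, norm_one]
        calc ‖(ArithmeticFunction.moebius h : ℂ)‖ * ‖χ h‖ * (‖(h : ℂ) ^ (-s)‖ *
              ‖Complex.log (h : ℂ)‖ * 1) * ‖(tau (k / h) : ℂ)‖
            ≤ 1 * 1 * (1 * Real.log k * 1) * tau k := by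
              gcongr
              · exact kg2_mu h
              · exact DirichletCharacter.norm_le_one _ _
              · exact kg2_pow hp hs
          _ = tau k * Real.log k := by ring
    _ = tau k ^ 2 * Real.log k := by
        rw [Finset.sum_const, nsmul_eq_mul, sq, mul_assoc]
        rfl

theorem zk_bound_pr : ∃ C : ℝ, ∀ (q : ℕ) [NeZero q] (χ : DirichletCharacter ℂ q), χ ≠ 1 →
    ∀ s : ℂ, 1 / 2 ≤ s.re → s.re ≤ 3 → (‖DirichletCharacter.LFunction χ s‖ ≤ C * q * (|s.im| + 2) ∧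
      ‖deriv (DirichletCharacter.LFunction χ) s‖ ≤ C * q * (|s.im| + 2)) ∧
      ∀ k : ℕ, 1 ≤ k → ‖Zk χ k s‖ ≤ C * q ^ 2 * (|s.im| + 2) ^ 2 * tau k ^ 2 ∧
        ‖deriv (Zk χ k) s‖ ≤ C * q ^ 2 * (|s.im| + 2) ^ 2 * tau k ^ 2 * (1 + Real.log k) := by
  obtain ⟨C0, hC0, hL⟩ := Pool.Agent.GA.LF_growth
  refine ⟨18 * C0 ^ 2, fun q _ χ hχ s hs1 hs2 => ?_⟩
  have hq : (0 : ℝ) ≤ q := Nat.cast_nonneg q
  have hCC : C0 ≤ C0 ^ 2 := by nlinarith
  have ht : (0 : ℝ) ≤ |s.im| := abs_nonneg _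
  have hL' : ∀ z : ℂ, 1 / 4 ≤ z.re →
      ‖DirichletCharacter.LFunction χ z‖ ≤ C0 * q * (|z.im| + 2) := by
    intro z hz
    have h1 := hL q χ hχ z hz
    rwa [Pool.Agent.GA.LF_eq] at h1
  have hdiff : Differentiable ℂ (DirichletCharacter.LFunction χ) :=
    DirichletCharacter.differentiable_LFunction hχ
  set M : ℝ := C0 * q * (|s.im| + 2) with hM
  have hM0 : 0 ≤ M := by positivity
  have e1 : ‖DirichletCharacter.LFunction χ s‖ ≤ M := hL' s (by linarith)
  have e2 : ‖deriv (DirichletCharacter.LFunction χ) s‖ ≤ 9 * M := by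
    have h1 : ∀ z ∈ Metric.sphere s (1 / 8 : ℝ),
        ‖DirichletCharacter.LFunction χ z‖ ≤ 9 / 8 * M := by
      intro z hz
      have h2 : ‖z - s‖ = 1 / 8 := by simpa [dist_eq_norm] using hz
      have h3 : |(z - s).re| ≤ 1 / 8 := (Complex.abs_re_le_norm _).trans h2.le
      have h4 : |(z - s).im| ≤ 1 / 8 := (Complex.abs_im_le_norm _).trans h2.le
      rw [sub_re] at h3
      rw [sub_im] at h4
      have h5 : 1 / 4 ≤ z.re := by
        have := (abs_le.1 h3).1
        linarith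
      have h6 : |z.im| ≤ |s.im| + 1 / 8 := by
        calc |z.im| = |s.im + (z.im - s.im)| := by ring_nf
          _ ≤ |s.im| + |z.im - s.im| := abs_add_le _ _
          _ ≤ |s.im| + 1 / 8 := by linarith
      refine (hL' z h5).trans ?_
      calc C0 * q * (|z.im| + 2) ≤ C0 * q * (9 / 8 * (|s.im| + 2)) := by
            gcongr
            linarith
        _ = 9 / 8 * M := by rw [hM]; ring
    have h2 := Complex.norm_deriv_le_of_forall_mem_sphere_norm_le (f :=
      DirichletCharacter.LFunction χ) (by norm_num : (0 : ℝ) < 1 / 8)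
      hdiff.diffContOnCl h1
    calc ‖deriv (DirichletCharacter.LFunction χ) s‖ ≤ 9 / 8 * M / (1 / 8) := h2
      _ = 9 * M := by ring
  have hM1 : M ≤ C0 ^ 2 * q * (|s.im| + 2) := by rw [hM]; gcongr
  have hM2 : M ^ 2 = C0 ^ 2 * q ^ 2 * (|s.im| + 2) ^ 2 := by rw [hM]; ring
  refine ⟨⟨?_, ?_⟩, fun k hk => ?_⟩
  · calc ‖DirichletCharacter.LFunction χ s‖ ≤ M := e1
      _ ≤ 18 * (C0 ^ 2 * q * (|s.im| + 2)) := by linarith
      _ = 18 * C0 ^ 2 * q * (|s.im| + 2) := by ring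
  · calc ‖deriv (DirichletCharacter.LFunction χ) s‖ ≤ 9 * M := e2
      _ ≤ 18 * (C0 ^ 2 * q * (|s.im| + 2)) := by linarith
      _ = 18 * C0 ^ 2 * q * (|s.im| + 2) := by ring
  have hs0 : 0 ≤ s.re := by linarith
  have p1 := kg2_P χ hk hs0
  obtain ⟨pd, p2⟩ := kg2_P' χ hk hs0
  have hlog : 0 ≤ Real.log k := Real.log_natCast_nonneg k
  constructor
  · unfold Zk
    rw [norm_mul, norm_pow]
    calc ‖DirichletCharacter.LFunction χ s‖ ^ 2 * ‖Pk χ k s‖ ≤ M ^ 2 * tau k ^ 2 := by gcongr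
      _ = C0 ^ 2 * q ^ 2 * (|s.im| + 2) ^ 2 * tau k ^ 2 := by rw [hM2]
      _ ≤ 18 * (C0 ^ 2 * q ^ 2 * (|s.im| + 2) ^ 2 * tau k ^ 2) := by
          have : 0 ≤ C0 ^ 2 * q ^ 2 * (|s.im| + 2) ^ 2 * tau k ^ 2 := by positivity
          linarith
      _ = 18 * C0 ^ 2 * q ^ 2 * (|s.im| + 2) ^ 2 * tau k ^ 2 := by ring
  · have hd : HasDerivAt (Zk χ k) (2 * DirichletCharacter.LFunction χ s *
        deriv (DirichletCharacter.LFunction χ) s * Pk χ k s +
        DirichletCharacter.LFunction χ s ^ 2 * deriv (Pk χ k) s) s := by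
      have h1 := ((hdiff s).hasDerivAt.pow 2).mul pd.hasDerivAt
      have h2 : Zk χ k = fun s => DirichletCharacter.LFunction χ s ^ 2 * Pk χ k s := rfl
      rw [h2]
      refine h1.congr_deriv ?_
      rw [Pi.pow_apply]
      push_cast
      ring
    rw [hd.deriv]
    calc ‖2 * DirichletCharacter.LFunction χ s * deriv (DirichletCharacter.LFunction χ) s *
          Pk χ k s + DirichletCharacter.LFunction χ s ^ 2 * deriv (Pk χ k) s‖
        ≤ 2 * M * (9 * M) * tau k ^ 2 + M ^ 2 * (tau k ^ 2 * Real.log k) := by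
          refine (norm_add_le _ _).trans ?_
          rw [norm_mul, norm_mul, norm_mul, norm_mul, norm_pow, Complex.norm_ofNat]
          gcongr
      _ ≤ 18 * (M ^ 2 * tau k ^ 2 * (1 + Real.log k)) := by
          have h1 : 0 ≤ M ^ 2 * tau k ^ 2 := by positivity
          have h2 : 0 ≤ M ^ 2 * tau k ^ 2 * Real.log k := by positivity
          nlinarith
      _ = 18 * C0 ^ 2 * q ^ 2 * (|s.im| + 2) ^ 2 * tau k ^ 2 * (1 + Real.log k) := by
          rw [hM2]; ring

end Pool.Agent.LK
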