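import Pool.Agent.Lib_helper31.LK.DefsP
import Pool.Agent.Lib_helper41.LSPG.GOKB
import Pool.Agent.Lib_helper19.H3.SH
import Pool.Agent.Lib_helper31.LKF.KG2

/-! ## Block KK: shift to `Re s = 1/2` -/

namespace Pool.Agent.LK

open Complex MeasureTheory Set
open Pool.Agent.LSP (tau GG tp KerL)

/-! ### real integrals -/

theorem kk_log {x : ℝ} (hx : 0 < x) : |Real.log x| ≤ 8 * x ^ (-(1 / 8) : ℝ) + x := by
  have hp : 0 ≤ x ^ (-(1 / 8) : ℝ) := Real.rpow_nonneg hx.le _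
  rcases le_or_gt 1 x with h | h
  · rw [abs_of_nonneg (Real.log_nonneg h)]
    have := Real.log_le_self hx.le
    linarith
  · rw [abs_of_neg (Real.log_neg hx h)]
    have h1 := Real.log_le_self hp
    rw [Real.log_rpow hx] at h1
    linarith

theorem kk_absint (a b : ℝ) :
    IntervalIntegrable (fun x : ℝ => |x| ^ (-(3 / 4) : ℝ)) volume a b := by
  refine intervalIntegrable_of_even (fun x => by rw [abs_neg]) (fun x hx => ?_)
  have h := intervalIntegral.intervalIntegrable_rpow' (a := 0) (b := x) (r := -(3 / 4))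
    (by norm_num)
  refine h.congr_ae ?_
  refine (ae_restrict_iff' measurableSet_uIoc).2 (Filter.Eventually.of_forall fun y hy => ?_)
  rw [uIoc_of_le hx.le] at hy
  simp only
  rw [abs_of_pos hy.1]

/-- the dominating function -/
noncomputable def kk_w (ς v : ℝ) : ℝ := v ^ (-(3 / 4) : ℝ) + |1 - ς * v| ^ (-(3 / 4) : ℝ) + 1

theorem kk_wint {ς : ℝ} (hς : ς = 1 ∨ ς = -1) {U : ℝ} (hU : 0 ≤ U) :
    IntegrableOn (kk_w ς) (Ioc 0 U) := by
  have h0 : IntegrableOn (fun v : ℝ => v ^ (-(3 / 4) : ℝ)) (Ioc 0 U) :=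
    (intervalIntegrable_iff_integrableOn_Ioc_of_le hU).1
      (intervalIntegral.intervalIntegrable_rpow' (by norm_num))
  have h2 : IntegrableOn (fun v : ℝ => (1 : ℝ)) (Ioc 0 U) :=
    (intervalIntegrable_iff_integrableOn_Ioc_of_le hU).1 intervalIntegrable_const
  have h1 : IntegrableOn (fun v : ℝ => |1 - ς * v| ^ (-(3 / 4) : ℝ)) (Ioc 0 U) := by
    refine (intervalIntegrable_iff_integrableOn_Ioc_of_le hU).1 ?_
    rcases hς with rfl | rfl
    · have h := (kk_absint (0 - 1) (U - 1)).comp_sub_right 1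
      rw [sub_add_cancel, sub_add_cancel] at h
      refine h.congr_ae (Filter.Eventually.of_forall fun v => ?_)
      simp only
      rw [one_mul, abs_sub_comm]
    · have h := (kk_absint (0 + 1) (U + 1)).comp_add_right 1
      rw [add_sub_cancel_right, add_sub_cancel_right] at h
      refine h.congr_ae (Filter.Eventually.of_forall fun v => ?_)
      simp only
      congr 2
      ring
  exact (h0.add h1).add h2

/-- a kernel with two logarithmic singularities -/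
structure KkB (ς U K : ℝ) (g : ℝ → ℝ) : Prop where
  hK : 0 ≤ K
  hU : 1 ≤ U
  meas : AEStronglyMeasurable g (volume.restrict (Ioi 0))
  supp : ∀ v, U < v → g v = 0
  bd : ∀ v, 0 < v → v ≤ U → v ≠ 1 → |g v| ≤ K * (v ^ (-(1 / 4) : ℝ) +
    |1 - ς * v| ^ (-(1 / 4) : ℝ) + 1)

theorem kk_quarter {x : ℝ} (hx : 0 < x) : x ^ (-(1 / 4) : ℝ) ≤ x ^ (-(3 / 4) : ℝ) + 1 := by
  have h3 : 0 ≤ x ^ (-(3 / 4) : ℝ) := Real.rpow_nonneg hx.le _
  rcases le_or_gt 1 x with h | h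
  · have := Real.rpow_le_one_of_one_le_of_nonpos h (show (-(1 / 4) : ℝ) ≤ 0 by norm_num)
    linarith
  · have := Real.rpow_le_rpow_of_exponent_ge hx h.le (show (-(3 / 4) : ℝ) ≤ -(1 / 4) by norm_num)
    linarith

theorem kk_half {x : ℝ} (hx : 0 < x) : x ^ (-(1 / 2) : ℝ) ≤ x ^ (-(3 / 4) : ℝ) + 1 := by
  have h3 : 0 ≤ x ^ (-(3 / 4) : ℝ) := Real.rpow_nonneg hx.le _
  rcases le_or_gt 1 x with h | h
  · have := Real.rpow_le_one_of_one_le_of_nonpos h (show (-(1 / 2) : ℝ) ≤ 0 by norm_num)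
    linarith
  · have := Real.rpow_le_rpow_of_exponent_ge hx h.le (show (-(3 / 4) : ℝ) ≤ -(1 / 2) by norm_num)
    linarith

theorem kk_pos {ς v : ℝ} (hς : ς = 1 ∨ ς = -1) (hv : 0 < v) (h1 : v ≠ 1) : 0 < |1 - ς * v| := by
  rw [abs_pos]
  rcases hς with rfl | rfl
  · intro h
    exact h1 (by linarith)
  · have : 0 < 1 - -1 * v := by linarith
    exact this.ne'

/-- the product of the weight and of the bound -/
theorem kk_dom {ς v U σ : ℝ} (hς : ς = 1 ∨ ς = -1) (hv : 0 < v) (hvU : v ≤ U) (h1 : v ≠ 1)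
    (hU : 1 ≤ U) (h0 : 1 / 2 ≤ σ) (h2 : σ ≤ 2) :
    v ^ (σ - 1) * (v ^ (-(1 / 4) : ℝ) + |1 - ς * v| ^ (-(1 / 4) : ℝ) + 1) ≤
      (8 * U) * kk_w ς v := by
  have hp := kk_pos hς hv h1
  set x := |1 - ς * v| with hx
  have a1 : 0 ≤ v ^ (-(3 / 4) : ℝ) := Real.rpow_nonneg hv.le _
  have a2 : 0 ≤ x ^ (-(3 / 4) : ℝ) := Real.rpow_nonneg hp.le _
  have a3 : 0 ≤ v ^ (-(1 / 4) : ℝ) := Real.rpow_nonneg hv.le _
  have a4 : 0 ≤ x ^ (-(1 / 4) : ℝ) := Real.rpow_nonneg hp.le _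
  have a5 : 0 ≤ v ^ (-(1 / 2) : ℝ) := Real.rpow_nonneg hv.le _
  have b1 : v ^ (σ - 1) ≤ v ^ (-(1 / 2) : ℝ) + U := by
    rcases le_or_gt 1 v with h | h
    · have := Real.rpow_le_rpow_of_exponent_le h (show σ - 1 ≤ 1 by linarith)
      rw [Real.rpow_one] at this
      linarith
    · have := Real.rpow_le_rpow_of_exponent_ge hv h.le (show (-(1 / 2) : ℝ) ≤ σ - 1 by linarith)
      linarith
  have b2 : v ^ (-(1 / 2) : ℝ) * v ^ (-(1 / 4) : ℝ) = v ^ (-(3 / 4) : ℝ) := by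
    rw [← Real.rpow_add hv]
    norm_num
  have b3 : v ^ (-(1 / 2) : ℝ) * x ^ (-(1 / 4) : ℝ) ≤ v ^ (-(3 / 4) : ℝ) + x ^ (-(3 / 4) : ℝ) := by
    rcases le_total v x with h | h
    · have c1 : x ^ (-(1 / 4) : ℝ) ≤ v ^ (-(1 / 4) : ℝ) :=
        Real.rpow_le_rpow_of_nonpos hv h (by norm_num)
      have c2 := mul_le_mul_of_nonneg_left c1 a5
      rw [b2] at c2
      linarith
    · have c1 : v ^ (-(1 / 2) : ℝ) ≤ x ^ (-(1 / 2) : ℝ) :=
        Real.rpow_le_rpow_of_nonpos hp h (by norm_num)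
      have c2 := mul_le_mul_of_nonneg_right c1 a4
      have c3 : x ^ (-(1 / 2) : ℝ) * x ^ (-(1 / 4) : ℝ) = x ^ (-(3 / 4) : ℝ) := by
        rw [← Real.rpow_add hp]
        norm_num
      rw [c3] at c2
      linarith
  have b4 := kk_quarter hv
  have b5 := kk_quarter hp
  have b6 := kk_half hv
  have hs : 0 ≤ v ^ (-(1 / 4) : ℝ) + x ^ (-(1 / 4) : ℝ) + 1 := by linarith
  refine (mul_le_mul_of_nonneg_right b1 hs).trans ?_
  unfold kk_w
  rw [← hx]
  have e : (v ^ (-(1 / 2) : ℝ) + U) * (v ^ (-(1 / 4) : ℝ) + x ^ (-(1 / 4) : ℝ) + 1) =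
      v ^ (-(1 / 2) : ℝ) * v ^ (-(1 / 4) : ℝ) + v ^ (-(1 / 2) : ℝ) * x ^ (-(1 / 4) : ℝ) +
      v ^ (-(1 / 2) : ℝ) + U * (v ^ (-(1 / 4) : ℝ) + x ^ (-(1 / 4) : ℝ) + 1) := by ring
  rw [e, b2]
  have hU0 : 0 ≤ U := by linarith
  have d1 : U * (v ^ (-(1 / 4) : ℝ) + x ^ (-(1 / 4) : ℝ) + 1) ≤
      U * (v ^ (-(3 / 4) : ℝ) + x ^ (-(3 / 4) : ℝ) + 3) :=
    mul_le_mul_of_nonneg_left (by linarith) hU0
  have d2 : v ^ (-(3 / 4) : ℝ) + (v ^ (-(3 / 4) : ℝ) + x ^ (-(3 / 4) : ℝ)) +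
      (v ^ (-(3 / 4) : ℝ) + 1) ≤ U * (3 * v ^ (-(3 / 4) : ℝ) + x ^ (-(3 / 4) : ℝ) + 1) := by
    have : (3 * v ^ (-(3 / 4) : ℝ) + x ^ (-(3 / 4) : ℝ) + 1) ≤
        U * (3 * v ^ (-(3 / 4) : ℝ) + x ^ (-(3 / 4) : ℝ) + 1) := by
      have h : 0 ≤ 3 * v ^ (-(3 / 4) : ℝ) + x ^ (-(3 / 4) : ℝ) + 1 := by linarith
      nlinarith
    linarith
  have d3 : U * (3 * v ^ (-(3 / 4) : ℝ) + x ^ (-(3 / 4) : ℝ) + 1) +
      U * (v ^ (-(3 / 4) : ℝ) + x ^ (-(3 / 4) : ℝ) + 3) ≤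
      8 * U * (v ^ (-(3 / 4) : ℝ) + x ^ (-(3 / 4) : ℝ) + 1) := by
    have h1 : 0 ≤ U * v ^ (-(3 / 4) : ℝ) := by positivity
    have h2 : 0 ≤ U * x ^ (-(3 / 4) : ℝ) := by positivity
    nlinarith
  linarith

theorem kk_ne_one : ∀ᵐ v : ℝ ∂(volume.restrict (Ioi (0 : ℝ))), v ≠ 1 := by
  refine ae_restrict_of_ae ?_
  simp [ae_iff, measure_singleton]

/-- the integrand is dominated, uniformly in `s` -/
theorem kk_aebd {ς U K : ℝ} {g : ℝ → ℝ} (hς : ς = 1 ∨ ς = -1) (hg : KkB ς U K g) {s : ℂ}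
    (h0 : 1 / 2 ≤ s.re) (h2 : s.re ≤ 2) :
    ∀ᵐ v : ℝ ∂(volume.restrict (Ioi (0 : ℝ))), ‖(v : ℂ) ^ (s - 1) * (g v : ℂ)‖ ≤
      (Ioc 0 U).indicator (fun v => K * (8 * U) * kk_w ς v) v := by
  filter_upwards [kk_ne_one, ae_restrict_mem measurableSet_Ioi] with v hv1 hv
  have hv0 : 0 < v := hv
  rw [norm_mul, norm_cpow_eq_rpow_re_of_pos hv0, Complex.norm_real, Real.norm_eq_abs]
  by_cases h : v ≤ U
  · rw [indicator_of_mem (by exact ⟨hv0, h⟩)]
    have e1 := hg.bd v hv0 h hv1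
    have e2 := kk_dom (σ := s.re) hς hv0 h hv1 hg.hU h0 h2
    have e3 : (s - 1).re = s.re - 1 := by simp
    rw [e3]
    have hr : 0 ≤ v ^ (s.re - 1) := Real.rpow_nonneg hv0.le _
    calc v ^ (s.re - 1) * |g v| ≤ v ^ (s.re - 1) * (K * (v ^ (-(1 / 4) : ℝ) +
          |1 - ς * v| ^ (-(1 / 4) : ℝ) + 1)) := mul_le_mul_of_nonneg_left e1 hr
      _ = K * (v ^ (s.re - 1) * (v ^ (-(1 / 4) : ℝ) + |1 - ς * v| ^ (-(1 / 4) : ℝ) + 1)) := by
          ring
      _ ≤ K * ((8 * U) * kk_w ς v) := mul_le_mul_of_nonneg_left e2 hg.hK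
      _ = K * (8 * U) * kk_w ς v := by ring
  · rw [indicator_of_notMem (by intro h'; exact h h'.2), hg.supp v (lt_of_not_ge h)]
    simp

theorem kk_domint {ς U K : ℝ} {g : ℝ → ℝ} (hς : ς = 1 ∨ ς = -1) (hg : KkB ς U K g) :
    Integrable ((Ioc 0 U).indicator (fun v => K * (8 * U) * kk_w ς v))
      (volume.restrict (Ioi (0 : ℝ))) := by
  have h := (kk_wint hς (by linarith [hg.hU] : (0 : ℝ) ≤ U)).const_mul (K * (8 * U))
  exact ((integrable_indicator_iff measurableSet_Ioc).2 h).restrict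

theorem kk_bound {ς U K : ℝ} {g : ℝ → ℝ} (hς : ς = 1 ∨ ς = -1) (hg : KkB ς U K g) :
    ∃ C : ℝ, ∀ s : ℂ, 1 / 2 ≤ s.re → s.re ≤ 2 →
      ‖∫ v in Ioi (0 : ℝ), (v : ℂ) ^ (s - 1) * (g v : ℂ)‖ ≤ C :=
  ⟨_, fun _ h0 h2 => norm_integral_le_of_norm_le (kk_domint hς hg) (kk_aebd hς hg h0 h2)⟩

theorem kk_int {ς U K : ℝ} {g : ℝ → ℝ} (hς : ς = 1 ∨ ς = -1) (hg : KkB ς U K g) :
    IntegrableOn (fun v : ℝ => (g v : ℂ)) (Ioi 0) := by
  have hm : AEStronglyMeasurable (fun v : ℝ => (g v : ℂ)) (volume.restrict (Ioi 0)) :=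
    Complex.continuous_ofReal.comp_aestronglyMeasurable hg.meas
  refine Integrable.mono' (kk_domint hς hg) hm ?_
  filter_upwards [kk_aebd hς hg (s := 1) (by norm_num) (by norm_num),
    ae_restrict_mem measurableSet_Ioi] with v h hv
  simpa using h

theorem kk_diff {ς U K : ℝ} {g : ℝ → ℝ} (hς : ς = 1 ∨ ς = -1) (hg : KkB ς U K g) {s : ℂ}
    (h0 : 1 / 2 ≤ s.re) (h2 : s.re ≤ 2) :
    DifferentiableAt ℂ (fun s : ℂ => ∫ v in Ioi (0 : ℝ), (v : ℂ) ^ (s - 1) * (g v : ℂ)) s := by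
  have hm : DifferentiableAt ℂ (mellin (fun v : ℝ => (g v : ℂ))) s := by
    refine mellin_differentiableAt_of_isBigO_rpow (a := 3) (b := 1 / 4)
      (kk_int hς hg).locallyIntegrableOn ?_ (by linarith) ?_ (by linarith)
    · refine Asymptotics.IsBigO.of_bound 0 ?_
      filter_upwards [Filter.eventually_gt_atTop U] with v hv
      rw [hg.supp v hv]
      simp
    · refine Asymptotics.IsBigO.of_bound (4 * K) ?_
      have hlt : Ioo (0 : ℝ) (1 / 2) ∈ nhdsWithin (0 : ℝ) (Ioi 0) :=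
        Ioo_mem_nhdsGT (by norm_num)
      filter_upwards [hlt] with v hv
      have hv0 : 0 < v := hv.1
      have hv1 : v < 1 / 2 := hv.2
      have e1 := hg.bd v hv0 (by linarith [hg.hU]) (by linarith)
      rw [Complex.norm_real, Real.norm_eq_abs, Real.norm_of_nonneg (Real.rpow_nonneg hv0.le _)]
      refine e1.trans ?_
      have hx : 1 / 2 ≤ |1 - ς * v| := by
        rcases hς with rfl | rfl
        · rw [abs_of_pos (by linarith)]; linarith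
        · rw [abs_of_pos (by linarith)]; linarith
      have e2 : |1 - ς * v| ^ (-(1 / 4) : ℝ) ≤ 2 := by
        have h1 : |1 - ς * v| ^ (-(1 / 4) : ℝ) ≤ (1 / 2 : ℝ) ^ (-(1 / 4) : ℝ) :=
          Real.rpow_le_rpow_of_nonpos (by norm_num) hx (by norm_num)
        have h3 : (1 / 2 : ℝ) ^ (-(1 / 4) : ℝ) ≤ (1 / 2 : ℝ) ^ (-1 : ℝ) :=
          Real.rpow_le_rpow_of_exponent_ge (by norm_num) (by norm_num) (by norm_num)
        rw [Real.rpow_neg_one] at h3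
        norm_num at h3
        linarith
      have e3 : 1 ≤ v ^ (-(1 / 4) : ℝ) :=
        Real.one_le_rpow_of_pos_of_le_one_of_nonpos hv0 (by linarith) (by norm_num)
      have hK := hg.hK
      calc K * (v ^ (-(1 / 4) : ℝ) + |1 - ς * v| ^ (-(1 / 4) : ℝ) + 1)
          ≤ K * (4 * v ^ (-(1 / 4) : ℝ)) := mul_le_mul_of_nonneg_left (by linarith) hK
        _ = 4 * K * v ^ (-(1 / 4) : ℝ) := by ring
  have e : (fun s : ℂ => ∫ v in Ioi (0 : ℝ), (v : ℂ) ^ (s - 1) * (g v : ℂ)) =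
      mellin (fun v : ℝ => (g v : ℂ)) := by
    funext s
    simp [mellin, smul_eq_mul]
  rw [e]
  exact hm

/-! ### the two kernels -/

theorem kk_cont {G : ℝ → ℝ} {U c : ℝ} (hG : Pool.Agent.LSPO.GOK G U c) :
    ContinuousOn G {u | u ≠ 0 ∧ u ≠ 1} := by
  intro u hu
  have hc : 0 ≤ c := by linarith [hG.one_le']
  have hlim : Filter.Tendsto (fun v : ℝ => c * |v - u| *
      (|v|⁻¹ + |1 - v|⁻¹ + |u|⁻¹ + |1 - u|⁻¹) ^ 3) (nhds u)
      (nhds (c * |u - u| * (|u|⁻¹ + |1 - u|⁻¹ + |u|⁻¹ + |1 - u|⁻¹) ^ 3)) := by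
    have hu0 : |u| ≠ 0 := by simpa using hu.1
    have hu1 : |1 - u| ≠ 0 := by
      rw [Ne, abs_eq_zero, sub_eq_zero]
      exact fun h => hu.2 h.symm
    have : ContinuousAt (fun v : ℝ => c * |v - u| *
      (|v|⁻¹ + |1 - v|⁻¹ + |u|⁻¹ + |1 - u|⁻¹) ^ 3) u := by
      have c1 : ContinuousAt (fun v : ℝ => |v|⁻¹) u :=
        (continuous_abs.continuousAt).inv₀ hu0
      have c2 : ContinuousAt (fun v : ℝ => |1 - v|⁻¹) u :=
        ((by fun_prop : Continuous fun v : ℝ => |1 - v|).continuousAt).inv₀ hu1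
      have c3 : ContinuousAt (fun v : ℝ => c * |v - u|) u :=
        (by fun_prop : Continuous fun v : ℝ => c * |v - u|).continuousAt
      exact c3.mul ((((c1.add c2).add continuousAt_const).add continuousAt_const).pow 3)
    exact this
  rw [sub_self, abs_zero, mul_zero, zero_mul] at hlim
  rw [ContinuousWithinAt, tendsto_iff_dist_tendsto_zero]
  refine squeeze_zero' (Filter.Eventually.of_forall fun v => dist_nonneg) ?_
    (hlim.mono_left nhdsWithin_le_nhds)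
  filter_upwards [self_mem_nhdsWithin] with v hv
  rw [Real.dist_eq]
  exact hG.lip v u hv.1 hv.2 hu.1 hu.2

theorem kk_meas {f : ℝ → ℝ} (hf : ContinuousOn f {v | 0 < v ∧ v ≠ 1}) :
    AEStronglyMeasurable f (volume.restrict (Ioi 0)) := by
  have ho : IsOpen {v : ℝ | 0 < v ∧ v ≠ 1} := by
    have : {v : ℝ | 0 < v ∧ v ≠ 1} = Ioi 0 ∩ {1}ᶜ := by ext v; simp
    rw [this]
    exact isOpen_Ioi.inter isOpen_compl_singleton
  have h := hf.aestronglyMeasurable (μ := volume) ho.measurableSet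
  have e : volume.restrict (Ioi (0 : ℝ)) = volume.restrict {v : ℝ | 0 < v ∧ v ≠ 1} := by
    refine Measure.restrict_congr_set ?_
    have h1 : ∀ᵐ v : ℝ, v ≠ 1 := by simp [ae_iff, measure_singleton]
    filter_upwards [h1] with v hv
    apply propext
    change v ∈ Ioi (0 : ℝ) ↔ v ∈ {v : ℝ | 0 < v ∧ v ≠ 1}
    simp [hv]
  rw [e]
  exact h

theorem kk_sq {ς v U : ℝ} (hς : ς = 1 ∨ ς = -1) (hv : 0 < v) (hvU : v ≤ U) (h1 : v ≠ 1)
    (hU : 1 ≤ U) : (1 + |Real.log v| + |Real.log (|1 - ς * v|)|) ^ 2 ≤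
      192 * (1 + U) ^ 2 * (v ^ (-(1 / 4) : ℝ) + |1 - ς * v| ^ (-(1 / 4) : ℝ) + 1) := by
  have hp := kk_pos hς hv h1
  have hx : |1 - ς * v| ≤ 1 + U := by
    rcases hς with rfl | rfl
    · rw [abs_le]; constructor <;> linarith
    · rw [abs_le]; constructor <;> linarith
  set x := |1 - ς * v| with hxd
  have l1 := kk_log hv
  have l2 := kk_log hp
  set p := v ^ (-(1 / 8) : ℝ) with hpd
  set r := x ^ (-(1 / 8) : ℝ) with hrd
  have p0 : 0 ≤ p := Real.rpow_nonneg hv.le _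
  have r0 : 0 ≤ r := Real.rpow_nonneg hp.le _
  have p2 : v ^ (-(1 / 4) : ℝ) = p ^ 2 := by
    rw [hpd, ← Real.rpow_natCast, ← Real.rpow_mul hv.le]; norm_num
  have r2 : x ^ (-(1 / 4) : ℝ) = r ^ 2 := by
    rw [hrd, ← Real.rpow_natCast, ← Real.rpow_mul hp.le]; norm_num
  rw [p2, r2]
  have hsum : 1 + |Real.log v| + |Real.log x| ≤ 8 * p + 8 * r + 2 * (1 + U) := by linarith
  have h0 : 0 ≤ 1 + |Real.log v| + |Real.log x| := by positivity
  refine (pow_le_pow_left₀ h0 hsum 2).trans ?_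
  have hU4 : 1 ≤ (1 + U) ^ 2 := by nlinarith
  have s1 : (8 * p + 8 * r + 2 * (1 + U)) ^ 2 ≤
      3 * ((8 * p) ^ 2 + (8 * r) ^ 2 + (2 * (1 + U)) ^ 2) := by
    nlinarith [sq_nonneg (8 * p - 8 * r), sq_nonneg (8 * p - 2 * (1 + U)),
      sq_nonneg (8 * r - 2 * (1 + U))]
  refine s1.trans ?_
  have hp2 : p ^ 2 ≤ (1 + U) ^ 2 * p ^ 2 := by nlinarith [sq_nonneg p]
  have hr2 : r ^ 2 ≤ (1 + U) ^ 2 * r ^ 2 := by nlinarith [sq_nonneg r]
  nlinarith

theorem kk_cast {ς : ℤ} (hς : ς = 1 ∨ ς = -1) : (ς : ℝ) = 1 ∨ (ς : ℝ) = -1 := by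
  rcases hς with rfl | rfl <;> simp

theorem kk_arg {ς : ℤ} (hς : ς = 1 ∨ ς = -1) {v : ℝ} (hv : 0 < v) (h1 : v ≠ 1) :
    (ς : ℝ) * v ≠ 0 ∧ (ς : ℝ) * v ≠ 1 ∧ |(ς : ℝ) * v| = v := by
  rcases hς with rfl | rfl
  · refine ⟨by simpa using hv.ne', by simpa using h1, by simp [abs_of_pos hv]⟩
  · refine ⟨by simpa using hv.ne', ?_, by simp [abs_of_pos hv]⟩
    intro h
    push_cast at h
    linarith

theorem kk_log2 {ς v : ℝ} (hς : ς = 1 ∨ ς = -1) (hv : 0 < v) (h1 : v ≠ 1) :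
    |Real.log (|1 / v - ς|)| ≤ |Real.log v| + |Real.log (|1 - ς * v|)| := by
  have hp := kk_pos hς hv h1
  have e : |1 / v - ς| = |1 - ς * v| / v := by
    have : 1 / v - ς = (1 - ς * v) / v := by field_simp
    rw [this, abs_div, abs_of_pos hv]
  rw [e, Real.log_div hp.ne' hv.ne']
  have := abs_sub (Real.log (|1 - ς * v|)) (Real.log v)
  linarith

theorem kk_g0 {G : ℝ → ℝ} {U c : ℝ} (hG : Pool.Agent.LSPO.GOK G U c) {ς : ℤ}
    (hς : ς = 1 ∨ ς = -1) :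
    KkB ς U (c * (192 * (1 + U) ^ 2)) (fun v => G (ς * v)) := by
  have hc : 1 ≤ c := hG.one_le'
  have hcont : ContinuousOn (fun v : ℝ => G (ς * v)) {v | 0 < v ∧ v ≠ 1} :=
    (kk_cont hG).comp (by fun_prop) (fun v hv => ⟨(kk_arg hς hv.1 hv.2).1,
      (kk_arg hς hv.1 hv.2).2.1⟩)
  refine ⟨by positivity, hG.one_le, kk_meas hcont, ?_, ?_⟩
  · intro v hv
    have hv0 : 0 < v := by linarith [hG.one_le]
    by_cases h1 : v = 1
    · linarith [hG.one_le]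
    · exact hG.supp _ (by rw [(kk_arg hς hv0 h1).2.2]; exact hv)
  · intro v hv hvU h1
    obtain ⟨e1, e2, e3⟩ := kk_arg hς hv h1
    have b := hG.bd _ e1 e2
    rw [e3] at b
    have s := kk_sq (kk_cast hς) hv hvU h1 hG.one_le
    have h0 : 1 ≤ 1 + |Real.log v| + |Real.log (|1 - ς * v|)| := by
      have := abs_nonneg (Real.log v)
      have := abs_nonneg (Real.log (|1 - ς * v|))
      linarith
    refine b.trans ?_
    rw [mul_assoc c]
    refine mul_le_mul_of_nonneg_left ?_ (by linarith)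
    refine le_trans ?_ s
    nlinarith

theorem kk_g1 {G : ℝ → ℝ} {U c : ℝ} (hG : Pool.Agent.LSPO.GOK G U c) {ς : ℤ}
    (hς : ς = 1 ∨ ς = -1) :
    KkB ς U (c * (192 * (1 + U) ^ 2)) (fun v => G (ς * v) * Real.log (|1 / v - ς|)) := by
  have hc : 1 ≤ c := hG.one_le'
  have hcont : ContinuousOn (fun v : ℝ => G (ς * v) * Real.log (|1 / v - ς|))
      {v | 0 < v ∧ v ≠ 1} := by
    refine ((kk_cont hG).comp (by fun_prop) (fun v hv => ⟨(kk_arg hς hv.1 hv.2).1,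
      (kk_arg hς hv.1 hv.2).2.1⟩)).mul ?_
    refine ContinuousOn.log ?_ ?_
    · refine ContinuousOn.abs ?_
      refine ContinuousOn.sub ?_ continuousOn_const
      exact continuousOn_const.div continuousOn_id (fun v hv => hv.1.ne')
    · intro v hv
      have hp := kk_pos (kk_cast hς) hv.1 hv.2
      have e : |1 / v - (ς : ℝ)| = |1 - ς * v| / v := by
        have hv0 : v ≠ 0 := hv.1.ne'
        have : 1 / v - (ς : ℝ) = (1 - ς * v) / v := by field_simp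
        rw [this, abs_div, abs_of_pos hv.1]
      rw [e]
      exact (div_pos hp hv.1).ne'
  refine ⟨by positivity, hG.one_le, kk_meas hcont, ?_, ?_⟩
  · intro v hv
    have hv0 : 0 < v := by linarith [hG.one_le]
    by_cases h1 : v = 1
    · linarith [hG.one_le]
    · rw [hG.supp _ (by rw [(kk_arg hς hv0 h1).2.2]; exact hv), zero_mul]
  · intro v hv hvU h1
    obtain ⟨e1, e2, e3⟩ := kk_arg hς hv h1
    have b := hG.bd _ e1 e2
    rw [e3] at b
    have s := kk_sq (kk_cast hς) hv hvU h1 hG.one_le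
    have l := kk_log2 (kk_cast hς) hv h1
    have n1 := abs_nonneg (Real.log v)
    have n2 := abs_nonneg (Real.log (|1 - ς * v|))
    have n3 := abs_nonneg (Real.log (|1 / v - ς|))
    rw [abs_mul]
    rw [mul_assoc c]
    calc |G (ς * v)| * |Real.log (|1 / v - ς|)|
        ≤ (c * (1 + |Real.log v| + |Real.log (|1 - ς * v|)|)) *
            (1 + |Real.log v| + |Real.log (|1 - ς * v|)|) :=
          mul_le_mul b (by linarith) n3 (by positivity)
      _ = c * (1 + |Real.log v| + |Real.log (|1 - ς * v|)|) ^ 2 := by ring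
      _ ≤ _ := mul_le_mul_of_nonneg_left s (by linarith)

/-! ### functions of polynomial growth in the strip -/

/-- differentiable and of polynomial growth -/
def KkN (f : ℂ → ℂ) : Prop := ∃ (n : ℕ) (C : ℝ), 0 ≤ C ∧ ∀ s : ℂ, 1 / 2 ≤ s.re → s.re ≤ 2 →
  DifferentiableAt ℂ f s ∧ ‖f s‖ ≤ C * (|s.im| + 2) ^ n

theorem kk_const (c : ℂ) : KkN (fun _ => c) :=
  ⟨0, ‖c‖, norm_nonneg _, fun s _ _ => ⟨differentiableAt_const _, by simp⟩⟩

theorem KkN.mul {f g : ℂ → ℂ} (hf : KkN f) (hg : KkN g) : KkN (fun s => f s * g s) := by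
  obtain ⟨n, C, hC, h1⟩ := hf
  obtain ⟨m, D, hD, h2⟩ := hg
  refine ⟨n + m, C * D, by positivity, fun s h h' => ?_⟩
  refine ⟨(h1 s h h').1.mul (h2 s h h').1, ?_⟩
  rw [norm_mul]
  calc ‖f s‖ * ‖g s‖ ≤ (C * (|s.im| + 2) ^ n) * (D * (|s.im| + 2) ^ m) :=
        mul_le_mul (h1 s h h').2 (h2 s h h').2 (norm_nonneg _) (by positivity)
    _ = C * D * (|s.im| + 2) ^ (n + m) := by rw [pow_add]; ring

theorem KkN.add {f g : ℂ → ℂ} (hf : KkN f) (hg : KkN g) : KkN (fun s => f s + g s) := by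
  obtain ⟨n, C, hC, h1⟩ := hf
  obtain ⟨m, D, hD, h2⟩ := hg
  refine ⟨n + m, C + D, by positivity, fun s h h' => ?_⟩
  refine ⟨(h1 s h h').1.add (h2 s h h').1, ?_⟩
  have hb : 1 ≤ |s.im| + 2 := by linarith [abs_nonneg s.im]
  have e1 : (|s.im| + 2) ^ n ≤ (|s.im| + 2) ^ (n + m) := pow_le_pow_right₀ hb (by omega)
  have e2 : (|s.im| + 2) ^ m ≤ (|s.im| + 2) ^ (n + m) := pow_le_pow_right₀ hb (by omega)
  calc ‖f s + g s‖ ≤ ‖f s‖ + ‖g s‖ := norm_add_le _ _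
    _ ≤ C * (|s.im| + 2) ^ n + D * (|s.im| + 2) ^ m := add_le_add (h1 s h h').2 (h2 s h h').2
    _ ≤ C * (|s.im| + 2) ^ (n + m) + D * (|s.im| + 2) ^ (n + m) :=
        add_le_add (mul_le_mul_of_nonneg_left e1 hC) (mul_le_mul_of_nonneg_left e2 hD)
    _ = (C + D) * (|s.im| + 2) ^ (n + m) := by ring

theorem KkN.neg {f : ℂ → ℂ} (hf : KkN f) : KkN (fun s => -f s) := by
  obtain ⟨n, C, hC, h1⟩ := hf
  exact ⟨n, C, hC, fun s h h' => ⟨(h1 s h h').1.neg, by rw [norm_neg]; exact (h1 s h h').2⟩⟩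

theorem KkN.sub {f g : ℂ → ℂ} (hf : KkN f) (hg : KkN g) : KkN (fun s => f s - g s) := by
  have h := hf.add hg.neg
  simpa only [sub_eq_add_neg] using h

theorem kk_sum {ι : Type} (S : Finset ι) {f : ι → ℂ → ℂ} (hf : ∀ i ∈ S, KkN (f i)) :
    KkN (fun s => ∑ i ∈ S, f i s) := by
  classical
  induction S using Finset.induction_on with
  | empty => simpa using kk_const 0
  | insert a S ha ih =>
    have h1 := hf a (Finset.mem_insert_self _ _)
    have h2 := ih (fun i hi => hf i (Finset.mem_insert_of_mem hi))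
    have := h1.add h2
    simpa only [Finset.sum_insert ha] using this

theorem kk_cpow {b : ℝ} (hb : 0 < b) : KkN (fun s => (b : ℂ) ^ (-s)) := by
  refine ⟨0, b ^ (-(1 / 2) : ℝ) + b ^ (-2 : ℝ), by positivity, fun s h h' => ?_⟩
  have hb0 : (b : ℂ) ≠ 0 := by exact_mod_cast hb.ne'
  refine ⟨(differentiableAt_id.neg).const_cpow (Or.inl hb0), ?_⟩
  rw [norm_cpow_eq_rpow_re_of_pos hb, pow_zero, mul_one, Complex.neg_re]
  have p1 : 0 ≤ b ^ (-(1 / 2) : ℝ) := by positivity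
  have p2 : 0 ≤ b ^ (-2 : ℝ) := by positivity
  rcases le_or_gt 1 b with h1 | h1
  · have := Real.rpow_le_rpow_of_exponent_le h1 (show -s.re ≤ -(1 / 2) by linarith)
    linarith
  · have := Real.rpow_le_rpow_of_exponent_ge hb h1.le (show (-2 : ℝ) ≤ -s.re by linarith)
    linarith

variable {q : ℕ} [NeZero q]

theorem kk_Pk (χ : DirichletCharacter ℂ q) (k : ℕ) : Differentiable ℂ (Pk χ k) := by
  unfold Pk
  refine Differentiable.fun_sum fun h hh => ?_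
  have h0 : (h : ℂ) ≠ 0 := by
    have := Nat.pos_of_mem_divisors hh
    exact_mod_cast this.ne'
  have : Differentiable ℂ (fun s : ℂ => (h : ℂ) ^ (-s)) := fun s =>
    (differentiableAt_id.neg).const_cpow (Or.inl h0)
  fun_prop

theorem kk_Zk {χ : DirichletCharacter ℂ q} (hχ : χ ≠ 1) (k : ℕ) : Differentiable ℂ (Zk χ k) :=
  ((DirichletCharacter.differentiable_LFunction hχ).pow 2).mul (kk_Pk χ k)

theorem kk_nZk {χ : DirichletCharacter ℂ q} (hχ : χ ≠ 1) {k : ℕ} (hk : 1 ≤ k) :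
    KkN (Zk χ k) ∧ KkN (deriv (Zk χ k)) := by
  obtain ⟨C, hC⟩ := zk_bound_pr
  have hd := kk_Zk hχ k
  have ht : 0 ≤ tau k := Nat.cast_nonneg _
  have hl : 0 ≤ 1 + Real.log k := by
    have : 0 ≤ Real.log k := Real.log_natCast_nonneg k
    linarith
  constructor
  · refine ⟨2, |C| * q ^ 2 * tau k ^ 2, by positivity, fun s h h' => ⟨hd s, ?_⟩⟩
    have h1 := ((hC q χ hχ s h (by linarith)).2 k hk).1
    refine h1.trans ?_
    have h2 : C * q ^ 2 * (|s.im| + 2) ^ 2 * tau k ^ 2 =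
        C * ((q : ℝ) ^ 2 * (|s.im| + 2) ^ 2 * tau k ^ 2) := by ring
    have h3 : |C| * q ^ 2 * tau k ^ 2 * (|s.im| + 2) ^ 2 =
        |C| * ((q : ℝ) ^ 2 * (|s.im| + 2) ^ 2 * tau k ^ 2) := by ring
    rw [h2, h3]
    exact mul_le_mul_of_nonneg_right (le_abs_self C) (by positivity)
  · refine ⟨2, |C| * q ^ 2 * tau k ^ 2 * (1 + Real.log k), by positivity, fun s h h' => ⟨?_, ?_⟩⟩
    · exact (hd.analyticAt s).deriv.differentiableAt
    · have h1 := ((hC q χ hχ s h (by linarith)).2 k hk).2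
      refine h1.trans ?_
      have h2 : C * q ^ 2 * (|s.im| + 2) ^ 2 * tau k ^ 2 * (1 + Real.log k) =
          C * ((q : ℝ) ^ 2 * (|s.im| + 2) ^ 2 * tau k ^ 2 * (1 + Real.log k)) := by ring
      have h3 : |C| * q ^ 2 * tau k ^ 2 * (1 + Real.log k) * (|s.im| + 2) ^ 2 =
          |C| * ((q : ℝ) ^ 2 * (|s.im| + 2) ^ 2 * tau k ^ 2 * (1 + Real.log k)) := by ring
      rw [h2, h3]
      exact mul_le_mul_of_nonneg_right (le_abs_self C) (by positivity)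

theorem kk_M {G : ℝ → ℝ} {U c : ℝ} (hG : Pool.Agent.LSPO.GOK G U c) {ς : ℤ}
    (hς : ς = 1 ∨ ς = -1) : KkN (M0 G ς) ∧ KkN (M1 G ς) := by
  constructor
  · have hg := kk_g0 hG hς
    obtain ⟨C, hC⟩ := kk_bound (kk_cast hς) hg
    refine ⟨0, |C|, abs_nonneg _, fun s h h' => ⟨kk_diff (kk_cast hς) hg h h', ?_⟩⟩
    rw [pow_zero, mul_one]
    exact (hC s h h').trans (le_abs_self C)
  · have hg := kk_g1 hG hς
    obtain ⟨C, hC⟩ := kk_bound (kk_cast hς) hg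
    refine ⟨0, |C|, abs_nonneg _, fun s h h' => ⟨kk_diff (kk_cast hς) hg h h', ?_⟩⟩
    rw [pow_zero, mul_one]
    exact (hC s h h').trans (le_abs_self C)

theorem kk_PH {χ : DirichletCharacter ℂ q} (hχ : χ ≠ 1) {G : ℝ → ℝ} {U c : ℝ}
    (hG : Pool.Agent.LSPO.GOK G U c) (N e : ℕ) : KkN (PH χ N e G) := by
  unfold PH
  refine (kk_const _).mul (kk_sum _ fun p hp => (kk_const _).mul (kk_sum _ fun k hk => ?_))
  have hp' := Nat.mem_divisorsAntidiagonal.1 hp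
  have hp1 : 0 < p.1 := Nat.pos_of_ne_zero (by rintro h; rw [h, zero_mul] at hp'; exact hp'.2 hp'.1.symm)
  have hp2 : 0 < p.2 := Nat.pos_of_ne_zero (by rintro h; rw [h, mul_zero] at hp'; exact hp'.2 hp'.1.symm)
  have hk1 : 0 < k := Nat.pos_of_mem_divisors hk
  have hb : (0 : ℝ) < (p.1 * k : ℝ) / p.2 := by positivity
  obtain ⟨z1, z2⟩ := kk_nZk hχ (k := k) hk1
  refine ((kk_const _).mul (kk_cpow hb)).mul (kk_sum _ fun l hl => (kk_const _).mul
    (kk_sum _ fun ς hς => ?_))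
  have hς' : ς = 1 ∨ ς = -1 := by simpa using hς
  obtain ⟨m0, m1⟩ := kk_M hG hς'
  exact (kk_const _).mul ((z1.mul ((m0.mul (kk_const _)).add m1)).sub (z2.mul m0))

theorem kk_exp (n : ℕ) : ∃ C : ℝ, 0 ≤ C ∧ ∀ x : ℝ, 0 ≤ x →
    (x + 2) ^ n * Real.exp (-x) ≤ C * Real.exp (-(1 / 2 * x)) := by
  refine ⟨2 ^ n * n.factorial * Real.exp 1, by positivity, fun x hx => ?_⟩
  have h := Real.pow_div_factorial_le_exp ((x + 2) / 2) (by positivity) n
  have hf : (0 : ℝ) < n.factorial := by positivity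
  rw [div_le_iff₀ hf, div_pow, div_le_iff₀ (by positivity)] at h
  have e1 : Real.exp ((x + 2) / 2) = Real.exp 1 * Real.exp (1 / 2 * x) := by
    rw [← Real.exp_add]; congr 1; ring
  have e2 : Real.exp (1 / 2 * x) * Real.exp (-x) = Real.exp (-(1 / 2 * x)) := by
    rw [← Real.exp_add]; congr 1; ring
  calc (x + 2) ^ n * Real.exp (-x)
      ≤ (Real.exp ((x + 2) / 2) * n.factorial * 2 ^ n) * Real.exp (-x) :=
        mul_le_mul_of_nonneg_right h (Real.exp_nonneg _)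
    _ = 2 ^ n * n.factorial * Real.exp 1 * (Real.exp (1 / 2 * x) * Real.exp (-x)) := by
        rw [e1]; ring
    _ = _ := by rw [e2]

theorem om_shift_pr {χ : DirichletCharacter ℂ q} (hχ : χ ≠ 1) {T : ℝ} {ρ : ℝ → ℝ}
    (hρ : KerC T ρ) {w : ℝ → ℝ} {W : ℂ → ℂ} (hw : MW w W) {N e : ℕ} (hN : 1 ≤ N) (he : 1 ≤ e)
    {Y : ℝ} (hY : 0 < Y) :
    Integrable (fun t : ℝ => W (1 / 2 + t * I) *
      (((Y / N : ℝ) : ℂ) ^ (1 / 2 + t * I : ℂ)) * PH χ N e (GG ρ) (1 / 2 + t * I)) ∧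
    ∫ t : ℝ, W (2 + t * I) *
      (((Y / N : ℝ) : ℂ) ^ (2 + t * I : ℂ)) * PH χ N e (GG ρ) (2 + t * I) =
    ∫ t : ℝ, W (1 / 2 + t * I) *
      (((Y / N : ℝ) : ℂ) ^ (1 / 2 + t * I : ℂ)) * PH χ N e (GG ρ) (1 / 2 + t * I) := by
  obtain ⟨c, hG⟩ := Pool.Agent.LSP.gok_gg hρ.toKerL
  have hP := kk_PH hχ hG N e
  have hb : (0 : ℝ) < Y / N := by
    have : (0 : ℝ) < N := by exact_mod_cast hN
    positivity
  have hc : KkN (fun s => ((Y / N : ℝ) : ℂ) ^ s) := by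
    have hi : (0 : ℝ) < (Y / N)⁻¹ := by positivity
    have h := kk_cpow hi
    have e : (fun s : ℂ => (((Y / N)⁻¹ : ℝ) : ℂ) ^ (-s)) = fun s => ((Y / N : ℝ) : ℂ) ^ s := by
      funext s
      rw [Complex.ofReal_inv, Complex.inv_cpow, Complex.cpow_neg, inv_inv]
      rw [Complex.arg_ofReal_of_nonneg hb.le]
      exact Real.pi_pos.ne
    rw [e] at h
    exact h
  obtain ⟨n, C, hC, hF⟩ := hc.mul hP
  obtain ⟨D, hD⟩ := hw.bdd (1 / 2) 2 (by norm_num)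
  obtain ⟨B, hB, hE⟩ := kk_exp n
  have key := Pool.Agent.H3.vert_shift_pr (f := fun s : ℂ => W s *
      (((Y / N : ℝ) : ℂ) ^ s * PH χ N e (GG ρ) s)) (a := 1 / 2) (b := 2) (C := |D| * C * B)
      (c := 1 / 2) (by norm_num) (by norm_num)
      (fun s h h' => (hw.diff s (by linarith)).mul (hF s h h').1) (fun s h h' => by
        have h1 := hD s h h'
        have h2 := (hF s h h').2
        have h3 := hE (|s.im|) (abs_nonneg _)
        rw [norm_mul]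
        calc ‖W s‖ * ‖((Y / N : ℝ) : ℂ) ^ s * PH χ N e (GG ρ) s‖
            ≤ (|D| * Real.exp (-|s.im|)) * (C * (|s.im| + 2) ^ n) := by
              refine mul_le_mul (h1.trans ?_) h2 (norm_nonneg _) (by positivity)
              exact mul_le_mul_of_nonneg_right (le_abs_self D) (Real.exp_nonneg _)
          _ = |D| * C * ((|s.im| + 2) ^ n * Real.exp (-|s.im|)) := by ring
          _ ≤ |D| * C * (B * Real.exp (-(1 / 2 * |s.im|))) :=
              mul_le_mul_of_nonneg_left h3 (by positivity)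
          _ = |D| * C * B * Real.exp (-(1 / 2 * |s.im|)) := by ring)
  obtain ⟨k1, -, k3⟩ := key
  have c1 : (((1 / 2 : ℝ) : ℂ)) = 1 / 2 := by push_cast; ring
  have c2 : (((2 : ℝ) : ℂ)) = 2 := by push_cast; ring
  simp only [c1, c2, ← mul_assoc] at k1 k3
  exact ⟨k1, k3.symm⟩

end Pool.Agent.LK
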