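import Pool.Agent.Lib_helper31.LK.DefsP

/-! LSP3, part K, block KA: the Cauchy weight on a ray. -/

set_option autoImplicit false

namespace Pool.Agent.LK

open Complex MeasureTheory Set Filter Topology
open Pool.Agent.LSP (tau GG tp KerL)

noncomputable def ka_A (t y : ℝ) : ℝ := (1 + t * y) ^ 2 + y ^ 2

noncomputable def ka_B (u t y : ℝ) : ℝ := (1 - u - u * t * y) ^ 2 + u ^ 2 * y ^ 2

noncomputable def ka_N (u t y : ℝ) : ℝ :=
  t * (1 - u) + (1 - 2 * u) * (1 + t ^ 2) * y - u * t * (1 + t ^ 2) * y ^ 2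

noncomputable def ka_g (u t y : ℝ) : ℝ := ka_N u t y / (Real.pi * (ka_A t y * ka_B u t y))

noncomputable def ka_F (u t y : ℝ) : ℝ :=
  1 / (2 * Real.pi) * (Real.log (ka_A t y) - Real.log (ka_B u t y))

theorem ka_A_lb (t y : ℝ) : (1 + y ^ 2) / (2 + t ^ 2) ≤ ka_A t y := by
  have h : 0 < 2 + t ^ 2 := by positivity
  rw [div_le_iff₀ h]
  unfold ka_A
  have e : ((1 + t * y) ^ 2 + y ^ 2) * (2 + t ^ 2) =
      (1 + y ^ 2) + ((1 + t * y) ^ 2 + (t + (1 + t ^ 2) * y) ^ 2) := by ring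
  rw [e]
  nlinarith [sq_nonneg (1 + t * y), sq_nonneg (t + (1 + t ^ 2) * y)]

theorem ka_A_pos (t y : ℝ) : 0 < ka_A t y := lt_of_lt_of_le (by positivity) (ka_A_lb t y)

theorem ka_B_lb {u : ℝ} (h0 : u ≠ 0) (h1 : u ≠ 1) (t y : ℝ) :
    ((1 - u) ^ 2 * u ^ 2) / ((1 - u) ^ 2 + u ^ 2 * (1 + t ^ 2)) * (1 + y ^ 2) ≤ ka_B u t y := by
  have h2 : (1 - u) ≠ 0 := sub_ne_zero.2 h1.symm
  have h : 0 < (1 - u) ^ 2 + u ^ 2 * (1 + t ^ 2) := by positivity
  rw [div_mul_eq_mul_div, div_le_iff₀ h]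
  unfold ka_B
  have e : ((1 - u - u * t * y) ^ 2 + u ^ 2 * y ^ 2) * ((1 - u) ^ 2 + u ^ 2 * (1 + t ^ 2)) =
      (1 - u) ^ 2 * u ^ 2 * (1 + y ^ 2) + (((1 - u) ^ 2 - (1 - u) * u * t * y) ^ 2 +
        (-((1 - u) * u * t) + u ^ 2 * (1 + t ^ 2) * y) ^ 2) := by ring
  rw [e]
  nlinarith [sq_nonneg ((1 - u) ^ 2 - (1 - u) * u * t * y),
    sq_nonneg (-((1 - u) * u * t) + u ^ 2 * (1 + t ^ 2) * y)]

theorem ka_B_pos {u : ℝ} (h0 : u ≠ 0) (h1 : u ≠ 1) (t y : ℝ) : 0 < ka_B u t y := by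
  have h2 : (1 - u) ≠ 0 := sub_ne_zero.2 h1.symm
  exact lt_of_lt_of_le (by positivity) (ka_B_lb h0 h1 t y)

theorem ka_integrand {u : ℝ} (h0 : u ≠ 0) (h1 : u ≠ 1) (t : ℝ) {y : ℝ} (hy : 0 < y) :
    (1 - 2 * u + t * tp u t y) * rinf (tp u t y) / y = ka_g u t y := by
  have hA := (ka_A_pos t y).ne'
  have hB := (ka_B_pos h0 h1 t y).ne'
  have hpi := Real.pi_ne_zero
  have e1 : 1 + tp u t y ^ 2 = ka_A t y * ka_B u t y / y ^ 2 := by
    unfold tp ka_A ka_B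
    field_simp
    ring
  have e2 : (1 - 2 * u + t * tp u t y) * y = ka_N u t y := by
    unfold tp ka_N
    field_simp
    ring
  unfold rinf ka_g
  rw [e1, ← e2]
  field_simp

theorem ka_deriv {u : ℝ} (h0 : u ≠ 0) (h1 : u ≠ 1) (t y : ℝ) :
    HasDerivAt (ka_F u t) (ka_g u t y) y := by
  have hA := (ka_A_pos t y).ne'
  have hB := (ka_B_pos h0 h1 t y).ne'
  have hpi := Real.pi_ne_zero
  have d1 : HasDerivAt (ka_A t) (2 * (t * (1 + t * y) + y)) y := by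
    unfold ka_A
    have a1 : HasDerivAt (fun y : ℝ => 1 + t * y) t y := by
      simpa using ((hasDerivAt_id y).const_mul t).const_add 1
    have a2 := (a1.pow 2).add ((hasDerivAt_id y).pow 2)
    refine a2.congr_deriv ?_
    simp
    ring
  have d2 : HasDerivAt (ka_B u t) (2 * (-(u * t) * (1 - u - u * t * y) + u ^ 2 * y)) y := by
    unfold ka_B
    have a1 : HasDerivAt (fun y : ℝ => 1 - u - u * t * y) (-(u * t)) y := by
      simpa using ((hasDerivAt_id y).const_mul (u * t)).const_sub (1 - u)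
    have a2 := (a1.pow 2).add (((hasDerivAt_id y).pow 2).const_mul (u ^ 2))
    refine a2.congr_deriv ?_
    simp
    ring
  have d3 := ((d1.log hA).sub (d2.log hB)).const_mul (1 / (2 * Real.pi))
  refine d3.congr_deriv ?_
  unfold ka_g ka_N
  rw [div_sub_div _ _ hA hB, div_mul_div_comm, div_eq_div_iff (by positivity) (by positivity)]
  unfold ka_A ka_B
  ring

theorem ka_bound {u : ℝ} (h0 : u ≠ 0) (h1 : u ≠ 1) (t : ℝ) :
    ∃ C : ℝ, ∀ y : ℝ, ‖ka_g u t y‖ ≤ C * (1 + y ^ 2)⁻¹ := by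
  have h2 : (1 - u) ≠ 0 := sub_ne_zero.2 h1.symm
  have hpi := Real.pi_pos
  set K : ℝ := |t * (1 - u)| + |(1 - 2 * u) * (1 + t ^ 2)| + |u * t * (1 + t ^ 2)| with hK
  set δ : ℝ := ((1 - u) ^ 2 * u ^ 2) / ((1 - u) ^ 2 + u ^ 2 * (1 + t ^ 2)) with hδ
  have hδ0 : 0 < δ := by positivity
  have ht2 : 0 < 2 + t ^ 2 := by positivity
  refine ⟨K / (Real.pi * ((2 + t ^ 2)⁻¹ * δ)), fun y => ?_⟩
  have hN : |ka_N u t y| ≤ K * (1 + y ^ 2) := by
    have hy : |y| ≤ 1 + y ^ 2 := by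
      nlinarith [sq_nonneg (|y| - 1), sq_abs y, abs_nonneg y]
    have hy2 : y ^ 2 ≤ 1 + y ^ 2 := by linarith
    have h1y : (1 : ℝ) ≤ 1 + y ^ 2 := by nlinarith [sq_nonneg y]
    unfold ka_N
    calc |t * (1 - u) + (1 - 2 * u) * (1 + t ^ 2) * y - u * t * (1 + t ^ 2) * y ^ 2|
        ≤ |t * (1 - u) + (1 - 2 * u) * (1 + t ^ 2) * y| + |u * t * (1 + t ^ 2) * y ^ 2| :=
          abs_sub _ _
      _ ≤ |t * (1 - u)| + |(1 - 2 * u) * (1 + t ^ 2) * y| + |u * t * (1 + t ^ 2) * y ^ 2| := by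
          have := abs_add_le (t * (1 - u)) ((1 - 2 * u) * (1 + t ^ 2) * y)
          linarith
      _ = |t * (1 - u)| * 1 + |(1 - 2 * u) * (1 + t ^ 2)| * |y| +
          |u * t * (1 + t ^ 2)| * y ^ 2 := by
          rw [abs_mul _ y, abs_mul _ (y ^ 2), abs_of_nonneg (sq_nonneg y), mul_one]
      _ ≤ |t * (1 - u)| * (1 + y ^ 2) + |(1 - 2 * u) * (1 + t ^ 2)| * (1 + y ^ 2) +
          |u * t * (1 + t ^ 2)| * (1 + y ^ 2) := by
          have b1 := mul_le_mul_of_nonneg_left h1y (abs_nonneg (t * (1 - u)))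
          have b2 := mul_le_mul_of_nonneg_left hy (abs_nonneg ((1 - 2 * u) * (1 + t ^ 2)))
          have b3 := mul_le_mul_of_nonneg_left hy2 (abs_nonneg (u * t * (1 + t ^ 2)))
          linarith
      _ = K * (1 + y ^ 2) := by rw [hK]; ring
  have hA := ka_A_lb t y
  have hB := ka_B_lb h0 h1 t y
  rw [← hδ] at hB
  have hy0 : 0 < 1 + y ^ 2 := by positivity
  have hAB : ((2 + t ^ 2)⁻¹ * δ) * (1 + y ^ 2) ^ 2 ≤ ka_A t y * ka_B u t y := by
    have := mul_le_mul hA hB (by positivity) (ka_A_pos t y).le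
    calc ((2 + t ^ 2)⁻¹ * δ) * (1 + y ^ 2) ^ 2 = (1 + y ^ 2) / (2 + t ^ 2) * (δ * (1 + y ^ 2)) := by
          field_simp
      _ ≤ _ := this
  unfold ka_g
  rw [Real.norm_eq_abs, abs_div, abs_of_pos (by
    have := ka_A_pos t y
    have := ka_B_pos h0 h1 t y
    positivity : 0 < Real.pi * (ka_A t y * ka_B u t y))]
  calc |ka_N u t y| / (Real.pi * (ka_A t y * ka_B u t y))
      ≤ (K * (1 + y ^ 2)) / (Real.pi * (((2 + t ^ 2)⁻¹ * δ) * (1 + y ^ 2) ^ 2)) := by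
        apply div_le_div₀ (le_trans (abs_nonneg _) hN) hN (by positivity)
        exact mul_le_mul_of_nonneg_left hAB hpi.le
    _ = K / (Real.pi * ((2 + t ^ 2)⁻¹ * δ)) * (1 + y ^ 2)⁻¹ := by
        field_simp

theorem ka_lim {u : ℝ} (h0 : u ≠ 0) (h1 : u ≠ 1) (t : ℝ) :
    Tendsto (ka_F u t) atTop (𝓝 (-(1 / Real.pi * Real.log |u|))) := by
  have hpi := Real.pi_ne_zero
  have hq : Tendsto (fun y : ℝ => ka_A t y / ka_B u t y) atTop
      (𝓝 ((1 + t ^ 2) / (u ^ 2 * (1 + t ^ 2)))) := by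
    have hi : Tendsto (fun y : ℝ => y⁻¹) atTop (𝓝 0) := tendsto_inv_atTop_zero
    have n1 : Tendsto (fun y : ℝ => (y⁻¹ + t) ^ 2 + 1) atTop (𝓝 ((0 + t) ^ 2 + 1)) :=
      ((hi.add_const t).pow 2).add_const 1
    have n2 : Tendsto (fun y : ℝ => ((1 - u) * y⁻¹ - u * t) ^ 2 + u ^ 2) atTop
        (𝓝 (((1 - u) * 0 - u * t) ^ 2 + u ^ 2)) :=
      (((hi.const_mul (1 - u)).sub_const (u * t)).pow 2).add_const (u ^ 2)
    have hne : ((1 - u) * 0 - u * t) ^ 2 + u ^ 2 ≠ 0 := by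
      have : 0 < u ^ 2 := by positivity
      nlinarith [sq_nonneg ((1 - u) * 0 - u * t)]
    have n3 := n1.div n2 hne
    have e : ((0 + t) ^ 2 + 1) / (((1 - u) * 0 - u * t) ^ 2 + u ^ 2) =
        (1 + t ^ 2) / (u ^ 2 * (1 + t ^ 2)) := by
      congr 1 <;> ring
    rw [e] at n3
    apply n3.congr'
    filter_upwards [eventually_gt_atTop 0] with y hy
    have hB := (ka_B_pos h0 h1 t y).ne'
    have hB2 : ((1 - u) * y⁻¹ - u * t) ^ 2 + u ^ 2 ≠ 0 := by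
      have : 0 < u ^ 2 := by positivity
      nlinarith [sq_nonneg ((1 - u) * y⁻¹ - u * t)]
    show ((y⁻¹ + t) ^ 2 + 1) / (((1 - u) * y⁻¹ - u * t) ^ 2 + u ^ 2) = _
    rw [div_eq_div_iff hB2 hB]
    unfold ka_A ka_B
    field_simp
  have hlim0 : (1 + t ^ 2) / (u ^ 2 * (1 + t ^ 2)) ≠ 0 := by positivity
  have h2 := (hq.log hlim0).const_mul (1 / (2 * Real.pi))
  have e2 : 1 / (2 * Real.pi) * Real.log ((1 + t ^ 2) / (u ^ 2 * (1 + t ^ 2))) =
      -(1 / Real.pi * Real.log |u|) := by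
    have : (1 + t ^ 2) / (u ^ 2 * (1 + t ^ 2)) = (u ^ 2)⁻¹ := by
      field_simp
    rw [this, Real.log_inv, ← sq_abs, Real.log_pow]
    push_cast
    field_simp
  rw [e2] at h2
  apply h2.congr
  intro y
  unfold ka_F
  rw [Real.log_div (ka_A_pos t y).ne' (ka_B_pos h0 h1 t y).ne']

theorem ray_int_pr {u : ℝ} (h0 : u ≠ 0) (h1 : u ≠ 1) (t : ℝ) :
    IntegrableOn (fun y : ℝ => (1 - 2 * u + t * tp u t y) * rinf (tp u t y) / y) (Ioi 0) ∧
      ∫ y in Ioi (0 : ℝ), (1 - 2 * u + t * tp u t y) * rinf (tp u t y) / y = Goo u := by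
  have h2 : (1 - u) ≠ 0 := sub_ne_zero.2 h1.symm
  have hpi := Real.pi_ne_zero
  obtain ⟨C, hC⟩ := ka_bound h0 h1 t
  have hcont : Continuous (ka_g u t) := by
    unfold ka_g
    apply Continuous.div
    · unfold ka_N; fun_prop
    · unfold ka_A ka_B; fun_prop
    · intro y
      have := ka_A_pos t y
      have := ka_B_pos h0 h1 t y
      have := Real.pi_pos
      positivity
  have hint : Integrable (ka_g u t) := by
    refine Integrable.mono' (integrable_inv_one_add_sq.const_mul C) hcont.aestronglyMeasurable ?_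
    exact Eventually.of_forall hC
  have hF0 : ka_F u t 0 = -(1 / Real.pi * Real.log |1 - u|) := by
    unfold ka_F ka_A ka_B
    have e1 : (1 + t * 0) ^ 2 + (0 : ℝ) ^ 2 = 1 := by ring
    have e2 : (1 - u - u * t * 0) ^ 2 + u ^ 2 * (0 : ℝ) ^ 2 = (1 - u) ^ 2 := by ring
    rw [e1, e2, Real.log_one, ← sq_abs, Real.log_pow]
    push_cast
    field_simp
    ring
  have hval := integral_Ioi_of_hasDerivAt_of_tendsto' (a := 0)
    (fun y _ => ka_deriv h0 h1 t y) hint.integrableOn (ka_lim h0 h1 t)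
  have heq : EqOn (fun y : ℝ => (1 - 2 * u + t * tp u t y) * rinf (tp u t y) / y) (ka_g u t)
      (Ioi 0) := fun y hy => ka_integrand h0 h1 t hy
  refine ⟨hint.integrableOn.congr_fun heq.symm measurableSet_Ioi, ?_⟩
  rw [setIntegral_congr_fun measurableSet_Ioi heq, hval, hF0]
  unfold Goo
  have e3 : |1 - 1 / u| = |1 - u| / |u| := by
    rw [← abs_div, ← abs_neg]
    congr 1
    field_simp
    ring
  rw [e3, Real.log_div (abs_ne_zero.2 h2) (abs_ne_zero.2 h0)]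
  ring

end Pool.Agent.LK
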