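import Pool.Agent.Lib_helper31.LK.DefsP
import Pool.Agent.Lib_helper41.LSPG.KFA
import Pool.Agent.Lib_helper31.LKF.KA

/-! # LK block KB1: the difference of the kernels -/

namespace Pool.Agent.LK

open Complex MeasureTheory Set
open Pool.Agent.LSP (tau GG tp KerL)

theorem kb1_rinf_pos (t : ℝ) : 0 < rinf t := by
  unfold rinf
  have := Real.pi_pos
  positivity

theorem kb1_sqrt (v : ℝ) : rinf v * Real.sqrt (1 + v ^ 2) = 1 / Real.pi * (Real.sqrt (1 + v ^ 2))⁻¹ := by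
  have h1 : 0 < 1 + v ^ 2 := by positivity
  have h2 : 0 < Real.sqrt (1 + v ^ 2) := Real.sqrt_pos.2 h1
  have h3 : Real.sqrt (1 + v ^ 2) * Real.sqrt (1 + v ^ 2) = 1 + v ^ 2 := Real.mul_self_sqrt h1.le
  have hp := Real.pi_pos.ne'
  have e : rinf v = 1 / Real.pi * (1 + v ^ 2)⁻¹ := by
    unfold rinf
    rw [one_div, mul_inv, one_div]
  rw [e, mul_assoc]
  congr 1
  rw [← h3, mul_inv, mul_assoc, Real.sqrt_mul_self h2.le, inv_mul_cancel₀ h2.ne', mul_one]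

/-- `|v|^{3/4} ≤ √(1+v²)` -/
theorem kb1_34 (v : ℝ) : |v| ^ (3 / 4 : ℝ) ≤ Real.sqrt (1 + v ^ 2) := by
  rcases le_total |v| 1 with h | h
  · calc |v| ^ (3 / 4 : ℝ) ≤ 1 := Real.rpow_le_one (abs_nonneg _) h (by norm_num)
      _ ≤ Real.sqrt (1 + v ^ 2) := by
          rw [Real.one_le_sqrt]
          nlinarith [sq_nonneg v]
  · calc |v| ^ (3 / 4 : ℝ) ≤ |v| ^ (1 : ℝ) := Real.rpow_le_rpow_of_exponent_le h (by norm_num)
      _ = |v| := Real.rpow_one _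
      _ ≤ Real.sqrt (1 + v ^ 2) := by
          refine Real.le_sqrt_of_sq_le ?_
          rw [sq_abs]
          linarith

theorem kb1_v {T : ℝ} (hT : 4 ≤ T) {ρ : ℝ → ℝ} (hρ : KerC T ρ) {v : ℝ} (hv : v ≠ 0) :
    |ρ v - rinf v| * Real.sqrt (1 + v ^ 2) ≤
      4 / Real.pi * T ^ (-(1 / 4) : ℝ) * |v| ^ (-(3 / 4) : ℝ) := by
  have hT0 : 0 < T := by linarith
  have hv0 : 0 < |v| := abs_pos.2 hv
  have h1 : 0 < 1 + v ^ 2 := by positivity
  have h2 : 0 < Real.sqrt (1 + v ^ 2) := Real.sqrt_pos.2 h1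
  have hp := Real.pi_pos
  have hv34 : 0 < |v| ^ (-(3 / 4) : ℝ) := Real.rpow_pos_of_pos hv0 _
  have hT14 : 0 < T ^ (-(1 / 4) : ℝ) := Real.rpow_pos_of_pos hT0 _
  have h3 : (Real.sqrt (1 + v ^ 2))⁻¹ ≤ |v| ^ (-(3 / 4) : ℝ) := by
    rw [Real.rpow_neg hv0.le]
    exact inv_anti₀ (Real.rpow_pos_of_pos hv0 _) (kb1_34 v)
  rcases le_or_gt |v| (T / 2) with h | h
  · have h4 := hρ.near v h
    calc |ρ v - rinf v| * Real.sqrt (1 + v ^ 2) ≤ (4 / T * rinf v) * Real.sqrt (1 + v ^ 2) :=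
          mul_le_mul_of_nonneg_right h4 h2.le
      _ = 4 / Real.pi * T⁻¹ * (Real.sqrt (1 + v ^ 2))⁻¹ := by
          rw [mul_assoc, kb1_sqrt]
          field_simp
      _ ≤ 4 / Real.pi * T ^ (-(1 / 4) : ℝ) * |v| ^ (-(3 / 4) : ℝ) := by
          refine mul_le_mul (mul_le_mul_of_nonneg_left ?_ (by positivity)) h3 (by positivity)
            (by positivity)
          rw [← Real.rpow_neg_one]
          exact Real.rpow_le_rpow_of_exponent_le (by linarith) (by norm_num)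
  · have h4 : |ρ v - rinf v| ≤ rinf v := by
      have a1 := hρ.nonneg v
      have a2 := hρ.le v
      rw [abs_le]
      constructor <;> linarith
    have h5 : |v|⁻¹ ≤ 4 * T ^ (-(1 / 4) : ℝ) * |v| ^ (-(3 / 4) : ℝ) := by
      have e1 : |v|⁻¹ = |v| ^ (-(1 / 4) : ℝ) * |v| ^ (-(3 / 4) : ℝ) := by
        rw [← Real.rpow_add hv0, ← Real.rpow_neg_one]
        norm_num
      rw [e1]
      refine mul_le_mul_of_nonneg_right ?_ hv34.le
      have e2 : |v| ^ (-(1 / 4) : ℝ) ≤ (T / 2) ^ (-(1 / 4) : ℝ) :=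
        Real.rpow_le_rpow_of_nonpos (by linarith) h.le (by norm_num)
      refine e2.trans ?_
      rw [Real.div_rpow hT0.le (by norm_num), div_eq_mul_inv, mul_comm]
      refine mul_le_mul_of_nonneg_right ?_ hT14.le
      rw [Real.rpow_neg (by norm_num), inv_inv]
      calc (2 : ℝ) ^ (1 / 4 : ℝ) ≤ 2 ^ (1 : ℝ) :=
            Real.rpow_le_rpow_of_exponent_le (by norm_num) (by norm_num)
        _ ≤ 4 := by norm_num
    have h6 : (Real.sqrt (1 + v ^ 2))⁻¹ ≤ |v|⁻¹ := by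
      refine inv_anti₀ hv0 (Real.le_sqrt_of_sq_le ?_)
      rw [sq_abs]
      linarith
    calc |ρ v - rinf v| * Real.sqrt (1 + v ^ 2) ≤ rinf v * Real.sqrt (1 + v ^ 2) :=
          mul_le_mul_of_nonneg_right h4 h2.le
      _ = 1 / Real.pi * (Real.sqrt (1 + v ^ 2))⁻¹ := kb1_sqrt v
      _ ≤ 1 / Real.pi * (4 * T ^ (-(1 / 4) : ℝ) * |v| ^ (-(3 / 4) : ℝ)) :=
          mul_le_mul_of_nonneg_left (h6.trans h5) (by positivity)
      _ = _ := by ring

theorem kb1_pt {T : ℝ} (hT : 4 ≤ T) {ρ : ℝ → ℝ} (hρ : KerC T ρ) {u t y : ℝ} (hy : 0 < y)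
    (hv : tp u t y ≠ 0) :
    |Pool.Agent.LSP.kfF ρ u t y - ρ t * ((1 - 2 * u + t * tp u t y) * rinf (tp u t y) / y)| ≤
      (2 / Real.pi * (4 / Real.pi)) * T ^ (-(1 / 4) : ℝ) *
        ((1 + t ^ 2) ^ (-(1 / 2) : ℝ) * |tp u t y| ^ (-(3 / 4) : ℝ) / y) := by
  have hp := Real.pi_pos
  have ht1 : 0 < 1 + t ^ 2 := by positivity
  have hv1 : 0 < 1 + tp u t y ^ 2 := by positivity
  have e1 : Pool.Agent.LSP.kfF ρ u t y -
      ρ t * ((1 - 2 * u + t * tp u t y) * rinf (tp u t y) / y) =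
      (1 - 2 * u + t * tp u t y) * ρ t * (ρ (tp u t y) - rinf (tp u t y)) / y := by
    unfold Pool.Agent.LSP.kfF
    ring
  have h1 : |1 - 2 * u + t * tp u t y| ≤ Real.sqrt (1 + t ^ 2) * Real.sqrt (1 + tp u t y ^ 2) := by
    rw [← Real.sqrt_mul ht1.le]
    exact Real.abs_le_sqrt (Pool.Agent.LSP.kfa_gram u t y hy)
  have h2 := kb1_v hT hρ hv
  have h3 : Real.sqrt (1 + t ^ 2) * ρ t ≤ 2 / Real.pi * (1 + t ^ 2) ^ (-(1 / 2) : ℝ) := by
    calc Real.sqrt (1 + t ^ 2) * ρ t ≤ Real.sqrt (1 + t ^ 2) * (2 * rinf t) :=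
          mul_le_mul_of_nonneg_left (hρ.le t) (Real.sqrt_nonneg _)
      _ = 2 * (rinf t * Real.sqrt (1 + t ^ 2)) := by ring
      _ = 2 / Real.pi * (1 + t ^ 2) ^ (-(1 / 2) : ℝ) := by
          rw [kb1_sqrt, Real.rpow_neg ht1.le, ← Real.sqrt_eq_rpow]
          ring
  rw [e1, abs_div, abs_mul, abs_mul, abs_of_pos hy, abs_of_nonneg (hρ.nonneg t)]
  rw [show (2 / Real.pi * (4 / Real.pi)) * T ^ (-(1 / 4) : ℝ) *
        ((1 + t ^ 2) ^ (-(1 / 2) : ℝ) * |tp u t y| ^ (-(3 / 4) : ℝ) / y) =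
      ((2 / Real.pi * (1 + t ^ 2) ^ (-(1 / 2) : ℝ)) *
        (4 / Real.pi * T ^ (-(1 / 4) : ℝ) * |tp u t y| ^ (-(3 / 4) : ℝ))) / y by ring]
  refine div_le_div_of_nonneg_right ?_ hy.le
  calc |1 - 2 * u + t * tp u t y| * ρ t * |ρ (tp u t y) - rinf (tp u t y)|
      ≤ (Real.sqrt (1 + t ^ 2) * Real.sqrt (1 + tp u t y ^ 2)) * ρ t *
          |ρ (tp u t y) - rinf (tp u t y)| := by
        refine mul_le_mul_of_nonneg_right (mul_le_mul_of_nonneg_right h1 (hρ.nonneg t))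
          (abs_nonneg _)
    _ = (Real.sqrt (1 + t ^ 2) * ρ t) *
          (|ρ (tp u t y) - rinf (tp u t y)| * Real.sqrt (1 + tp u t y ^ 2)) := by ring
    _ ≤ _ := mul_le_mul h3 h2 (mul_nonneg (abs_nonneg _) (Real.sqrt_nonneg _)) (by positivity)

/-- `tp` vanishes only for finitely many `y` -/
theorem kb1_null {u : ℝ} (h1 : u ≠ 1) (t : ℝ) :
    ∀ᵐ y ∂(volume.restrict (Ioi (0 : ℝ))), tp u t y ≠ 0 := by
  set p : Polynomial ℝ := Polynomial.C (1 - u) + Polynomial.C ((1 - 2 * u) * t) * Polynomial.X +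
    Polynomial.C (-(u * (1 + t ^ 2))) * Polynomial.X ^ 2 with hp
  have hp0 : p ≠ 0 := by
    intro h
    have h2 := congrArg (Polynomial.eval 0) h
    rw [hp] at h2
    simp only [Polynomial.eval_add, Polynomial.eval_C, Polynomial.eval_mul, Polynomial.eval_X,
      mul_zero, add_zero, Polynomial.eval_pow, Polynomial.eval_zero, ne_eq, OfNat.ofNat_ne_zero,
      not_false_eq_true, zero_pow] at h2
    exact h1 (by linarith)
  have hfin := Polynomial.finite_setOfPred_isRoot hp0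
  have hnull : volume {y : ℝ | p.IsRoot y} = 0 := hfin.measure_zero volume
  have hae : ∀ᵐ y ∂(volume : Measure ℝ), y ∉ {y : ℝ | p.IsRoot y} := by
    rw [ae_iff]
    simpa using hnull
  refine (ae_restrict_iff' measurableSet_Ioi).2 ?_
  filter_upwards [hae] with y hy hy0 h
  apply hy
  have hy0' : y ≠ 0 := ne_of_gt hy0
  show p.IsRoot y
  rw [Polynomial.IsRoot, hp]
  simp only [Polynomial.eval_add, Polynomial.eval_C, Polynomial.eval_mul, Polynomial.eval_X,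
    Polynomial.eval_pow]
  have e : (1 - u + (1 - 2 * u) * t * y + -(u * (1 + t ^ 2)) * y ^ 2) = y * tp u t y := by
    unfold Pool.Agent.LSP.tp
    field_simp
    ring
  rw [e, h, mul_zero]

theorem diff_le_pr : ∃ C : ℝ, 0 ≤ C ∧ ∀ T : ℝ, 4 ≤ T → ∀ ρ : ℝ → ℝ, KerC T ρ → ∀ u : ℝ, u ≠ 0 → u ≠ 1 →
    ENNReal.ofReal |GG ρ u - Goo u| ≤ ENNReal.ofReal (C * T ^ (-(1 / 4) : ℝ)) *
      ∫⁻ t : ℝ, ∫⁻ y in Ioi (0 : ℝ), ENNReal.ofReal
        ((1 + t ^ 2) ^ (-(1 / 2) : ℝ) * |tp u t y| ^ (-(3 / 4) : ℝ) / y) := by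
  have hp := Real.pi_pos
  refine ⟨2 / Real.pi * (4 / Real.pi), by positivity, fun T hT ρ hρ u h0 h1 => ?_⟩
  obtain ⟨R, -, hR⟩ := Pool.Agent.LSP.kfa_rho hρ.toKer
  have hρi : Integrable ρ := by
    by_contra h
    have h2 := hρ.int
    rw [integral_undef h] at h2
    exact zero_ne_one h2
  have hin := fun t => (Pool.Agent.LSP.kfa_inner hρ.toKer hR h0 h1 t).1
  have hout := Pool.Agent.LSP.kfa_outer hρ.toKer h0 h1
  have e1 : GG ρ u - Goo u = ∫ t : ℝ, ∫ y in Ioi (0 : ℝ), (Pool.Agent.LSP.kfF ρ u t y -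
      ρ t * ((1 - 2 * u + t * tp u t y) * rinf (tp u t y) / y)) := by
    have a1 : Goo u = ∫ t : ℝ, ρ t * Goo u := by
      rw [integral_mul_const, hρ.int, one_mul]
    rw [Pool.Agent.LSP.kfa_eq]
    nth_rewrite 1 [a1]
    rw [← integral_sub hout (hρi.mul_const _)]
    refine integral_congr_ae (Filter.Eventually.of_forall fun t => ?_)
    obtain ⟨b1, b2⟩ := ray_int_pr h0 h1 t
    simp only
    rw [integral_sub (hin t) (b1.const_mul _), integral_const_mul, b2]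
  have e2 : ENNReal.ofReal |GG ρ u - Goo u| = ‖GG ρ u - Goo u‖ₑ := by
    rw [← Real.norm_eq_abs, ofReal_norm]
  rw [e2, e1]
  refine (enorm_integral_le_lintegral_enorm _).trans ?_
  rw [← lintegral_const_mul' _ _ ENNReal.ofReal_ne_top]
  refine lintegral_mono fun t => ?_
  refine (enorm_integral_le_lintegral_enorm _).trans ?_
  rw [← lintegral_const_mul' _ _ ENNReal.ofReal_ne_top]
  refine lintegral_mono_ae ?_
  filter_upwards [kb1_null h1 t, ae_restrict_mem measurableSet_Ioi] with y hy hy0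
  rw [← ENNReal.ofReal_mul (by positivity), ← ofReal_norm]
  exact ENNReal.ofReal_le_ofReal (kb1_pt hT hρ hy0 hy)

end Pool.Agent.LK
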