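import Pool.Agent.Lib_helper31.LK.DefsP

namespace Pool.Agent.LK

open Complex MeasureTheory Set
open Pool.Agent.LSP (tau GG tp KerL)

/-- the beta integral over the line -/
noncomputable def kb2_cc (a p : ℝ) : ENNReal :=
  ∫⁻ v : ℝ, ENNReal.ofReal (|v| ^ (-a) * |1 - v| ^ (-p))

theorem kb2_abs_int {a : ℝ} (ha : a < 1) :
    IntervalIntegrable (fun x : ℝ => |x| ^ (-a)) volume (-(1 / 2)) (1 / 2) := by
  have h1 : IntervalIntegrable (fun x : ℝ => |x| ^ (-a)) volume 0 (1 / 2) := by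
    refine (intervalIntegral.intervalIntegrable_rpow' (a := 0) (b := 1 / 2)
      (r := -a) (by linarith)).congr ?_
    intro x hx
    rw [uIoc_of_le (by norm_num)] at hx
    simp only [abs_of_pos hx.1]
  have h2 : IntervalIntegrable (fun x : ℝ => |x| ^ (-a)) volume (-(1 / 2)) 0 := by
    have h3 := h1.symm
    rw [IntervalIntegrable.iff_comp_neg] at h3
    simpa using h3
  exact h2.trans h1

theorem kb2_cc_lt {a p : ℝ} (_ha0 : 0 ≤ a) (ha : a < 1) (_hp0 : 0 ≤ p) (hp : p < 1)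
    (hap : 1 < a + p) : kb2_cc a p < ⊤ := by
  have hh : (0 : ℝ) < 1 / 2 := by norm_num
  have i1 : Integrable ((Icc (-(1 / 2 : ℝ)) (1 / 2)).indicator
      (fun v => (2 : ℝ) ^ p * |v| ^ (-a))) := by
    rw [integrable_indicator_iff measurableSet_Icc, integrableOn_Icc_iff_integrableOn_Ioc]
    exact ((intervalIntegrable_iff_integrableOn_Ioc_of_le (by norm_num)).mp
      (kb2_abs_int ha)).const_mul _
  have i2 : Integrable ((Icc (1 / 2 : ℝ) (3 / 2)).indicator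
      (fun v => (2 : ℝ) ^ a * |1 - v| ^ (-p))) := by
    rw [integrable_indicator_iff measurableSet_Icc, integrableOn_Icc_iff_integrableOn_Ioc]
    have h1 := (kb2_abs_int hp).comp_sub_left 1
    have h2 : IntervalIntegrable (fun x : ℝ => |1 - x| ^ (-p)) volume (1 / 2) (3 / 2) := by
      have h3 := h1.symm
      norm_num at h3 ⊢
      exact h3
    exact ((intervalIntegrable_iff_integrableOn_Ioc_of_le (by norm_num)).mp h2).const_mul _
  have i3 : Integrable (fun v : ℝ => (3 : ℝ) ^ a * 6 ^ p * (1 + ‖v‖) ^ (-(a + p))) :=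
    (integrable_one_add_norm (by simpa using hap)).const_mul _
  have hi := (i1.add i2).add i3
  have hf : Integrable (fun v : ℝ => |v| ^ (-a) * |1 - v| ^ (-p)) := by
    refine hi.mono' (by fun_prop) (Filter.Eventually.of_forall fun v => ?_)
    have hn : 0 ≤ |v| ^ (-a) * |1 - v| ^ (-p) := by positivity
    rw [Real.norm_of_nonneg hn]
    simp only [Pi.add_apply]
    have g1 : 0 ≤ (Icc (-(1 / 2 : ℝ)) (1 / 2)).indicator (fun v => (2 : ℝ) ^ p * |v| ^ (-a)) v :=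
      indicator_nonneg (fun x _ => by positivity) _
    have g2 : 0 ≤ (Icc (1 / 2 : ℝ) (3 / 2)).indicator
        (fun v => (2 : ℝ) ^ a * |1 - v| ^ (-p)) v :=
      indicator_nonneg (fun x _ => by positivity) _
    have g3 : 0 ≤ (3 : ℝ) ^ a * 6 ^ p * (1 + ‖v‖) ^ (-(a + p)) := by positivity
    by_cases c1 : v ∈ Icc (-(1 / 2 : ℝ)) (1 / 2)
    · rw [indicator_of_mem c1]
      have h1 : 1 / 2 ≤ |1 - v| := by
        rw [abs_of_nonneg (by linarith [c1.2])]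
        linarith [c1.2]
      have h2 : |1 - v| ^ (-p) ≤ (2 : ℝ) ^ p := by
        calc |1 - v| ^ (-p) ≤ (1 / 2 : ℝ) ^ (-p) :=
              Real.rpow_le_rpow_of_nonpos hh h1 (by linarith)
          _ = (2 : ℝ) ^ p := by
              rw [one_div, Real.inv_rpow (by norm_num), Real.rpow_neg (by norm_num), inv_inv]
      have h3 : |v| ^ (-a) * |1 - v| ^ (-p) ≤ 2 ^ p * |v| ^ (-a) := by
        rw [mul_comm]
        exact mul_le_mul_of_nonneg_right h2 (by positivity)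
      linarith
    by_cases c2 : v ∈ Icc (1 / 2 : ℝ) (3 / 2)
    · rw [indicator_of_mem c2] at g2 ⊢
      have h1 : 1 / 2 ≤ |v| := by
        rw [abs_of_nonneg (by linarith [c2.1])]
        exact c2.1
      have h2 : |v| ^ (-a) ≤ (2 : ℝ) ^ a := by
        calc |v| ^ (-a) ≤ (1 / 2 : ℝ) ^ (-a) :=
              Real.rpow_le_rpow_of_nonpos hh h1 (by linarith)
          _ = (2 : ℝ) ^ a := by
              rw [one_div, Real.inv_rpow (by norm_num), Real.rpow_neg (by norm_num), inv_inv]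
      have h3 : |v| ^ (-a) * |1 - v| ^ (-p) ≤ 2 ^ a * |1 - v| ^ (-p) :=
        mul_le_mul_of_nonneg_right h2 (by positivity)
      linarith
    · have d1 : 1 / 2 < |v| := by
        by_contra hcon
        push Not at hcon
        exact c1 (abs_le.mp hcon)
      have d2 : 1 / 2 < |1 - v| := by
        by_contra hcon
        push Not at hcon
        have := abs_le.mp hcon
        exact c2 ⟨by linarith [this.2], by linarith [this.1]⟩
      have e1 : (1 + ‖v‖) / 3 ≤ |v| := by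
        rw [Real.norm_eq_abs]
        linarith
      have e2 : (1 + ‖v‖) / 6 ≤ |1 - v| := by
        rw [Real.norm_eq_abs]
        have h4 : |v| ≤ 1 + |1 - v| := by
          have := abs_sub_abs_le_abs_sub v 1
          rw [abs_one, abs_sub_comm] at this
          linarith
        linarith
      have hv0 : 0 < 1 + ‖v‖ := by positivity
      have f1 : |v| ^ (-a) ≤ 3 ^ a * (1 + ‖v‖) ^ (-a) := by
        calc |v| ^ (-a) ≤ ((1 + ‖v‖) / 3) ^ (-a) :=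
              Real.rpow_le_rpow_of_nonpos (by positivity) e1 (by linarith)
          _ = 3 ^ a * (1 + ‖v‖) ^ (-a) := by
              rw [Real.div_rpow hv0.le (by norm_num), Real.rpow_neg (by norm_num : (0 : ℝ) ≤ 3),
                div_inv_eq_mul, mul_comm]
      have f2 : |1 - v| ^ (-p) ≤ 6 ^ p * (1 + ‖v‖) ^ (-p) := by
        calc |1 - v| ^ (-p) ≤ ((1 + ‖v‖) / 6) ^ (-p) :=
              Real.rpow_le_rpow_of_nonpos (by positivity) e2 (by linarith)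
          _ = 6 ^ p * (1 + ‖v‖) ^ (-p) := by
              rw [Real.div_rpow hv0.le (by norm_num), Real.rpow_neg (by norm_num : (0 : ℝ) ≤ 6),
                div_inv_eq_mul, mul_comm]
      have f3 : (1 + ‖v‖) ^ (-(a + p)) = (1 + ‖v‖) ^ (-a) * (1 + ‖v‖) ^ (-p) := by
        rw [← Real.rpow_add hv0]
        congr 1
        ring
      have f4 : |v| ^ (-a) * |1 - v| ^ (-p) ≤
          (3 ^ a * (1 + ‖v‖) ^ (-a)) * (6 ^ p * (1 + ‖v‖) ^ (-p)) :=
        mul_le_mul f1 f2 (by positivity) (by positivity)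
      rw [f3]
      have f5 : (3 ^ a * (1 + ‖v‖) ^ (-a)) * (6 ^ p * (1 + ‖v‖) ^ (-p)) =
          3 ^ a * 6 ^ p * ((1 + ‖v‖) ^ (-a) * (1 + ‖v‖) ^ (-p)) := by ring
      linarith
  exact hf.lintegral_lt_top

theorem kb2_scale {a p α β : ℝ} (hα : α ≠ 0) (hβ : β ≠ 0) :
    ∫⁻ u : ℝ, ENNReal.ofReal (|u| ^ (-a) * |α - β * u| ^ (-p)) =
      ENNReal.ofReal (|α| ^ (1 - a - p) * |β| ^ (a - 1)) * kb2_cc a p := by
  have hc : α / β ≠ 0 := div_ne_zero hα hβ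
  have hα' : 0 < |α| := abs_pos.mpr hα
  have hβ' : 0 < |β| := abs_pos.mpr hβ
  have hc' : 0 < |α / β| := abs_pos.mpr hc
  conv_lhs => rw [← Real.smul_map_volume_mul_left hc]
  rw [lintegral_smul_measure, lintegral_map (by fun_prop) (by fun_prop)]
  have h1 : ∀ v : ℝ, ENNReal.ofReal (|α / β * v| ^ (-a) * |α - β * (α / β * v)| ^ (-p)) =
      ENNReal.ofReal (|α / β| ^ (-a) * |α| ^ (-p)) *
        ENNReal.ofReal (|v| ^ (-a) * |1 - v| ^ (-p)) := by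
    intro v
    rw [← ENNReal.ofReal_mul (by positivity)]
    congr 1
    have h2 : α - β * (α / β * v) = α * (1 - v) := by
      field_simp
    rw [h2, abs_mul, abs_mul, Real.mul_rpow (abs_nonneg _) (abs_nonneg _),
      Real.mul_rpow (abs_nonneg _) (abs_nonneg _)]
    ring
  simp_rw [h1]
  rw [lintegral_const_mul _ (by fun_prop), smul_eq_mul, ← mul_assoc,
    ← ENNReal.ofReal_mul (abs_nonneg _)]
  unfold kb2_cc
  congr 2
  have h3 : |α / β| * (|α / β| ^ (-a) * |α| ^ (-p)) = |α / β| ^ (1 - a) * |α| ^ (-p) := by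
    rw [← mul_assoc]
    congr 1
    nth_rewrite 1 [← Real.rpow_one |α / β|]
    rw [← Real.rpow_add hc']
    congr 1
  rw [h3, abs_div, Real.div_rpow hα'.le hβ'.le]
  have h4 : |α| ^ (1 - a - p) = |α| ^ (1 - a) * |α| ^ (-p) := by
    rw [← Real.rpow_add hα']
    congr 1
  have h5 : |β| ^ (a - 1) = (|β| ^ (1 - a))⁻¹ := by
    rw [← Real.rpow_neg hβ'.le]
    congr 1
    ring
  rw [h4, h5]
  ring

/-- the inner integral -/
theorem kb2_inner {σ t y : ℝ} (hy : 0 < y) (hm : 1 + t * y ≠ 0) :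
    ∫⁻ u : ℝ, ENNReal.ofReal
      (|u| ^ (σ - 1) * ((1 + t ^ 2) ^ (-(1 / 2) : ℝ) * |tp u t y| ^ (-(3 / 4) : ℝ) / y)) =
    ENNReal.ofReal ((1 + t ^ 2) ^ (-(1 / 2) : ℝ) / y * (|(1 + t * y) / y| ^ (σ - 3 / 4) *
      |((1 + t * y) ^ 2 + y ^ 2) / y| ^ (-σ))) * kb2_cc (1 - σ) (3 / 4) := by
  have hα : (1 + t * y) / y ≠ 0 := div_ne_zero hm hy.ne'
  have hβ : ((1 + t * y) ^ 2 + y ^ 2) / y ≠ 0 := by positivity
  have h1 := kb2_scale (a := 1 - σ) (p := 3 / 4) hα hβ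
  have h2 : ∀ u : ℝ, ENNReal.ofReal
      (|u| ^ (σ - 1) * ((1 + t ^ 2) ^ (-(1 / 2) : ℝ) * |tp u t y| ^ (-(3 / 4) : ℝ) / y)) =
      ENNReal.ofReal ((1 + t ^ 2) ^ (-(1 / 2) : ℝ) / y) * ENNReal.ofReal (|u| ^ (-(1 - σ)) *
        |(1 + t * y) / y - ((1 + t * y) ^ 2 + y ^ 2) / y * u| ^ (-(3 / 4) : ℝ)) := by
    intro u
    rw [← ENNReal.ofReal_mul (by positivity)]
    congr 1
    have h3 : tp u t y = (1 + t * y) / y - ((1 + t * y) ^ 2 + y ^ 2) / y * u := by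
      unfold tp
      field_simp
      ring
    rw [h3, neg_sub]
    ring
  simp_rw [h2]
  rw [lintegral_const_mul _ (by fun_prop), h1, ← mul_assoc, ← ENNReal.ofReal_mul (by positivity)]
  have e1 : (1 : ℝ) - (1 - σ) - 3 / 4 = σ - 3 / 4 := by ring
  have e2 : (1 : ℝ) - σ - 1 = -σ := by ring
  rw [e1, e2]

/-- pointwise bound of the double integrand -/
theorem kb2_pw {σ a b t y : ℝ} (hσ : 0 ≤ σ) (ha0 : 0 ≤ a) (ha1 : a ≤ 1) (hb0 : 0 ≤ b)
    (hb1 : b ≤ 1) (hy : 0 < y) (ht : t ≠ 0) (hm : 1 + t * y ≠ 0) :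
    (1 + t ^ 2) ^ (-(1 / 2) : ℝ) / y * (|(1 + t * y) / y| ^ (σ - 3 / 4) *
      |((1 + t * y) ^ 2 + y ^ 2) / y| ^ (-σ)) ≤
    y ^ (-(1 / 4) - 2 * σ * (1 - b)) * (|t| ^ (-a) *
      |1 - (-y) * t| ^ (-(3 / 4 - σ + 2 * σ * b))) := by
  set M := |1 + t * y| with hM
  have hM0 : 0 < M := abs_pos.mpr hm
  have ht0 : 0 < |t| := abs_pos.mpr ht
  have e0 : |1 - (-y) * t| = M := by
    rw [hM]
    congr 1
    ring
  rw [e0]
  have e1 : |(1 + t * y) / y| = M / y := by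
    rw [abs_div, abs_of_pos hy]
  have e2 : |((1 + t * y) ^ 2 + y ^ 2) / y| = (M ^ 2 + y ^ 2) / y := by
    rw [abs_of_pos (by positivity), hM, sq_abs]
  rw [e1, e2]
  -- (1+t^2)^(-1/2) ≤ |t|^(-a)
  have h1 : (1 + t ^ 2) ^ (-(1 / 2) : ℝ) ≤ |t| ^ (-a) := by
    have g1 : (|t| ^ 2) ^ a ≤ 1 + t ^ 2 := by
      have g := Real.geom_mean_le_arith_mean2_weighted (w₁ := a) (w₂ := 1 - a) (p₁ := |t| ^ 2)
        (p₂ := 1) ha0 (by linarith) (by positivity) (by norm_num) (by ring)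
      rw [Real.one_rpow, mul_one, mul_one, sq_abs] at g
      rw [sq_abs]
      have : a * t ^ 2 ≤ t ^ 2 := by nlinarith [sq_nonneg t]
      linarith
    calc (1 + t ^ 2) ^ (-(1 / 2) : ℝ) ≤ ((|t| ^ 2) ^ a) ^ (-(1 / 2) : ℝ) :=
          Real.rpow_le_rpow_of_nonpos (by positivity) g1 (by norm_num)
      _ = |t| ^ (-a) := by
          rw [← Real.rpow_natCast |t| 2, ← Real.rpow_mul ht0.le, ← Real.rpow_mul ht0.le]
          congr 1
          push_cast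
          ring
  have h2 : ((M ^ 2 + y ^ 2) / y) ^ (-σ) ≤ M ^ (-(2 * σ * b)) * y ^ (-(2 * σ * (1 - b))) * y ^ σ := by
    have g1 : (M ^ 2) ^ b * (y ^ 2) ^ (1 - b) ≤ M ^ 2 + y ^ 2 := by
      have g := Real.geom_mean_le_arith_mean2_weighted (w₁ := b) (w₂ := 1 - b) (p₁ := M ^ 2)
        (p₂ := y ^ 2) hb0 (by linarith) (by positivity) (by positivity) (by ring)
      have g2 : b * M ^ 2 ≤ M ^ 2 := by nlinarith [sq_nonneg M]
      have g3 : (1 - b) * y ^ 2 ≤ y ^ 2 := by nlinarith [sq_nonneg y]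
      linarith
    have g2 : (M ^ 2 + y ^ 2) ^ (-σ) ≤ M ^ (-(2 * σ * b)) * y ^ (-(2 * σ * (1 - b))) := by
      calc (M ^ 2 + y ^ 2) ^ (-σ) ≤ ((M ^ 2) ^ b * (y ^ 2) ^ (1 - b)) ^ (-σ) :=
            Real.rpow_le_rpow_of_nonpos (by positivity) g1 (by linarith)
        _ = M ^ (-(2 * σ * b)) * y ^ (-(2 * σ * (1 - b))) := by
            rw [Real.mul_rpow (by positivity) (by positivity), ← Real.rpow_natCast M 2,
              ← Real.rpow_natCast y 2, ← Real.rpow_mul hM0.le, ← Real.rpow_mul hM0.le,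
              ← Real.rpow_mul hy.le, ← Real.rpow_mul hy.le]
            congr 2 <;> (push_cast; ring)
    rw [Real.div_rpow (by positivity) hy.le, Real.rpow_neg hy.le σ, div_inv_eq_mul]
    exact mul_le_mul_of_nonneg_right g2 (by positivity)
  have h3 : (M / y) ^ (σ - 3 / 4) = M ^ (σ - 3 / 4) * y ^ (3 / 4 - σ) := by
    rw [Real.div_rpow hM0.le hy.le, div_eq_mul_inv, ← Real.rpow_neg hy.le]
    congr 2
    ring
  have h4 : M ^ (-(3 / 4 - σ + 2 * σ * b)) = M ^ (σ - 3 / 4) * M ^ (-(2 * σ * b)) := by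
    rw [← Real.rpow_add hM0]
    congr 1
    ring
  have h5 : y ^ (-(1 / 4) - 2 * σ * (1 - b)) =
      y⁻¹ * (y ^ (3 / 4 - σ) * (y ^ (-(2 * σ * (1 - b))) * y ^ σ)) := by
    rw [← Real.rpow_add hy, ← Real.rpow_add hy, ← Real.rpow_neg_one y, ← Real.rpow_add hy]
    congr 1
    ring
  rw [h3, h4, h5]
  calc (1 + t ^ 2) ^ (-(1 / 2) : ℝ) / y * (M ^ (σ - 3 / 4) * y ^ (3 / 4 - σ) *
        ((M ^ 2 + y ^ 2) / y) ^ (-σ))
      ≤ |t| ^ (-a) / y * (M ^ (σ - 3 / 4) * y ^ (3 / 4 - σ) *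
        (M ^ (-(2 * σ * b)) * y ^ (-(2 * σ * (1 - b))) * y ^ σ)) := by
        apply mul_le_mul
        · exact div_le_div_of_nonneg_right h1 hy.le
        · exact mul_le_mul_of_nonneg_left h2 (by positivity)
        · positivity
        · positivity
    _ = _ := by
        rw [div_eq_mul_inv]
        ring

/-- the integral over `t` -/
theorem kb2_tint {σ a b y : ℝ} (hσ : 0 ≤ σ) (ha0 : 0 ≤ a) (ha1 : a ≤ 1) (hb0 : 0 ≤ b)
    (hb1 : b ≤ 1) (hy : 0 < y) :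
    ∫⁻ t : ℝ, ∫⁻ u : ℝ, ENNReal.ofReal
      (|u| ^ (σ - 1) * ((1 + t ^ 2) ^ (-(1 / 2) : ℝ) * |tp u t y| ^ (-(3 / 4) : ℝ) / y)) ≤
    ENNReal.ofReal (y ^ (-(1 / 4) - 2 * σ * (1 - b) + (a - 1))) *
      (kb2_cc a (3 / 4 - σ + 2 * σ * b) * kb2_cc (1 - σ) (3 / 4)) := by
  set p := 3 / 4 - σ + 2 * σ * b with hp
  have hy' : -y ≠ 0 := neg_ne_zero.mpr hy.ne'
  have h1 : ∀ᵐ t : ℝ, t ≠ 0 ∧ 1 + t * y ≠ 0 := by
    have g1 : ∀ᵐ t : ℝ, t ≠ 0 := by
      simp [ae_iff]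
    have g2 : ∀ᵐ t : ℝ, t ≠ -1 / y := by
      simp [ae_iff]
    filter_upwards [g1, g2] with t ht1 ht2
    refine ⟨ht1, fun h => ht2 ?_⟩
    rw [eq_div_iff hy.ne']
    linarith
  calc _ ≤ ∫⁻ t : ℝ, ENNReal.ofReal (y ^ (-(1 / 4) - 2 * σ * (1 - b))) *
          ENNReal.ofReal (|t| ^ (-a) * |1 - (-y) * t| ^ (-p)) * kb2_cc (1 - σ) (3 / 4) := by
        refine lintegral_mono_ae ?_
        filter_upwards [h1] with t ht
        rw [kb2_inner hy ht.2, ← ENNReal.ofReal_mul (by positivity)]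
        exact mul_le_mul' (ENNReal.ofReal_le_ofReal
          (kb2_pw hσ ha0 ha1 hb0 hb1 hy ht.1 ht.2)) le_rfl
    _ = ENNReal.ofReal (y ^ (-(1 / 4) - 2 * σ * (1 - b))) *
          (ENNReal.ofReal (|(1 : ℝ)| ^ (1 - a - p) * |-y| ^ (a - 1)) * kb2_cc a p) *
            kb2_cc (1 - σ) (3 / 4) := by
        rw [lintegral_mul_const _ (by fun_prop), lintegral_const_mul _ (by fun_prop),
          kb2_scale one_ne_zero hy']
    _ = _ := by
        rw [abs_one, Real.one_rpow, one_mul, abs_neg, abs_of_pos hy, ← mul_assoc,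
          ← ENNReal.ofReal_mul (by positivity), ← Real.rpow_add hy, mul_assoc]

theorem kb2_J {σ a b a' b' : ℝ} (hσ : 0 ≤ σ) (hσ0 : 0 < σ) (hσ2 : 1 < 1 - σ + 3 / 4)
    (ha0 : 0 ≤ a) (ha1 : a < 1) (hb0 : 0 ≤ b) (hb1 : b ≤ 1)
    (ha0' : 0 ≤ a') (ha1' : a' < 1) (hb0' : 0 ≤ b') (hb1' : b' ≤ 1)
    (hp0 : 0 ≤ 3 / 4 - σ + 2 * σ * b) (hp1 : 3 / 4 - σ + 2 * σ * b < 1)
    (hp2 : 1 < a + (3 / 4 - σ + 2 * σ * b))
    (hp0' : 0 ≤ 3 / 4 - σ + 2 * σ * b') (hp1' : 3 / 4 - σ + 2 * σ * b' < 1)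
    (hp2' : 1 < a' + (3 / 4 - σ + 2 * σ * b'))
    (hq : -1 < -(1 / 4) - 2 * σ * (1 - b) + (a - 1))
    (hq' : -(1 / 4) - 2 * σ * (1 - b') + (a' - 1) < -1) :
    ∫⁻ u : ℝ, ∫⁻ t : ℝ, ∫⁻ y in Ioi (0 : ℝ), ENNReal.ofReal
      (|u| ^ (σ - 1) * ((1 + t ^ 2) ^ (-(1 / 2) : ℝ) * |tp u t y| ^ (-(3 / 4) : ℝ) / y)) < ⊤ := by
  have hmeas : Measurable (fun x : ℝ × ℝ × ℝ => ENNReal.ofReal
      (|x.1| ^ (σ - 1) * ((1 + x.2.1 ^ 2) ^ (-(1 / 2) : ℝ) *
        |tp x.1 x.2.1 x.2.2| ^ (-(3 / 4) : ℝ) / x.2.2))) := by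
    unfold tp
    fun_prop
  have s1 : ∫⁻ u : ℝ, ∫⁻ t : ℝ, ∫⁻ y in Ioi (0 : ℝ), ENNReal.ofReal
      (|u| ^ (σ - 1) * ((1 + t ^ 2) ^ (-(1 / 2) : ℝ) * |tp u t y| ^ (-(3 / 4) : ℝ) / y)) =
      ∫⁻ y in Ioi (0 : ℝ), ∫⁻ t : ℝ, ∫⁻ u : ℝ, ENNReal.ofReal
      (|u| ^ (σ - 1) * ((1 + t ^ 2) ^ (-(1 / 2) : ℝ) * |tp u t y| ^ (-(3 / 4) : ℝ) / y)) := by
    have a1 : ∀ u : ℝ, ∫⁻ t : ℝ, ∫⁻ y in Ioi (0 : ℝ), ENNReal.ofReal
      (|u| ^ (σ - 1) * ((1 + t ^ 2) ^ (-(1 / 2) : ℝ) * |tp u t y| ^ (-(3 / 4) : ℝ) / y)) =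
      ∫⁻ y in Ioi (0 : ℝ), ∫⁻ t : ℝ, ENNReal.ofReal
      (|u| ^ (σ - 1) * ((1 + t ^ 2) ^ (-(1 / 2) : ℝ) * |tp u t y| ^ (-(3 / 4) : ℝ) / y)) := by
      intro u
      refine lintegral_lintegral_swap ?_
      refine Measurable.aemeasurable ?_
      exact hmeas.comp (g := fun x : ℝ × ℝ × ℝ => ENNReal.ofReal
        (|x.1| ^ (σ - 1) * ((1 + x.2.1 ^ 2) ^ (-(1 / 2) : ℝ) *
          |tp x.1 x.2.1 x.2.2| ^ (-(3 / 4) : ℝ) / x.2.2))) (f := fun z : ℝ × ℝ => (u, z.1, z.2))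
          (by fun_prop)
    simp_rw [a1]
    rw [lintegral_lintegral_swap]
    · refine lintegral_congr fun y => ?_
      refine lintegral_lintegral_swap ?_
      refine Measurable.aemeasurable ?_
      exact hmeas.comp (f := fun z : ℝ × ℝ => (z.1, z.2, y)) (by fun_prop)
    · refine Measurable.aemeasurable ?_
      refine Measurable.lintegral_prod_right' (f := fun z : (ℝ × ℝ) × ℝ => ENNReal.ofReal
        (|z.1.1| ^ (σ - 1) * ((1 + z.2 ^ 2) ^ (-(1 / 2) : ℝ) *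
          |tp z.1.1 z.2 z.1.2| ^ (-(3 / 4) : ℝ) / z.1.2))) ?_
      exact hmeas.comp (f := fun z : (ℝ × ℝ) × ℝ => (z.1.1, z.2, z.1.2)) (by fun_prop)
  rw [s1]
  have s2 : Ioi (0 : ℝ) = Ioc 0 1 ∪ Ioi 1 := (Ioc_union_Ioi_eq_Ioi zero_le_one).symm
  rw [s2, lintegral_union measurableSet_Ioi (by
    rw [Set.disjoint_left]
    intro x hx hx'
    exact not_lt.mpr hx.2 hx')]
  have c0 : kb2_cc (1 - σ) (3 / 4) < ⊤ :=
    kb2_cc_lt (by linarith) (by linarith) (by norm_num) (by norm_num) hσ2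
  have c1 := kb2_cc_lt ha0 ha1 hp0 hp1 hp2
  have c2 := kb2_cc_lt ha0' ha1' hp0' hp1' hp2'
  refine ENNReal.add_lt_top.mpr ⟨?_, ?_⟩
  · calc _ ≤ ∫⁻ y in Ioc (0 : ℝ) 1, ENNReal.ofReal (y ^ (-(1 / 4) - 2 * σ * (1 - b) + (a - 1))) *
          (kb2_cc a (3 / 4 - σ + 2 * σ * b) * kb2_cc (1 - σ) (3 / 4)) :=
          setLIntegral_mono (by fun_prop) fun y hy => kb2_tint hσ ha0 ha1.le hb0 hb1 hy.1
      _ = (∫⁻ y in Ioc (0 : ℝ) 1, ENNReal.ofReal (y ^ (-(1 / 4) - 2 * σ * (1 - b) + (a - 1)))) *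
          (kb2_cc a (3 / 4 - σ + 2 * σ * b) * kb2_cc (1 - σ) (3 / 4)) :=
          lintegral_mul_const _ (by fun_prop)
      _ < ⊤ := by
          refine ENNReal.mul_lt_top ?_ (ENNReal.mul_lt_top c1 c0)
          have h1 : IntegrableOn (fun y : ℝ => y ^ (-(1 / 4) - 2 * σ * (1 - b) + (a - 1)))
              (Ioc 0 1) :=
            (intervalIntegrable_iff_integrableOn_Ioc_of_le zero_le_one).mp
              (intervalIntegral.intervalIntegrable_rpow' hq)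
          exact h1.lintegral_lt_top
  · calc _ ≤ ∫⁻ y in Ioi (1 : ℝ), ENNReal.ofReal (y ^ (-(1 / 4) - 2 * σ * (1 - b') + (a' - 1))) *
          (kb2_cc a' (3 / 4 - σ + 2 * σ * b') * kb2_cc (1 - σ) (3 / 4)) :=
          setLIntegral_mono (by fun_prop) fun y hy =>
            kb2_tint hσ ha0' ha1'.le hb0' hb1' (lt_trans zero_lt_one hy)
      _ = (∫⁻ y in Ioi (1 : ℝ), ENNReal.ofReal (y ^ (-(1 / 4) - 2 * σ * (1 - b') + (a' - 1)))) *
          (kb2_cc a' (3 / 4 - σ + 2 * σ * b') * kb2_cc (1 - σ) (3 / 4)) :=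
          lintegral_mul_const _ (by fun_prop)
      _ < ⊤ := by
          refine ENNReal.mul_lt_top ?_ (ENNReal.mul_lt_top c2 c0)
          exact (integrableOn_Ioi_rpow_of_lt hq' zero_lt_one).lintegral_lt_top

theorem kern_fin_pr : ∃ C : ENNReal, C ≠ ⊤ ∧ ∀ σ : ℝ, 1 / 4 ≤ σ → σ ≤ 1 / 2 →
    ∫⁻ u : ℝ, ∫⁻ t : ℝ, ∫⁻ y in Ioi (0 : ℝ), ENNReal.ofReal
      (|u| ^ (σ - 1) * ((1 + t ^ 2) ^ (-(1 / 2) : ℝ) * |tp u t y| ^ (-(3 / 4) : ℝ) / y)) ≤ C := by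
  have h1 := kb2_J (σ := 1 / 4) (a := 3 / 4) (b := 1 / 2) (a' := 3 / 8) (b' := 1 / 2)
    (by norm_num) (by norm_num) (by norm_num) (by norm_num) (by norm_num) (by norm_num)
    (by norm_num) (by norm_num) (by norm_num) (by norm_num) (by norm_num) (by norm_num)
    (by norm_num) (by norm_num) (by norm_num) (by norm_num) (by norm_num) (by norm_num)
    (by norm_num)
  have h2 := kb2_J (σ := 1 / 2) (a := 3 / 4) (b := 5 / 8) (a' := 1 / 2) (b' := 1 / 2)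
    (by norm_num) (by norm_num) (by norm_num) (by norm_num) (by norm_num) (by norm_num)
    (by norm_num) (by norm_num) (by norm_num) (by norm_num) (by norm_num) (by norm_num)
    (by norm_num) (by norm_num) (by norm_num) (by norm_num) (by norm_num) (by norm_num)
    (by norm_num)
  refine ⟨_, (ENNReal.add_lt_top.mpr ⟨h1, h2⟩).ne, fun σ hσ1 hσ2 => ?_⟩
  have hmeas : ∀ σ : ℝ, Measurable (fun x : (ℝ × ℝ) × ℝ => ENNReal.ofReal
      (|x.1.1| ^ (σ - 1) * ((1 + x.1.2 ^ 2) ^ (-(1 / 2) : ℝ) *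
        |tp x.1.1 x.1.2 x.2| ^ (-(3 / 4) : ℝ) / x.2))) := by
    intro σ
    unfold tp
    fun_prop
  have m1 : ∀ (σ u t : ℝ), Measurable (fun y : ℝ => ENNReal.ofReal
      (|u| ^ (σ - 1) * ((1 + t ^ 2) ^ (-(1 / 2) : ℝ) * |tp u t y| ^ (-(3 / 4) : ℝ) / y))) :=
    fun σ u t => (hmeas σ).comp (f := fun y : ℝ => ((u, t), y)) (by fun_prop)
  have m2' : ∀ σ : ℝ, Measurable (fun z : ℝ × ℝ => ∫⁻ y in Ioi (0 : ℝ), ENNReal.ofReal
      (|z.1| ^ (σ - 1) * ((1 + z.2 ^ 2) ^ (-(1 / 2) : ℝ) *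
        |tp z.1 z.2 y| ^ (-(3 / 4) : ℝ) / y))) := fun σ =>
    Measurable.lintegral_prod_right' (hmeas σ)
  have m2 : ∀ (σ u : ℝ), Measurable (fun t : ℝ => ∫⁻ y in Ioi (0 : ℝ), ENNReal.ofReal
      (|u| ^ (σ - 1) * ((1 + t ^ 2) ^ (-(1 / 2) : ℝ) * |tp u t y| ^ (-(3 / 4) : ℝ) / y))) :=
    fun σ u => (m2' σ).comp (f := fun t : ℝ => (u, t)) (by fun_prop)
  have m3 : ∀ (σ : ℝ), Measurable (fun u : ℝ => ∫⁻ t : ℝ, ∫⁻ y in Ioi (0 : ℝ), ENNReal.ofReal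
      (|u| ^ (σ - 1) * ((1 + t ^ 2) ^ (-(1 / 2) : ℝ) * |tp u t y| ^ (-(3 / 4) : ℝ) / y))) :=
    fun σ => Measurable.lintegral_prod_right' (m2' σ)
  rw [← lintegral_add_left (m3 _)]
  refine lintegral_mono fun u => ?_
  simp only
  rw [← lintegral_add_left (m2 _ _)]
  refine lintegral_mono fun t => ?_
  simp only
  rw [← lintegral_add_left (m1 _ _ _)]
  refine setLIntegral_mono (by
    refine Measurable.add (m1 _ _ _) (m1 _ _ _)) fun y hy => ?_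
  have hy0 : (0 : ℝ) < y := hy
  rw [← ENNReal.ofReal_add (by positivity) (by positivity), ← add_mul]
  apply ENNReal.ofReal_le_ofReal
  apply mul_le_mul_of_nonneg_right _ (by positivity)
  rcases eq_or_ne u 0 with hu | hu
  · rw [hu, abs_zero, Real.zero_rpow (by linarith)]
    positivity
  · have hu0 : 0 < |u| := abs_pos.mpr hu
    rcases le_total |u| 1 with h | h
    · have g1 : |u| ^ (σ - 1) ≤ |u| ^ ((1 / 4 : ℝ) - 1) :=
        Real.rpow_le_rpow_of_exponent_ge hu0 h (by linarith)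
      have g2 : 0 ≤ |u| ^ ((1 / 2 : ℝ) - 1) := by positivity
      linarith
    · have g1 : |u| ^ (σ - 1) ≤ |u| ^ ((1 / 2 : ℝ) - 1) :=
        Real.rpow_le_rpow_of_exponent_le h (by linarith)
      have g2 : 0 ≤ |u| ^ ((1 / 4 : ℝ) - 1) := by positivity
      linarith

end Pool.Agent.LK
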