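import Pool.Agent.Lib_helper31.LK.DefsP
import Pool.Agent.Lib_helper31.LKF.KB1
import Pool.Agent.Lib_helper31.LKF.KB2
import Pool.Agent.Lib_helper31.LKF.KG1

/-! LSP3, part K, block KB3: the kernels are close -/

namespace Pool.Agent.LK

open Complex MeasureTheory Set
open Pool.Agent.LSP (tau GG tp KerL)

theorem kb3_meas : Measurable Goo := by
  unfold Goo
  fun_prop

/-- the bound of the Lebesgue integral -/
theorem kb3_lint {D : ℝ} {G : ℝ → ℝ} {κ : ℝ → ℝ → ℝ → ℝ} {σ : ℝ} {C : ENNReal}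
    (h1 : ∀ u : ℝ, u ≠ 0 → u ≠ 1 → ENNReal.ofReal |G u| ≤ ENNReal.ofReal D *
      ∫⁻ t : ℝ, ∫⁻ y in Ioi (0 : ℝ), ENNReal.ofReal (κ u t y))
    (h2 : ∫⁻ u : ℝ, ∫⁻ t : ℝ, ∫⁻ y in Ioi (0 : ℝ), ENNReal.ofReal (|u| ^ (σ - 1) * κ u t y) ≤ C) :
    ∫⁻ u : ℝ, ENNReal.ofReal (|u| ^ (σ - 1) * |G u|) ≤ ENNReal.ofReal D * C := by
  refine le_trans ?_ (mul_le_mul_right h2 (ENNReal.ofReal D))
  rw [← lintegral_const_mul' _ _ ENNReal.ofReal_ne_top]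
  apply lintegral_mono_ae
  have hz : ∀ᵐ u : ℝ, u ∉ ({0, 1} : Set ℝ) :=
    (measure_eq_zero_iff_ae_notMem).mp ((Set.toFinite _).measure_zero _)
  filter_upwards [hz] with u hu
  simp only [Set.mem_insert_iff, Set.mem_singleton_iff, not_or] at hu
  have hr : 0 ≤ |u| ^ (σ - 1) := Real.rpow_nonneg (abs_nonneg _) _
  rw [ENNReal.ofReal_mul hr]
  have e : ∫⁻ t : ℝ, ∫⁻ y in Ioi (0 : ℝ), ENNReal.ofReal (|u| ^ (σ - 1) * κ u t y) =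
      ENNReal.ofReal (|u| ^ (σ - 1)) *
        ∫⁻ t : ℝ, ∫⁻ y in Ioi (0 : ℝ), ENNReal.ofReal (κ u t y) := by
    rw [← lintegral_const_mul' _ _ ENNReal.ofReal_ne_top]
    refine lintegral_congr fun t => ?_
    rw [← lintegral_const_mul' _ _ ENNReal.ofReal_ne_top]
    refine lintegral_congr fun y => ?_
    rw [ENNReal.ofReal_mul hr]
  rw [e, mul_left_comm]
  exact mul_le_mul_right (h1 u hu.1 hu.2) _

theorem close0_pr : ∃ C : ℝ, ∀ T : ℝ, 4 ≤ T → ∀ ρ : ℝ → ℝ, KerC T ρ →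
    ∀ σ : ℝ, 1 / 4 ≤ σ → σ ≤ 1 / 2 →
    Integrable (fun u : ℝ => |u| ^ (σ - 1) * |GG ρ u - Goo u|) ∧
      ∫ u : ℝ, |u| ^ (σ - 1) * |GG ρ u - Goo u| ≤ C * T ^ (-(1 / 4) : ℝ) := by
  obtain ⟨C1, hC1, h1⟩ := diff_le_pr
  obtain ⟨C2, hC2, h2⟩ := kern_fin_pr
  obtain ⟨C3, h3⟩ := gok_unif_pr
  refine ⟨C1 * C2.toReal, fun T hT ρ hρ σ hσ1 hσ2 => ?_⟩
  have hm : Measurable (fun u : ℝ => |u| ^ (σ - 1) * |GG ρ u - Goo u|) := by
    have hG := (h3 T hT ρ hρ).1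
    have hg := kb3_meas
    have h4 : Measurable fun u : ℝ => |GG ρ u - Goo u| := (hG.sub hg).abs
    exact ((measurable_id.abs).pow_const _).mul h4
  have hT0 : 0 ≤ T ^ (-(1 / 4) : ℝ) := Real.rpow_nonneg (by linarith) _
  have hD : 0 ≤ C1 * T ^ (-(1 / 4) : ℝ) := mul_nonneg hC1 hT0
  have hb := kb3_lint (D := C1 * T ^ (-(1 / 4) : ℝ)) (G := fun u => GG ρ u - Goo u)
    (fun u hu0 hu1 => h1 T hT ρ hρ u hu0 hu1) (h2 σ hσ1 hσ2)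
  have hnn : 0 ≤ᵐ[volume] fun u : ℝ => |u| ^ (σ - 1) * |GG ρ u - Goo u| :=
    Filter.Eventually.of_forall fun u => mul_nonneg (Real.rpow_nonneg (abs_nonneg _) _)
      (abs_nonneg _)
  have htop : ENNReal.ofReal (C1 * T ^ (-(1 / 4) : ℝ)) * C2 ≠ ⊤ :=
    ENNReal.mul_ne_top ENNReal.ofReal_ne_top hC2
  refine ⟨⟨hm.aestronglyMeasurable, ?_⟩, ?_⟩
  · rw [hasFiniteIntegral_iff_ofReal hnn]
    exact lt_of_le_of_lt hb htop.lt_top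
  · rw [integral_eq_lintegral_of_nonneg_ae hnn hm.aestronglyMeasurable]
    refine (ENNReal.toReal_mono htop hb).trans (le_of_eq ?_)
    rw [ENNReal.toReal_mul, ENNReal.toReal_ofReal hD]
    ring

end Pool.Agent.LK
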