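import Pool.Agent.Lib_helper31.LK.DefsP
import Pool.Agent.Lib_helper41.LSPG.KFA
import Pool.Agent.Lib_helper31.LKF.KB3

namespace Pool.Agent.LK

open Complex MeasureTheory Set
open Pool.Agent.LSP (tau GG tp KerL)

theorem kc_goo (u : ℝ) : Goo (1 - u) = -Goo u := by
  unfold Goo
  rcases eq_or_ne u 0 with h0 | h0
  · subst h0
    simp
  rcases eq_or_ne u 1 with h1 | h1
  · subst h1
    simp
  have h2 : (1 : ℝ) - u ≠ 0 := sub_ne_zero.mpr h1.symm
  have h3 : |1 - 1 / (1 - u)| = |1 - 1 / u|⁻¹ := by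
    rw [← abs_inv]
    have e1 : 1 - 1 / (1 - u) = -(u / (1 - u)) := by
      field_simp
      ring
    have e2 : (1 - 1 / u)⁻¹ = -(u / (1 - u)) := by
      have e3 : 1 - 1 / u = -((1 - u) / u) := by
        field_simp
        ring
      rw [e3, inv_neg, inv_div]
    rw [e1, e2]
  rw [h3, Real.log_inv]
  ring

theorem kc_log {x : ℝ} (hx : 0 < x) (hx1 : x ≤ 1) : |Real.log x| ≤ 4 * x ^ (-(1 / 4) : ℝ) := by
  rw [abs_of_nonpos (Real.log_nonpos hx.le hx1), ← Real.log_inv]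
  have h1 := Real.log_le_rpow_div (x := x⁻¹) (by positivity) (ε := 1 / 4) (by norm_num)
  rw [Real.rpow_neg hx.le, ← Real.inv_rpow hx.le]
  linarith

theorem kc_log2 {x : ℝ} (hx : 1 / 2 ≤ x) (hx1 : x ≤ 2) : |Real.log x| ≤ 1 := by
  have h2 : Real.log 2 ≤ 1 := by
    have := Real.log_two_lt_d9
    linarith
  rw [abs_le]
  constructor
  · have h3 : Real.log (1 / 2) ≤ Real.log x := Real.log_le_log (by norm_num) hx
    rw [one_div, Real.log_inv] at h3
    linarith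
  · have h3 : Real.log x ≤ Real.log 2 := Real.log_le_log (by linarith) hx1
    linarith

theorem kc_pw (u : ℝ) : |u| ^ (-(1 / 2) : ℝ) * |Real.log (|1 - 1 / u|)| ≤
    10 * (|u| ^ (-(3 / 4) : ℝ) + |1 - u| ^ (-(3 / 4) : ℝ) + |u| ^ (-(1 / 2) : ℝ)) := by
  have p1 : 0 ≤ |u| ^ (-(3 / 4) : ℝ) := by positivity
  have p2 : 0 ≤ |1 - u| ^ (-(3 / 4) : ℝ) := by positivity
  have p3 : 0 ≤ |u| ^ (-(1 / 2) : ℝ) := by positivity
  rcases eq_or_ne u 0 with h0 | h0
  · subst h0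
    have : |(0 : ℝ)| ^ (-(1 / 2) : ℝ) = 0 := by
      rw [abs_zero, Real.zero_rpow (by norm_num)]
    rw [this, zero_mul]
    positivity
  rcases eq_or_ne u 1 with h1 | h1
  · subst h1
    have : |Real.log (|1 - 1 / (1 : ℝ)|)| = 0 := by simp
    rw [this, mul_zero]
    positivity
  have hu : 0 < |u| := abs_pos.mpr h0
  have hu1 : 0 < |1 - u| := abs_pos.mpr (sub_ne_zero.mpr h1.symm)
  have hL : Real.log (|1 - 1 / u|) = Real.log |1 - u| - Real.log |u| := by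
    have e1 : 1 - 1 / u = -((1 - u) / u) := by
      field_simp
      ring
    rw [e1, abs_neg, abs_div, Real.log_div hu1.ne' hu.ne']
  have hL1 : |Real.log (|1 - 1 / u|)| ≤ |Real.log (|1 - u|)| + |Real.log (|u|)| := by
    rw [hL]
    exact abs_sub _ _
  rcases le_or_gt |u| (1 / 2) with c1 | c1
  · have a1 := abs_le.mp c1
    have b1 : |Real.log (|1 - u|)| ≤ 1 := by
      apply kc_log2
      · rw [abs_of_nonneg (by linarith)]
        linarith
      · rw [abs_of_nonneg (by linarith)]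
        linarith
    have b2 := kc_log hu (by linarith)
    have b3 : 1 ≤ |u| ^ (-(1 / 4) : ℝ) :=
      Real.one_le_rpow_of_pos_of_le_one_of_nonpos hu (by linarith) (by norm_num)
    have b4 : |u| ^ (-(1 / 2) : ℝ) * |u| ^ (-(1 / 4) : ℝ) = |u| ^ (-(3 / 4) : ℝ) := by
      rw [← Real.rpow_add hu]
      norm_num
    calc |u| ^ (-(1 / 2) : ℝ) * |Real.log (|1 - 1 / u|)|
        ≤ |u| ^ (-(1 / 2) : ℝ) * (5 * |u| ^ (-(1 / 4) : ℝ)) :=
          mul_le_mul_of_nonneg_left (by linarith) p3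
      _ = 5 * |u| ^ (-(3 / 4) : ℝ) := by rw [← b4]; ring
      _ ≤ _ := by linarith
  rcases le_or_gt |1 - u| (1 / 2) with c2 | c2
  · have a1 := abs_le.mp c2
    have hu' : |u| = u := abs_of_nonneg (by linarith)
    have b1 : |Real.log (|u|)| ≤ 1 := by
      apply kc_log2
      · exact c1.le
      · rw [hu']
        linarith
    have b2 := kc_log hu1 (by linarith)
    have b3 : 1 ≤ |1 - u| ^ (-(1 / 4) : ℝ) :=
      Real.one_le_rpow_of_pos_of_le_one_of_nonpos hu1 (by linarith) (by norm_num)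
    have b4 : |1 - u| ^ (-(1 / 4) : ℝ) ≤ |1 - u| ^ (-(3 / 4) : ℝ) :=
      Real.rpow_le_rpow_of_exponent_ge hu1 (by linarith) (by norm_num)
    have b5 : |u| ^ (-(1 / 2) : ℝ) ≤ 2 := by
      calc |u| ^ (-(1 / 2) : ℝ) ≤ (1 / 2 : ℝ) ^ (-(1 / 2) : ℝ) :=
            Real.rpow_le_rpow_of_nonpos (by norm_num) c1.le (by norm_num)
        _ ≤ (1 / 2 : ℝ) ^ (-1 : ℝ) :=
            Real.rpow_le_rpow_of_exponent_ge (by norm_num) (by norm_num) (by norm_num)
        _ = 2 := by rw [Real.rpow_neg_one]; norm_num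
    calc |u| ^ (-(1 / 2) : ℝ) * |Real.log (|1 - 1 / u|)|
        ≤ 2 * (5 * |1 - u| ^ (-(3 / 4) : ℝ)) :=
          mul_le_mul b5 (by linarith) (abs_nonneg _) (by norm_num)
      _ ≤ _ := by linarith
  · have e1 : 1 - 1 / u = -((1 - u) / u) := by
      field_simp
      ring
    have g1 : |1 - 1 / u| = |1 - u| / |u| := by rw [e1, abs_neg, abs_div]
    have g2 : |1 - u| ≤ 1 + |u| := by
      have := abs_sub (1 : ℝ) u
      rwa [abs_one] at this
    have g3 : |u| ≤ 1 + |1 - u| := by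
      have := abs_sub (1 : ℝ) (1 - u)
      rw [abs_one, sub_sub_cancel] at this
      exact this
    have g4 : |1 - 1 / u| ≤ 3 := by
      rw [g1, div_le_iff₀ hu]
      linarith
    have g5 : 1 / 3 ≤ |1 - 1 / u| := by
      rw [g1, le_div_iff₀ hu]
      linarith
    have g6 : Real.log 3 ≤ 2 := by
      have := Real.log_le_sub_one_of_pos (show (0 : ℝ) < 3 by norm_num)
      linarith
    have g7 : |Real.log (|1 - 1 / u|)| ≤ 2 := by
      rw [abs_le]
      constructor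
      · have h3 : Real.log (1 / 3) ≤ Real.log |1 - 1 / u| := Real.log_le_log (by norm_num) g5
        rw [one_div, Real.log_inv] at h3
        linarith
      · have h3 : Real.log |1 - 1 / u| ≤ Real.log 3 := Real.log_le_log (by linarith) g4
        linarith
    calc |u| ^ (-(1 / 2) : ℝ) * |Real.log (|1 - 1 / u|)|
        ≤ |u| ^ (-(1 / 2) : ℝ) * 2 := mul_le_mul_of_nonneg_left g7 p3
      _ ≤ _ := by linarith

theorem close1_pr : ∃ C : ℝ, ∀ T : ℝ, 4 ≤ T → ∀ ρ : ℝ → ℝ, KerC T ρ →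
    Integrable (fun u : ℝ => |u| ^ (-(1 / 2) : ℝ) * |GG ρ u - Goo u| * |Real.log (|1 - 1 / u|)|) ∧
      ∫ u : ℝ, |u| ^ (-(1 / 2) : ℝ) * |GG ρ u - Goo u| * |Real.log (|1 - 1 / u|)| ≤
        C * T ^ (-(1 / 4) : ℝ) := by
  obtain ⟨C, hC⟩ := close0_pr
  refine ⟨30 * C, fun T hT ρ hρ => ?_⟩
  set D : ℝ → ℝ := fun u => |GG ρ u - Goo u| with hD
  have hsym : ∀ u, D (1 - u) = D u := by
    intro u
    simp only [hD]
    rw [Pool.Agent.LSP.gg_anti ρ hρ.even, kc_goo, ← abs_neg]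
    congr 1
    ring
  have hD0 : ∀ u, 0 ≤ D u := fun u => abs_nonneg _
  obtain ⟨i1, b1⟩ := hC T hT ρ hρ (1 / 4) le_rfl (by norm_num)
  obtain ⟨i2, b2⟩ := hC T hT ρ hρ (1 / 2) (by norm_num) le_rfl
  have e1 : (1 / 4 : ℝ) - 1 = -(3 / 4) := by norm_num
  have e2 : (1 / 2 : ℝ) - 1 = -(1 / 2) := by norm_num
  rw [e1] at i1 b1
  rw [e2] at i2 b2
  have i3 : Integrable (fun u : ℝ => |1 - u| ^ (-(3 / 4) : ℝ) * D u) := by
    have h1 := i1.comp_sub_left 1
    refine h1.congr (Filter.Eventually.of_forall fun u => ?_)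
    show |1 - u| ^ (-(3 / 4) : ℝ) * D (1 - u) = |1 - u| ^ (-(3 / 4) : ℝ) * D u
    rw [hsym]
  have b3 : ∫ u : ℝ, |1 - u| ^ (-(3 / 4) : ℝ) * D u ≤ C * T ^ (-(1 / 4) : ℝ) := by
    have h1 := integral_sub_left_eq_self (fun u : ℝ => |u| ^ (-(3 / 4) : ℝ) * D u) volume 1
    have h2 : ∫ u : ℝ, |1 - u| ^ (-(3 / 4) : ℝ) * D u =
        ∫ u : ℝ, (fun u : ℝ => |u| ^ (-(3 / 4) : ℝ) * D u) (1 - u) := by
      refine integral_congr_ae (Filter.Eventually.of_forall fun u => ?_)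
      show |1 - u| ^ (-(3 / 4) : ℝ) * D u = |1 - u| ^ (-(3 / 4) : ℝ) * D (1 - u)
      rw [hsym]
    rw [h2, h1]
    exact b1
  have hpw : ∀ u, |u| ^ (-(1 / 2) : ℝ) * D u * |Real.log (|1 - 1 / u|)| ≤
      10 * (|u| ^ (-(3 / 4) : ℝ) * D u + |1 - u| ^ (-(3 / 4) : ℝ) * D u +
        |u| ^ (-(1 / 2) : ℝ) * D u) := by
    intro u
    have h1 := mul_le_mul_of_nonneg_right (kc_pw u) (hD0 u)
    calc |u| ^ (-(1 / 2) : ℝ) * D u * |Real.log (|1 - 1 / u|)|
        = |u| ^ (-(1 / 2) : ℝ) * |Real.log (|1 - 1 / u|)| * D u := by ring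
      _ ≤ _ := h1
      _ = _ := by ring
  have hG : Integrable (fun u : ℝ => 10 * (|u| ^ (-(3 / 4) : ℝ) * D u +
      |1 - u| ^ (-(3 / 4) : ℝ) * D u + |u| ^ (-(1 / 2) : ℝ) * D u)) :=
    ((i1.add i3).add i2).const_mul 10
  have hI : Integrable (fun u : ℝ => |u| ^ (-(1 / 2) : ℝ) * D u * |Real.log (|1 - 1 / u|)|) := by
    refine hG.mono' ?_ (Filter.Eventually.of_forall fun u => ?_)
    · refine i2.aestronglyMeasurable.mul ?_
      refine Measurable.aestronglyMeasurable ?_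
      fun_prop
    · rw [Real.norm_of_nonneg (mul_nonneg (mul_nonneg (by positivity) (hD0 u)) (abs_nonneg _))]
      exact hpw u
  refine ⟨hI, ?_⟩
  calc ∫ u : ℝ, |u| ^ (-(1 / 2) : ℝ) * D u * |Real.log (|1 - 1 / u|)|
      ≤ ∫ u : ℝ, 10 * (|u| ^ (-(3 / 4) : ℝ) * D u + |1 - u| ^ (-(3 / 4) : ℝ) * D u +
        |u| ^ (-(1 / 2) : ℝ) * D u) := integral_mono hI hG hpw
    _ = 10 * ((∫ u : ℝ, |u| ^ (-(3 / 4) : ℝ) * D u) + (∫ u : ℝ, |1 - u| ^ (-(3 / 4) : ℝ) * D u) +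
        ∫ u : ℝ, |u| ^ (-(1 / 2) : ℝ) * D u) := by
        rw [integral_const_mul]
        congr 1
        have g1 : Integrable (fun u : ℝ => |u| ^ (-(3 / 4) : ℝ) * D u +
            |1 - u| ^ (-(3 / 4) : ℝ) * D u) := i1.add i3
        have g2 := integral_add g1 i2
        have g3 := integral_add i1 i3
        exact g2.trans (congrArg (fun x => x + ∫ u : ℝ, |u| ^ (-(1 / 2) : ℝ) * D u) g3)
    _ ≤ 30 * C * T ^ (-(1 / 4) : ℝ) := by linarith

end Pool.Agent.LK
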