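import Pool.Agent.Lib_helper31.LK.DefsP
import Pool.Agent.Lib_helper41.LSPG.KFB
import Pool.Agent.Lib_helper31.LKF.KB3
import Pool.Agent.Lib_helper31.LKF.KC
import Pool.Agent.Lib_helper31.LKF.KD3
import Pool.Agent.Lib_helper31.LKF.KG2

/-! LSP3, part K, block KL: replacing the kernel. -/

namespace Pool.Agent.LK

open Complex MeasureTheory Set
open Pool.Agent.LSP (tau GG tp KerL)

/-! ## kernels -/

/-- kernels with convergent Mellin transforms on `Re s = 1/2` -/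
structure KlG (G : ℝ → ℝ) : Prop where
  meas : Measurable G
  int : ∀ ς : ℤ, (ς = 1 ∨ ς = -1) → IntegrableOn (fun v : ℝ => v ^ (-(1 / 2) : ℝ) * |G (ς * v)| *
      (1 + |Real.log (|1 / v - ς|)|)) (Ioi 0)

theorem kl_norm_cpow {v : ℝ} (hv : 0 < v) (t : ℝ) :
    ‖(v : ℂ) ^ ((1 / 2 + t * I : ℂ) - 1)‖ = v ^ (-(1 / 2) : ℝ) := by
  rw [Complex.norm_cpow_eq_rpow_re_of_pos hv]
  congr 1
  simp
  norm_num

theorem kl_cpow_cont {v : ℝ} (hv : 0 < v) :
    Continuous (fun t : ℝ => (v : ℂ) ^ ((1 / 2 + t * I : ℂ) - 1)) := by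
  refine Continuous.const_cpow (by fun_prop) (Or.inl ?_)
  exact_mod_cast hv.ne'

theorem kl_meas0 {G : ℝ → ℝ} (hG : Measurable G) (ς : ℤ) (t : ℝ) :
    Measurable (fun v : ℝ => (v : ℂ) ^ ((1 / 2 + t * I : ℂ) - 1) * (G (ς * v) : ℂ)) := by
  refine Measurable.mul (Complex.measurable_ofReal.pow_const _)
    (Complex.measurable_ofReal.comp (hG.comp (measurable_const.mul measurable_id)))

theorem kl_meas1 {G : ℝ → ℝ} (hG : Measurable G) (ς : ℤ) (t : ℝ) :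
    Measurable (fun v : ℝ => (v : ℂ) ^ ((1 / 2 + t * I : ℂ) - 1) *
      ((G (ς * v) * Real.log |1 / v - ς| : ℝ) : ℂ)) := by
  refine Measurable.mul (Complex.measurable_ofReal.pow_const _)
    (Complex.measurable_ofReal.comp ((hG.comp (measurable_const.mul measurable_id)).mul ?_))
  exact Real.measurable_log.comp (((measurable_const.div measurable_id).sub measurable_const).abs)

theorem kl_le0 {G : ℝ → ℝ} (ς : ℤ) (t : ℝ) {v : ℝ} (hv : 0 < v) :
    ‖(v : ℂ) ^ ((1 / 2 + t * I : ℂ) - 1) * (G (ς * v) : ℂ)‖ ≤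
      v ^ (-(1 / 2) : ℝ) * |G (ς * v)| * (1 + |Real.log (|1 / v - ς|)|) := by
  rw [norm_mul, kl_norm_cpow hv, Complex.norm_real, Real.norm_eq_abs]
  exact le_mul_of_one_le_right (mul_nonneg (Real.rpow_nonneg hv.le _) (abs_nonneg _))
    (by linarith [abs_nonneg (Real.log (|1 / v - ς|))])

theorem kl_le1 {G : ℝ → ℝ} (ς : ℤ) (t : ℝ) {v : ℝ} (hv : 0 < v) :
    ‖(v : ℂ) ^ ((1 / 2 + t * I : ℂ) - 1) * ((G (ς * v) * Real.log |1 / v - ς| : ℝ) : ℂ)‖ ≤
      v ^ (-(1 / 2) : ℝ) * |G (ς * v)| * (1 + |Real.log (|1 / v - ς|)|) := by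
  rw [norm_mul, kl_norm_cpow hv, Complex.norm_real, Real.norm_eq_abs, abs_mul, ← mul_assoc]
  exact mul_le_mul_of_nonneg_left (by linarith)
    (mul_nonneg (Real.rpow_nonneg hv.le _) (abs_nonneg _))

theorem KlG.int0 {G : ℝ → ℝ} (h : KlG G) {ς : ℤ} (hς : ς = 1 ∨ ς = -1) (t : ℝ) :
    IntegrableOn (fun v : ℝ => (v : ℂ) ^ ((1 / 2 + t * I : ℂ) - 1) * (G (ς * v) : ℂ)) (Ioi 0) :=
  Integrable.mono' (h.int ς hς) (kl_meas0 h.meas ς t).aestronglyMeasurable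
    ((ae_restrict_iff' measurableSet_Ioi).2 (Filter.Eventually.of_forall fun v hv =>
      kl_le0 ς t (mem_Ioi.1 hv)))

theorem KlG.int1 {G : ℝ → ℝ} (h : KlG G) {ς : ℤ} (hς : ς = 1 ∨ ς = -1) (t : ℝ) :
    IntegrableOn (fun v : ℝ => (v : ℂ) ^ ((1 / 2 + t * I : ℂ) - 1) *
      ((G (ς * v) * Real.log |1 / v - ς| : ℝ) : ℂ)) (Ioi 0) :=
  Integrable.mono' (h.int ς hς) (kl_meas1 h.meas ς t).aestronglyMeasurable
    ((ae_restrict_iff' measurableSet_Ioi).2 (Filter.Eventually.of_forall fun v hv =>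
      kl_le1 ς t (mem_Ioi.1 hv)))

theorem KlG.norm0 {G : ℝ → ℝ} (h : KlG G) {ς : ℤ} (hς : ς = 1 ∨ ς = -1) (t : ℝ) :
    ‖M0 G ς (1 / 2 + t * I)‖ ≤ ∫ v in Ioi (0 : ℝ), v ^ (-(1 / 2) : ℝ) * |G (ς * v)| *
      (1 + |Real.log (|1 / v - ς|)|) := by
  unfold M0
  exact norm_integral_le_of_norm_le (h.int ς hς)
    ((ae_restrict_iff' measurableSet_Ioi).2 (Filter.Eventually.of_forall fun v hv =>
      kl_le0 ς t (mem_Ioi.1 hv)))

theorem KlG.norm1 {G : ℝ → ℝ} (h : KlG G) {ς : ℤ} (hς : ς = 1 ∨ ς = -1) (t : ℝ) :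
    ‖M1 G ς (1 / 2 + t * I)‖ ≤ ∫ v in Ioi (0 : ℝ), v ^ (-(1 / 2) : ℝ) * |G (ς * v)| *
      (1 + |Real.log (|1 / v - ς|)|) := by
  unfold M1
  exact norm_integral_le_of_norm_le (h.int ς hς)
    ((ae_restrict_iff' measurableSet_Ioi).2 (Filter.Eventually.of_forall fun v hv =>
      kl_le1 ς t (mem_Ioi.1 hv)))

theorem KlG.cont0 {G : ℝ → ℝ} (h : KlG G) {ς : ℤ} (hς : ς = 1 ∨ ς = -1) :
    Continuous (fun t : ℝ => M0 G ς (1 / 2 + t * I)) := by
  unfold M0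
  refine continuous_of_dominated (fun t => (kl_meas0 h.meas ς t).aestronglyMeasurable)
    (bound := fun v : ℝ => v ^ (-(1 / 2) : ℝ) * |G (ς * v)| * (1 + |Real.log (|1 / v - ς|)|))
    (fun t => (ae_restrict_iff' measurableSet_Ioi).2 (Filter.Eventually.of_forall fun v hv =>
      kl_le0 ς t (mem_Ioi.1 hv))) (h.int ς hς) ?_
  exact (ae_restrict_iff' measurableSet_Ioi).2 (Filter.Eventually.of_forall fun v hv =>
    (kl_cpow_cont (mem_Ioi.1 hv)).mul continuous_const)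

theorem KlG.cont1 {G : ℝ → ℝ} (h : KlG G) {ς : ℤ} (hς : ς = 1 ∨ ς = -1) :
    Continuous (fun t : ℝ => M1 G ς (1 / 2 + t * I)) := by
  unfold M1
  refine continuous_of_dominated (fun t => (kl_meas1 h.meas ς t).aestronglyMeasurable)
    (bound := fun v : ℝ => v ^ (-(1 / 2) : ℝ) * |G (ς * v)| * (1 + |Real.log (|1 / v - ς|)|))
    (fun t => (ae_restrict_iff' measurableSet_Ioi).2 (Filter.Eventually.of_forall fun v hv =>
      kl_le1 ς t (mem_Ioi.1 hv))) (h.int ς hς) ?_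
  exact (ae_restrict_iff' measurableSet_Ioi).2 (Filter.Eventually.of_forall fun v hv =>
    (kl_cpow_cont (mem_Ioi.1 hv)).mul continuous_const)

theorem KlG.sub0 {G H : ℝ → ℝ} (hG : KlG G) (hH : KlG H) {ς : ℤ} (hς : ς = 1 ∨ ς = -1) (t : ℝ) :
    M0 G ς (1 / 2 + t * I) - M0 H ς (1 / 2 + t * I) =
      M0 (fun u => G u - H u) ς (1 / 2 + t * I) := by
  unfold M0
  rw [← integral_sub (hG.int0 hς t) (hH.int0 hς t)]
  refine setIntegral_congr_fun measurableSet_Ioi fun v hv => ?_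
  push_cast
  ring

theorem KlG.sub1 {G H : ℝ → ℝ} (hG : KlG G) (hH : KlG H) {ς : ℤ} (hς : ς = 1 ∨ ς = -1) (t : ℝ) :
    M1 G ς (1 / 2 + t * I) - M1 H ς (1 / 2 + t * I) =
      M1 (fun u => G u - H u) ς (1 / 2 + t * I) := by
  unfold M1
  rw [← integral_sub (hG.int1 hς t) (hH.int1 hς t)]
  refine setIntegral_congr_fun measurableSet_Ioi fun v hv => ?_
  push_cast
  ring

theorem kl_goo_meas : Measurable Goo := by
  unfold Goo
  exact measurable_const.mul (Real.measurable_log.comp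
    ((measurable_const.sub (measurable_const.div measurable_id)).abs))

theorem kl_goo : KlG Goo := ⟨kl_goo_meas, fun _ hς => goo_int_pr hς⟩

theorem kl_pm {f : ℝ → ℝ} (hf : Integrable f) (h0 : ∀ u, 0 ≤ f u) {ς : ℤ}
    (hς : ς = 1 ∨ ς = -1) : IntegrableOn (fun v : ℝ => f (ς * v)) (Ioi 0) ∧
      ∫ v in Ioi (0 : ℝ), f (ς * v) ≤ ∫ u, f u := by
  rcases hς with rfl | rfl
  · simp only [Int.cast_one, one_mul]
    exact ⟨hf.integrableOn, setIntegral_le_integral hf (Filter.Eventually.of_forall h0)⟩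
  · simp only [Int.reduceNeg, Int.cast_neg, Int.cast_one, neg_mul, one_mul]
    refine ⟨hf.comp_neg.integrableOn, ?_⟩
    rw [← integral_neg_eq_self f]
    exact setIntegral_le_integral hf.comp_neg (Filter.Eventually.of_forall fun u => h0 _)

theorem kl_arg {ς : ℤ} (hς : ς = 1 ∨ ς = -1) {v : ℝ} (hv : 0 < v) :
    |1 - 1 / ((ς : ℝ) * v)| = |1 / v - ς| := by
  rcases hς with rfl | rfl
  · simp only [Int.cast_one, one_mul]
    exact abs_sub_comm _ _
  · push_cast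
    congr 1
    field_simp
    ring

theorem kl_absv {ς : ℤ} (hς : ς = 1 ∨ ς = -1) {v : ℝ} (hv : 0 < v) : |(ς : ℝ) * v| = v := by
  rcases hς with rfl | rfl
  · simp [abs_of_pos hv]
  · simp [abs_of_pos hv]

/-- the difference of the kernels -/
theorem kl_diff : ∃ C : ℝ, ∀ T : ℝ, 4 ≤ T → ∀ ρ : ℝ → ℝ, KerC T ρ →
    KlG (fun u => GG ρ u - Goo u) ∧ ∀ ς : ℤ, (ς = 1 ∨ ς = -1) →
      ∫ v in Ioi (0 : ℝ), v ^ (-(1 / 2) : ℝ) * |GG ρ (ς * v) - Goo (ς * v)| *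
        (1 + |Real.log (|1 / v - ς|)|) ≤ C * T ^ (-(1 / 4) : ℝ) := by
  obtain ⟨C0, h0⟩ := close0_pr
  obtain ⟨C1, h1⟩ := close1_pr
  refine ⟨C0 + C1, fun T hT ρ hρ => ?_⟩
  obtain ⟨a0, b0⟩ := h0 T hT ρ hρ (1 / 2) (by norm_num) le_rfl
  obtain ⟨a1, b1⟩ := h1 T hT ρ hρ
  have e1 : ((1 / 2 : ℝ) - 1) = -(1 / 2) := by norm_num
  rw [e1] at a0 b0
  have hi := a0.add a1
  have key : ∀ ς : ℤ, (ς = 1 ∨ ς = -1) → ∀ v : ℝ, v ∈ Ioi (0 : ℝ) →
      v ^ (-(1 / 2) : ℝ) * |GG ρ (ς * v) - Goo (ς * v)| * (1 + |Real.log (|1 / v - ς|)|) =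
      (fun u : ℝ => |u| ^ (-(1 / 2) : ℝ) * |GG ρ u - Goo u| +
        |u| ^ (-(1 / 2) : ℝ) * |GG ρ u - Goo u| * |Real.log (|1 - 1 / u|)|) (ς * v) := by
    intro ς hς v hv
    simp only
    rw [kl_arg hς (mem_Ioi.1 hv), kl_absv hς (mem_Ioi.1 hv)]
    ring
  have hp : ∀ ς : ℤ, (ς = 1 ∨ ς = -1) → _ := fun ς hς => kl_pm (f := fun u : ℝ =>
      |u| ^ (-(1 / 2) : ℝ) * |GG ρ u - Goo u| +
        |u| ^ (-(1 / 2) : ℝ) * |GG ρ u - Goo u| * |Real.log (|1 - 1 / u|)|) hi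
      (fun u => by positivity) hς
  refine ⟨⟨(Pool.Agent.LSP.gg_meas_pr hρ.toKerL).sub kl_goo_meas, fun ς hς => ?_⟩,
    fun ς hς => ?_⟩
  · exact ((hp ς hς).1).congr_fun (fun v hv => (key ς hς v hv).symm) measurableSet_Ioi
  · rw [setIntegral_congr_fun measurableSet_Ioi (key ς hς)]
    refine (hp ς hς).2.trans ?_
    rw [integral_add a0 a1, add_mul]
    exact add_le_add b0 b1

theorem kl_gg {T : ℝ} (hT : 4 ≤ T) {ρ : ℝ → ℝ} (hρ : KerC T ρ) : KlG (GG ρ) := by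
  obtain ⟨C, h⟩ := kl_diff
  obtain ⟨hd, -⟩ := h T hT ρ hρ
  refine ⟨Pool.Agent.LSP.gg_meas_pr hρ.toKerL, fun ς hς => ?_⟩
  refine Integrable.mono' ((hd.int ς hς).add (kl_goo.int ς hς)) ?_ ?_
  · refine Measurable.aestronglyMeasurable ?_
    refine Measurable.mul (Measurable.mul (measurable_id.pow_const _)
      (((Pool.Agent.LSP.gg_meas_pr hρ.toKerL).comp (measurable_const.mul measurable_id)).abs)) ?_
    refine measurable_const.add (Measurable.abs ?_)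
    exact Real.measurable_log.comp (((measurable_const.div measurable_id).sub measurable_const).abs)
  · refine (ae_restrict_iff' measurableSet_Ioi).2 (Filter.Eventually.of_forall fun v hv => ?_)
    have hv' : (0 : ℝ) < v := mem_Ioi.1 hv
    have h1 : (0 : ℝ) ≤ v ^ (-(1 / 2) : ℝ) := Real.rpow_nonneg hv'.le _
    have h2 : 0 ≤ 1 + |Real.log (|1 / v - ς|)| := by positivity
    rw [Real.norm_eq_abs, abs_of_nonneg (by positivity)]
    simp only [Pi.add_apply]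
    rw [← add_mul, ← mul_add]
    refine mul_le_mul_of_nonneg_right (mul_le_mul_of_nonneg_left ?_ h1) h2
    have := abs_add_le (GG ρ (ς * v) - Goo (ς * v)) (Goo (ς * v))
    simpa using this

/-! ## the arithmetic part -/

section arith

variable {q : ℕ} [NeZero q]

/-- `PH` with arbitrary values of the Mellin transforms -/
noncomputable def klP (χ : DirichletCharacter ℂ q) (N e : ℕ) (m0 m1 : ℤ → ℂ) (s : ℂ) : ℂ :=
  2 * Real.pi / (q * e) * ∑ p ∈ e.divisorsAntidiagonal, χ p.1 *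
    ∑ k ∈ p.2.divisors, χ ((p.2 / k : ℕ)) * (((p.1 * k : ℝ) / p.2 : ℝ) : ℂ) ^ (-s) *
      ∑ l ∈ (p.2 / k).divisors, (ArithmeticFunction.moebius l : ℂ) / l *
        ∑ ς ∈ ({1, -1} : Finset ℤ), χ ς *
          (Zk χ k s * (m0 ς * ((Real.log (k * N) + 2 * Real.eulerMascheroniConstant -
            2 * Real.log (q * k * l) : ℝ) : ℂ) + m1 ς) - deriv (Zk χ k) s * m0 ς)

theorem kl_PH (χ : DirichletCharacter ℂ q) (N e : ℕ) (G : ℝ → ℝ) (s : ℂ) :
    PH χ N e G s = klP χ N e (fun ς => M0 G ς s) (fun ς => M1 G ς s) s := rfl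

theorem klP_sub (χ : DirichletCharacter ℂ q) (N e : ℕ) (m0 m1 n0 n1 : ℤ → ℂ) (s : ℂ) :
    klP χ N e m0 m1 s - klP χ N e n0 n1 s =
      klP χ N e (fun ς => m0 ς - n0 ς) (fun ς => m1 ς - n1 ς) s := by
  unfold klP
  rw [← mul_sub, ← Finset.sum_sub_distrib]
  congr 1
  refine Finset.sum_congr rfl fun p _ => ?_
  rw [← mul_sub, ← Finset.sum_sub_distrib]
  congr 1
  refine Finset.sum_congr rfl fun k _ => ?_
  rw [← mul_sub, ← Finset.sum_sub_distrib]
  congr 1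
  refine Finset.sum_congr rfl fun l _ => ?_
  rw [← mul_sub, ← Finset.sum_sub_distrib]
  congr 1
  refine Finset.sum_congr rfl fun ς _ => ?_
  ring

theorem klP_congr (χ : DirichletCharacter ℂ q) (N e : ℕ) {m0 m1 n0 n1 : ℤ → ℂ} (s : ℂ)
    (h0 : ∀ ς : ℤ, (ς = 1 ∨ ς = -1) → m0 ς = n0 ς) (h1 : ∀ ς : ℤ, (ς = 1 ∨ ς = -1) → m1 ς = n1 ς) :
    klP χ N e m0 m1 s = klP χ N e n0 n1 s := by
  unfold klP
  congr 1
  refine Finset.sum_congr rfl fun p _ => ?_
  congr 1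
  refine Finset.sum_congr rfl fun k _ => ?_
  congr 1
  refine Finset.sum_congr rfl fun l _ => ?_
  congr 1
  refine Finset.sum_congr rfl fun ς hς => ?_
  have hς' : ς = 1 ∨ ς = -1 := by simpa using hς
  rw [h0 ς hς', h1 ς hς']

theorem kl_zk_diff {χ : DirichletCharacter ℂ q} (hχ : χ ≠ 1) (k : ℕ) :
    Differentiable ℂ (Zk χ k) := by
  unfold Zk Pk
  refine ((DirichletCharacter.differentiable_LFunction hχ).pow 2).mul ?_
  refine Differentiable.fun_sum fun h hh => ?_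
  have h0 : (h : ℂ) ≠ 0 := by
    exact_mod_cast (Nat.pos_of_mem_divisors hh).ne'
  refine Differentiable.mul_const (Differentiable.const_mul ?_ _) _
  intro s
  exact (differentiableAt_id.neg).const_cpow (Or.inl h0)

theorem kl_zk_cont {χ : DirichletCharacter ℂ q} (hχ : χ ≠ 1) (k : ℕ) :
    Continuous (Zk χ k) ∧ Continuous (deriv (Zk χ k)) :=
  ⟨(kl_zk_diff hχ k).continuous, (kl_zk_diff hχ k).contDiff.continuous_deriv (n := 1) le_rfl⟩

theorem kl_cont {χ : DirichletCharacter ℂ q} (hχ : χ ≠ 1) (N e : ℕ) {G : ℝ → ℝ} (hG : KlG G) :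
    Continuous (fun t : ℝ => PH χ N e G (1 / 2 + t * I)) := by
  have hs : Continuous (fun t : ℝ => (1 / 2 + t * I : ℂ)) := by fun_prop
  unfold PH
  refine continuous_const.mul (continuous_finsetSum _ fun p _ => continuous_const.mul
    (continuous_finsetSum _ fun k _ => (continuous_const.mul ?_).mul
      (continuous_finsetSum _ fun l _ => continuous_const.mul
        (continuous_finsetSum _ fun ς hς => continuous_const.mul ?_))))
  · refine Continuous.const_cpow hs.neg (Or.inr fun t h => ?_)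
    have := congrArg Complex.re h
    simp at this
  · have hς' : ς = 1 ∨ ς = -1 := by simpa using hς
    have z := kl_zk_cont hχ k
    exact ((z.1.comp hs).mul (((hG.cont0 hς').mul continuous_const).add (hG.cont1 hς'))).sub
      ((z.2.comp hs).mul (hG.cont0 hς'))


theorem kl_tau_le {k e : ℕ} (he : 1 ≤ e) (h : k ∣ e) : tau k ≤ tau e := by
  unfold Pool.Agent.LSP.tau
  exact_mod_cast Finset.card_le_card (Nat.divisors_subset_of_dvd (by omega) h)

theorem kl_tau_nonneg (k : ℕ) : 0 ≤ tau k := by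
  unfold Pool.Agent.LSP.tau
  positivity

theorem kl_log_le {q N e k l : ℕ} (hq : 1 ≤ q) (hN : 1 ≤ N) (he : 1 ≤ e) (hk : 1 ≤ k) (hl : 1 ≤ l)
    (hkl : k * l ≤ e) :
    ‖((Real.log (k * N) + 2 * Real.eulerMascheroniConstant -
            2 * Real.log (q * k * l) : ℝ) : ℂ)‖ ≤ 5 * (1 + Real.log (q * N * e)) := by
  have hq' : (1 : ℝ) ≤ q := by exact_mod_cast hq
  have hN' : (1 : ℝ) ≤ N := by exact_mod_cast hN
  have he' : (1 : ℝ) ≤ e := by exact_mod_cast he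
  have hk' : (1 : ℝ) ≤ k := by exact_mod_cast hk
  have hl' : (1 : ℝ) ≤ l := by exact_mod_cast hl
  have hkl' : (k : ℝ) * l ≤ e := by exact_mod_cast hkl
  have hke : (k : ℝ) ≤ e := le_trans (le_mul_of_one_le_right (by linarith) hl') hkl'
  have hqN : (1 : ℝ) ≤ q * N := one_le_mul_of_one_le_of_one_le hq' hN'
  have h1 : Real.log (k * N) ≤ Real.log (q * N * e) := by
    refine Real.log_le_log (by positivity) ?_
    calc (k : ℝ) * N ≤ e * N := mul_le_mul_of_nonneg_right hke (by linarith)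
      _ ≤ q * N * e := by nlinarith [mul_nonneg (by linarith : (0 : ℝ) ≤ N) (by linarith : (0 : ℝ) ≤ e)]
  have h2 : Real.log (q * k * l) ≤ Real.log (q * N * e) := by
    refine Real.log_le_log (by positivity) ?_
    calc (q : ℝ) * k * l = q * (k * l) := by ring
      _ ≤ q * e := mul_le_mul_of_nonneg_left hkl' (by linarith)
      _ ≤ q * N * e := by nlinarith [mul_nonneg (by linarith : (0 : ℝ) ≤ q) (by linarith : (0 : ℝ) ≤ e)]
  have h3 : 0 ≤ Real.log (k * N) := Real.log_nonneg (one_le_mul_of_one_le_of_one_le hk' hN')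
  have h4 : 0 ≤ Real.log (q * k * l) :=
    Real.log_nonneg (one_le_mul_of_one_le_of_one_le (one_le_mul_of_one_le_of_one_le hq' hk') hl')
  have h5 := Real.eulerMascheroniConstant_lt_two_thirds
  have h6 := Real.one_half_lt_eulerMascheroniConstant
  rw [Complex.norm_real, Real.norm_eq_abs, abs_le]
  constructor <;> nlinarith

theorem kl_term {Z L δ a : ℝ} {z z' c m0 m1 : ℂ} (hL : 1 ≤ L) (hδ : 0 ≤ δ) (hZ : 0 ≤ Z)
    (ha : 0 ≤ a) (haL : 1 + a ≤ L) (hz : ‖z‖ ≤ Z) (hz' : ‖z'‖ ≤ Z * (1 + a)) (hc : ‖c‖ ≤ 5 * L)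
    (h0 : ‖m0‖ ≤ δ) (h1 : ‖m1‖ ≤ δ) : ‖z * (m0 * c + m1) - z' * m0‖ ≤ 7 * (Z * L * δ) := by
  have e1 : ‖m0 * c + m1‖ ≤ 6 * L * δ := by
    refine (norm_add_le _ _).trans ?_
    rw [norm_mul]
    have := mul_le_mul h0 hc (norm_nonneg _) hδ
    nlinarith
  have e2 : ‖z * (m0 * c + m1)‖ ≤ Z * (6 * L * δ) := by
    rw [norm_mul]
    exact mul_le_mul hz e1 (norm_nonneg _) hZ
  have e3 : ‖z' * m0‖ ≤ Z * L * δ := by
    rw [norm_mul]
    refine mul_le_mul (hz'.trans (mul_le_mul_of_nonneg_left haL hZ)) h0 (norm_nonneg _) ?_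
    positivity
  refine (norm_sub_le _ _).trans ?_
  linarith

theorem kl_bound : ∃ C : ℝ, 0 ≤ C ∧ ∀ (q : ℕ) [NeZero q] (χ : DirichletCharacter ℂ q), χ ≠ 1 →
    ∀ N e : ℕ, 1 ≤ N → 1 ≤ e → ∀ (m0 m1 : ℤ → ℂ) (δ : ℝ), 0 ≤ δ →
    (∀ ς : ℤ, (ς = 1 ∨ ς = -1) → ‖m0 ς‖ ≤ δ) → (∀ ς : ℤ, (ς = 1 ∨ ς = -1) → ‖m1 ς‖ ≤ δ) →
    ∀ t : ℝ, ‖klP χ N e m0 m1 (1 / 2 + t * I)‖ ≤ C * (|t| + 2) ^ 2 * (q * (e : ℝ) ^ (-(1 / 2) : ℝ) *
      tau e ^ 5 * (1 + Real.log (q * N * e)) * δ) := by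
  obtain ⟨C, hC⟩ := zk_bound_pr
  refine ⟨2 * Real.pi * (14 * |C|), by positivity, ?_⟩
  intro q _ χ hχ N e hN he m0 m1 δ hδ h0 h1 t
  have hq : 1 ≤ q := NeZero.one_le
  have hq' : (1 : ℝ) ≤ q := by exact_mod_cast hq
  have hN' : (1 : ℝ) ≤ N := by exact_mod_cast hN
  have he' : (1 : ℝ) ≤ e := by exact_mod_cast he
  have he0 : (0 : ℝ) < e := by linarith
  have hL1 : 0 ≤ Real.log (q * N * e) :=
    Real.log_nonneg (one_le_mul_of_one_le_of_one_le (one_le_mul_of_one_le_of_one_le hq' hN') he')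
  set L : ℝ := 1 + Real.log (q * N * e) with hL
  have hL1' : 1 ≤ L := by rw [hL]; linarith
  have hτ : 0 ≤ tau e := kl_tau_nonneg e
  set Z : ℝ := |C| * q ^ 2 * (|t| + 2) ^ 2 * tau e ^ 2 with hZ
  have hZ0 : 0 ≤ Z := by rw [hZ]; positivity
  have hre : (1 / 2 + t * I : ℂ).re = 1 / 2 := by simp
  have him : (1 / 2 + t * I : ℂ).im = t := by simp
  obtain ⟨-, hz⟩ := hC q χ hχ (1 / 2 + t * I) (by rw [hre]) (by rw [hre]; norm_num)
  rw [him] at hz
  -- the innermost sum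
  have s1 : ∀ k l : ℕ, 1 ≤ k → 1 ≤ l → k * l ∣ e →
      ‖∑ ς ∈ ({1, -1} : Finset ℤ), χ ς *
          (Zk χ k (1 / 2 + t * I) * (m0 ς * ((Real.log (k * N) +
            2 * Real.eulerMascheroniConstant -
            2 * Real.log (q * k * l) : ℝ) : ℂ) + m1 ς) -
            deriv (Zk χ k) (1 / 2 + t * I) * m0 ς)‖ ≤ 14 * (Z * L * δ) := by
    intro k l hk hl hkl
    have hkle : k * l ≤ e := Nat.le_of_dvd (by omega) hkl
    have hke : k ∣ e := (dvd_mul_right k l).trans hkl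
    obtain ⟨z1, z2⟩ := hz k hk
    have hk' : (1 : ℝ) ≤ k := by exact_mod_cast hk
    have hτk : tau k ^ 2 ≤ tau e ^ 2 := pow_le_pow_left₀ (kl_tau_nonneg k) (kl_tau_le he hke) 2
    have hA : C * q ^ 2 * (|t| + 2) ^ 2 * tau k ^ 2 ≤ Z := by
      rw [hZ]
      have : C * q ^ 2 * (|t| + 2) ^ 2 ≤ |C| * q ^ 2 * (|t| + 2) ^ 2 := by
        gcongr
        exact le_abs_self C
      calc C * q ^ 2 * (|t| + 2) ^ 2 * tau k ^ 2 ≤ |C| * q ^ 2 * (|t| + 2) ^ 2 * tau k ^ 2 :=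
            mul_le_mul_of_nonneg_right this (by positivity)
        _ ≤ _ := mul_le_mul_of_nonneg_left hτk (by positivity)
    have hlogk : 0 ≤ Real.log k := Real.log_nonneg hk'
    have hlogk' : 1 + Real.log k ≤ L := by
      rw [hL]
      have : Real.log k ≤ Real.log (q * N * e) := by
        refine Real.log_le_log (by positivity) ?_
        have h3 : (k : ℝ) ≤ e := by exact_mod_cast Nat.le_of_dvd (by omega) hke
        calc (k : ℝ) ≤ e := h3
          _ = 1 * e := (one_mul _).symm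
          _ ≤ q * N * e := mul_le_mul_of_nonneg_right (one_le_mul_of_one_le_of_one_le hq' hN')
              he0.le
      linarith
    have hterm : ∀ ς ∈ ({1, -1} : Finset ℤ), ‖χ ς *
          (Zk χ k (1 / 2 + t * I) * (m0 ς * ((Real.log (k * N) +
            2 * Real.eulerMascheroniConstant -
            2 * Real.log (q * k * l) : ℝ) : ℂ) + m1 ς) -
            deriv (Zk χ k) (1 / 2 + t * I) * m0 ς)‖ ≤ 7 * (Z * L * δ) := by
      intro ς hς
      have hς' : ς = 1 ∨ ς = -1 := by simpa using hς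
      rw [norm_mul]
      refine (mul_le_of_le_one_left (norm_nonneg _) (DirichletCharacter.norm_le_one χ _)).trans ?_
      exact kl_term hL1' hδ hZ0 hlogk hlogk' (z1.trans hA)
        (z2.trans (mul_le_mul_of_nonneg_right hA (by linarith)))
        (kl_log_le hq hN he hk hl hkle) (h0 ς hς') (h1 ς hς')
    refine (norm_sum_le_of_le _ hterm).trans ?_
    rw [Finset.sum_const]
    have : ({1, -1} : Finset ℤ).card = 2 := by decide
    rw [this]
    simp only [nsmul_eq_mul]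
    push_cast
    linarith
  have hB : 0 ≤ 14 * (Z * L * δ) := by positivity
  -- sum over l
  have s2 : ∀ b k : ℕ, 1 ≤ b → b ∣ e → k ∣ b →
      ‖∑ l ∈ (b / k).divisors, (ArithmeticFunction.moebius l : ℂ) / l *
        ∑ ς ∈ ({1, -1} : Finset ℤ), χ ς *
          (Zk χ k (1 / 2 + t * I) * (m0 ς * ((Real.log (k * N) +
            2 * Real.eulerMascheroniConstant -
            2 * Real.log (q * k * l) : ℝ) : ℂ) + m1 ς) -
            deriv (Zk χ k) (1 / 2 + t * I) * m0 ς)‖ ≤ tau e * (14 * (Z * L * δ)) := by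
    intro b k hb hbe hkb
    have hk : 1 ≤ k := Nat.pos_of_dvd_of_pos hkb hb
    have hbk : b / k ∣ e := (Nat.div_dvd_of_dvd hkb).trans hbe
    refine (norm_sum_le_of_le (f := fun l => (ArithmeticFunction.moebius l : ℂ) / l * _)
      (n := fun _ => 14 * (Z * L * δ)) _ fun l hl => ?_).trans ?_
    · have hl1 : 1 ≤ l := Nat.pos_of_mem_divisors hl
      have hl2 : l ∣ b / k := Nat.dvd_of_mem_divisors hl
      have hkl : k * l ∣ e := by
        refine dvd_trans ?_ hbe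
        obtain ⟨c, hc⟩ := hl2
        refine ⟨c, ?_⟩
        calc b = k * (b / k) := (Nat.mul_div_cancel' hkb).symm
          _ = k * l * c := by rw [hc]; ring
      rw [norm_mul]
      refine (mul_le_of_le_one_left (norm_nonneg _) ?_).trans (s1 k l hk hl1 hkl)
      rw [norm_div, Complex.norm_intCast, Complex.norm_natCast]
      have m1 : |((ArithmeticFunction.moebius l : ℤ) : ℝ)| ≤ 1 := by
        exact_mod_cast ArithmeticFunction.abs_moebius_le_one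
      have hl' : (1 : ℝ) ≤ l := by exact_mod_cast hl1
      exact (div_le_one (by linarith)).2 (m1.trans hl')
    · rw [Finset.sum_const, nsmul_eq_mul]
      exact mul_le_mul_of_nonneg_right (kl_tau_le he hbk) hB
  -- sum over k
  have s3 : ∀ j b : ℕ, j * b = e →
      ‖∑ k ∈ b.divisors, χ ((b / k : ℕ)) * (((j * k : ℝ) / b : ℝ) : ℂ) ^ (-(1 / 2 + t * I : ℂ)) *
      ∑ l ∈ (b / k).divisors, (ArithmeticFunction.moebius l : ℂ) / l *
        ∑ ς ∈ ({1, -1} : Finset ℤ), χ ς *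
          (Zk χ k (1 / 2 + t * I) * (m0 ς * ((Real.log (k * N) +
            2 * Real.eulerMascheroniConstant -
            2 * Real.log (q * k * l) : ℝ) : ℂ) + m1 ς) -
            deriv (Zk χ k) (1 / 2 + t * I) * m0 ς)‖ ≤
        tau e * ((e : ℝ) ^ (1 / 2 : ℝ) * (tau e * (14 * (Z * L * δ)))) := by
    intro j b hjb
    have hj : 1 ≤ j := Nat.pos_of_ne_zero (by rintro rfl; omega)
    have hb : 1 ≤ b := Nat.pos_of_ne_zero (by rintro rfl; omega)
    have hbe : b ∣ e := ⟨j, by rw [← hjb]; ring⟩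
    refine (norm_sum_le_of_le (n := fun _ => (e : ℝ) ^ (1 / 2 : ℝ) * (tau e * (14 * (Z * L * δ))))
      _ fun k hk => ?_).trans ?_
    · have hk1 : 1 ≤ k := Nat.pos_of_mem_divisors hk
      have hkb : k ∣ b := Nat.dvd_of_mem_divisors hk
      rw [norm_mul, norm_mul]
      have hx : (0 : ℝ) < (j * k : ℝ) / b := by positivity
      have n1 : ‖(((j * k : ℝ) / b : ℝ) : ℂ) ^ (-(1 / 2 + t * I : ℂ))‖ ≤ (e : ℝ) ^ (1 / 2 : ℝ) := by
        rw [Complex.norm_cpow_eq_rpow_re_of_pos hx]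
        have : (-(1 / 2 + t * I : ℂ)).re = -(1 / 2 : ℝ) := by simp
        rw [this, Real.rpow_neg hx.le, ← Real.inv_rpow hx.le]
        refine Real.rpow_le_rpow (by positivity) ?_ (by norm_num)
        rw [inv_div, div_le_iff₀ (by positivity)]
        have b1 : (b : ℝ) ≤ e := by exact_mod_cast Nat.le_of_dvd (by omega) hbe
        have b2 : (1 : ℝ) ≤ j * k := by exact_mod_cast Nat.mul_pos hj hk1
        nlinarith
      refine mul_le_mul ?_ (s2 b k hb hbe hkb) (norm_nonneg _) (by positivity)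
      calc ‖χ ((b / k : ℕ))‖ * _ ≤ 1 * (e : ℝ) ^ (1 / 2 : ℝ) :=
            mul_le_mul (DirichletCharacter.norm_le_one χ _) n1 (norm_nonneg _) zero_le_one
        _ = _ := one_mul _
    · rw [Finset.sum_const, nsmul_eq_mul]
      exact mul_le_mul_of_nonneg_right (kl_tau_le he hbe) (by positivity)
  -- the outer sum
  unfold klP
  rw [norm_mul]
  have s4 := norm_sum_le_of_le (s := e.divisorsAntidiagonal)
    (f := fun p : ℕ × ℕ => χ p.1 * ∑ k ∈ p.2.divisors, χ ((p.2 / k : ℕ)) *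
      (((p.1 * k : ℝ) / p.2 : ℝ) : ℂ) ^ (-(1 / 2 + t * I : ℂ)) *
      ∑ l ∈ (p.2 / k).divisors, (ArithmeticFunction.moebius l : ℂ) / l *
        ∑ ς ∈ ({1, -1} : Finset ℤ), χ ς *
          (Zk χ k (1 / 2 + t * I) * (m0 ς * ((Real.log (k * N) +
            2 * Real.eulerMascheroniConstant -
            2 * Real.log (q * k * l) : ℝ) : ℂ) + m1 ς) -
            deriv (Zk χ k) (1 / 2 + t * I) * m0 ς))
    (n := fun _ => tau e * ((e : ℝ) ^ (1 / 2 : ℝ) * (tau e * (14 * (Z * L * δ)))))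
    (fun p hp => by
      rw [norm_mul]
      refine (mul_le_of_le_one_left (norm_nonneg _) (DirichletCharacter.norm_le_one χ _)).trans ?_
      exact s3 p.1 p.2 (Nat.mem_divisorsAntidiagonal.1 hp).1)
  refine (mul_le_mul_of_nonneg_left s4 (norm_nonneg _)).trans ?_
  have hcard : (e.divisorsAntidiagonal.card : ℝ) = tau e := by
    unfold Pool.Agent.LSP.tau
    have h7 : e.divisorsAntidiagonal.card = e.divisors.card := by
      rw [← Nat.map_div_right_divisors, Finset.card_map]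
    rw [h7]
  rw [Finset.sum_const, nsmul_eq_mul, hcard]
  have hpre : ‖(2 * Real.pi / (q * e) : ℂ)‖ = 2 * Real.pi / (q * e) := by
    rw [norm_div, norm_mul, norm_mul, Complex.norm_natCast, Complex.norm_natCast,
      Complex.norm_real, Real.norm_eq_abs, abs_of_pos Real.pi_pos]
    simp
  rw [hpre]
  have hee : (e : ℝ) ^ (1 / 2 : ℝ) / e = (e : ℝ) ^ (-(1 / 2) : ℝ) := by
    rw [← Real.rpow_sub_one he0.ne']
    norm_num
  have hq0 : (q : ℝ) ≠ 0 := by positivity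
  refine le_of_eq ?_
  rw [hZ, ← hee]
  field_simp

end arith

theorem kl_exp_int : Integrable (fun z : ℝ => Real.exp (-|z| / 2)) := by
  have h1 : IntegrableOn (fun z : ℝ => Real.exp (-|z| / 2)) (Set.Iic 0) := by
    refine (integrableOn_exp_mul_Iic (a := 1 / 2) (by norm_num) 0).congr_fun ?_ measurableSet_Iic
    intro z hz
    simp only
    rw [abs_of_nonpos hz]
    congr 1
    ring
  have h2 : IntegrableOn (fun z : ℝ => Real.exp (-|z| / 2)) (Set.Ioi 0) := by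
    refine (integrableOn_exp_mul_Ioi (a := -(1 / 2)) (by norm_num) 0).congr_fun ?_ measurableSet_Ioi
    intro z hz
    simp only
    rw [abs_of_pos hz]
    congr 1
    ring
  have h3 := h1.union h2
  rwa [Set.Iic_union_Ioi, integrableOn_univ] at h3

theorem kl_J : Integrable (fun t : ℝ => Real.exp (-|t|) * (|t| + 2) ^ 2) := by
  refine Integrable.mono' (kl_exp_int.const_mul 16) (Continuous.aestronglyMeasurable (by fun_prop))
    (Filter.Eventually.of_forall fun t => ?_)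
  rw [Real.norm_of_nonneg (by positivity)]
  have h1 : |t| + 2 ≤ 4 * Real.exp (|t| / 4) := by
    have := Real.add_one_le_exp (|t| / 4)
    linarith
  have h2 : (|t| + 2) ^ 2 ≤ 16 * Real.exp (|t| / 2) := by
    calc (|t| + 2) ^ 2 ≤ (4 * Real.exp (|t| / 4)) ^ 2 :=
          pow_le_pow_left₀ (by positivity) h1 2
      _ = 16 * (Real.exp (|t| / 4) * Real.exp (|t| / 4)) := by ring
      _ = _ := by rw [← Real.exp_add]; congr 2; ring
  calc Real.exp (-|t|) * (|t| + 2) ^ 2 ≤ Real.exp (-|t|) * (16 * Real.exp (|t| / 2)) :=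
        mul_le_mul_of_nonneg_left h2 (Real.exp_pos _).le
    _ = 16 * (Real.exp (-|t|) * Real.exp (|t| / 2)) := by ring
    _ = _ := by rw [← Real.exp_add]; congr 2; ring

theorem kl_W_cont {w : ℝ → ℝ} {W : ℂ → ℂ} (hw : MW w W) :
    Continuous (fun t : ℝ => W (1 / 2 + t * I)) := by
  rw [continuous_iff_continuousAt]
  intro t
  have h1 : ContinuousAt W (1 / 2 + t * I) := (hw.diff _ (by simp)).continuousAt
  exact ContinuousAt.comp (f := fun t : ℝ => (1 / 2 + t * I : ℂ)) h1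
    (Continuous.continuousAt (by fun_prop))

theorem kl_pow_cont {x : ℝ} : Continuous (fun t : ℝ => (x : ℂ) ^ (1 / 2 + t * I : ℂ)) := by
  refine Continuous.const_cpow (by fun_prop) (Or.inr fun t h => ?_)
  have := congrArg Complex.re h
  simp at this

theorem kl_pow_norm {x : ℝ} (hx : 0 < x) (t : ℝ) :
    ‖(x : ℂ) ^ (1 / 2 + t * I : ℂ)‖ = x ^ (1 / 2 : ℝ) := by
  rw [Complex.norm_cpow_eq_rpow_re_of_pos hx]
  congr 1
  simp

/-- block KL (uses close0_pr, close1_pr, goo_int_pr, zk_bound_pr): replacing the kernel -/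
theorem ph_close_pr {w : ℝ → ℝ} {W : ℂ → ℂ} (hw : MW w W) : ∃ C : ℝ, ∀ (q : ℕ) [NeZero q]
    (χ : DirichletCharacter ℂ q), χ ≠ 1 → ∀ (T : ℝ), 4 ≤ T → ∀ ρ : ℝ → ℝ, KerC T ρ →
    ∀ N e : ℕ, 1 ≤ N → 1 ≤ e → ∀ Y : ℝ, 0 < Y →
    Integrable (fun t : ℝ => W (1 / 2 + t * I) *
      (((Y / N : ℝ) : ℂ) ^ (1 / 2 + t * I : ℂ)) * PH χ N e Goo (1 / 2 + t * I)) ∧
    ‖(∫ t : ℝ, W (1 / 2 + t * I) *
      (((Y / N : ℝ) : ℂ) ^ (1 / 2 + t * I : ℂ)) * PH χ N e (GG ρ) (1 / 2 + t * I)) -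
    ∫ t : ℝ, W (1 / 2 + t * I) *
      (((Y / N : ℝ) : ℂ) ^ (1 / 2 + t * I : ℂ)) * PH χ N e Goo (1 / 2 + t * I)‖ ≤
      C * q * (Y / N) ^ (1 / 2 : ℝ) * (e : ℝ) ^ (-(1 / 2) : ℝ) * tau e ^ 5 *
        (1 + Real.log (q * N * e)) * T ^ (-(1 / 4) : ℝ) := by
  obtain ⟨Cd, hd⟩ := kl_diff
  obtain ⟨K, hK0, hK⟩ := kl_bound
  obtain ⟨CW, hW⟩ := hw.bdd (1 / 2) (1 / 2) (by norm_num)
  have hW' : ∀ t : ℝ, ‖W (1 / 2 + t * I)‖ ≤ |CW| * Real.exp (-|t|) := by
    intro t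
    have h := hW (1 / 2 + t * I) (by simp) (by simp)
    have him : (1 / 2 + t * I : ℂ).im = t := by simp
    rw [him] at h
    exact h.trans (mul_le_mul_of_nonneg_right (le_abs_self _) (Real.exp_pos _).le)
  refine ⟨|CW| * K * |Cd| * ∫ t : ℝ, Real.exp (-|t|) * (|t| + 2) ^ 2, ?_⟩
  intro q _ χ hχ T hT ρ hρ N e hN he Y hY
  obtain ⟨hdG, hdI⟩ := hd T hT ρ hρ
  have hN0 : (0 : ℝ) < N := by exact_mod_cast hN
  have hx : 0 < Y / N := by positivity
  have hT0 : (0 : ℝ) ≤ T ^ (-(1 / 4) : ℝ) := Real.rpow_nonneg (by linarith) _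
  -- general bound of the integrands
  have hpt : ∀ (m0 m1 : ℤ → ℂ) (δ : ℝ), 0 ≤ δ →
      (∀ ς : ℤ, (ς = 1 ∨ ς = -1) → ‖m0 ς‖ ≤ δ) → (∀ ς : ℤ, (ς = 1 ∨ ς = -1) → ‖m1 ς‖ ≤ δ) →
      ∀ t : ℝ, ‖W (1 / 2 + t * I) * (((Y / N : ℝ) : ℂ) ^ (1 / 2 + t * I : ℂ)) *
        klP χ N e m0 m1 (1 / 2 + t * I)‖ ≤ (|CW| * (Y / N) ^ (1 / 2 : ℝ) * K *
          (q * (e : ℝ) ^ (-(1 / 2) : ℝ) * tau e ^ 5 * (1 + Real.log (q * N * e)) * δ)) *
          (Real.exp (-|t|) * (|t| + 2) ^ 2) := by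
    intro m0 m1 δ hδ h0 h1 t
    rw [norm_mul, norm_mul, kl_pow_norm hx]
    have e1 := hK q χ hχ N e hN he m0 m1 δ hδ h0 h1 t
    have e2 : ‖W (1 / 2 + t * I)‖ * (Y / N) ^ (1 / 2 : ℝ) ≤
        |CW| * Real.exp (-|t|) * (Y / N) ^ (1 / 2 : ℝ) :=
      mul_le_mul_of_nonneg_right (hW' t) (Real.rpow_nonneg hx.le _)
    refine (mul_le_mul e2 e1 (norm_nonneg _) (by positivity)).trans (le_of_eq ?_)
    ring
  have hint : ∀ G : ℝ → ℝ, KlG G → Integrable (fun t : ℝ => W (1 / 2 + t * I) *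
      (((Y / N : ℝ) : ℂ) ^ (1 / 2 + t * I : ℂ)) * PH χ N e G (1 / 2 + t * I)) := by
    intro G hG
    obtain ⟨δ, hδ, hδ'⟩ : ∃ δ : ℝ, 0 ≤ δ ∧ ∀ ς : ℤ, (ς = 1 ∨ ς = -1) →
        ∫ v in Ioi (0 : ℝ), v ^ (-(1 / 2) : ℝ) * |G (ς * v)| *
          (1 + |Real.log (|1 / v - ς|)|) ≤ δ := by
      refine ⟨max 0 (max (∫ v in Ioi (0 : ℝ), v ^ (-(1 / 2) : ℝ) * |G ((1 : ℤ) * v)| *
          (1 + |Real.log (|1 / v - (1 : ℤ)|)|)) (∫ v in Ioi (0 : ℝ), v ^ (-(1 / 2) : ℝ) *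
          |G ((-1 : ℤ) * v)| * (1 + |Real.log (|1 / v - (-1 : ℤ)|)|))), le_max_left _ _, ?_⟩
      rintro ς (rfl | rfl)
      · exact (le_max_left _ _).trans (le_max_right _ _)
      · exact (le_max_right _ _).trans (le_max_right _ _)
    refine Integrable.mono' (kl_J.const_mul (|CW| * (Y / N) ^ (1 / 2 : ℝ) * K *
          (q * (e : ℝ) ^ (-(1 / 2) : ℝ) * tau e ^ 5 * (1 + Real.log (q * N * e)) * δ)))
      (((kl_W_cont hw).mul kl_pow_cont).mul (kl_cont hχ N e hG)).aestronglyMeasurable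
      (Filter.Eventually.of_forall fun t => ?_)
    rw [kl_PH]
    exact hpt _ _ δ hδ (fun ς hς => (hG.norm0 hς t).trans (hδ' ς hς))
      (fun ς hς => (hG.norm1 hς t).trans (hδ' ς hς)) t
  refine ⟨hint Goo kl_goo, ?_⟩
  rw [← integral_sub (hint _ (kl_gg hT hρ)) (hint _ kl_goo)]
  have hδ0 : (0 : ℝ) ≤ |Cd| * T ^ (-(1 / 4) : ℝ) := by positivity
  have hle : ∀ ς : ℤ, (ς = 1 ∨ ς = -1) →
      ∫ v in Ioi (0 : ℝ), v ^ (-(1 / 2) : ℝ) * |GG ρ (ς * v) - Goo (ς * v)| *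
        (1 + |Real.log (|1 / v - ς|)|) ≤ |Cd| * T ^ (-(1 / 4) : ℝ) := fun ς hς =>
    (hdI ς hς).trans (mul_le_mul_of_nonneg_right (le_abs_self _) hT0)
  have hpt2 : ∀ t : ℝ, ‖W (1 / 2 + t * I) *
      (((Y / N : ℝ) : ℂ) ^ (1 / 2 + t * I : ℂ)) * PH χ N e (GG ρ) (1 / 2 + t * I) -
      W (1 / 2 + t * I) *
      (((Y / N : ℝ) : ℂ) ^ (1 / 2 + t * I : ℂ)) * PH χ N e Goo (1 / 2 + t * I)‖ ≤
      (|CW| * (Y / N) ^ (1 / 2 : ℝ) * K *
          (q * (e : ℝ) ^ (-(1 / 2) : ℝ) * tau e ^ 5 * (1 + Real.log (q * N * e)) *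
          (|Cd| * T ^ (-(1 / 4) : ℝ)))) * (Real.exp (-|t|) * (|t| + 2) ^ 2) := by
    intro t
    rw [← mul_sub, kl_PH, kl_PH, klP_sub,
      klP_congr χ N e (n0 := fun ς => M0 (fun u => GG ρ u - Goo u) ς (1 / 2 + t * I))
        (n1 := fun ς => M1 (fun u => GG ρ u - Goo u) ς (1 / 2 + t * I)) _
        (fun ς hς => (kl_gg hT hρ).sub0 kl_goo hς t) (fun ς hς => (kl_gg hT hρ).sub1 kl_goo hς t)]
    exact hpt _ _ _ hδ0 (fun ς hς => (hdG.norm0 hς t).trans (hle ς hς))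
      (fun ς hς => (hdG.norm1 hς t).trans (hle ς hς)) t
  refine (norm_integral_le_of_norm_le (kl_J.const_mul _)
    (Filter.Eventually.of_forall hpt2)).trans (le_of_eq ?_)
  rw [integral_const_mul]
  ring

end Pool.Agent.LK

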