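import Pool.Agent.Lib_helper31.LK.DefsP

/-! LSP3, part K, block KD1: the Mellin transforms of the Cauchy kernel, negative side. -/

namespace Pool.Agent.LK

open Complex MeasureTheory Set Filter Topology
open Pool.Agent.LSP (tau GG tp KerL)

/-- `log (1 + 1/v)` -/
noncomputable def kd1_l (v : ℝ) : ℝ := Real.log (1 + 1 / v)

theorem kd1_l_pos {v : ℝ} (hv : 0 < v) : 0 < kd1_l v :=
  Real.log_pos (by have := one_div_pos.2 hv; linarith)

theorem kd1_l_top {v : ℝ} (hv : 0 < v) : kd1_l v ≤ 1 / v := by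
  have h1 := one_div_pos.2 hv
  have := Real.log_le_sub_one_of_pos (x := 1 + 1 / v) (by linarith)
  unfold kd1_l
  linarith

theorem kd1_l_bot {v a : ℝ} (hv : 0 < v) (hv1 : v ≤ 1) (ha : 0 < a) :
    kd1_l v ≤ 2 ^ a / a * v ^ (-a) := by
  have h1 := one_div_pos.2 hv
  have h2 : 1 ≤ 1 / v := (one_le_div hv).2 hv1
  have h3 := Real.log_le_rpow_div (x := 1 + 1 / v) (by linarith) ha
  have h4 : (1 + 1 / v) ^ a ≤ (2 * v⁻¹) ^ a := by
    refine Real.rpow_le_rpow (by linarith) ?_ ha.le
    rw [one_div] at h2 ⊢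
    linarith
  rw [Real.mul_rpow zero_le_two (inv_pos.2 hv).le, Real.inv_rpow hv.le, ← Real.rpow_neg hv.le] at h4
  unfold kd1_l
  calc Real.log (1 + 1 / v) ≤ (1 + 1 / v) ^ a / a := h3
    _ ≤ 2 ^ a * v ^ (-a) / a := div_le_div_of_nonneg_right h4 ha.le
    _ = _ := by ring

theorem kd1_l_der {v : ℝ} (hv : 0 < v) : HasDerivAt kd1_l (-(1 / (v * (1 + v)))) v := by
  have h1 : HasDerivAt (fun x : ℝ => 1 + 1 / x) (-(v ^ 2)⁻¹) v := by
    simpa [one_div] using (hasDerivAt_inv hv.ne').const_add 1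
  have h2 : (1 + 1 / v) ≠ 0 := by
    have := one_div_pos.2 hv
    linarith
  have h3 := h1.log h2
  refine h3.congr_deriv ?_
  have : (1 + v) ≠ 0 := by linarith
  field_simp
  ring

/-- the functions -/
noncomputable def kd1_f (k e : ℕ) (v : ℝ) : ℂ := ((kd1_l v ^ k / (1 + v) ^ e : ℝ) : ℂ)

theorem kd1_f_norm (k e : ℕ) {v : ℝ} (hv : 0 < v) : ‖kd1_f k e v‖ = kd1_l v ^ k / (1 + v) ^ e := by
  unfold kd1_f
  have := kd1_l_pos hv
  rw [Complex.norm_real, Real.norm_of_nonneg (by positivity)]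

theorem kd1_f_top (k e : ℕ) : kd1_f k e =O[atTop] fun v : ℝ => v ^ (-((k : ℝ) + e)) := by
  refine Asymptotics.IsBigO.of_bound 1 ?_
  filter_upwards [eventually_gt_atTop 0] with v hv
  have hl := kd1_l_pos hv
  rw [kd1_f_norm k e hv, one_mul, Real.norm_of_nonneg (Real.rpow_nonneg hv.le _),
    Real.rpow_neg hv.le, Real.rpow_add hv, Real.rpow_natCast, Real.rpow_natCast, mul_inv,
    div_eq_mul_inv]
  refine mul_le_mul ?_ ?_ (by positivity) (by positivity)
  · rw [← inv_pow]
    refine pow_le_pow_left₀ hl.le ?_ k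
    have := kd1_l_top hv
    rwa [one_div] at this
  · refine inv_anti₀ (by positivity) ?_
    exact pow_le_pow_left₀ hv.le (by linarith) e

theorem kd1_f_bot (k e : ℕ) {b : ℝ} (hb : 0 < b) : kd1_f k e =O[𝓝[>] 0] fun v : ℝ => v ^ (-b) := by
  set a : ℝ := b / (k + 1) with ha
  have ha0 : 0 < a := by positivity
  refine Asymptotics.IsBigO.of_bound ((2 ^ a / a) ^ k) ?_
  have h1 : Set.Ioc (0 : ℝ) 1 ∈ 𝓝[>] (0 : ℝ) := Ioc_mem_nhdsGT one_pos
  filter_upwards [h1] with v hv
  have hv0 : 0 < v := hv.1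
  have hl := kd1_l_pos hv0
  rw [kd1_f_norm k e hv0, Real.norm_of_nonneg (Real.rpow_nonneg hv0.le _)]
  have h2 : kd1_l v ^ k ≤ (2 ^ a / a * v ^ (-a)) ^ k :=
    pow_le_pow_left₀ hl.le (kd1_l_bot hv0 hv.2 ha0) k
  rw [mul_pow, ← Real.rpow_mul_natCast hv0.le] at h2
  have h3 : v ^ (-a * k) ≤ v ^ (-b) := by
    refine Real.rpow_le_rpow_of_exponent_ge hv0 hv.2 ?_
    have : a * k ≤ b := by
      rw [ha, div_mul_eq_mul_div, div_le_iff₀ (by positivity)]
      nlinarith
    linarith
  have h4 : 1 ≤ (1 + v) ^ e := one_le_pow₀ (by linarith)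
  calc kd1_l v ^ k / (1 + v) ^ e ≤ kd1_l v ^ k := div_le_self (by positivity) h4
    _ ≤ (2 ^ a / a) ^ k * v ^ (-a * k) := h2
    _ ≤ (2 ^ a / a) ^ k * v ^ (-b) := mul_le_mul_of_nonneg_left h3 (by positivity)

theorem kd1_f_li (k e : ℕ) : LocallyIntegrableOn (kd1_f k e) (Ioi 0) := by
  refine ContinuousOn.locallyIntegrableOn ?_ measurableSet_Ioi
  refine Complex.continuous_ofReal.comp_continuousOn ?_
  refine ContinuousOn.div ?_ (by fun_prop) ?_
  · refine ContinuousOn.pow ?_ k
    intro v hv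
    exact (kd1_l_der hv).continuousAt.continuousWithinAt
  · intro v hv
    have : (0 : ℝ) < v := hv
    positivity

theorem kd1_conv (k e : ℕ) {s : ℂ} (h0 : 0 < s.re) (h1 : s.re < k + e) :
    MellinConvergent (kd1_f k e) s :=
  mellinConvergent_of_isBigO_rpow (b := s.re / 2) (kd1_f_li k e) (kd1_f_top k e) h1
    (kd1_f_bot k e (by linarith)) (by linarith)

/-- integration by parts -/
theorem kd1_parts (j : ℕ) {s : ℂ} (h0 : 0 < s.re) (h1 : s.re < 1) :
    mellin (kd1_f (j + 1) 0) s = ((j : ℂ) + 1) / s * mellin (kd1_f j 1) s := by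
  have hs : s ≠ 0 := by
    rintro rfl
    simp at h0
  have hj : (0 : ℝ) ≤ j := Nat.cast_nonneg j
  have c1 := kd1_conv (j + 1) 0 h0 (by push_cast; linarith)
  have c2 := kd1_conv j 1 h0 (by push_cast; linarith)
  set u : ℝ → ℂ := kd1_f (j + 1) 0 with hu
  set u' : ℝ → ℂ := fun x => (((((j + 1 : ℕ) : ℝ) * kd1_l x ^ j * -(1 / (x * (1 + x)))) : ℝ) : ℂ)
    with hu'
  set w : ℝ → ℂ := fun x => (x : ℂ) ^ s / s with hw
  set w' : ℝ → ℂ := fun x => (x : ℂ) ^ (s - 1) with hw'
  have d1 : ∀ x ∈ Ioi (0 : ℝ), HasDerivAt u (u' x) x := by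
    intro x hx
    have h2 := ((kd1_l_der hx).pow (j + 1)).ofReal_comp
    have e : u = fun y => (((kd1_l ^ (j + 1)) y : ℝ) : ℂ) := by
      funext y
      simp [hu, kd1_f]
    rw [e]
    simpa [hu'] using h2
  have d2 : ∀ x ∈ Ioi (0 : ℝ), HasDerivAt w (w' x) x := by
    intro x hx
    have hx' : (0 : ℝ) < x := hx
    have h2 := hasDerivAt_ofReal_cpow_const' (x := x) hx'.ne' (r := s - 1) (by
      intro h
      apply hs
      linear_combination h)
    simpa [hw, hw'] using h2
  have e1 : ∀ x ∈ Ioi (0 : ℝ), u' x * w x =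
      -(((j : ℂ) + 1) / s) * ((x : ℂ) ^ (s - 1) • kd1_f j 1 x) := by
    intro x hx
    have hx' : (0 : ℝ) < x := hx
    have hxc : (x : ℂ) ≠ 0 := by exact_mod_cast hx'.ne'
    have hx1 : (1 + (x : ℂ)) ≠ 0 := by
      have : (1 + x) ≠ 0 := by linarith
      exact_mod_cast this
    have h3 : (x : ℂ) ^ s = (x : ℂ) ^ (s - 1) * x := by
      have h4 := Complex.cpow_add (s - 1) 1 hxc
      rw [sub_add_cancel, Complex.cpow_one] at h4
      exact h4
    simp only [hu', hw, kd1_f, smul_eq_mul]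
    rw [h3]
    push_cast
    field_simp
  have i1 : IntegrableOn (u * w') (Ioi 0) := by
    refine IntegrableOn.congr_fun c1 (fun x _ => ?_) measurableSet_Ioi
    simp only [Pi.mul_apply, smul_eq_mul, hw', hu]
    ring
  have i2 : IntegrableOn (u' * w) (Ioi 0) := by
    refine IntegrableOn.congr_fun (Integrable.const_mul c2 (-(((j : ℂ) + 1) / s)))
      (fun x hx => ?_) measurableSet_Ioi
    simp only [Pi.mul_apply]
    exact (e1 x hx).symm
  have t0 : Tendsto (u * w) (𝓝[>] 0) (𝓝 0) := by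
    have o1 := kd1_f_bot (j + 1) 0 (b := s.re / 2) (by linarith)
    have o2 : w =O[𝓝[>] 0] fun v : ℝ => v ^ s.re := by
      refine Asymptotics.IsBigO.of_bound ‖s‖⁻¹ ?_
      filter_upwards [self_mem_nhdsWithin] with v hv
      have hv' : (0 : ℝ) < v := hv
      simp only [hw]
      rw [norm_div, Complex.norm_cpow_eq_rpow_re_of_pos hv', Real.norm_of_nonneg
        (Real.rpow_nonneg hv'.le _)]
      exact le_of_eq (by ring)
    have o3 : (fun v : ℝ => v ^ (-(s.re / 2)) * v ^ s.re) =ᶠ[𝓝[>] 0] fun v => v ^ (s.re / 2) := by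
      filter_upwards [self_mem_nhdsWithin] with v hv
      have hv' : (0 : ℝ) < v := hv
      rw [← Real.rpow_add hv']
      congr 1
      ring
    have o4 : Tendsto (fun v : ℝ => v ^ (s.re / 2)) (𝓝[>] 0) (𝓝 0) := by
      have h5 : ContinuousAt (fun v : ℝ => v ^ (s.re / 2)) 0 :=
        Real.continuousAt_rpow_const _ _ (Or.inr (by linarith))
      have h6 := h5.tendsto
      rw [Real.zero_rpow (by linarith)] at h6
      exact h6.mono_left nhdsWithin_le_nhds
    have o5 := (o1.mul o2).congr' (Eventually.of_forall fun _ => rfl) o3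
    exact o5.trans_tendsto o4
  have t1 : Tendsto (u * w) atTop (𝓝 0) := by
    have o1 := kd1_f_top (j + 1) 0
    have o2 : w =O[atTop] fun v : ℝ => v ^ s.re := by
      refine Asymptotics.IsBigO.of_bound ‖s‖⁻¹ ?_
      filter_upwards [eventually_gt_atTop 0] with v hv'
      simp only [hw]
      rw [norm_div, Complex.norm_cpow_eq_rpow_re_of_pos hv', Real.norm_of_nonneg
        (Real.rpow_nonneg hv'.le _)]
      exact le_of_eq (by ring)
    have o3 : (fun v : ℝ => v ^ (-(((j + 1 : ℕ) : ℝ) + ((0 : ℕ) : ℝ))) * v ^ s.re) =ᶠ[atTop]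
        fun v => v ^ (-((j : ℝ) + 1 - s.re)) := by
      filter_upwards [eventually_gt_atTop 0] with v hv'
      rw [← Real.rpow_add hv']
      congr 1
      push_cast
      ring
    have o5 := (o1.mul o2).congr' (Eventually.of_forall fun _ => rfl) o3
    exact o5.trans_tendsto (tendsto_rpow_neg_atTop (by linarith))
  have key := integral_Ioi_mul_deriv_eq_deriv_mul d1 d2 i1 i2 t0 t1
  unfold mellin
  have e2 : ∫ t in Ioi (0 : ℝ), (t : ℂ) ^ (s - 1) • u t = ∫ x in Ioi (0 : ℝ), u x * w' x := by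
    refine setIntegral_congr_fun measurableSet_Ioi fun x _ => ?_
    simp only [smul_eq_mul, hw']
    ring
  rw [e2, key, setIntegral_congr_fun measurableSet_Ioi e1, integral_const_mul]
  ring

/-- the substitution `x = v/(1+v)` -/
theorem kd1_sub (j : ℕ) (s : ℂ) :
    mellin (kd1_f j 1) s = ∫ x in Ioo (0 : ℝ) 1, (x : ℂ) ^ (s - 1) *
      (((1 - x : ℝ) : ℂ) ^ (-s) * (((-Real.log x) ^ j : ℝ) : ℂ)) := by
  have him : (fun v : ℝ => v / (1 + v)) '' Ioi 0 = Ioo 0 1 := by
    ext x
    constructor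
    · rintro ⟨v, hv, rfl⟩
      have hv' : (0 : ℝ) < v := hv
      refine ⟨by positivity, ?_⟩
      rw [div_lt_one (by positivity)]
      linarith
    · rintro ⟨hx0, hx1⟩
      have : 0 < 1 - x := by linarith
      refine ⟨x / (1 - x), by rw [mem_Ioi]; positivity, ?_⟩
      field_simp
      ring
  have hd : ∀ v ∈ Ioi (0 : ℝ), HasDerivWithinAt (fun v : ℝ => v / (1 + v)) (1 / (1 + v) ^ 2)
      (Ioi 0) v := by
    intro v hv
    have hv' : (0 : ℝ) < v := hv
    have h1 : (1 + v) ≠ 0 := by linarith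
    have h2 := ((hasDerivAt_id v).div ((hasDerivAt_id v).const_add 1) h1)
    refine (h2.congr_deriv ?_).hasDerivWithinAt
    simp only [id]
    ring
  have hinj : InjOn (fun v : ℝ => v / (1 + v)) (Ioi 0) := by
    intro a ha b hb hab
    have ha' : (0 : ℝ) < a := ha
    have hb' : (0 : ℝ) < b := hb
    simp only at hab
    rw [div_eq_div_iff (by linarith) (by linarith)] at hab
    linarith
  rw [← him, integral_image_eq_integral_abs_deriv_smul measurableSet_Ioi hd hinj]
  unfold mellin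
  refine setIntegral_congr_fun measurableSet_Ioi fun v hv => ?_
  have hv' : (0 : ℝ) < v := hv
  have h1 : 0 < 1 + v := by linarith
  have e1 : 1 - v / (1 + v) = (1 + v)⁻¹ := by
    field_simp
    ring
  have e2 : -Real.log (v / (1 + v)) = kd1_l v := by
    unfold kd1_l
    rw [← Real.log_inv, inv_div, add_div, div_self hv'.ne', add_comm]
  have hc : ∀ {x : ℝ}, 0 < x → ∀ z : ℂ, (x : ℂ) ^ z = cexp ((Real.log x : ℂ) * z) := by
    intro x hx z
    rw [Complex.cpow_def_of_ne_zero (by exact_mod_cast hx.ne'), Complex.ofReal_log hx.le]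
  show (v : ℂ) ^ (s - 1) • kd1_f j 1 v = |1 / (1 + v) ^ 2| • (((v / (1 + v) : ℝ) : ℂ) ^ (s - 1) *
      (((1 - v / (1 + v) : ℝ) : ℂ) ^ (-s) * (((-Real.log (v / (1 + v))) ^ j : ℝ) : ℂ)))
  rw [e1, e2, abs_of_pos (by positivity), hc (div_pos hv' h1), hc (inv_pos.2 h1), hc hv',
    Real.log_div hv'.ne' h1.ne', Real.log_inv]
  have e3 : ((1 / (1 + v) ^ 2 : ℝ) : ℂ) = cexp (-(2 * Real.log (1 + v) : ℝ)) := by
    rw [← Complex.ofReal_neg, ← Complex.ofReal_exp, Real.exp_neg, two_mul, Real.exp_add,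
      Real.exp_log h1, ← sq, one_div]
  have e4 : ((1 / (1 + v) : ℝ) : ℂ) = cexp (-(Real.log (1 + v) : ℝ)) := by
    rw [← Complex.ofReal_neg, ← Complex.ofReal_exp, Real.exp_neg, Real.exp_log h1, one_div]
  have e5 : kd1_f j 1 v = ((kd1_l v ^ j : ℝ) : ℂ) * cexp (-(Real.log (1 + v) : ℝ)) := by
    rw [← e4]
    unfold kd1_f
    push_cast
    ring
  rw [e5, Complex.real_smul, e3, smul_eq_mul, ← mul_assoc (cexp _) (cexp _), ← Complex.exp_add,
    ← mul_assoc (cexp _) (cexp _), ← Complex.exp_add, mul_comm (((kd1_l v ^ j : ℝ)) : ℂ),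
    ← mul_assoc (cexp _) (cexp _), ← Complex.exp_add]
  congr 2
  push_cast
  ring

/-- the function whose Mellin transform is the Beta function -/
noncomputable def kd1_g (s : ℂ) (x : ℝ) : ℂ :=
  (Iio (1 : ℝ)).indicator (fun x : ℝ => ((1 - x : ℝ) : ℂ) ^ (-s)) x

theorem kd1_g_int {h : ℝ → ℂ} (s : ℂ) : ∫ x in Ioi (0 : ℝ), h x * kd1_g s x =
    ∫ x in Ioo (0 : ℝ) 1, h x * ((1 - x : ℝ) : ℂ) ^ (-s) := by
  have e : ∀ x, h x * kd1_g s x =
      (Iio (1 : ℝ)).indicator (fun x : ℝ => h x * ((1 - x : ℝ) : ℂ) ^ (-s)) x := by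
    intro x
    unfold kd1_g
    by_cases hx : x ∈ Iio (1 : ℝ)
    · rw [indicator_of_mem hx, indicator_of_mem hx]
    · rw [indicator_of_notMem hx, indicator_of_notMem hx, mul_zero]
  simp only [e]
  rw [setIntegral_indicator measurableSet_Iio, Ioi_inter_Iio]

theorem kd1_beta (s : ℂ) (u : ℂ) : mellin (kd1_g s) u = Complex.betaIntegral u (1 - s) := by
  unfold mellin Complex.betaIntegral
  simp only [smul_eq_mul]
  rw [kd1_g_int, intervalIntegral.integral_of_le zero_le_one, integral_Ioc_eq_integral_Ioo]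
  refine setIntegral_congr_fun measurableSet_Ioo fun x _ => ?_
  push_cast
  congr 2
  ring

theorem kd1_g_li {s : ℂ} (h1 : s.re < 1) : LocallyIntegrableOn (kd1_g s) (Ioi 0) := by
  have h2 := Complex.betaIntegral_convergent (u := 1) (v := 1 - s) (by simp) (by simpa using h1)
  rw [intervalIntegrable_iff_integrableOn_Ioo_of_le zero_le_one] at h2
  have h3 : IntegrableOn (fun x : ℝ => ((1 - x : ℝ) : ℂ) ^ (-s)) (Ioi 0 ∩ Iio 1) := by
    rw [Ioi_inter_Iio]
    refine h2.congr_fun (fun x _ => ?_) measurableSet_Ioo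
    simp only [sub_self, Complex.cpow_zero, one_mul]
    push_cast
    congr 1
    ring
  have h4 : IntegrableOn (kd1_g s) (Ioi 0) := by
    unfold kd1_g
    have := (integrable_indicator_iff (μ := volume.restrict (Ioi (0 : ℝ)))
      (f := fun x : ℝ => ((1 - x : ℝ) : ℂ) ^ (-s)) measurableSet_Iio).2 (by
        rw [IntegrableOn, Measure.restrict_restrict measurableSet_Iio, inter_comm]
        exact h3)
    exact this
  exact h4.locallyIntegrableOn

theorem kd1_g_der {s : ℂ} (h0 : 0 < s.re) (h1 : s.re < 1) :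
    HasDerivAt (mellin (kd1_g s)) (mellin (fun t : ℝ => Real.log t • kd1_g s t) s) s := by
  refine (mellin_hasDerivAt_of_isBigO_rpow (a := 1) (b := 0) (kd1_g_li h1) ?_ h1 ?_ h0).2
  · refine Asymptotics.IsBigO.of_bound 1 ?_
    filter_upwards [eventually_ge_atTop 1] with x hx
    unfold kd1_g
    rw [indicator_of_notMem (by simpa using hx), norm_zero]
    positivity
  · refine Asymptotics.IsBigO.of_bound 2 ?_
    have h2 : Set.Ioo (0 : ℝ) (1 / 2) ∈ 𝓝[>] (0 : ℝ) := Ioo_mem_nhdsGT (by norm_num)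
    filter_upwards [h2] with x hx
    have h3 : x < 1 := by linarith [hx.2]
    unfold kd1_g
    rw [indicator_of_mem (by exact h3), Complex.norm_cpow_eq_rpow_re_of_pos (by linarith),
      neg_zero, Real.rpow_zero, norm_one, mul_one, Complex.neg_re]
    have h4 : (1 / 2 : ℝ) ≤ 1 - x := by linarith [hx.2]
    calc (1 - x) ^ (-s.re) ≤ (1 / 2 : ℝ) ^ (-s.re) :=
          Real.rpow_le_rpow_of_nonpos (by norm_num) h4 (by linarith)
      _ ≤ (1 / 2 : ℝ) ^ (-1 : ℝ) :=
          Real.rpow_le_rpow_of_exponent_ge (by norm_num) (by norm_num) (by linarith)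
      _ = 2 := by
          rw [Real.rpow_neg_one]
          norm_num

theorem kd1_J0 {s : ℂ} (h0 : 0 < s.re) (h1 : s.re < 1) :
    mellin (kd1_f 0 1) s = Real.pi / Complex.sin (Real.pi * s) := by
  have h2 : 0 < (1 - s).re := by simpa using h1
  have h3 := Complex.Gamma_mul_Gamma_eq_betaIntegral h0 h2
  rw [add_sub_cancel, Complex.Gamma_one, one_mul, Complex.Gamma_mul_Gamma_one_sub] at h3
  rw [h3, ← kd1_beta, kd1_sub]
  unfold mellin
  simp only [smul_eq_mul]
  rw [kd1_g_int]
  refine setIntegral_congr_fun measurableSet_Ioo fun x _ => ?_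
  simp

theorem kd1_J1 {s : ℂ} (h0 : 0 < s.re) (h1 : s.re < 1) :
    mellin (kd1_f 1 1) s = -(Real.pi / Complex.sin (Real.pi * s) *
      (Real.eulerMascheroniConstant + digamma s)) := by
  have h2 : 0 < (1 - s).re := by simpa using h1
  have hs : ∀ m : ℕ, s ≠ -m := by
    intro m hm
    rw [hm] at h0
    simp only [neg_re, natCast_re] at h0
    have : (0 : ℝ) ≤ m := Nat.cast_nonneg m
    linarith
  have hG : Complex.Gamma s ≠ 0 := Complex.Gamma_ne_zero hs
  -- the derivative of the Beta function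
  have d1 : HasDerivAt (fun u : ℂ => Complex.Gamma u * Complex.Gamma (1 - s) /
      Complex.Gamma (u + (1 - s))) (Complex.Gamma s * Complex.Gamma (1 - s) *
        (Real.eulerMascheroniConstant + digamma s)) s := by
    have g1 := (Complex.differentiableAt_Gamma s hs).hasDerivAt
    have g2 : HasDerivAt (fun u : ℂ => Complex.Gamma (u + (1 - s)))
        (-(Real.eulerMascheroniConstant : ℂ)) s := by
      have h5 := Complex.hasDerivAt_Gamma_one
      have h6 : HasDerivAt (fun u : ℂ => u + (1 - s)) 1 s := (hasDerivAt_id s).add_const _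
      have h7 : HasDerivAt Complex.Gamma (-(Real.eulerMascheroniConstant : ℂ)) (s + (1 - s)) := by
        rw [add_sub_cancel]
        exact h5
      exact (h7.comp s h6).congr_deriv (by simp)
    have h8 : Complex.Gamma (s + (1 - s)) ≠ 0 := by
      rw [add_sub_cancel, Complex.Gamma_one]
      exact one_ne_zero
    have h9 := (g1.mul_const (Complex.Gamma (1 - s))).div g2 h8
    refine h9.congr_deriv ?_
    rw [add_sub_cancel, Complex.Gamma_one, Complex.digamma_def, logDeriv_apply]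
    field_simp
    ring
  have hev : mellin (kd1_g s) =ᶠ[𝓝 s] fun u : ℂ => Complex.Gamma u * Complex.Gamma (1 - s) /
      Complex.Gamma (u + (1 - s)) := by
    have ho : IsOpen {u : ℂ | 0 < u.re} := isOpen_lt continuous_const Complex.continuous_re
    filter_upwards [ho.mem_nhds h0] with u hu
    have hu0 : 0 < u.re := hu
    have h3 := Complex.Gamma_mul_Gamma_eq_betaIntegral hu0 h2
    have h4 : Complex.Gamma (u + (1 - s)) ≠ 0 := by
      apply Complex.Gamma_ne_zero_of_re_pos
      rw [Complex.add_re]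
      linarith
    rw [kd1_beta, h3]
    field_simp
  have d2 := (kd1_g_der h0 h1).unique (d1.congr_of_eventuallyEq hev)
  rw [Complex.Gamma_mul_Gamma_one_sub] at d2
  rw [kd1_sub, ← d2]
  unfold mellin
  have e : ∀ t : ℝ, (t : ℂ) ^ (s - 1) • (Real.log t • kd1_g s t) =
      ((t : ℂ) ^ (s - 1) * (Real.log t : ℂ)) * kd1_g s t := by
    intro t
    rw [Complex.real_smul, smul_eq_mul]
    ring
  simp only [e]
  rw [kd1_g_int, ← integral_neg]
  refine setIntegral_congr_fun measurableSet_Ioo fun x _ => ?_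
  simp only [pow_one]
  push_cast
  ring

theorem kd1_goo {v : ℝ} (hv : 0 < v) : Goo (((-1 : ℤ) : ℝ) * v) = 1 / Real.pi * kd1_l v := by
  have h := one_div_pos.2 hv
  unfold Goo kd1_l
  have e : 1 - 1 / (((-1 : ℤ) : ℝ) * v) = 1 + 1 / v := by
    push_cast
    field_simp
    ring
  rw [e, abs_of_pos (by linarith)]

/-- block KD1: Mellin transforms of the Cauchy kernel -/
theorem goo_mellin_neg_pr {s : ℂ} (h0 : 0 < s.re) (h1 : s.re < 1) :
    M0 Goo (-1) s = 1 / (s * Complex.sin (Real.pi * s)) ∧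
    M1 Goo (-1) s = -2 * (Real.eulerMascheroniConstant + digamma s) /
      (s * Complex.sin (Real.pi * s)) := by
  have hπ : (Real.pi : ℂ) ≠ 0 := by exact_mod_cast Real.pi_ne_zero
  have hs : s ≠ 0 := by
    rintro rfl
    simp at h0
  have hsin : Complex.sin (Real.pi * s) ≠ 0 := by
    intro h
    rw [Complex.sin_eq_zero_iff] at h
    obtain ⟨k, hk⟩ := h
    have hk' : s = k := by
      have h5 : (Real.pi : ℂ) * s = Real.pi * k := by rw [hk]; ring
      exact mul_left_cancel₀ hπ h5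
    rw [hk'] at h0 h1
    simp only [intCast_re] at h0 h1
    have h6 : (0 : ℤ) < k := by exact_mod_cast h0
    have h7 : k < (1 : ℤ) := by exact_mod_cast h1
    omega
  constructor
  · have e1 : M0 Goo (-1) s = 1 / Real.pi * mellin (kd1_f (0 + 1) 0) s := by
      unfold M0 mellin
      rw [← integral_const_mul]
      refine setIntegral_congr_fun measurableSet_Ioi fun v hv => ?_
      rw [kd1_goo hv]
      unfold kd1_f
      push_cast
      simp only [smul_eq_mul]
      ring
    rw [e1, kd1_parts 0 h0 h1, kd1_J0 h0 h1]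
    field_simp
    simp
  · have e1 : M1 Goo (-1) s = 1 / Real.pi * mellin (kd1_f (1 + 1) 0) s := by
      unfold M1 mellin
      rw [← integral_const_mul]
      refine setIntegral_congr_fun measurableSet_Ioi fun v hv => ?_
      have hv' : (0 : ℝ) < v := hv
      have h := one_div_pos.2 hv'
      have e2 : Real.log |1 / v - ((-1 : ℤ) : ℝ)| = kd1_l v := by
        unfold kd1_l
        push_cast
        rw [sub_neg_eq_add, add_comm, abs_of_pos (by linarith)]
      rw [kd1_goo hv, e2]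
      unfold kd1_f
      push_cast
      simp only [smul_eq_mul]
      ring
    rw [e1, kd1_parts 1 h0 h1, kd1_J1 h0 h1]
    push_cast
    field_simp
    ring

end Pool.Agent.LK
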