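import Pool.Agent.Lib_helper31.LK.DefsP

/-! LSP3, part K, block KF: the squared functional equation. -/

namespace Pool.Agent.LK

open Complex MeasureTheory Set
open Pool.Agent.LSP (tau GG tp KerL)

variable {q : ℕ} [NeZero q]

theorem kf_inv {χ : DirichletCharacter ℂ q} (h : PQ χ) : χ⁻¹ = χ := by
  rw [inv_eq_iff_mul_eq_one, ← sq]; exact h.sq

theorem kf_q {χ : DirichletCharacter ℂ q} (h : PQ χ) : q ≠ 1 := by
  rintro rfl
  exact h.ne (Subsingleton.elim _ _)

theorem kf_m1 (χ : DirichletCharacter ℂ q) : χ (-1) * χ (-1) = 1 := by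
  rw [← map_mul]; simp

theorem kf_dft {χ : DirichletCharacter ℂ q} (h : PQ χ) : ZMod.dft (χ : ZMod q → ℂ) =
    fun k => (χ (-1) * gaussSum χ ZMod.stdAddChar) * χ k := by
  funext k
  rw [h.prim.fourierTransform_eq_inv_mul_gaussSum, kf_inv h, ← neg_one_mul k, map_mul]
  ring

theorem kf_gauss {χ : DirichletCharacter ℂ q} (h : PQ χ) :
    gaussSum χ ZMod.stdAddChar ^ 2 = q * χ (-1) := by
  have h1 := congrFun (ZMod.dft_dft (χ : ZMod q → ℂ)) 1
  rw [kf_dft h, ZMod.dft_const_mul, kf_dft h] at h1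
  simp only [map_one, mul_one, smul_eq_mul] at h1
  rw [← h1]
  linear_combination (-gaussSum χ ZMod.stdAddChar ^ 2) * kf_m1 χ

theorem kf_lc (a : ℂ) (Φ : ZMod q → ℂ) (s : ℂ) :
    ZMod.LFunction (fun k => a * Φ k) s = a * ZMod.LFunction Φ s := by
  unfold ZMod.LFunction
  simp only [mul_assoc]
  rw [← Finset.mul_sum]
  ring

/-- the functional equation -/
theorem kf_fe {χ : DirichletCharacter ℂ q} (h : PQ χ) {s : ℂ} (h0 : 0 < s.re) :
    DirichletCharacter.LFunction χ (1 - s) = (q : ℂ) ^ (s - 1) * (2 * Real.pi : ℂ) ^ (-s) *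
      Complex.Gamma s * (gaussSum χ ZMod.stdAddChar * DirichletCharacter.LFunction χ s *
        (χ (-1) * cexp (Real.pi * I * s / 2) + cexp (-Real.pi * I * s / 2))) := by
  have hs : ∀ n : ℕ, s ≠ -n := by
    intro n hn
    rw [hn] at h0
    simp only [neg_re, natCast_re] at h0
    have : (0 : ℝ) ≤ n := Nat.cast_nonneg n
    linarith
  have h2 := ZMod.LFunction_one_sub (χ : ZMod q → ℂ) hs (Or.inl (χ.map_zero' (kf_q h)))
  have h3 : (fun x : ZMod q => χ (-x)) = fun x => χ (-1) * χ x := by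
    funext x
    rw [← neg_one_mul x, map_mul]
  unfold DirichletCharacter.LFunction
  rw [h2, h3, ZMod.dft_const_mul, kf_dft h, kf_lc, kf_lc, kf_lc]
  linear_combination ((q : ℂ) ^ (s - 1) * (2 * Real.pi : ℂ) ^ (-s) * Complex.Gamma s *
    cexp (-Real.pi * I * s / 2) * gaussSum χ ZMod.stdAddChar * ZMod.LFunction (fun k => χ k) s) *
    kf_m1 χ

/-- block KF -/
theorem lfe_sq_pr {χ : DirichletCharacter ℂ q} (h : PQ χ) {s : ℂ} (h0 : 0 < s.re) :
    DirichletCharacter.LFunction χ (1 - s) ^ 2 = 2 * (1 + χ (-1) * Complex.cos (Real.pi * s)) *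
      (q : ℂ) ^ (2 * s - 1) * (2 * Real.pi : ℂ) ^ (-2 * s) * Complex.Gamma s ^ 2 *
      DirichletCharacter.LFunction χ s ^ 2 := by
  have hq : (q : ℂ) ≠ 0 := NeZero.ne _
  have hπ : (2 * Real.pi : ℂ) ≠ 0 := by
    have := Real.pi_ne_zero
    exact_mod_cast mul_ne_zero two_ne_zero this
  have e1 : (q : ℂ) ^ (2 * s - 1) = ((q : ℂ) ^ (s - 1)) ^ 2 * q := by
    rw [← Complex.cpow_nat_mul, show (2 : ℂ) * s - 1 = ((2 : ℕ) : ℂ) * (s - 1) + 1 by
      push_cast; ring, Complex.cpow_add _ _ hq, Complex.cpow_one]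
  have e2 : (2 * Real.pi : ℂ) ^ (-2 * s) = ((2 * Real.pi : ℂ) ^ (-s)) ^ 2 := by
    rw [← Complex.cpow_nat_mul]
    congr 1
    push_cast
    ring
  have e3 : cexp (Real.pi * I * s / 2) * cexp (-Real.pi * I * s / 2) = 1 := by
    rw [← Complex.exp_add, show (Real.pi : ℂ) * I * s / 2 + -Real.pi * I * s / 2 = 0 by ring,
      Complex.exp_zero]
  have e4 : Complex.cos (Real.pi * s) =
      (cexp (Real.pi * I * s / 2) ^ 2 + cexp (-Real.pi * I * s / 2) ^ 2) / 2 := by
    rw [Complex.cos, ← Complex.exp_nat_mul, ← Complex.exp_nat_mul]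
    congr 2
    · congr 1
      push_cast
      ring
    · congr 1
      push_cast
      ring
  have e5 := kf_gauss h
  have e6 := kf_m1 χ
  rw [kf_fe h h0, e1, e2, e4]
  generalize cexp (Real.pi * I * s / 2) = a at *
  generalize cexp (-Real.pi * I * s / 2) = b at *
  generalize χ (-1) = c at *
  generalize gaussSum χ ZMod.stdAddChar = g at *
  generalize DirichletCharacter.LFunction χ s = L
  generalize (q : ℂ) ^ (s - 1) = Q
  generalize (2 * Real.pi : ℂ) ^ (-s) = P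
  generalize Complex.Gamma s = Γ
  have e7 : (Q * P * Γ * (g * L * (c * a + b))) ^ 2 =
      Q ^ 2 * P ^ 2 * Γ ^ 2 * L ^ 2 * (g ^ 2 * (c * c * a ^ 2 + 2 * c * (a * b) + b ^ 2)) := by
    ring
  rw [e7, e5, e3, e6]
  linear_combination (2 * Q ^ 2 * P ^ 2 * Γ ^ 2 * L ^ 2 * q) * e6

end Pool.Agent.LK
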