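import Pool.Agent.Lib_helper31.LK.DefsP

/-! LSP3, part K, block KH: the finite identity -/

namespace Pool.Agent.LK

open Complex MeasureTheory Set
open Pool.Agent.LSP (tau GG tp KerL)

variable {q : ℕ} [NeZero q]

/-- `χ(n) n^a` -/
noncomputable def kh_pw (χ : DirichletCharacter ℂ q) (a : ℂ) : ArithmeticFunction ℂ :=
  ⟨fun n => if n = 0 then 0 else χ n * (n : ℂ) ^ a, by simp⟩

/-- `μ(n) χ(n) n^a` -/
noncomputable def kh_pm (χ : DirichletCharacter ℂ q) (a : ℂ) : ArithmeticFunction ℂ :=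
  ⟨fun n => if n = 0 then 0 else (ArithmeticFunction.moebius n : ℂ) * χ n * (n : ℂ) ^ a, by simp⟩

/-- `τ(n) n^a` -/
noncomputable def kh_tw (a : ℂ) : ArithmeticFunction ℂ :=
  ⟨fun n => if n = 0 then 0 else (tau n : ℂ) * (n : ℂ) ^ a, by simp⟩

theorem kh_pw_apply (χ : DirichletCharacter ℂ q) (a : ℂ) {n : ℕ} (hn : n ≠ 0) :
    kh_pw χ a n = χ n * (n : ℂ) ^ a := if_neg hn

theorem kh_pm_apply (χ : DirichletCharacter ℂ q) (a : ℂ) {n : ℕ} (hn : n ≠ 0) :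
    kh_pm χ a n = (ArithmeticFunction.moebius n : ℂ) * χ n * (n : ℂ) ^ a := if_neg hn

theorem kh_tw_apply (a : ℂ) {n : ℕ} (hn : n ≠ 0) :
    kh_tw a n = (tau n : ℂ) * (n : ℂ) ^ a := if_neg hn

theorem kh_cpow_mul (m n : ℕ) (a : ℂ) : (((m * n : ℕ) : ℂ)) ^ a = (m : ℂ) ^ a * (n : ℂ) ^ a := by
  rw [Nat.cast_mul]
  exact Complex.natCast_mul_natCast_cpow m n a

theorem kh_chi_mul (χ : DirichletCharacter ℂ q) (m n : ℕ) :
    χ ((m * n : ℕ) : ZMod q) = χ (m : ZMod q) * χ (n : ZMod q) := by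
  rw [Nat.cast_mul, map_mul]

/-- the two functions are inverse to each other -/
theorem kh_inv (χ : DirichletCharacter ℂ q) (a : ℂ) : kh_pw χ a * kh_pm χ a = 1 := by
  ext n
  rcases eq_or_ne n 0 with rfl | hn
  · simp
  rw [ArithmeticFunction.mul_apply]
  have h1 : ∑ x ∈ n.divisorsAntidiagonal, kh_pw χ a x.1 * kh_pm χ a x.2 =
      χ n * (n : ℂ) ^ a * ∑ x ∈ n.divisorsAntidiagonal, (ArithmeticFunction.moebius x.2 : ℂ) := by
    rw [Finset.mul_sum]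
    refine Finset.sum_congr rfl fun x hx => ?_
    obtain ⟨hx1, -⟩ := Nat.mem_divisorsAntidiagonal.mp hx
    have h2 : x.1 ≠ 0 := by
      rintro h
      rw [h, zero_mul] at hx1
      exact hn hx1.symm
    have h3 : x.2 ≠ 0 := by
      rintro h
      rw [h, mul_zero] at hx1
      exact hn hx1.symm
    rw [kh_pw_apply χ a h2, kh_pm_apply χ a h3, ← hx1, kh_chi_mul, kh_cpow_mul]
    ring
  have h4 : ∑ x ∈ n.divisorsAntidiagonal, (ArithmeticFunction.moebius x.2 : ℂ) =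
      ((1 : ArithmeticFunction ℤ) n : ℂ) := by
    rw [← ArithmeticFunction.coe_zeta_mul_moebius, ArithmeticFunction.mul_apply]
    push_cast
    refine Finset.sum_congr rfl fun x hx => ?_
    obtain ⟨hx1, -⟩ := Nat.mem_divisorsAntidiagonal.mp hx
    have h2 : x.1 ≠ 0 := by
      rintro h
      rw [h, zero_mul] at hx1
      exact hn hx1.symm
    simp [ArithmeticFunction.natCoe_apply, ArithmeticFunction.zeta_apply, h2]
  rw [h1, h4]
  rcases eq_or_ne n 1 with rfl | hn1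
  · simp
  · simp [hn1]

/-- the factor of `k` -/
theorem kh_v (χ : DirichletCharacter ℂ q) (s r : ℂ) {k : ℕ} (hk : k ≠ 0) :
    (k : ℂ) ^ (-1 - r) * Pk χ k (s - r) = (kh_pm χ (-1 - s) * kh_tw (-1 - r)) k := by
  rw [ArithmeticFunction.mul_apply,
    Nat.sum_divisorsAntidiagonal (f := fun i j => kh_pm χ (-1 - s) i * kh_tw (-1 - r) j)]
  unfold Pk
  rw [Finset.mul_sum]
  refine Finset.sum_congr rfl fun h hh => ?_
  obtain ⟨hd, -⟩ := Nat.mem_divisors.mp hh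
  obtain ⟨k', rfl⟩ := hd
  have h1 : h ≠ 0 := fun h0 => hk (by rw [h0, zero_mul])
  have h2 : k' ≠ 0 := fun h0 => hk (by rw [h0, mul_zero])
  have h3 : (h : ℂ) ≠ 0 := Nat.cast_ne_zero.mpr h1
  rw [Nat.mul_div_cancel_left k' (Nat.pos_of_ne_zero h1), kh_pm_apply χ _ h1, kh_tw_apply _ h2,
    kh_cpow_mul]
  have h4 : (h : ℂ) ^ (-1 - s) = (h : ℂ) ^ (-1 - r) * (h : ℂ) ^ (-(s - r)) := by
    rw [← Complex.cpow_add _ _ h3]
    congr 1
    ring
  rw [h4]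
  ring

/-- the factor of `m` -/
theorem kh_u (χ : DirichletCharacter ℂ q) (s r : ℂ) {m : ℕ} (hm : m ≠ 0) :
    χ m * (m : ℂ) ^ (-1 + s) * ∑ l ∈ m.divisors, (ArithmeticFunction.moebius l : ℂ) / l *
      (l : ℂ) ^ (-2 * r) = (kh_pm χ (-2 + s - 2 * r) * kh_pw χ (-1 + s)) m := by
  rw [ArithmeticFunction.mul_apply,
    Nat.sum_divisorsAntidiagonal (f := fun i j => kh_pm χ (-2 + s - 2 * r) i * kh_pw χ (-1 + s) j),
    Finset.mul_sum]
  refine Finset.sum_congr rfl fun l hl => ?_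
  obtain ⟨hd, -⟩ := Nat.mem_divisors.mp hl
  obtain ⟨k', rfl⟩ := hd
  have h1 : l ≠ 0 := fun h0 => hm (by rw [h0, zero_mul])
  have h2 : k' ≠ 0 := fun h0 => hm (by rw [h0, mul_zero])
  have h3 : (l : ℂ) ≠ 0 := Nat.cast_ne_zero.mpr h1
  rw [Nat.mul_div_cancel_left k' (Nat.pos_of_ne_zero h1), kh_pm_apply χ _ h1, kh_pw_apply χ _ h2,
    kh_cpow_mul, kh_chi_mul]
  have h4 : (l : ℂ) ^ (-2 + s - 2 * r) = (l : ℂ) ^ (-1 + s) * (l : ℂ)⁻¹ * (l : ℂ) ^ (-2 * r) := by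
    rw [← Complex.cpow_neg_one, ← Complex.cpow_add _ _ h3, ← Complex.cpow_add _ _ h3]
    congr 1
    ring
  rw [h4, div_eq_mul_inv]
  ring

/-- the powers of the quotient -/
theorem kh_quot {j k m : ℕ} (hj : j ≠ 0) (hk : k ≠ 0) (hm : m ≠ 0) (s : ℂ) :
    (((j * k : ℝ) / ((k * m : ℕ) : ℝ) : ℝ) : ℂ) ^ (-s) = (j : ℂ) ^ (-s) * (m : ℂ) ^ s := by
  have h1 : ((j * k : ℝ) / ((k * m : ℕ) : ℝ) : ℝ) = (j : ℝ) * (m : ℝ)⁻¹ := by
    have h2 : (k : ℝ) ≠ 0 := Nat.cast_ne_zero.mpr hk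
    have h3 : (m : ℝ) ≠ 0 := Nat.cast_ne_zero.mpr hm
    push_cast
    field_simp
  rw [h1, Complex.ofReal_mul, Complex.mul_cpow_ofReal_nonneg (Nat.cast_nonneg j)
    (inv_nonneg.mpr (Nat.cast_nonneg m)), Complex.ofReal_natCast, Complex.ofReal_inv,
    Complex.ofReal_natCast]
  congr 1
  rw [Complex.inv_cpow _ _ (by rw [Complex.natCast_arg]; exact Real.pi_pos.ne), Complex.cpow_neg,
    inv_inv]

/-- block KH: the finite identity -/
theorem fin_id_pr (χ : DirichletCharacter ℂ q) {e : ℕ} (he : 1 ≤ e) (s r : ℂ) :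
    1 / (e : ℂ) * ∑ p ∈ e.divisorsAntidiagonal, χ p.1 *
      ∑ k ∈ p.2.divisors, χ ((p.2 / k : ℕ)) * (((p.1 * k : ℝ) / p.2 : ℝ) : ℂ) ^ (-s) *
        ∑ l ∈ (p.2 / k).divisors, (ArithmeticFunction.moebius l : ℂ) / l *
          ((k : ℂ) ^ (-r) * (l : ℂ) ^ (-2 * r) * Pk χ k (s - r)) = Qe χ e (-s) r := by
  have he0 : e ≠ 0 := by omega
  have hL : 1 / (e : ℂ) * ∑ p ∈ e.divisorsAntidiagonal, χ p.1 *
      ∑ k ∈ p.2.divisors, χ ((p.2 / k : ℕ)) * (((p.1 * k : ℝ) / p.2 : ℝ) : ℂ) ^ (-s) *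
        ∑ l ∈ (p.2 / k).divisors, (ArithmeticFunction.moebius l : ℂ) / l *
          ((k : ℂ) ^ (-r) * (l : ℂ) ^ (-2 * r) * Pk χ k (s - r)) =
      (kh_pw χ (-1 - s) * ((kh_pm χ (-1 - s) * kh_tw (-1 - r)) *
        (kh_pm χ (-2 + s - 2 * r) * kh_pw χ (-1 + s)))) e := by
    rw [ArithmeticFunction.mul_apply, Finset.mul_sum]
    refine Finset.sum_congr rfl fun p hp => ?_
    obtain ⟨hp1, -⟩ := Nat.mem_divisorsAntidiagonal.mp hp
    have h1 : p.1 ≠ 0 := by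
      rintro h
      rw [h, zero_mul] at hp1
      exact he0 hp1.symm
    have h2 : p.2 ≠ 0 := by
      rintro h
      rw [h, mul_zero] at hp1
      exact he0 hp1.symm
    rw [ArithmeticFunction.mul_apply (n := p.2), Nat.sum_divisorsAntidiagonal
      (f := fun i j => (kh_pm χ (-1 - s) * kh_tw (-1 - r)) i *
        (kh_pm χ (-2 + s - 2 * r) * kh_pw χ (-1 + s)) j), Finset.mul_sum, Finset.mul_sum,
      Finset.mul_sum]
    refine Finset.sum_congr rfl fun k hk => ?_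
    obtain ⟨hd, -⟩ := Nat.mem_divisors.mp hk
    obtain ⟨m, hm⟩ := hd
    have h3 : k ≠ 0 := by
      rintro rfl
      rw [zero_mul] at hm
      exact h2 hm
    have h4 : m ≠ 0 := by
      rintro rfl
      rw [mul_zero] at hm
      exact h2 hm
    have h5 : p.2 / k = m := by
      rw [hm]
      exact Nat.mul_div_cancel_left m (Nat.pos_of_ne_zero h3)
    rw [h5, ← kh_v χ s r h3, ← kh_u χ s r h4, kh_pw_apply χ _ h1]
    have h6 : (((p.1 * k : ℝ) / p.2 : ℝ) : ℂ) ^ (-s) = (p.1 : ℂ) ^ (-s) * (m : ℂ) ^ s := by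
      rw [hm]
      exact kh_quot h1 h3 h4 s
    have h7 : ∑ l ∈ m.divisors, (ArithmeticFunction.moebius l : ℂ) / l *
          ((k : ℂ) ^ (-r) * (l : ℂ) ^ (-2 * r) * Pk χ k (s - r)) =
        (k : ℂ) ^ (-r) * Pk χ k (s - r) * ∑ l ∈ m.divisors, (ArithmeticFunction.moebius l : ℂ) / l *
          (l : ℂ) ^ (-2 * r) := by
      rw [Finset.mul_sum]
      refine Finset.sum_congr rfl fun l _ => ?_
      ring
    rw [h6, h7]
    have c1 : (p.1 : ℂ) ≠ 0 := Nat.cast_ne_zero.mpr h1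
    have c3 : (k : ℂ) ≠ 0 := Nat.cast_ne_zero.mpr h3
    have c4 : (m : ℂ) ≠ 0 := Nat.cast_ne_zero.mpr h4
    have e1 : (p.1 : ℂ) ^ (-1 - s) = (p.1 : ℂ)⁻¹ * (p.1 : ℂ) ^ (-s) := by
      rw [← Complex.cpow_neg_one, ← Complex.cpow_add _ _ c1]
      congr 1
    have e3 : (k : ℂ) ^ (-1 - r) = (k : ℂ)⁻¹ * (k : ℂ) ^ (-r) := by
      rw [← Complex.cpow_neg_one, ← Complex.cpow_add _ _ c3]
      congr 1
    have e4 : (m : ℂ) ^ (-1 + s) = (m : ℂ)⁻¹ * (m : ℂ) ^ s := by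
      rw [← Complex.cpow_neg_one, ← Complex.cpow_add _ _ c4]
    have e5 : 1 / (e : ℂ) = (p.1 : ℂ)⁻¹ * ((k : ℂ)⁻¹ * (m : ℂ)⁻¹) := by
      rw [← hp1, hm]
      push_cast
      rw [one_div, mul_inv, mul_inv]
    rw [e1, e3, e4, e5]
    ring
  have hR : Qe χ e (-s) r =
      (kh_pw χ (-1 + s) * (kh_pm χ (-2 + s - 2 * r) * kh_tw (-1 - r))) e := by
    rw [ArithmeticFunction.mul_apply]
    unfold Qe
    refine Finset.sum_congr rfl fun p hp => ?_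
    obtain ⟨hp1, -⟩ := Nat.mem_divisorsAntidiagonal.mp hp
    have h1 : p.1 ≠ 0 := by
      rintro h
      rw [h, zero_mul] at hp1
      exact he0 hp1.symm
    have h2 : p.2 ≠ 0 := by
      rintro h
      rw [h, mul_zero] at hp1
      exact he0 hp1.symm
    rw [ArithmeticFunction.mul_apply (n := p.2), Nat.sum_divisorsAntidiagonal
      (f := fun i j => kh_pm χ (-2 + s - 2 * r) i * kh_tw (-1 - r) j), Finset.mul_sum,
      Finset.mul_sum]
    refine Finset.sum_congr rfl fun h hh => ?_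
    obtain ⟨hd, -⟩ := Nat.mem_divisors.mp hh
    obtain ⟨m, hm⟩ := hd
    have h3 : h ≠ 0 := by
      rintro rfl
      rw [zero_mul] at hm
      exact h2 hm
    have h4 : m ≠ 0 := by
      rintro rfl
      rw [mul_zero] at hm
      exact h2 hm
    have h5 : p.2 / h = m := by
      rw [hm]
      exact Nat.mul_div_cancel_left m (Nat.pos_of_ne_zero h3)
    rw [h5, kh_pw_apply χ _ h1, kh_pm_apply χ _ h3, kh_tw_apply _ h4]
    have c3 : (h : ℂ) ≠ 0 := Nat.cast_ne_zero.mpr h3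
    have e1 : (p.2 : ℂ) ^ (-1 - r) = (h : ℂ) ^ (-1 - r) * (m : ℂ) ^ (-1 - r) := by
      rw [hm]
      exact kh_cpow_mul h m _
    have e2 : (h : ℂ) ^ (-2 + s - 2 * r) = (h : ℂ) ^ (-1 - r) * (h : ℂ) ^ (-1 - -s - r) := by
      rw [← Complex.cpow_add _ _ c3]
      congr 1
      ring
    have e3 : (-1 - -s : ℂ) = -1 + s := by ring
    rw [e1, e2, e3]
    ring
  rw [hL, hR]
  have hfin : kh_pw χ (-1 - s) * ((kh_pm χ (-1 - s) * kh_tw (-1 - r)) *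
        (kh_pm χ (-2 + s - 2 * r) * kh_pw χ (-1 + s))) =
      (kh_pw χ (-1 - s) * kh_pm χ (-1 - s)) *
        (kh_pw χ (-1 + s) * (kh_pm χ (-2 + s - 2 * r) * kh_tw (-1 - r))) := by ring
  rw [hfin, kh_inv, one_mul]


end Pool.Agent.LK
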