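import Pool.Agent.Lib_helper31.LK.DefsP
import Pool.Agent.Lib_helper31.LKF.KD1
import Pool.Agent.Lib_helper31.LKF.KD2
import Pool.Agent.Lib_helper31.LKF.KF
import Pool.Agent.Lib_helper31.LKF.KH

/-! LSP3, part K, block KM: the identity on the Mellin side. -/

namespace Pool.Agent.LK

open Complex MeasureTheory Set
open Pool.Agent.LSP (tau GG tp KerL)

variable {q : ℕ} [NeZero q]

theorem km_qpos : (0 : ℝ) < q := by exact_mod_cast Nat.pos_of_ne_zero (NeZero.ne q)

/-- the derivative of the functional equation factor -/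
theorem km_X (χ : DirichletCharacter ℂ q) {w : ℂ} (hw : 0 < w.re) :
    HasDerivAt (fun w : ℂ => 2 * (1 + χ (-1) * Complex.cos (Real.pi * w)) *
      (q : ℂ) ^ (2 * w - 1) * (2 * Real.pi : ℂ) ^ (-2 * w) * Complex.Gamma w ^ 2)
      (2 * (1 + χ (-1) * Complex.cos (Real.pi * w)) *
      (q : ℂ) ^ (2 * w - 1) * (2 * Real.pi : ℂ) ^ (-2 * w) * Complex.Gamma w ^ 2 *
        (2 * Real.log q - 2 * Real.log (2 * Real.pi) + 2 * digamma w) -
      2 * (χ (-1) * (Real.pi * Complex.sin (Real.pi * w))) *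
      (q : ℂ) ^ (2 * w - 1) * (2 * Real.pi : ℂ) ^ (-2 * w) * Complex.Gamma w ^ 2) w := by
  have hq : (q : ℂ) ≠ 0 := by exact_mod_cast NeZero.ne q
  have hpi : (2 * Real.pi : ℂ) ≠ 0 := by
    have := Real.pi_pos.ne'
    exact_mod_cast mul_ne_zero two_ne_zero this
  have hG : Complex.Gamma w ≠ 0 := Complex.Gamma_ne_zero_of_re_pos hw
  have hGd : HasDerivAt Complex.Gamma (Complex.Gamma w * digamma w) w := by
    have h1 : DifferentiableAt ℂ Complex.Gamma w :=
      Complex.differentiableAt_Gamma w fun m h => by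
        rw [h] at hw
        simp at hw
        have : (0 : ℝ) ≤ m := Nat.cast_nonneg m
        linarith
    have h2 := h1.hasDerivAt
    rw [digamma_def, logDeriv_apply, mul_div_cancel₀ _ hG]
    exact h2
  have h1 : HasDerivAt (fun w : ℂ => Complex.cos (Real.pi * w))
      (-Complex.sin (Real.pi * w) * Real.pi) w := by
    have h := (hasDerivAt_id w).const_mul (Real.pi : ℂ)
    simp only [id, mul_one] at h
    exact (Complex.hasDerivAt_cos _).comp w h
  have h2 : HasDerivAt (fun w : ℂ => (q : ℂ) ^ (2 * w - 1))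
      ((q : ℂ) ^ (2 * w - 1) * Complex.log q * 2) w := by
    have h := ((hasDerivAt_id w).const_mul (2 : ℂ)).sub_const 1
    simp only [id, mul_one] at h
    exact h.const_cpow (Or.inl hq)
  have h3 : HasDerivAt (fun w : ℂ => (2 * Real.pi : ℂ) ^ (-2 * w))
      ((2 * Real.pi : ℂ) ^ (-2 * w) * Complex.log (2 * Real.pi) * (-2)) w := by
    have h := (hasDerivAt_id w).const_mul (-2 : ℂ)
    simp only [id, mul_one] at h
    exact h.const_cpow (Or.inl hpi)
  have h4 := ((((h1.const_mul (χ (-1))).const_add 1).const_mul (2 : ℂ)).mul h2).mul h3 |>.mul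
    (hGd.pow 2)
  refine h4.congr_deriv ?_
  have e1 : Complex.log (q : ℂ) = (Real.log q : ℂ) := by
    rw [Complex.natCast_log]
  have e2 : Complex.log (2 * Real.pi : ℂ) = (Real.log (2 * Real.pi) : ℂ) := by
    rw [Complex.ofReal_log (by positivity)]
    push_cast
    rfl
  simp only [Pi.mul_apply, Pi.pow_apply]
  rw [e1, e2]
  push_cast
  ring

/-- the functional equation factor -/
noncomputable def kmX (χ : DirichletCharacter ℂ q) (w : ℂ) : ℂ :=
  2 * (1 + χ (-1) * Complex.cos (Real.pi * w)) *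
      (q : ℂ) ^ (2 * w - 1) * (2 * Real.pi : ℂ) ^ (-2 * w) * Complex.Gamma w ^ 2

/-- its derivative -/
noncomputable def kmX' (χ : DirichletCharacter ℂ q) (w : ℂ) : ℂ :=
  kmX χ w * (2 * Real.log q - 2 * Real.log (2 * Real.pi) + 2 * digamma w) -
      2 * (χ (-1) * (Real.pi * Complex.sin (Real.pi * w))) *
      (q : ℂ) ^ (2 * w - 1) * (2 * Real.pi : ℂ) ^ (-2 * w) * Complex.Gamma w ^ 2

omit [NeZero q] in
theorem km_neg_one (χ : DirichletCharacter ℂ q) : χ (-1) * χ (-1) = 1 := by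
  rw [← map_mul]
  simp

/-- `Γ(1-s) Γ(s)² / Γ(1+s) = π / (s sin πs)` -/
theorem km_gam {s : ℂ} (h0 : 0 < s.re) :
    Complex.Gamma (1 - s) / Complex.Gamma (1 + s) * Complex.Gamma s ^ 2 =
      Real.pi / (s * Complex.sin (Real.pi * s)) := by
  have hs : s ≠ 0 := fun h => by rw [h] at h0; simp at h0
  have hG : Complex.Gamma s ≠ 0 := Complex.Gamma_ne_zero_of_re_pos h0
  have h := Complex.Gamma_mul_Gamma_one_sub s
  have e : Complex.Gamma (1 - s) / (s * Complex.Gamma s) * Complex.Gamma s ^ 2 =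
      (Complex.Gamma s * Complex.Gamma (1 - s)) / s := by field_simp
  rw [add_comm 1 s, Complex.Gamma_add_one s hs, e, h, div_div, mul_comm s]

theorem km_sin {s : ℂ} (h0 : 0 < s.re) (h1 : s.re < 1) : Complex.sin (Real.pi * s) ≠ 0 := by
  intro h
  rw [Complex.sin_eq_zero_iff] at h
  obtain ⟨k, hk⟩ := h
  have hpi : (Real.pi : ℂ) ≠ 0 := by exact_mod_cast Real.pi_pos.ne'
  have h2 : s = k := by
    have : (Real.pi : ℂ) * s = Real.pi * k := by rw [hk]; ring
    exact mul_left_cancel₀ hpi this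
  rw [h2] at h0 h1
  simp only [Complex.intCast_re] at h0 h1
  have h3 : (0 : ℤ) < k := by exact_mod_cast h0
  have h4 : k < (1 : ℤ) := by exact_mod_cast h1
  omega

/-- the powers of `q` and `2π` cancel -/
theorem km_pow (s : ℂ) : (((q : ℝ) ^ 2 / (4 * Real.pi ^ 2) : ℝ) : ℂ) ^ (-s) *
    ((q : ℂ) ^ (2 * s - 1) * (2 * Real.pi : ℂ) ^ (-2 * s)) = 1 / q := by
  have hq := km_qpos (q := q)
  have hpi := Real.pi_pos
  have hq' : (q : ℂ) ≠ 0 := by exact_mod_cast NeZero.ne q
  have e0 : ((q : ℝ) ^ 2 / (4 * Real.pi ^ 2)) = ((q : ℝ) / (2 * Real.pi)) ^ 2 := by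
    field_simp
    ring
  have e1 : (((q : ℝ) ^ 2 / (4 * Real.pi ^ 2) : ℝ) : ℂ) ^ (-s) =
      (q : ℂ) ^ (-2 * s) * (2 * Real.pi : ℂ) ^ (2 * s) := by
    rw [e0, Complex.cpow_def_of_ne_zero (by
      rw [Complex.ofReal_ne_zero]
      positivity), ← Complex.ofReal_log (by positivity), Real.log_pow, Real.log_div hq.ne'
      (by positivity), Complex.cpow_def_of_ne_zero hq', Complex.cpow_def_of_ne_zero (by
        exact_mod_cast (by positivity : (2 * Real.pi : ℝ) ≠ 0)), ← Complex.exp_add]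
    have e2 : Complex.log (q : ℂ) = (Real.log q : ℂ) := by rw [Complex.natCast_log]
    have e3 : Complex.log (2 * Real.pi : ℂ) = (Real.log (2 * Real.pi) : ℂ) := by
      rw [Complex.ofReal_log (by positivity)]
      push_cast
      rfl
    rw [e2, e3]
    congr 1
    push_cast
    ring
  have hpi2 : (2 * Real.pi : ℂ) ≠ 0 := by
    exact_mod_cast (by positivity : (2 * Real.pi : ℝ) ≠ 0)
  rw [e1]
  have e4 : (q : ℂ) ^ (2 * s - 1) = (q : ℂ) ^ (2 * s) / q := by
    rw [Complex.cpow_sub _ _ hq', Complex.cpow_one]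
  have e5 : (q : ℂ) ^ (-2 * s) = ((q : ℂ) ^ (2 * s))⁻¹ := by
    rw [← Complex.cpow_neg]
    ring_nf
  have e6 : (2 * Real.pi : ℂ) ^ (-2 * s) = ((2 * Real.pi : ℂ) ^ (2 * s))⁻¹ := by
    rw [← Complex.cpow_neg]
    ring_nf
  have h7 : (q : ℂ) ^ (2 * s) ≠ 0 := by
    rw [Complex.cpow_def_of_ne_zero hq']
    exact Complex.exp_ne_zero _
  have h8 : (2 * Real.pi : ℂ) ^ (2 * s) ≠ 0 := by
    rw [Complex.cpow_def_of_ne_zero hpi2]
    exact Complex.exp_ne_zero _
  rw [e4, e5, e6]
  field_simp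

/-- (I) and (II): the two identities -/
theorem km_two {χ : DirichletCharacter ℂ q} {s : ℂ} (h0 : 0 < s.re) (h1 : s.re < 1) :
    2 * Real.pi / q * (M0 Goo 1 s + χ (-1) * M0 Goo (-1) s) =
      χ (-1) * (((q : ℝ) ^ 2 / (4 * Real.pi ^ 2) : ℝ) : ℂ) ^ (-s) *
      (Complex.Gamma (1 - s) / Complex.Gamma (1 + s)) * kmX χ s ∧
    2 * Real.pi / q * (M1 Goo 1 s + χ (-1) * M1 Goo (-1) s) =
      χ (-1) * (((q : ℝ) ^ 2 / (4 * Real.pi ^ 2) : ℝ) : ℂ) ^ (-s) *
      (Complex.Gamma (1 - s) / Complex.Gamma (1 + s)) *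
        (kmX χ s * (2 * Real.log q - 2 * Real.log (2 * Real.pi) -
          2 * Real.eulerMascheroniConstant) - kmX' χ s) := by
  obtain ⟨a1, a2⟩ := goo_mellin_neg_pr h0 h1
  obtain ⟨b1, b2⟩ := goo_mellin_pos_pr h0 h1
  have hs : s ≠ 0 := fun h => by rw [h] at h0; simp at h0
  have hsin := km_sin h0 h1
  have hq' : (q : ℂ) ≠ 0 := by exact_mod_cast NeZero.ne q
  have hg := km_gam h0
  have hp := km_pow (q := q) s
  have hn := km_neg_one χ
  set G := Complex.Gamma (1 - s) / Complex.Gamma (1 + s) with hG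
  set c := (((q : ℝ) ^ 2 / (4 * Real.pi ^ 2) : ℝ) : ℂ) ^ (-s) with hc
  set E := χ (-1) with hE
  set g := Complex.Gamma s with hg'
  set P := (q : ℂ) ^ (2 * s - 1) * (2 * Real.pi : ℂ) ^ (-2 * s) with hP
  have key : c * G * (P * g ^ 2) = Real.pi / (s * Complex.sin (Real.pi * s)) / q := by
    calc c * G * (P * g ^ 2) = (c * P) * (G * g ^ 2) := by ring
      _ = _ := by rw [hp, hg]; field_simp
  have hX : kmX χ s = 2 * (1 + E * Complex.cos (Real.pi * s)) * (P * g ^ 2) := by
    unfold kmX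
    rw [hP, hE, hg']
    ring
  have hX' : kmX' χ s = kmX χ s * (2 * Real.log q - 2 * Real.log (2 * Real.pi) + 2 * digamma s) -
      2 * (E * (Real.pi * Complex.sin (Real.pi * s))) * (P * g ^ 2) := by
    unfold kmX'
    rw [hP, hE, hg']
    ring
  constructor
  · rw [a1, b1, hX]
    calc 2 * Real.pi / q * (Complex.cos (Real.pi * s) / (s * Complex.sin (Real.pi * s)) +
          E * (1 / (s * Complex.sin (Real.pi * s))))
        = 2 * (E + Complex.cos (Real.pi * s)) *
          (Real.pi / (s * Complex.sin (Real.pi * s)) / q) := by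
          field_simp
          ring
      _ = 2 * (E + Complex.cos (Real.pi * s)) * (c * G * (P * g ^ 2)) := by rw [key]
      _ = 2 * (E + (E * E) * Complex.cos (Real.pi * s)) * (c * G * (P * g ^ 2)) := by rw [hn, one_mul]
      _ = _ := by ring
  · rw [a2, b2, hX']
    have e1 : E * c * G * (kmX χ s * (2 * Real.log q - 2 * Real.log (2 * Real.pi) -
        2 * Real.eulerMascheroniConstant) - (kmX χ s * (2 * Real.log q -
        2 * Real.log (2 * Real.pi) + 2 * digamma s) -
        2 * (E * (Real.pi * Complex.sin (Real.pi * s))) * (P * g ^ 2))) =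
        E * c * G * (-2 * (Real.eulerMascheroniConstant + digamma s) *
          (2 * (1 + E * Complex.cos (Real.pi * s)) * (P * g ^ 2)) +
          2 * (E * (Real.pi * Complex.sin (Real.pi * s))) * (P * g ^ 2)) := by
      rw [hX]
      ring
    rw [e1]
    have e2 : E * c * G * (-2 * (Real.eulerMascheroniConstant + digamma s) *
          (2 * (1 + E * Complex.cos (Real.pi * s)) * (P * g ^ 2)) +
          2 * (E * (Real.pi * Complex.sin (Real.pi * s))) * (P * g ^ 2)) =
        (c * G * (P * g ^ 2)) * (-4 * (Real.eulerMascheroniConstant + digamma s) *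
          (E + (E * E) * Complex.cos (Real.pi * s)) +
          2 * ((E * E) * (Real.pi * Complex.sin (Real.pi * s)))) := by ring
    rw [e2, key, hn]
    field_simp
    ring

/-- the derivative of the finite identity -/
theorem km_fin (χ : DirichletCharacter ℂ q) {e : ℕ} (he : 1 ≤ e) {s : ℂ} :
    (1 / (e : ℂ) * ∑ p ∈ e.divisorsAntidiagonal, χ p.1 *
      ∑ k ∈ p.2.divisors, χ ((p.2 / k : ℕ)) * (((p.1 * k : ℝ) / p.2 : ℝ) : ℂ) ^ (-s) *
        ∑ l ∈ (p.2 / k).divisors, (ArithmeticFunction.moebius l : ℂ) / l *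
          Pk χ k s = Qe χ e (-s) 0) ∧
    HasDerivAt (Qe χ e (-s)) (1 / (e : ℂ) * ∑ p ∈ e.divisorsAntidiagonal, χ p.1 *
      ∑ k ∈ p.2.divisors, χ ((p.2 / k : ℕ)) * (((p.1 * k : ℝ) / p.2 : ℝ) : ℂ) ^ (-s) *
        ∑ l ∈ (p.2 / k).divisors, (ArithmeticFunction.moebius l : ℂ) / l *
          ((-Real.log k - 2 * Real.log l) * Pk χ k s - deriv (Pk χ k) s)) 0 := by
  constructor
  · have h := fin_id_pr χ he s 0
    rw [← h]
    congr 1
    refine Finset.sum_congr rfl fun p _ => ?_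
    congr 1
    refine Finset.sum_congr rfl fun k _ => ?_
    congr 1
    refine Finset.sum_congr rfl fun l _ => ?_
    simp
  · have hfun : (Qe χ e (-s)) = fun r : ℂ => 1 / (e : ℂ) * ∑ p ∈ e.divisorsAntidiagonal, χ p.1 *
      ∑ k ∈ p.2.divisors, χ ((p.2 / k : ℕ)) * (((p.1 * k : ℝ) / p.2 : ℝ) : ℂ) ^ (-s) *
        ∑ l ∈ (p.2 / k).divisors, (ArithmeticFunction.moebius l : ℂ) / l *
          ((k : ℂ) ^ (-r) * (l : ℂ) ^ (-2 * r) * Pk χ k (s - r)) := by
      funext r
      exact (fin_id_pr χ he s r).symm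
    rw [hfun]
    refine HasDerivAt.const_mul _ (HasDerivAt.fun_sum fun p hp => ?_)
    refine HasDerivAt.const_mul _ (HasDerivAt.fun_sum fun k hk => ?_)
    refine HasDerivAt.const_mul _ (HasDerivAt.fun_sum fun l hl => ?_)
    refine HasDerivAt.const_mul _ ?_
    have hk0 : (k : ℂ) ≠ 0 := by
      have := Nat.pos_of_mem_divisors hk
      exact_mod_cast this.ne'
    have hl0 : (l : ℂ) ≠ 0 := by
      have := Nat.pos_of_mem_divisors hl
      exact_mod_cast this.ne'
    have h1 : HasDerivAt (fun r : ℂ => (k : ℂ) ^ (-r)) (-(Real.log k : ℂ)) 0 := by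
      have h := ((hasDerivAt_id (0 : ℂ)).neg).const_cpow (c := (k : ℂ)) (Or.inl hk0)
      refine h.congr_deriv ?_
      simp [Complex.natCast_log]
    have h2 : HasDerivAt (fun r : ℂ => (l : ℂ) ^ (-2 * r)) (-(2 * (Real.log l : ℂ))) 0 := by
      have h := ((hasDerivAt_id (0 : ℂ)).const_mul (-2 : ℂ)).const_cpow (c := (l : ℂ)) (Or.inl hl0)
      refine h.congr_deriv ?_
      simp [Complex.natCast_log]
      ring
    have hPd : DifferentiableAt ℂ (Pk χ k) s := by
      unfold Pk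
      refine DifferentiableAt.fun_sum fun h hh => ?_
      have hh0 : (h : ℂ) ≠ 0 := by
        have := Nat.pos_of_mem_divisors hh
        exact_mod_cast this.ne'
      refine DifferentiableAt.mul_const (DifferentiableAt.const_mul ?_ _) _
      exact (differentiableAt_id.neg).const_cpow (Or.inl hh0)
    have h3 : HasDerivAt (fun r : ℂ => Pk χ k (s - r)) (-deriv (Pk χ k) s) 0 := by
      have ha : HasDerivAt (fun r : ℂ => s - r) (-1) 0 := by
        simpa using (hasDerivAt_id (0 : ℂ)).const_sub s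
      have hb : HasDerivAt (Pk χ k) (deriv (Pk χ k) s) (s - 0) := by
        rw [sub_zero]
        exact hPd.hasDerivAt
      have := hb.comp (0 : ℂ) ha
      refine this.congr_deriv ?_
      ring
    refine ((h1.mul h2).mul h3).congr_deriv ?_
    simp
    ring

omit [NeZero q] in
theorem km_Pk_diff (χ : DirichletCharacter ℂ q) (k : ℕ) (s : ℂ) :
    DifferentiableAt ℂ (Pk χ k) s := by
  unfold Pk
  refine DifferentiableAt.fun_sum fun h hh => ?_
  have hh0 : (h : ℂ) ≠ 0 := by
    have := Nat.pos_of_mem_divisors hh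
    exact_mod_cast this.ne'
  refine DifferentiableAt.mul_const (DifferentiableAt.const_mul ?_ _) _
  exact (differentiableAt_id.neg).const_cpow (Or.inl hh0)

theorem km_Zk_deriv {χ : DirichletCharacter ℂ q} (hχ : χ ≠ 1) (k : ℕ) (s : ℂ) :
    deriv (Zk χ k) s = 2 * DirichletCharacter.LFunction χ s *
      deriv (DirichletCharacter.LFunction χ) s * Pk χ k s +
      DirichletCharacter.LFunction χ s ^ 2 * deriv (Pk χ k) s := by
  have h1 : HasDerivAt (DirichletCharacter.LFunction χ)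
      (deriv (DirichletCharacter.LFunction χ) s) s :=
    ((DirichletCharacter.differentiable_LFunction hχ) s).hasDerivAt
  have h2 := (h1.pow 2).mul (km_Pk_diff χ k s).hasDerivAt
  have h3 : HasDerivAt (Zk χ k) _ s := h2
  rw [h3.deriv]
  simp

/-- block KM -/
theorem ph_goo_pr {χ : DirichletCharacter ℂ q} (h : PQ χ) {N e : ℕ} (hN : 1 ≤ N) (he : 1 ≤ e)
    {s : ℂ} (h0 : 0 < s.re) (h1 : s.re < 1) :
    PH χ N e Goo s = χ (-1) * (((q : ℝ) ^ 2 / (4 * Real.pi ^ 2) : ℝ) : ℂ) ^ (-s) *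
      (Complex.Gamma (1 - s) / Complex.Gamma (1 + s)) * AA χ N e (-s) := by
  obtain ⟨kI, kII⟩ := km_two (χ := χ) h0 h1
  obtain ⟨f0, f1⟩ := km_fin χ he (s := s)
  set c := χ (-1) * (((q : ℝ) ^ 2 / (4 * Real.pi ^ 2) : ℝ) : ℂ) ^ (-s) *
      (Complex.Gamma (1 - s) / Complex.Gamma (1 + s)) with hc
  set L := DirichletCharacter.LFunction χ s with hL
  set L' := deriv (DirichletCharacter.LFunction χ) s with hL'
  set m0 := M0 Goo 1 s + χ (-1) * M0 Goo (-1) s with hm0
  set m1 := M1 Goo 1 s + χ (-1) * M1 Goo (-1) s with hm1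
  set Q0 := Qe χ e (-s) 0 with hQ0
  set Q1 := 1 / (e : ℂ) * ∑ p ∈ e.divisorsAntidiagonal, χ p.1 *
      ∑ k ∈ p.2.divisors, χ ((p.2 / k : ℕ)) * (((p.1 * k : ℝ) / p.2 : ℝ) : ℂ) ^ (-s) *
        ∑ l ∈ (p.2 / k).divisors, (ArithmeticFunction.moebius l : ℂ) / l *
          ((-Real.log k - 2 * Real.log l) * Pk χ k s - deriv (Pk χ k) s) with hQ1
  have hq' : (q : ℂ) ≠ 0 := by exact_mod_cast NeZero.ne q
  have he' : (e : ℂ) ≠ 0 := by
    have : e ≠ 0 := by omega
    exact_mod_cast this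
  have hq := km_qpos (q := q)
  have hNr : (0 : ℝ) < N := by exact_mod_cast hN
  set a := (Real.log N - 2 * Real.log q + 2 * Real.eulerMascheroniConstant : ℂ) with ha
  -- the left side
  have hleft : PH χ N e Goo s = 2 * Real.pi / q *
      ((L ^ 2 * (m0 * a + m1) - 2 * L * L' * m0) * Q0 + L ^ 2 * m0 * Q1) := by
    rw [← f0, hQ1]
    unfold PH
    rw [show 2 * (Real.pi : ℂ) / (q * e) = 2 * Real.pi / q * (1 / e) by field_simp, mul_assoc]
    congr 1
    rw [mul_left_comm _ (1 / (e : ℂ)), mul_left_comm _ (1 / (e : ℂ)), ← mul_add]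
    congr 1
    rw [Finset.mul_sum, Finset.mul_sum, ← Finset.sum_add_distrib]
    refine Finset.sum_congr rfl fun p hp => ?_
    rw [mul_left_comm _ (χ p.1), mul_left_comm _ (χ p.1), ← mul_add]
    congr 1
    rw [Finset.mul_sum, Finset.mul_sum, ← Finset.sum_add_distrib]
    refine Finset.sum_congr rfl fun k hk => ?_
    have hk0 : (0 : ℝ) < k := by
      have := Nat.pos_of_mem_divisors hk
      exact_mod_cast this
    rw [mul_left_comm (_ : ℂ) (χ _ * _), mul_left_comm (_ : ℂ) (χ _ * _), ← mul_add]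
    congr 1
    rw [Finset.mul_sum, Finset.mul_sum, ← Finset.sum_add_distrib]
    refine Finset.sum_congr rfl fun l hl => ?_
    have hl0 : (0 : ℝ) < l := by
      have := Nat.pos_of_mem_divisors hl
      exact_mod_cast this
    rw [mul_left_comm (_ : ℂ) (_ / (l : ℂ)), mul_left_comm (_ : ℂ) (_ / (l : ℂ)), ← mul_add]
    congr 1
    rw [Finset.sum_pair (by decide)]
    have e1 : Real.log (k * N) = Real.log k + Real.log N :=
      Real.log_mul hk0.ne' hNr.ne'
    have e2 : Real.log (q * k * l) = Real.log q + Real.log k + Real.log l := by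
      rw [Real.log_mul (by positivity) hl0.ne', Real.log_mul hq.ne' hk0.ne']
    rw [e1, e2, km_Zk_deriv h.ne]
    unfold Zk
    rw [hm0, hm1, ha, ← hL, ← hL']
    push_cast
    simp only [map_one]
    ring
  -- the right side
  have hXs : kmX χ s = kmX χ s := rfl
  have hright : AA χ N e (-s) = kmX χ s * L ^ 2 * ((Real.log (N / (4 * Real.pi ^ 2)) : ℂ) * Q0 + Q1) -
      (kmX' χ s * L ^ 2 + 2 * kmX χ s * L * L') * Q0 := by
    unfold AA
    have hbase : (((N : ℝ) / (4 * Real.pi ^ 2) : ℝ) : ℂ) ≠ 0 := by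
      rw [Complex.ofReal_ne_zero]
      positivity
    have g1 : HasDerivAt (fun r : ℂ => (((N : ℝ) / (4 * Real.pi ^ 2) : ℝ) : ℂ) ^ r)
        (Real.log (N / (4 * Real.pi ^ 2)) : ℂ) 0 := by
      have h := (hasDerivAt_id (0 : ℂ)).const_cpow
        (c := (((N : ℝ) / (4 * Real.pi ^ 2) : ℝ) : ℂ)) (Or.inl hbase)
      refine h.congr_deriv ?_
      rw [Complex.ofReal_log (by positivity)]
      simp
    have hLd : HasDerivAt (DirichletCharacter.LFunction χ) L' s :=
      ((DirichletCharacter.differentiable_LFunction h.ne) s).hasDerivAt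
    have g2 : HasDerivAt (fun r : ℂ => DirichletCharacter.LFunction χ (1 + -s + r) ^ 2)
        (-(kmX' χ s * L ^ 2 + 2 * kmX χ s * L * L')) 0 := by
      have hev : (fun r : ℂ => DirichletCharacter.LFunction χ (1 + -s + r) ^ 2) =ᶠ[nhds 0]
          fun r : ℂ => kmX χ (s - r) * DirichletCharacter.LFunction χ (s - r) ^ 2 := by
        have hcont : ContinuousAt (fun r : ℂ => (s - r).re) 0 := by fun_prop
        have hpos : ∀ᶠ r in nhds (0 : ℂ), 0 < (s - r).re := by
          have : (0 : ℝ) < (s - 0).re := by simpa using h0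
          exact hcont.eventually (lt_mem_nhds this)
        filter_upwards [hpos] with r hr
        have := lfe_sq_pr h hr
        rw [show (1 : ℂ) + -s + r = 1 - (s - r) by ring, this]
        unfold kmX
        ring
      have ha : HasDerivAt (fun r : ℂ => s - r) (-1) 0 := by
        simpa using (hasDerivAt_id (0 : ℂ)).const_sub s
      have hX : HasDerivAt (kmX χ) (kmX' χ s) (s - 0) := by
        rw [sub_zero]
        exact km_X χ h0
      have hL2 : HasDerivAt (DirichletCharacter.LFunction χ) L' (s - 0) := by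
        rw [sub_zero]
        exact hLd
      have h3 := (hX.comp (0 : ℂ) ha).mul ((hL2.comp (0 : ℂ) ha).pow 2)
      refine (HasDerivAt.congr_of_eventuallyEq ?_ hev)
      refine h3.congr_deriv ?_
      simp only [Function.comp, sub_zero, Pi.pow_apply]
      rw [← hL]
      push_cast
      ring
    have g3 : HasDerivAt (fun r : ℂ => Qe χ e (-s) r) Q1 0 := f1
    have g4 := (g1.mul g2).mul g3
    have g5 : HasDerivAt (fun r : ℂ => (((N : ℝ) / (4 * Real.pi ^ 2) : ℝ) : ℂ) ^ r *
      DirichletCharacter.LFunction χ (1 + -s + r) ^ 2 * Qe χ e (-s) r) _ 0 := g4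
    rw [g5.deriv]
    have hfe : DirichletCharacter.LFunction χ (1 + -s + 0) ^ 2 = kmX χ s * L ^ 2 := by
      rw [show (1 : ℂ) + -s + 0 = 1 - s by ring, lfe_sq_pr h h0]
      unfold kmX
      rw [hL]
    simp only [Pi.mul_apply, Complex.cpow_zero, one_mul]
    rw [hfe, ← hQ0]
    ring
  rw [hleft, hright]
  have e3 : (Real.log (N / (4 * Real.pi ^ 2)) : ℂ) =
      (Real.log N : ℂ) - 2 * (Real.log (2 * Real.pi) : ℂ) := by
    rw [show (4 : ℝ) * Real.pi ^ 2 = (2 * Real.pi) ^ 2 by ring,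
      Real.log_div hNr.ne' (by positivity), Real.log_pow]
    push_cast
    ring
  rw [e3]
  have k1 : 2 * Real.pi / q * m0 = c * kmX χ s := kI
  have k2 : 2 * Real.pi / q * m1 = c * (kmX χ s * (2 * Real.log q - 2 * Real.log (2 * Real.pi) -
          2 * Real.eulerMascheroniConstant) - kmX' χ s) := kII
  calc 2 * Real.pi / q * ((L ^ 2 * (m0 * a + m1) - 2 * L * L' * m0) * Q0 + L ^ 2 * m0 * Q1)
      = (L ^ 2 * ((2 * Real.pi / q * m0) * a + (2 * Real.pi / q * m1)) -
        2 * L * L' * (2 * Real.pi / q * m0)) * Q0 + L ^ 2 * (2 * Real.pi / q * m0) * Q1 := by ring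
    _ = _ := by
        rw [k1, k2, ha]
        ring

end Pool.Agent.LK
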