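import Pool.Agent.Lib_helper31.LK.DefsP
import Pool.Agent.Lib_helper31.LKF.KI

/-! LSP3, part K, block KN: the diagonal terms. -/

namespace Pool.Agent.LK

open Complex MeasureTheory Set
open Pool.Agent.LSP (tau GG tp KerL)

theorem kn_exp_int : Integrable (fun z : ℝ => Real.exp (-|z|)) := by
  have h1 : IntegrableOn (fun z : ℝ => Real.exp (-|z|)) (Set.Iic 0) := by
    refine (integrableOn_exp_mul_Iic (a := 1) (by norm_num) 0).congr_fun ?_ measurableSet_Iic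
    intro z hz
    simp only
    rw [abs_of_nonpos hz]
    congr 1
    ring
  have h2 : IntegrableOn (fun z : ℝ => Real.exp (-|z|)) (Set.Ioi 0) := by
    refine (integrableOn_exp_mul_Ioi (a := -1) (by norm_num) 0).congr_fun ?_ measurableSet_Ioi
    intro z hz
    simp only
    rw [abs_of_pos hz]
    congr 1
    ring
  have h3 := h1.union h2
  rwa [Set.Iic_union_Ioi, integrableOn_univ] at h3

theorem kn_W_cont {w : ℝ → ℝ} {W : ℂ → ℂ} (hw : MW w W) :
    Continuous (fun t : ℝ => W (1 / 2 + t * I)) := by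
  rw [continuous_iff_continuousAt]
  intro t
  have h1 : ContinuousAt W (1 / 2 + t * I) := (hw.diff _ (by simp)).continuousAt
  exact ContinuousAt.comp (f := fun t : ℝ => (1 / 2 + t * I : ℂ)) h1
    (Continuous.continuousAt (by fun_prop))

theorem kn_pow_cont {x : ℂ} : Continuous (fun t : ℝ => x ^ (1 / 2 + t * I : ℂ)) := by
  refine Continuous.const_cpow (by fun_prop) (Or.inr fun t h => ?_)
  have := congrArg Complex.re h
  simp at this

theorem kn_pow_norm {x : ℝ} (hx : 0 < x) (t : ℝ) :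
    ‖(x : ℂ) ^ (1 / 2 + t * I : ℂ)‖ = x ^ (1 / 2 : ℝ) := by
  rw [Complex.norm_cpow_eq_rpow_re_of_pos hx]
  congr 1
  simp

theorem kn_pow_cont' {x : ℂ} : Continuous (fun t : ℝ => x ^ (-(1 + (1 / 2 + t * I)) : ℂ)) := by
  refine Continuous.const_cpow (by fun_prop) (Or.inr fun t h => ?_)
  have := congrArg Complex.re h
  simp at this
  norm_num at this

theorem kn_pow_norm' {x : ℝ} (hx : 0 < x) (t : ℝ) :
    ‖(x : ℂ) ^ (-(1 + (1 / 2 + t * I)) : ℂ)‖ = x ^ (-(3 / 2) : ℝ) := by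
  rw [Complex.norm_cpow_eq_rpow_re_of_pos hx]
  congr 1
  simp
  norm_num

section main

variable {q : ℕ} [NeZero q]

theorem kn_zk_diff {χ : DirichletCharacter ℂ q} (hχ : χ ≠ 1) (k : ℕ) :
    Differentiable ℂ (Zk χ k) := by
  unfold Zk Pk
  refine ((DirichletCharacter.differentiable_LFunction hχ).pow 2).mul ?_
  refine Differentiable.fun_sum fun h hh => ?_
  have h0 : (h : ℂ) ≠ 0 := by
    exact_mod_cast (Nat.pos_of_mem_divisors hh).ne'
  refine Differentiable.mul_const (Differentiable.const_mul ?_ _) _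
  intro s
  exact (differentiableAt_id.neg).const_cpow (Or.inl h0)

/-- the derivative at `r = 0` -/
theorem kn_AA {χ : DirichletCharacter ℂ q} (hχ : χ ≠ 1) {N e : ℕ} (hN : 1 ≤ N) (s : ℂ) :
    AA χ N e s = ∑ p ∈ e.divisorsAntidiagonal, χ p.1 * (p.1 : ℂ) ^ (-1 - s) * (p.2 : ℂ)⁻¹ *
      ((Real.log (N / (4 * Real.pi ^ 2 * p.2)) : ℂ) * Zk χ p.2 (1 + s) +
        deriv (Zk χ p.2) (1 + s)) := by
  have hN0 : (0 : ℝ) < N := by exact_mod_cast hN
  set A : ℝ := (N : ℝ) / (4 * Real.pi ^ 2) with hA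
  have hA0 : 0 < A := by rw [hA]; positivity
  have hfun : (fun r : ℂ => ((A : ℝ) : ℂ) ^ r *
    DirichletCharacter.LFunction χ (1 + s + r) ^ 2 * Qe χ e s r) =
    fun r : ℂ => ∑ p ∈ e.divisorsAntidiagonal, χ p.1 * (p.1 : ℂ) ^ (-1 - s) *
      (((A : ℝ) : ℂ) ^ r * (p.2 : ℂ) ^ (-1 - r) * Zk χ p.2 (1 + s + r)) := by
    funext r
    unfold Qe Zk Pk
    rw [Finset.mul_sum]
    refine Finset.sum_congr rfl fun p _ => ?_
    have : ∀ h : ℕ, (h : ℂ) ^ (-1 - s - r) = (h : ℂ) ^ (-(1 + s + r)) := by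
      intro h
      congr 1
      ring
    simp only [this]
    ring
  unfold AA
  rw [hfun]
  have hder : HasDerivAt (fun r : ℂ => ∑ p ∈ e.divisorsAntidiagonal, χ p.1 *
      (p.1 : ℂ) ^ (-1 - s) * (((A : ℝ) : ℂ) ^ r * (p.2 : ℂ) ^ (-1 - r) * Zk χ p.2 (1 + s + r)))
      (∑ p ∈ e.divisorsAntidiagonal, χ p.1 * (p.1 : ℂ) ^ (-1 - s) * (p.2 : ℂ)⁻¹ *
      ((Real.log (N / (4 * Real.pi ^ 2 * p.2)) : ℂ) * Zk χ p.2 (1 + s) +
        deriv (Zk χ p.2) (1 + s))) 0 := by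
    refine HasDerivAt.fun_sum fun p hp => ?_
    have hb : 1 ≤ p.2 := by
      have := Nat.mem_divisorsAntidiagonal.1 hp
      refine Nat.pos_of_ne_zero fun h => this.2 ?_
      rw [← this.1, h, mul_zero]
    have hb0 : (0 : ℝ) < p.2 := by exact_mod_cast hb
    have hbc : (p.2 : ℂ) ≠ 0 := by exact_mod_cast hb0.ne'
    have hAc : (A : ℂ) ≠ 0 := by exact_mod_cast hA0.ne'
    have d1 : HasDerivAt (fun r : ℂ => (A : ℂ) ^ r) ((A : ℂ) ^ (0 : ℂ) * Complex.log A * 1) 0 :=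
      (hasDerivAt_id (0 : ℂ)).const_cpow (Or.inl hAc)
    have d2 : HasDerivAt (fun r : ℂ => (p.2 : ℂ) ^ (-1 - r))
        ((p.2 : ℂ) ^ (-1 - (0 : ℂ)) * Complex.log p.2 * (-1)) 0 := by
      have h := (hasDerivAt_id (0 : ℂ)).const_sub (-1 : ℂ)
      exact h.const_cpow (Or.inl hbc)
    have d3 : HasDerivAt (fun r : ℂ => Zk χ p.2 (1 + s + r)) (deriv (Zk χ p.2) (1 + s)) 0 := by
      have h : HasDerivAt (Zk χ p.2) (deriv (Zk χ p.2) (1 + s + 0)) (1 + s + 0) :=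
        (kn_zk_diff hχ p.2 _).hasDerivAt
      rw [add_zero] at h
      have h' := HasDerivAt.comp_const_add (1 + s) (0 : ℂ) (f := Zk χ p.2)
        (f' := deriv (Zk χ p.2) (1 + s)) (by rw [add_zero]; exact h)
      exact h'
    have d4 := ((d1.mul d2).mul d3).const_mul (χ p.1 * (p.1 : ℂ) ^ (-1 - s))
    refine d4.congr_deriv ?_
    have l1 : (Real.log (N / (4 * Real.pi ^ 2 * p.2)) : ℂ) =
        Complex.log A - Complex.log p.2 := by
      have h1 : Real.log (N / (4 * Real.pi ^ 2 * p.2)) = Real.log A - Real.log p.2 := by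
        rw [← Real.log_div hA0.ne' hb0.ne', hA]
        congr 1
        field_simp
      rw [h1]
      push_cast
      rw [Complex.ofReal_log hA0.le]
    simp only [Pi.mul_apply]
    rw [l1]
    have l2 : (p.2 : ℂ) ^ (-1 - (0 : ℂ)) = (p.2 : ℂ)⁻¹ := by
      rw [sub_zero, Complex.cpow_neg_one]
    rw [l2, Complex.cpow_zero, add_zero]
    ring
  exact hder.deriv

/-- the terms of the diagonal -/
noncomputable def knF (χ : DirichletCharacter ℂ q) (N : ℕ) (W : ℂ → ℂ) (Y : ℝ) (j b a : ℕ)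
    (t : ℝ) : ℂ :=
  W (1 / 2 + t * I) * ((Y : ℂ) ^ (1 / 2 + t * I : ℂ)) * (χ j * χ a *
    (j : ℂ) ^ (-(1 + (1 / 2 + t * I)) : ℂ) * (b : ℂ)⁻¹ * (tau (b * a) : ℂ) *
    (a : ℂ) ^ (-(1 + (1 / 2 + t * I)) : ℂ) * (Real.log (N / (4 * Real.pi ^ 2 * (a * b))) : ℂ))

omit [NeZero q] in
theorem kn_F_zero (χ : DirichletCharacter ℂ q) (N : ℕ) (W : ℂ → ℂ) (Y : ℝ) (j b : ℕ) (t : ℝ) :
    knF χ N W Y j b 0 t = 0 := by
  unfold knF
  simp

omit [NeZero q] in
theorem kn_F_cont {w : ℝ → ℝ} {W : ℂ → ℂ} (hw : MW w W) (χ : DirichletCharacter ℂ q) (N : ℕ)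
    (Y : ℝ) (j b a : ℕ) : Continuous (knF χ N W Y j b a) := by
  unfold knF
  exact ((kn_W_cont hw).mul kn_pow_cont).mul (((((continuous_const.mul kn_pow_cont').mul
    continuous_const).mul continuous_const).mul kn_pow_cont').mul continuous_const)

theorem kn_log {N b a : ℕ} (hN : 1 ≤ N) (hb : 1 ≤ b) (ha : 1 ≤ a) :
    Real.log (N / (4 * Real.pi ^ 2 * (a * b))) =
      Real.log (N / (4 * Real.pi ^ 2 * b)) - Real.log a := by
  have h1 : (0 : ℝ) < N := by exact_mod_cast hN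
  have h2 : (0 : ℝ) < b := by exact_mod_cast hb
  have h3 : (0 : ℝ) < a := by exact_mod_cast ha
  rw [← Real.log_div (by positivity) (by positivity)]
  congr 1
  field_simp

omit [NeZero q] in
theorem kn_F_norm {CW : ℝ} {W : ℂ → ℂ} (hW : ∀ t : ℝ, ‖W (1 / 2 + t * I)‖ ≤ |CW| * Real.exp (-|t|))
    (χ : DirichletCharacter ℂ q) {N : ℕ} (hN : 1 ≤ N) {Y : ℝ} (hY : 0 < Y) {j b : ℕ} (hj : 1 ≤ j)
    (hb : 1 ≤ b) (a : ℕ) (t : ℝ) : ‖knF χ N W Y j b a t‖ ≤
      (|CW| * Y ^ (1 / 2 : ℝ) * (|Real.log (N / (4 * Real.pi ^ 2 * b))| + 1) *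
        (tau (b * a) * (a : ℝ) ^ (-(3 / 2) : ℝ) * (1 + Real.log a))) * Real.exp (-|t|) := by
  rcases Nat.eq_zero_or_pos a with rfl | ha
  · rw [kn_F_zero]
    simp [Pool.Agent.LSP.tau]
  have hj' : (1 : ℝ) ≤ j := by exact_mod_cast hj
  have hb' : (1 : ℝ) ≤ b := by exact_mod_cast hb
  have ha' : (1 : ℝ) ≤ a := by exact_mod_cast ha
  have hla : 0 ≤ Real.log a := Real.log_nonneg ha'
  have hτ : 0 ≤ tau (b * a) := by unfold Pool.Agent.LSP.tau; positivity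
  have hap : (0 : ℝ) ≤ (a : ℝ) ^ (-(3 / 2) : ℝ) := Real.rpow_nonneg (by linarith) _
  unfold knF
  rw [norm_mul, norm_mul, kn_pow_norm hY]
  have n1 : ‖(j : ℂ) ^ (-(1 + (1 / 2 + t * I)) : ℂ)‖ ≤ 1 := by
    have := kn_pow_norm' (x := (j : ℝ)) (by linarith) t
    rw [Complex.ofReal_natCast] at this
    rw [this]
    exact Real.rpow_le_one_of_one_le_of_nonpos hj' (by norm_num)
  have n2 : ‖(a : ℂ) ^ (-(1 + (1 / 2 + t * I)) : ℂ)‖ = (a : ℝ) ^ (-(3 / 2) : ℝ) := by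
    have := kn_pow_norm' (x := (a : ℝ)) (by linarith) t
    rw [Complex.ofReal_natCast] at this
    exact this
  have n3 : ‖(b : ℂ)⁻¹‖ ≤ 1 := by
    rw [norm_inv, Complex.norm_natCast]
    exact inv_le_one_of_one_le₀ hb'
  have n4 : ‖(tau (b * a) : ℂ)‖ = tau (b * a) := by
    rw [Complex.norm_real, Real.norm_eq_abs, abs_of_nonneg hτ]
  have n5 : ‖(Real.log (N / (4 * Real.pi ^ 2 * (a * b))) : ℂ)‖ ≤
      (|Real.log (N / (4 * Real.pi ^ 2 * b))| + 1) * (1 + Real.log a) := by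
    rw [Complex.norm_real, Real.norm_eq_abs, kn_log hN hb ha]
    refine (abs_sub _ _).trans ?_
    rw [abs_of_nonneg hla]
    nlinarith [abs_nonneg (Real.log (N / (4 * Real.pi ^ 2 * b))),
      mul_nonneg (abs_nonneg (Real.log (N / (4 * Real.pi ^ 2 * b)))) hla]
  have n6 : ‖χ j * χ a * (j : ℂ) ^ (-(1 + (1 / 2 + t * I)) : ℂ) * (b : ℂ)⁻¹ *
      (tau (b * a) : ℂ) * (a : ℂ) ^ (-(1 + (1 / 2 + t * I)) : ℂ) *
      (Real.log (N / (4 * Real.pi ^ 2 * (a * b))) : ℂ)‖ ≤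
      tau (b * a) * (a : ℝ) ^ (-(3 / 2) : ℝ) *
        ((|Real.log (N / (4 * Real.pi ^ 2 * b))| + 1) * (1 + Real.log a)) := by
    rw [norm_mul, norm_mul, norm_mul, norm_mul, norm_mul, norm_mul, n2, n4]
    refine mul_le_mul ?_ n5 (norm_nonneg _) (by positivity)
    refine mul_le_mul_of_nonneg_right ?_ hap
    refine mul_le_of_le_one_left hτ ?_
    refine mul_le_one₀ (mul_le_one₀ (mul_le_one₀ (DirichletCharacter.norm_le_one χ _)
      (norm_nonneg _) (DirichletCharacter.norm_le_one χ _)) (norm_nonneg _) n1)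
      (norm_nonneg _) n3
  calc ‖W (1 / 2 + t * I)‖ * Y ^ (1 / 2 : ℝ) * _ ≤
      (|CW| * Real.exp (-|t|) * Y ^ (1 / 2 : ℝ)) * (tau (b * a) * (a : ℝ) ^ (-(3 / 2) : ℝ) *
        ((|Real.log (N / (4 * Real.pi ^ 2 * b))| + 1) * (1 + Real.log a))) := by
        refine mul_le_mul (mul_le_mul_of_nonneg_right (hW t) (Real.rpow_nonneg hY.le _)) n6
          (norm_nonneg _) ?_
        exact mul_nonneg (by positivity) (Real.rpow_nonneg hY.le _)
    _ = _ := by ring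

omit [NeZero q] in
theorem kn_F_int {w : ℝ → ℝ} {W : ℂ → ℂ} (hw : MW w W) (χ : DirichletCharacter ℂ q) (N : ℕ)
    {Y : ℝ} (hY : 0 < Y) {j b : ℕ} (hj : 1 ≤ j) (a : ℕ) :
    χ j * χ a * ((w (j * a / Y) / (j * a * b) * tau (a * b) *
      Real.log (N / (4 * Real.pi ^ 2 * (a * b))) : ℝ) : ℂ) =
      1 / (2 * Real.pi) * ∫ t : ℝ, knF χ N W Y j b a t := by
  rcases Nat.eq_zero_or_pos a with rfl | ha
  · simp only [kn_F_zero]
    simp
  have hj' : (0 : ℝ) < j := by exact_mod_cast hj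
  have ha' : (0 : ℝ) < a := by exact_mod_cast ha
  have h1 := hw.inv (1 / 2) (by norm_num) (j * a / Y) (by positivity)
  have h2 : ∀ t : ℝ, knF χ N W Y j b a t = (χ j * χ a * (j : ℂ)⁻¹ * (a : ℂ)⁻¹ * (b : ℂ)⁻¹ *
      (tau (b * a) : ℂ) * (Real.log (N / (4 * Real.pi ^ 2 * (a * b))) : ℂ)) *
      (W ((1 / 2 : ℝ) + t * I) * (((j * a / Y : ℝ)) : ℂ) ^ (-((1 / 2 : ℝ) + t * I : ℂ))) := by
    intro t
    have e0 : (((1 / 2 : ℝ) : ℂ) + t * I) = 1 / 2 + t * I := by push_cast; ring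
    rw [e0]
    set s : ℂ := 1 / 2 + t * I with hs
    have hjc : (j : ℂ) ≠ 0 := by exact_mod_cast hj'.ne'
    have hac : (a : ℂ) ≠ 0 := by exact_mod_cast ha'.ne'
    have e1 : (((j * a / Y : ℝ)) : ℂ) ^ (-s) = (j : ℂ) ^ (-s) * (a : ℂ) ^ (-s) * (Y : ℂ) ^ s := by
      have f1 : (((j * a / Y : ℝ)) : ℂ) = (((j * a : ℝ) : ℝ) : ℂ) * ((Y⁻¹ : ℝ) : ℂ) := by
        push_cast
        rw [div_eq_mul_inv]
      rw [f1, Complex.mul_cpow_ofReal_nonneg (by positivity) (by positivity)]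
      have f2 : ((j * a : ℝ) : ℂ) = ((j : ℝ) : ℂ) * ((a : ℝ) : ℂ) := by push_cast; ring
      rw [f2, Complex.mul_cpow_ofReal_nonneg hj'.le ha'.le]
      have f3 : ((Y⁻¹ : ℝ) : ℂ) ^ (-s) = (Y : ℂ) ^ s := by
        rw [Complex.ofReal_inv, Complex.inv_cpow _ _ (by
          rw [Complex.arg_ofReal_of_nonneg hY.le]; exact Real.pi_pos.ne), Complex.cpow_neg,
          inv_inv]
      rw [f3]
      push_cast
      ring
    have e2 : ∀ x : ℂ, x ≠ 0 → x ^ (-(1 + s)) = x⁻¹ * x ^ (-s) := by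
      intro x hx
      rw [show -(1 + s) = -1 + -s by ring, Complex.cpow_add _ _ hx, Complex.cpow_neg_one]
    unfold knF
    rw [← hs, e1, e2 _ hjc, e2 _ hac]
    ring
  simp only [h2]
  rw [integral_const_mul]
  have h3 : (1 : ℂ) / (2 * Real.pi) * ((χ j * χ a * (j : ℂ)⁻¹ * (a : ℂ)⁻¹ * (b : ℂ)⁻¹ *
      (tau (b * a) : ℂ) * (Real.log (N / (4 * Real.pi ^ 2 * (a * b))) : ℂ)) *
      ∫ t : ℝ, W ((1 / 2 : ℝ) + t * I) * (((j * a / Y : ℝ)) : ℂ) ^ (-((1 / 2 : ℝ) + t * I : ℂ))) =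
      (χ j * χ a * (j : ℂ)⁻¹ * (a : ℂ)⁻¹ * (b : ℂ)⁻¹ *
      (tau (b * a) : ℂ) * (Real.log (N / (4 * Real.pi ^ 2 * (a * b))) : ℂ)) *
      (1 / (2 * Real.pi) * ∫ t : ℝ, W ((1 / 2 : ℝ) + t * I) *
        (((j * a / Y : ℝ)) : ℂ) ^ (-((1 / 2 : ℝ) + t * I : ℂ))) := by ring
  rw [h3, ← h1, mul_comm b a]
  push_cast
  rw [div_eq_mul_inv, mul_inv, mul_inv]
  ring

theorem kn_series {χ : DirichletCharacter ℂ q} (hχ : χ ≠ 1) {N : ℕ} (hN : 1 ≤ N) (W : ℂ → ℂ)
    (Y : ℝ) (j : ℕ) {b : ℕ} (hb : 1 ≤ b) (t : ℝ) :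
    ∑' a : ℕ, knF χ N W Y j b a t = W (1 / 2 + t * I) * ((Y : ℂ) ^ (1 / 2 + t * I : ℂ)) *
      (χ j * (j : ℂ) ^ (-1 - (1 / 2 + t * I)) * (b : ℂ)⁻¹ *
      ((Real.log (N / (4 * Real.pi ^ 2 * b)) : ℂ) * Zk χ b (1 + (1 / 2 + t * I)) +
        deriv (Zk χ b) (1 + (1 / 2 + t * I)))) := by
  set s : ℂ := 1 / 2 + t * I with hs
  have hre : (1 + s).re = 3 / 2 := by rw [hs]; simp; norm_num
  obtain ⟨z1, z2, z3⟩ := zk_series_pr χ hχ hb (s := 1 + s) (by rw [hre]; norm_num)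
  have hnorm : ∀ a : ℕ, 1 ≤ a → ‖(a : ℂ) ^ (-(1 + s))‖ = (a : ℝ) ^ (-(1 + s).re) := by
    intro a ha
    have ha' : (0 : ℝ) < a := by exact_mod_cast ha
    have := Complex.norm_cpow_eq_rpow_re_of_pos ha' (-(1 + s))
    rw [Complex.ofReal_natCast, Complex.neg_re] at this
    exact this
  have hτ : ∀ a : ℕ, 0 ≤ tau (b * a) := fun a => by unfold Pool.Agent.LSP.tau; positivity
  have s1 : Summable fun g : ℕ => (tau (b * g) : ℂ) * χ g * (g : ℂ) ^ (-(1 + s)) := by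
    refine Summable.of_norm_bounded z1 fun a => ?_
    rcases Nat.eq_zero_or_pos a with rfl | ha
    · simp [Pool.Agent.LSP.tau]
    have ha' : (1 : ℝ) ≤ a := by exact_mod_cast ha
    have hla : 0 ≤ Real.log a := Real.log_nonneg ha'
    have hap : (0 : ℝ) ≤ (a : ℝ) ^ (-(1 + s).re) := Real.rpow_nonneg (by linarith) _
    rw [norm_mul, norm_mul, hnorm a ha, Complex.norm_real, Real.norm_eq_abs, abs_of_nonneg (hτ a)]
    calc tau (b * a) * ‖χ a‖ * (a : ℝ) ^ (-(1 + s).re) ≤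
        tau (b * a) * 1 * (a : ℝ) ^ (-(1 + s).re) := by
          gcongr
          · exact hτ a
          · exact DirichletCharacter.norm_le_one χ _
      _ = tau (b * a) * (a : ℝ) ^ (-(1 + s).re) * 1 := by ring
      _ ≤ _ := mul_le_mul_of_nonneg_left (by linarith) (mul_nonneg (hτ a) hap)
  have s2 : Summable fun g : ℕ => (tau (b * g) : ℂ) * χ g * (Real.log g : ℂ) *
      (g : ℂ) ^ (-(1 + s)) := by
    refine Summable.of_norm_bounded z1 fun a => ?_
    rcases Nat.eq_zero_or_pos a with rfl | ha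
    · simp [Pool.Agent.LSP.tau]
    have ha' : (1 : ℝ) ≤ a := by exact_mod_cast ha
    have hla : 0 ≤ Real.log a := Real.log_nonneg ha'
    have hap : (0 : ℝ) ≤ (a : ℝ) ^ (-(1 + s).re) := Real.rpow_nonneg (by linarith) _
    rw [norm_mul, norm_mul, norm_mul, hnorm a ha, Complex.norm_real, Real.norm_eq_abs,
      abs_of_nonneg (hτ a), Complex.norm_real, Real.norm_eq_abs, abs_of_nonneg hla]
    calc tau (b * a) * ‖χ a‖ * Real.log a * (a : ℝ) ^ (-(1 + s).re) ≤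
        tau (b * a) * 1 * Real.log a * (a : ℝ) ^ (-(1 + s).re) := by
          gcongr
          · exact hτ a
          · exact DirichletCharacter.norm_le_one χ _
      _ = tau (b * a) * (a : ℝ) ^ (-(1 + s).re) * Real.log a := by ring
      _ ≤ _ := mul_le_mul_of_nonneg_left (by linarith) (mul_nonneg (hτ a) hap)
  set P : ℂ := W s * ((Y : ℂ) ^ s) * (χ j * (j : ℂ) ^ (-1 - s) * (b : ℂ)⁻¹) with hP
  have hterm : ∀ a : ℕ, knF χ N W Y j b a t =
      P * (Real.log (N / (4 * Real.pi ^ 2 * b)) : ℂ) *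
        ((tau (b * a) : ℂ) * χ a * (a : ℂ) ^ (-(1 + s))) -
      P * ((tau (b * a) : ℂ) * χ a * (Real.log a : ℂ) * (a : ℂ) ^ (-(1 + s))) := by
    intro a
    rcases Nat.eq_zero_or_pos a with rfl | ha
    · rw [kn_F_zero]
      simp [Pool.Agent.LSP.tau]
    unfold knF
    rw [← hs, kn_log hN hb ha, hP, show -1 - s = -(1 + s) by ring]
    push_cast
    ring
  rw [tsum_congr hterm, Summable.tsum_sub (s1.mul_left _) (s2.mul_left _), tsum_mul_left,
    tsum_mul_left, z2, z3, hP]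
  ring

/-- block KN: the diagonal terms -/
theorem sh_mellin_pr {χ : DirichletCharacter ℂ q} (hχ : χ ≠ 1) {w : ℝ → ℝ} {W : ℂ → ℂ}
    (hw : MW w W) {N e : ℕ} (hN : 1 ≤ N) (he : 1 ≤ e) {Y : ℝ} (hY : 0 < Y) :
    SH χ N (fun y => w (y / Y)) e = 1 / (2 * Real.pi) * ∫ t : ℝ, W (1 / 2 + t * I) *
      ((Y : ℂ) ^ (1 / 2 + t * I : ℂ)) * AA χ N e (1 / 2 + t * I) := by
  obtain ⟨CW, hW⟩ := hw.bdd (1 / 2) (1 / 2) (by norm_num)
  have hW' : ∀ t : ℝ, ‖W (1 / 2 + t * I)‖ ≤ |CW| * Real.exp (-|t|) := by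
    intro t
    have h := hW (1 / 2 + t * I) (by simp) (by simp)
    have him : (1 / 2 + t * I : ℂ).im = t := by simp
    rw [him] at h
    exact h.trans (mul_le_mul_of_nonneg_right (le_abs_self _) (Real.exp_pos _).le)
  -- one pair
  have hsum : ∀ b : ℕ, 1 ≤ b → Summable fun a : ℕ =>
      tau (b * a) * (a : ℝ) ^ (-(3 / 2) : ℝ) * (1 + Real.log a) := by
    intro b hb
    have h := (zk_series_pr χ hχ hb (s := 3 / 2) (by norm_num)).1
    have hre : (3 / 2 : ℂ).re = 3 / 2 := by norm_num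
    rw [hre] at h
    exact h
  have hpair : ∀ j b : ℕ, 1 ≤ j → 1 ≤ b →
      Integrable (fun t : ℝ => ∑' a : ℕ, knF χ N W Y j b a t) ∧
      ∑' a : ℕ, χ j * χ a * ((w (j * a / Y) / (j * a * b) * tau (a * b) *
      Real.log (N / (4 * Real.pi ^ 2 * (a * b))) : ℝ) : ℂ) =
      1 / (2 * Real.pi) * ∫ t : ℝ, ∑' a : ℕ, knF χ N W Y j b a t := by
    intro j b hj hb
    set K : ℝ := |CW| * Y ^ (1 / 2 : ℝ) * (|Real.log (N / (4 * Real.pi ^ 2 * b))| + 1) with hK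
    have hF : ∀ a : ℕ, Integrable (knF χ N W Y j b a) := fun a =>
      Integrable.mono' (kn_exp_int.const_mul (K *
        (tau (b * a) * (a : ℝ) ^ (-(3 / 2) : ℝ) * (1 + Real.log a))))
        (kn_F_cont hw χ N Y j b a).aestronglyMeasurable
        (Filter.Eventually.of_forall fun t => kn_F_norm hW' χ hN hY hj hb a t)
    have hS : Summable fun a : ℕ => ∫ t : ℝ, ‖knF χ N W Y j b a t‖ := by
      refine Summable.of_nonneg_of_le (fun a => integral_nonneg fun t => norm_nonneg _)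
        (fun a => ?_) (((hsum b hb).mul_left K).mul_right (∫ t : ℝ, Real.exp (-|t|)))
      rw [← integral_const_mul]
      exact integral_mono (hF a).norm (kn_exp_int.const_mul _)
        fun t => kn_F_norm hW' χ hN hY hj hb a t
    have hmain := hasSum_integral_of_summable_integral_norm hF hS
    constructor
    · have hb1 : ∀ t : ℝ, ‖∑' a : ℕ, knF χ N W Y j b a t‖ ≤
          (K * ∑' a : ℕ, tau (b * a) * (a : ℝ) ^ (-(3 / 2) : ℝ) * (1 + Real.log a)) *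
            Real.exp (-|t|) := by
        intro t
        refine tsum_of_norm_bounded (g := fun a : ℕ => K *
          (tau (b * a) * (a : ℝ) ^ (-(3 / 2) : ℝ) * (1 + Real.log a)) * Real.exp (-|t|)) ?_
          (fun a => kn_F_norm hW' χ hN hY hj hb a t)
        exact ((hsum b hb).hasSum.mul_left K).mul_right _
      refine Integrable.mono' (kn_exp_int.const_mul _) ?_ (Filter.Eventually.of_forall hb1)
      refine Continuous.aestronglyMeasurable ?_
      have hc : Continuous (fun t : ℝ => (1 + (1 / 2 + t * I) : ℂ)) := by fun_prop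
      simp only [kn_series hχ hN W Y j hb]
      refine ((kn_W_cont hw).mul kn_pow_cont).mul (((continuous_const.mul ?_).mul
        continuous_const).mul ((continuous_const.mul ?_).add ?_))
      · have : ∀ t : ℝ, (-1 - (1 / 2 + t * I) : ℂ) = -(1 + (1 / 2 + t * I)) := fun t => by ring
        simp only [this]
        exact kn_pow_cont'
      · exact (kn_zk_diff hχ b).continuous.comp hc
      · exact ((kn_zk_diff hχ b).contDiff.continuous_deriv (n := 1) le_rfl).comp hc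
    · rw [← hmain.tsum_eq, ← tsum_mul_left]
      exact tsum_congr fun a => kn_F_int hw χ N hY hj a
  unfold SH
  have hpos : ∀ p ∈ e.divisorsAntidiagonal, 1 ≤ p.1 ∧ 1 ≤ p.2 := by
    intro p hp
    have := Nat.mem_divisorsAntidiagonal.1 hp
    constructor
    · exact Nat.pos_of_ne_zero fun h => this.2 (by rw [← this.1, h, zero_mul])
    · exact Nat.pos_of_ne_zero fun h => this.2 (by rw [← this.1, h, mul_zero])
  rw [Finset.sum_congr rfl fun p hp => (hpair p.1 p.2 (hpos p hp).1 (hpos p hp).2).2,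
    ← Finset.mul_sum, ← integral_finsetSum _ fun p hp =>
      (hpair p.1 p.2 (hpos p hp).1 (hpos p hp).2).1]
  congr 1
  refine integral_congr_ae (Filter.Eventually.of_forall fun t => ?_)
  simp only
  rw [kn_AA hχ hN, Finset.mul_sum]
  exact Finset.sum_congr rfl fun p hp => kn_series hχ hN W Y p.1 (hpos p hp).2 t

end main

end Pool.Agent.LK

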