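import Pool.Agent.Lib_helper31.LK.DefsP
import Pool.Agent.Lib_helper19.H3.SH
import Mathlib

/-! LSP3, part K, block KO1: the residue at `0`. -/

set_option autoImplicit false

namespace Pool.Agent.LK

open Complex MeasureTheory Set Filter Topology

/-! ### the Gaussian -/

theorem ko1_inner {c : ℝ} (x : ℝ) :
    ∫ t : ℝ, cexp ((c + t * I) ^ 2 - (c + t * I) * x) =
      ((√Real.pi * Real.exp (-(1 / 4) * x ^ 2) : ℝ) : ℂ) := by
  have h1 := integral_cexp_quadratic (b := (-1 : ℂ)) (by simp) (I * (2 * c - x)) (c ^ 2 - c * x)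
  have e1 : ∀ t : ℝ, cexp ((c + t * I) ^ 2 - (c + t * I) * x) =
      cexp ((-1 : ℂ) * (t : ℂ) ^ 2 + I * (2 * c - x) * t + (c ^ 2 - c * x)) := by
    intro t
    congr 1
    have : I ^ 2 = -1 := I_sq
    linear_combination (t : ℂ) ^ 2 * this
  simp only [e1]
  rw [h1]
  push_cast
  congr 1
  · rw [neg_neg, div_one, Real.sqrt_eq_rpow, ofReal_cpow Real.pi_pos.le]
    norm_num
  · congr 1
    have : I ^ 2 = -1 := I_sq
    linear_combination (1 / 4 : ℂ) * (2 * c - x) ^ 2 * this

theorem ko1_gauss {c : ℝ} (hc : 0 < c) :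
    ∫ t : ℝ, cexp ((c + t * I) ^ 2) / (c + t * I) = (Real.pi : ℂ) := by
  have hre : ∀ t : ℝ, ((c : ℂ) + t * I).re = c := fun t => by simp
  have hne : ∀ t : ℝ, (c : ℂ) + t * I ≠ 0 := by
    intro t h
    have := congrArg Complex.re h
    rw [hre, zero_re] at this
    exact hc.ne' this
  have h1 : ∀ t : ℝ, cexp ((c + t * I) ^ 2) / (c + t * I) =
      ∫ x in Ioi (0 : ℝ), cexp ((c + t * I) ^ 2 - (c + t * I) * x) := by
    intro t
    have h2 := integral_exp_mul_complex_Ioi (a := -((c : ℂ) + t * I)) (by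
      rw [neg_re, hre]; linarith) 0
    have e : ∀ x : ℝ, cexp ((c + t * I) ^ 2 - (c + t * I) * x) =
        cexp ((c + t * I) ^ 2) * cexp (-((c : ℂ) + t * I) * x) := by
      intro x
      rw [← Complex.exp_add]
      congr 1
      ring
    simp only [e]
    rw [integral_const_mul, h2]
    have := hne t
    simp only [ofReal_zero, mul_zero, Complex.exp_zero]
    field_simp
  simp only [h1]
  have hint : Integrable (Function.uncurry fun (t x : ℝ) =>
      cexp ((c + t * I) ^ 2 - (c + t * I) * x)) (volume.prod (volume.restrict (Ioi (0 : ℝ)))) := by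
    have g1 : Integrable (fun t : ℝ => Real.exp (c ^ 2) * Real.exp (-(1 : ℝ) * t ^ 2)) :=
      (integrable_exp_neg_mul_sq one_pos).const_mul _
    have g2 : IntegrableOn (fun x : ℝ => Real.exp (-c * x)) (Ioi 0) := integrableOn_exp_mul_Ioi
      (by linarith) 0
    have g3 := Integrable.mul_prod g1 g2
    refine Integrable.mono' g3 ?_ ?_
    · apply Continuous.aestronglyMeasurable
      unfold Function.uncurry
      fun_prop
    · refine Eventually.of_forall ?_
      rintro ⟨t, x⟩
      simp only [Function.uncurry]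
      rw [Complex.norm_exp, ← Real.exp_add, ← Real.exp_add]
      apply Real.exp_le_exp.2
      apply le_of_eq
      simp only [sub_re, mul_re, add_re, ofReal_re, I_re, mul_zero, ofReal_im, I_im, mul_one,
        sub_self, add_zero, add_im, mul_im, zero_add, sq]
      ring
  rw [integral_integral_swap hint]
  simp only [ko1_inner]
  rw [integral_complex_ofReal, integral_const_mul, integral_gaussian_Ioi]
  congr 1
  have h3 : Real.pi / (1 / 4) = 2 ^ 2 * Real.pi := by ring
  rw [h3, Real.sqrt_mul (by norm_num), Real.sqrt_sq (by norm_num)]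
  have h4 := Real.mul_self_sqrt Real.pi_pos.le
  linear_combination h4

theorem ko1_gauss_neg {c : ℝ} (hc : 0 < c) :
    ∫ t : ℝ, cexp ((-(c : ℂ) + t * I) ^ 2) / (-(c : ℂ) + t * I) = -(Real.pi : ℂ) := by
  rw [← ko1_gauss hc, ← integral_neg,
    ← integral_neg_eq_self (fun t : ℝ => cexp ((-(c : ℂ) + t * I) ^ 2) / (-(c : ℂ) + t * I))]
  apply integral_congr_ae
  refine Eventually.of_forall (fun t => ?_)
  simp only
  push_cast
  have e1 : -(c : ℂ) + -(t : ℂ) * I = -(c + t * I) := by ring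
  rw [e1, neg_sq, div_neg]

/-! ### lines -/

theorem ko1_line {c w C : ℝ} (hc : c ≠ 0) (hcw : |c| < w) {H : ℂ → ℂ}
    (hd : ∀ s : ℂ, |s.re| < w → DifferentiableAt ℂ H s)
    (hb : ∀ s : ℂ, |s.re| < w → ‖H s‖ ≤ C * Real.exp (-|s.im|)) (i : ℕ) :
    Integrable (fun t : ℝ => H (c + t * I) / (c + t * I) ^ i) := by
  have hc0 : 0 < |c| := abs_pos.2 hc
  have hC : 0 ≤ C := by
    have := (norm_nonneg _).trans (hb 0 (by simpa using hc0.trans hcw))
    simpa using this
  have h := Pool.Agent.H3.sh_vert (f := fun s => H s / s ^ i) (x := c) (C := C / |c| ^ i)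
    (c := 1) one_pos (fun s hs => by
      have hs0 : s ≠ 0 := by
        intro h0
        rw [h0, zero_re] at hs
        exact hc hs.symm
      exact (hd s (by rw [hs]; exact hcw)).div (differentiableAt_id.pow i) (pow_ne_zero _ hs0))
    (fun s hs => by
      have h1 : |c| ≤ ‖s‖ := by rw [← hs]; exact abs_re_le_norm s
      rw [norm_div, norm_pow, one_mul, div_mul_eq_mul_div]
      exact div_le_div₀ (by positivity) (hb s (by rw [hs]; exact hcw)) (by positivity)
        (pow_le_pow_left₀ hc0.le h1 i))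
  exact h

/-- integration by parts -/
theorem ko1_parts {c w C w' C' : ℝ} (hc : c ≠ 0) (hcw : |c| < w) (hcw' : |c| < w') {H : ℂ → ℂ}
    (hd : ∀ s : ℂ, |s.re| < w → DifferentiableAt ℂ H s)
    (hb : ∀ s : ℂ, |s.re| < w → ‖H s‖ ≤ C * Real.exp (-|s.im|))
    (hd' : ∀ s : ℂ, |s.re| < w' → DifferentiableAt ℂ (deriv H) s)
    (hb' : ∀ s : ℂ, |s.re| < w' → ‖deriv H s‖ ≤ C' * Real.exp (-|s.im|)) (i : ℕ) :
    ∫ t : ℝ, deriv H (c + t * I) / (c + t * I) ^ (i + 1) =
      (i + 1) * ∫ t : ℝ, H (c + t * I) / (c + t * I) ^ (i + 2) := by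
  have hre : ∀ t : ℝ, ((c : ℂ) + t * I).re = c := fun t => by simp
  have hne : ∀ t : ℝ, (c : ℂ) + t * I ≠ 0 := by
    intro t h
    have := congrArg Complex.re h
    rw [hre, zero_re] at this
    exact hc this
  have i1 := ko1_line hc hcw hd hb (i + 1)
  have i2 := ko1_line hc hcw hd hb (i + 2)
  have i3 := ko1_line hc hcw' hd' hb' (i + 1)
  have hder : ∀ t : ℝ, HasDerivAt (fun t : ℝ => H (c + t * I) / (c + t * I) ^ (i + 1))
      (I * (deriv H (c + t * I) / (c + t * I) ^ (i + 1) -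
        (i + 1) * (H (c + t * I) / (c + t * I) ^ (i + 2)))) t := by
    intro t
    have a1 : HasDerivAt (fun t : ℝ => (c : ℂ) + t * I) I t := by
      simpa using ((hasDerivAt_id t).ofReal_comp.mul_const I).const_add (c : ℂ)
    have a2 : HasDerivAt H (deriv H (c + t * I)) (c + t * I) :=
      (hd _ (by rw [hre]; exact hcw)).hasDerivAt
    have a3 := a2.comp t a1
    have a4 : HasDerivAt (fun t : ℝ => ((c : ℂ) + t * I) ^ (i + 1))
        (((i + 1 : ℕ) : ℂ) * (c + t * I) ^ i * I) t := by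
      simpa using a1.fun_pow (i + 1)
    have a5 := a3.div a4 (pow_ne_zero _ (hne t))
    refine a5.congr_deriv ?_
    have := hne t
    simp only [Function.comp]
    push_cast
    field_simp
    ring
  have i4 := ((i3.sub (i2.const_mul ((i : ℂ) + 1))).const_mul I)
  have h0 := integral_eq_zero_of_hasDerivAt_of_integrable hder i4 i1
  rw [integral_const_mul, integral_sub i3 (i2.const_mul ((i : ℂ) + 1)), integral_const_mul] at h0
  have h1 := (mul_eq_zero.1 h0).resolve_left I_ne_zero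
  exact sub_eq_zero.1 h1

/-! ### the base case -/

theorem ko1_exp_bd (s : ℂ) (hs : |s.re| ≤ 1) : ‖cexp (s ^ 2)‖ ≤ Real.exp 2 * Real.exp (-|s.im|) := by
  rw [Complex.norm_exp, ← Real.exp_add]
  apply Real.exp_le_exp.2
  have h1 : (s ^ 2).re = s.re ^ 2 - s.im ^ 2 := by
    rw [sq, mul_re]; ring
  rw [h1]
  have h2 : s.re ^ 2 ≤ 1 := by
    have := abs_le.1 hs
    nlinarith
  nlinarith [sq_nonneg (|s.im| - 1 / 2), sq_abs s.im]

theorem ko1_base {w C : ℝ} (hw : 1 / 2 < w) (hw1 : w ≤ 1) {H : ℂ → ℂ}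
    (hd : ∀ s : ℂ, |s.re| < w → DifferentiableAt ℂ H s)
    (hb : ∀ s : ℂ, |s.re| < w → ‖H s‖ ≤ C * Real.exp (-|s.im|)) :
    (∫ t : ℝ, H (((1 / 2 : ℝ) : ℂ) + t * I) / (((1 / 2 : ℝ) : ℂ) + t * I)) -
      (∫ t : ℝ, H (((-(1 / 2) : ℝ) : ℂ) + t * I) / (((-(1 / 2) : ℝ) : ℂ) + t * I)) =
      2 * Real.pi * H 0 := by
  set f : ℂ → ℂ := fun s => H s - H 0 * cexp (s ^ 2) with hf
  have hf0 : f 0 = 0 := by simp [hf]
  have hfd : ∀ s : ℂ, |s.re| < w → DifferentiableAt ℂ f s := by
    intro s hs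
    exact (hd s hs).sub (by fun_prop)
  have hopen : IsOpen {s : ℂ | |s.re| < w} :=
    isOpen_lt (continuous_abs.comp continuous_re) continuous_const
  have h0mem : {s : ℂ | |s.re| < w} ∈ 𝓝 (0 : ℂ) := by
    apply hopen.mem_nhds
    simp only [mem_ofPred_eq, zero_re, abs_zero]
    linarith
  have hfd' : DifferentiableOn ℂ f {s : ℂ | |s.re| < w} := fun s hs =>
    (hfd s hs).differentiableWithinAt
  have hkd : DifferentiableOn ℂ (dslope f 0) {s : ℂ | |s.re| < w} :=
    (Complex.differentiableOn_dslope h0mem).2 hfd'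
  have hkd' : ∀ s : ℂ, |s.re| < w → DifferentiableAt ℂ (dslope f 0) s := fun s hs =>
    (hkd s hs).differentiableAt (hopen.mem_nhds hs)
  have hC : 0 ≤ C := by
    have := (norm_nonneg _).trans (hb 0 (by rw [zero_re, abs_zero]; linarith))
    simpa using this
  set D : ℝ := C + ‖H 0‖ * Real.exp 2 with hD
  have hD0 : 0 ≤ D := by positivity
  have hfb : ∀ s : ℂ, |s.re| < w → ‖f s‖ ≤ D * Real.exp (-|s.im|) := by
    intro s hs
    have h1 := hb s hs
    have h2 := ko1_exp_bd s (hs.le.trans hw1)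
    calc ‖f s‖ ≤ ‖H s‖ + ‖H 0 * cexp (s ^ 2)‖ := norm_sub_le _ _
      _ ≤ C * Real.exp (-|s.im|) + ‖H 0‖ * (Real.exp 2 * Real.exp (-|s.im|)) := by
          rw [norm_mul]
          exact add_le_add h1 (mul_le_mul_of_nonneg_left h2 (norm_nonneg _))
      _ = D * Real.exp (-|s.im|) := by rw [hD]; ring
  -- the bound for the divided function
  have hcpt : IsCompact (Icc (-(1 / 2) : ℝ) (1 / 2) ×ℂ Icc (-1 : ℝ) 1) :=
    isCompact_Icc.reProdIm isCompact_Icc
  have hcont : ContinuousOn (dslope f 0) (Icc (-(1 / 2) : ℝ) (1 / 2) ×ℂ Icc (-1 : ℝ) 1) := by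
    intro s hs
    rw [mem_reProdIm] at hs
    apply ContinuousAt.continuousWithinAt
    apply (hkd' s _).continuousAt
    exact lt_of_le_of_lt (abs_le.2 ⟨hs.1.1, hs.1.2⟩) hw
  obtain ⟨K, hK⟩ := hcpt.exists_bound_of_continuousOn hcont
  have hK0 : 0 ≤ K := (norm_nonneg _).trans (hK 0 (by
    rw [mem_reProdIm]; constructor <;> constructor <;> simp))
  have hkb : ∀ s : ℂ, -(1 / 2) ≤ s.re → s.re ≤ 1 / 2 →
      ‖dslope f 0 s‖ ≤ (K * Real.exp 1 + D) * Real.exp (-(1 * |s.im|)) := by
    intro s h1 h2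
    have hs : |s.re| < w := lt_of_le_of_lt (abs_le.2 ⟨h1, h2⟩) hw
    rw [one_mul]
    by_cases h3 : |s.im| ≤ 1
    · have h4 := hK s (by
        rw [mem_reProdIm]
        exact ⟨⟨h1, h2⟩, abs_le.1 h3⟩)
      calc ‖dslope f 0 s‖ ≤ K * 1 := by rw [mul_one]; exact h4
        _ ≤ K * (Real.exp 1 * Real.exp (-|s.im|)) := by
            apply mul_le_mul_of_nonneg_left _ hK0
            rw [← Real.exp_add]
            apply Real.one_le_exp
            linarith
        _ ≤ (K * Real.exp 1 + D) * Real.exp (-|s.im|) := by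
            have := mul_nonneg hD0 (Real.exp_pos (-|s.im|)).le
            nlinarith
    · push Not at h3
      have hs0 : s ≠ 0 := by
        intro h0
        rw [h0, zero_im, abs_zero] at h3
        linarith
      have h5 : (1 : ℝ) ≤ ‖s‖ := h3.le.trans (abs_im_le_norm s)
      rw [dslope_of_ne _ hs0, slope_def_field, hf0, sub_zero, sub_zero, norm_div]
      calc ‖f s‖ / ‖s‖ ≤ ‖f s‖ := div_le_self (norm_nonneg _) h5
        _ ≤ D * Real.exp (-|s.im|) := hfb s hs
        _ ≤ (K * Real.exp 1 + D) * Real.exp (-|s.im|) := by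
            apply mul_le_mul_of_nonneg_right _ (Real.exp_pos _).le
            have := mul_nonneg hK0 (Real.exp_pos 1).le
            linarith
  obtain ⟨_, _, hshift⟩ := Pool.Agent.H3.vert_shift_pr (f := dslope f 0) (a := -(1 / 2))
    (b := 1 / 2) (by norm_num) one_pos (fun s h1 h2 =>
      hkd' s (lt_of_le_of_lt (abs_le.2 ⟨h1, h2⟩) hw)) hkb
  -- the two lines
  have hline : ∀ c : ℝ, c ≠ 0 → |c| < w → ∫ t : ℝ, dslope f 0 (c + t * I) =
      (∫ t : ℝ, H (c + t * I) / (c + t * I)) -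
        H 0 * ∫ t : ℝ, cexp ((c + t * I) ^ 2) / (c + t * I) := by
    intro c hc hcw
    have hne : ∀ t : ℝ, (c : ℂ) + t * I ≠ 0 := by
      intro t h
      have := congrArg Complex.re h
      simp at this
      exact hc this
    have j1 := ko1_line hc hcw hd hb 1
    have j3 : Integrable (fun t : ℝ => cexp ((c + t * I) ^ 2) / (c + t * I) ^ 1) :=
      ko1_line (w := 1) (C := Real.exp 2) (H := fun s => cexp (s ^ 2)) hc (by linarith)
        (fun s _ => by fun_prop) (fun s hs => ko1_exp_bd s hs.le) 1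
    simp only [pow_one] at j1 j3
    rw [← integral_const_mul, ← integral_sub j1 (j3.const_mul _)]
    apply integral_congr_ae
    refine Eventually.of_forall (fun t => ?_)
    simp only
    rw [dslope_of_ne _ (hne t), slope_def_field, hf0, sub_zero, sub_zero, hf]
    simp only
    rw [sub_div, mul_div_assoc]
  have l1 := hline (1 / 2) (by norm_num) (by rw [abs_of_pos (by norm_num)]; exact hw)
  have l2 := hline (-(1 / 2)) (by norm_num) (by rw [abs_neg, abs_of_pos (by norm_num)]; exact hw)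
  have g1 := ko1_gauss (c := 1 / 2) (by norm_num)
  have g2 := ko1_gauss_neg (c := 1 / 2) (by norm_num)
  rw [g1] at l1
  have g3 : ∫ t : ℝ, cexp ((((-(1 / 2) : ℝ) : ℂ) + t * I) ^ 2) / (((-(1 / 2) : ℝ) : ℂ) + t * I) =
      -(Real.pi : ℂ) := by
    rw [← g2]
    push_cast
    rfl
  rw [g3] at l2
  rw [l1, l2] at hshift
  linear_combination -hshift

/-! ### the induction -/

theorem ko1_main (i : ℕ) : ∀ {w C : ℝ}, 1 / 2 < w → w ≤ 1 → ∀ {H : ℂ → ℂ},
    (∀ s : ℂ, |s.re| < w → DifferentiableAt ℂ H s) →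
    (∀ s : ℂ, |s.re| < w → ‖H s‖ ≤ C * Real.exp (-|s.im|)) →
    (∫ t : ℝ, H (((1 / 2 : ℝ) : ℂ) + t * I) / (((1 / 2 : ℝ) : ℂ) + t * I) ^ (i + 1)) -
      (∫ t : ℝ, H (((-(1 / 2) : ℝ) : ℂ) + t * I) / (((-(1 / 2) : ℝ) : ℂ) + t * I) ^ (i + 1)) =
      2 * Real.pi * (1 / (i.factorial : ℂ) * iteratedDeriv i H 0) := by
  induction i with
  | zero =>
    intro w C hw hw1 H hd hb
    have := ko1_base hw hw1 hd hb
    simpa using this
  | succ i ih =>
    intro w C hw hw1 H hd hb
    have hopen : IsOpen {s : ℂ | |s.re| < w} :=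
      isOpen_lt (continuous_abs.comp continuous_re) continuous_const
    have hdo : DifferentiableOn ℂ H {s : ℂ | |s.re| < w} := fun s hs =>
      (hd s hs).differentiableWithinAt
    set ρ : ℝ := (w - 1 / 2) / 2 with hρ
    have hρ0 : 0 < ρ := by rw [hρ]; linarith
    set w' : ℝ := w - ρ with hw'
    have hw'1 : 1 / 2 < w' := by rw [hw', hρ]; linarith
    have hC : 0 ≤ C := by
      have := (norm_nonneg _).trans (hb 0 (by rw [zero_re, abs_zero]; linarith))
      simpa using this
    have hd' : ∀ s : ℂ, |s.re| < w' → DifferentiableAt ℂ (deriv H) s := by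
      intro s hs
      exact (hdo.deriv hopen s (by
        show |s.re| < w
        linarith)).differentiableAt (hopen.mem_nhds (by
        show |s.re| < w
        linarith))
    have hb' : ∀ s : ℂ, |s.re| < w' →
        ‖deriv H s‖ ≤ (C * Real.exp ρ / ρ) * Real.exp (-|s.im|) := by
      intro s hs
      have hball : ∀ z ∈ Metric.closedBall s ρ, |z.re| < w := by
        intro z hz
        have h1 : |z.re - s.re| ≤ ρ := by
          rw [Metric.mem_closedBall, dist_eq_norm] at hz
          have := abs_re_le_norm (z - s)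
          rw [sub_re] at this
          exact this.trans hz
        calc |z.re| = |(z.re - s.re) + s.re| := by ring_nf
          _ ≤ |z.re - s.re| + |s.re| := abs_add_le _ _
          _ < w := by linarith
      have h2 := Complex.norm_deriv_le_of_forall_mem_sphere_norm_le (c := s) (R := ρ)
        (C := C * Real.exp ρ * Real.exp (-|s.im|)) (f := H) hρ0
        (DifferentiableOn.diffContOnCl (by
          rw [closure_ball s hρ0.ne']
          intro z hz
          exact (hd z (hball z hz)).differentiableWithinAt))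
        (fun z hz => by
          have hz' := Metric.sphere_subset_closedBall hz
          refine (hb z (hball z hz')).trans ?_
          rw [mul_assoc, ← Real.exp_add]
          apply mul_le_mul_of_nonneg_left _ hC
          apply Real.exp_le_exp.2
          have h1 : |s.im - z.im| ≤ ρ := by
            rw [Metric.mem_sphere, dist_comm, dist_eq_norm] at hz
            have := abs_im_le_norm (s - z)
            rw [sub_im] at this
            exact this.trans hz.le
          have h3 : |s.im| ≤ |s.im - z.im| + |z.im| := by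
            calc |s.im| = |(s.im - z.im) + z.im| := by ring_nf
              _ ≤ _ := abs_add_le _ _
          linarith)
      refine h2.trans (le_of_eq ?_)
      ring
    have hih := ih hw'1 (by linarith) hd' hb'
    have p1 := ko1_parts (c := 1 / 2) (w := w) (w' := w') (by norm_num)
      (by rw [abs_of_pos (by norm_num)]; exact hw) (by rw [abs_of_pos (by norm_num)]; exact hw'1)
      hd hb hd' hb' i
    have p2 := ko1_parts (c := -(1 / 2)) (w := w) (w' := w') (by norm_num)
      (by rw [abs_neg, abs_of_pos (by norm_num)]; exact hw)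
      (by rw [abs_neg, abs_of_pos (by norm_num)]; exact hw'1) hd hb hd' hb' i
    rw [p1, p2, ← iteratedDeriv_succ'] at hih
    have hi : ((i : ℂ) + 1) ≠ 0 := by exact_mod_cast Nat.succ_ne_zero i
    have hf : ((i.factorial : ℕ) : ℂ) ≠ 0 := by exact_mod_cast Nat.factorial_ne_zero i
    rw [Nat.factorial_succ]
    push_cast
    apply mul_left_cancel₀ hi
    have e : ((i : ℂ) + 1) * (2 * Real.pi * (1 / (((i : ℂ) + 1) * (i.factorial : ℂ)) *
        iteratedDeriv (i + 1) H 0)) =
        2 * Real.pi * (1 / (i.factorial : ℂ) * iteratedDeriv (i + 1) H 0) := by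
      field_simp
    rw [e, ← hih]
    push_cast
    ring

theorem res_shift_pr {H : ℂ → ℂ} {C : ℝ} (hd : ∀ s : ℂ, -(5 / 8) < s.re → s.re < 5 / 8 →
      DifferentiableAt ℂ H s)
    (hb : ∀ s : ℂ, -(5 / 8) < s.re → s.re < 5 / 8 → ‖H s‖ ≤ C * Real.exp (-|s.im|)) (i : ℕ) :
    Integrable (fun t : ℝ => H (1 / 2 + t * I) / (1 / 2 + t * I) ^ (i + 1)) ∧
    Integrable (fun t : ℝ => H (-(1 / 2) + t * I) / (-(1 / 2) + t * I) ^ (i + 1)) ∧
    1 / (2 * Real.pi) * (∫ t : ℝ, H (1 / 2 + t * I) / (1 / 2 + t * I) ^ (i + 1)) -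
      1 / (2 * Real.pi) * (∫ t : ℝ, H (-(1 / 2) + t * I) / (-(1 / 2) + t * I) ^ (i + 1)) =
      1 / (i.factorial : ℂ) * iteratedDeriv i H 0 := by
  have hd1 : ∀ s : ℂ, |s.re| < 5 / 8 → DifferentiableAt ℂ H s := fun s hs =>
    hd s (abs_lt.1 hs).1 (abs_lt.1 hs).2
  have hb1 : ∀ s : ℂ, |s.re| < 5 / 8 → ‖H s‖ ≤ C * Real.exp (-|s.im|) := fun s hs =>
    hb s (abs_lt.1 hs).1 (abs_lt.1 hs).2
  have e1 : ((1 / 2 : ℝ) : ℂ) = 1 / 2 := by push_cast; rfl
  have e2 : ((-(1 / 2) : ℝ) : ℂ) = -(1 / 2) := by push_cast; rfl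
  have i1 := ko1_line (c := 1 / 2) (by norm_num) (by rw [abs_of_pos] <;> norm_num) hd1 hb1 (i + 1)
  have i2 := ko1_line (c := -(1 / 2)) (by norm_num) (by rw [abs_neg, abs_of_pos] <;> norm_num)
    hd1 hb1 (i + 1)
  have h := ko1_main i (by norm_num) (by norm_num) hd1 hb1
  rw [e1] at i1 h
  rw [e2] at i2 h
  refine ⟨i1, i2, ?_⟩
  have hpi : (Real.pi : ℂ) ≠ 0 := ofReal_ne_zero.2 Real.pi_ne_zero
  rw [← mul_sub, h]
  field_simp

end Pool.Agent.LK
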