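import Pool.Agent.Lib_helper31.LK.DefsP
import Pool.Agent.Lib_helper98.GAF.Lgr
import Pool.Agent.Lib_helper98.H4F.GG

/-! LSP3, part K, block KO2: the residue function. -/

namespace Pool.Agent.LK

open Complex MeasureTheory Set
open Pool.Agent.LSP (tau GG tp KerL)

variable {q : ℕ} [NeZero q]

/-- functions of polynomial growth in the strip -/
def ko2_G (f : ℂ → ℂ) : Prop :=
  (∀ s : ℂ, -(5 / 8) < s.re → s.re < 5 / 8 → DifferentiableAt ℂ f s) ∧
    ∃ (C : ℝ) (A : ℕ), 0 ≤ C ∧ ∀ s : ℂ, -(5 / 8) < s.re → s.re < 5 / 8 →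
      ‖f s‖ ≤ C * (|s.im| + 2) ^ A

theorem ko2_const (c : ℂ) : ko2_G (fun _ => c) :=
  ⟨fun _ _ _ => differentiableAt_const _, ‖c‖, 0, norm_nonneg _, fun s _ _ => by simp⟩

theorem ko2_mul {f g : ℂ → ℂ} (hf : ko2_G f) (hg : ko2_G g) : ko2_G (fun s => f s * g s) := by
  obtain ⟨hf1, C, A, hC, hf2⟩ := hf
  obtain ⟨hg1, C', A', hC', hg2⟩ := hg
  refine ⟨fun s h1 h2 => (hf1 s h1 h2).mul (hg1 s h1 h2), C * C', A + A', mul_nonneg hC hC',
    fun s h1 h2 => ?_⟩
  rw [norm_mul]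
  calc ‖f s‖ * ‖g s‖ ≤ (C * (|s.im| + 2) ^ A) * (C' * (|s.im| + 2) ^ A') :=
        mul_le_mul (hf2 s h1 h2) (hg2 s h1 h2) (norm_nonneg _) (by positivity)
    _ = _ := by ring

theorem ko2_add {f g : ℂ → ℂ} (hf : ko2_G f) (hg : ko2_G g) : ko2_G (fun s => f s + g s) := by
  obtain ⟨hf1, C, A, hC, hf2⟩ := hf
  obtain ⟨hg1, C', A', hC', hg2⟩ := hg
  refine ⟨fun s h1 h2 => (hf1 s h1 h2).add (hg1 s h1 h2), C + C', A + A', add_nonneg hC hC',
    fun s h1 h2 => ?_⟩
  have h0 : (1 : ℝ) ≤ |s.im| + 2 := by linarith [abs_nonneg s.im]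
  have e1 : (|s.im| + 2) ^ A ≤ (|s.im| + 2) ^ (A + A') := pow_le_pow_right₀ h0 (by omega)
  have e2 : (|s.im| + 2) ^ A' ≤ (|s.im| + 2) ^ (A + A') := pow_le_pow_right₀ h0 (by omega)
  calc ‖f s + g s‖ ≤ ‖f s‖ + ‖g s‖ := norm_add_le _ _
    _ ≤ C * (|s.im| + 2) ^ A + C' * (|s.im| + 2) ^ A' := add_le_add (hf2 s h1 h2) (hg2 s h1 h2)
    _ ≤ C * (|s.im| + 2) ^ (A + A') + C' * (|s.im| + 2) ^ (A + A') :=
        add_le_add (mul_le_mul_of_nonneg_left e1 hC) (mul_le_mul_of_nonneg_left e2 hC')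
    _ = _ := by ring

theorem ko2_sum {ι : Type*} (S : Finset ι) {f : ι → ℂ → ℂ} (hf : ∀ i ∈ S, ko2_G (f i)) :
    ko2_G (fun s => ∑ i ∈ S, f i s) := by
  classical
  induction S using Finset.induction_on with
  | empty => simpa using ko2_const 0
  | insert a S ha ih =>
    have h1 := ko2_add (hf a (Finset.mem_insert_self a S))
      (ih fun i hi => hf i (Finset.mem_insert_of_mem hi))
    have h2 : (fun s => ∑ i ∈ insert a S, f i s) = fun s => f a s + ∑ i ∈ S, f i s := by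
      funext s
      exact Finset.sum_insert ha
    rw [h2]
    exact h1

theorem ko2_nat {n : ℕ} (hn : 0 < n) : ko2_G (fun s => (n : ℂ) ^ (-1 - s)) := by
  have hn0 : (n : ℂ) ≠ 0 := by exact_mod_cast hn.ne'
  refine ⟨fun s _ _ => ?_, 1, 0, zero_le_one, fun s h1 h2 => ?_⟩
  · exact DifferentiableAt.const_cpow (by fun_prop) (Or.inl hn0)
  · rw [Complex.norm_natCast_cpow_of_pos hn, pow_zero, mul_one]
    refine Real.rpow_le_one_of_one_le_of_nonpos (by exact_mod_cast hn) ?_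
    rw [Complex.sub_re, Complex.neg_re, Complex.one_re]
    linarith

theorem ko2_real {x : ℝ} (hx : 0 < x) : ko2_G (fun s => (x : ℂ) ^ s) := by
  have hx0 : (x : ℂ) ≠ 0 := by exact_mod_cast hx.ne'
  refine ⟨fun s _ _ => ?_, x ^ (5 / 8 : ℝ) + x ^ (-(5 / 8) : ℝ), 0, by positivity,
    fun s h1 h2 => ?_⟩
  · exact DifferentiableAt.const_cpow (by fun_prop) (Or.inl hx0)
  · rw [Complex.norm_cpow_eq_rpow_re_of_pos hx, pow_zero, mul_one]
    have p1 : 0 < x ^ (5 / 8 : ℝ) := Real.rpow_pos_of_pos hx _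
    have p2 : 0 < x ^ (-(5 / 8) : ℝ) := Real.rpow_pos_of_pos hx _
    rcases le_total 1 x with h | h
    · have := Real.rpow_le_rpow_of_exponent_le h h2.le
      linarith
    · have := Real.rpow_le_rpow_of_exponent_ge hx h h1.le
      linarith

theorem ko2_L {χ : DirichletCharacter ℂ q} (hχ : χ ≠ 1) :
    ko2_G (fun s => DirichletCharacter.LFunction χ (1 + s)) := by
  obtain ⟨C, hC, h⟩ := Pool.Agent.GA.LF_growth
  refine ⟨fun s _ _ => ?_, C * q, 1, by positivity, fun s h1 h2 => ?_⟩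
  · exact (DirichletCharacter.differentiable_LFunction hχ _).comp s
      ((differentiableAt_const _).add differentiableAt_id)
  · have h3 := h q χ hχ (1 + s) (by rw [Complex.add_re, Complex.one_re]; linarith)
    rw [Pool.Agent.GA.LF_eq] at h3
    have h4 : (1 + s).im = s.im := by rw [Complex.add_im, Complex.one_im, zero_add]
    rw [h4] at h3
    rw [pow_one]
    exact h3

theorem ko2_dL {χ : DirichletCharacter ℂ q} (hχ : χ ≠ 1) :
    ko2_G (fun s => deriv (DirichletCharacter.LFunction χ) (1 + s)) := by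
  obtain ⟨C, hC, h⟩ := Pool.Agent.GA.LF_growth
  have hd : Differentiable ℂ (DirichletCharacter.LFunction χ) :=
    DirichletCharacter.differentiable_LFunction hχ
  have hdd : Differentiable ℂ (deriv (DirichletCharacter.LFunction χ)) :=
    (hd.contDiff (n := 2)).differentiable_deriv_two
  refine ⟨fun s _ _ => ?_, C * q * 32, 1, by positivity, fun s h1 h2 => ?_⟩
  · exact (hdd _).comp s ((differentiableAt_const _).add differentiableAt_id)
  · have h3 : ‖deriv (DirichletCharacter.LFunction χ) (1 + s)‖ ≤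
        (C * q * (|s.im| + 3)) / (1 / 16 : ℝ) := by
      refine Complex.norm_deriv_le_of_forall_mem_sphere_norm_le (by norm_num)
        hd.diffContOnCl fun z hz => ?_
      rw [mem_sphere_iff_norm] at hz
      have r1 := (abs_re_le_norm (z - (1 + s))).trans_eq hz
      have r2 := (abs_im_le_norm (z - (1 + s))).trans_eq hz
      rw [Complex.sub_re, Complex.add_re, Complex.one_re] at r1
      rw [Complex.sub_im, Complex.add_im, Complex.one_im, zero_add] at r2
      have r3 := abs_le.1 r1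
      have h4 := h q χ hχ z (by linarith [r3.1])
      rw [Pool.Agent.GA.LF_eq] at h4
      refine h4.trans (mul_le_mul_of_nonneg_left ?_ (by positivity))
      have h5 : |z.im| ≤ |z.im - s.im| + |s.im| := by
        have := abs_add_le (z.im - s.im) s.im
        rwa [sub_add_cancel] at this
      linarith
    refine h3.trans ?_
    rw [pow_one, div_eq_mul_inv]
    have h6 : 0 ≤ C * q := by positivity
    have h7 := abs_nonneg s.im
    nlinarith [mul_nonneg h6 h7]

/-- the derivative of `Qe` in the second variable -/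
noncomputable def ko2_Q1 (χ : DirichletCharacter ℂ q) (e : ℕ) (s : ℂ) : ℂ :=
  ∑ p ∈ e.divisorsAntidiagonal, χ p.1 * (p.1 : ℂ) ^ (-1 - s) *
    ((p.2 : ℂ) ^ (-1 : ℂ) * (-Complex.log (p.2 : ℂ)) *
      (∑ h ∈ p.2.divisors, (ArithmeticFunction.moebius h : ℂ) * χ h * (h : ℂ) ^ (-1 - s) *
        (tau (p.2 / h) : ℂ)) +
    (p.2 : ℂ) ^ (-1 : ℂ) *
      ∑ h ∈ p.2.divisors, (ArithmeticFunction.moebius h : ℂ) * χ h *
        ((h : ℂ) ^ (-1 - s) * (-Complex.log (h : ℂ))) * (tau (p.2 / h) : ℂ))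

theorem ko2_cpow {x : ℂ} (hx : x ≠ 0) (a : ℂ) : HasDerivAt (fun r : ℂ => x ^ (a - r))
    (x ^ a * (-Complex.log x)) 0 := by
  have h1 : HasDerivAt (fun r : ℂ => a - r) (-1) 0 := by
    simpa using (hasDerivAt_id (0 : ℂ)).const_sub a
  have h2 := h1.const_cpow (c := x) (Or.inl hx)
  simp only [sub_zero] at h2
  convert h2 using 1
  ring

theorem ko2_Qe (χ : DirichletCharacter ℂ q) {e : ℕ} (he : 1 ≤ e) (s : ℂ) :
    HasDerivAt (fun r : ℂ => Qe χ e s r) (ko2_Q1 χ e s) 0 := by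
  unfold Qe ko2_Q1
  refine HasDerivAt.fun_sum fun p hp => ?_
  have hp' := Nat.mem_divisorsAntidiagonal.1 hp
  have hp2 : p.2 ≠ 0 := by
    rintro h0
    rw [h0, mul_zero] at hp'
    exact hp'.2 hp'.1.symm
  have c2 : (p.2 : ℂ) ≠ 0 := by exact_mod_cast hp2
  have d1 := ko2_cpow c2 (-1)
  have d2 : HasDerivAt (fun r : ℂ => ∑ h ∈ p.2.divisors, (ArithmeticFunction.moebius h : ℂ) * χ h *
      (h : ℂ) ^ (-1 - s - r) * (tau (p.2 / h) : ℂ))
      (∑ h ∈ p.2.divisors, (ArithmeticFunction.moebius h : ℂ) * χ h *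
        ((h : ℂ) ^ (-1 - s) * (-Complex.log (h : ℂ))) * (tau (p.2 / h) : ℂ)) 0 := by
    refine HasDerivAt.fun_sum fun h hh => ?_
    have hh0 : (h : ℂ) ≠ 0 := by
      have := Nat.pos_of_mem_divisors hh
      exact_mod_cast this.ne'
    exact ((ko2_cpow hh0 (-1 - s)).const_mul _).mul_const _
  have d3 := (d1.mul d2).const_mul (χ p.1 * (p.1 : ℂ) ^ (-1 - s))
  simp only [sub_zero] at d3
  refine d3.congr_of_eventuallyEq ?_ |>.congr_deriv ?_
  · refine Filter.Eventually.of_forall fun r => ?_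
    simp only [Pi.mul_apply]
    ring
  · rfl

theorem ko2_AA {χ : DirichletCharacter ℂ q} (hχ : χ ≠ 1) {N e : ℕ} (hN : 1 ≤ N) (he : 1 ≤ e)
    (s : ℂ) : AA χ N e s =
      (Complex.log (((N : ℝ) / (4 * Real.pi ^ 2) : ℝ) : ℂ) *
        (DirichletCharacter.LFunction χ (1 + s) * DirichletCharacter.LFunction χ (1 + s)) +
        2 * (DirichletCharacter.LFunction χ (1 + s) *
          deriv (DirichletCharacter.LFunction χ) (1 + s))) * Qe χ e s 0 +
      (DirichletCharacter.LFunction χ (1 + s) * DirichletCharacter.LFunction χ (1 + s)) *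
        ko2_Q1 χ e s := by
  unfold AA
  have hK : (0 : ℝ) < (N : ℝ) / (4 * Real.pi ^ 2) := by
    have := Real.pi_pos
    have hN' : (0 : ℝ) < N := by exact_mod_cast hN
    positivity
  have hK0 : ((((N : ℝ) / (4 * Real.pi ^ 2) : ℝ)) : ℂ) ≠ 0 := by exact_mod_cast hK.ne'
  have d1 : HasDerivAt (fun r : ℂ => (((N : ℝ) / (4 * Real.pi ^ 2) : ℝ) : ℂ) ^ r)
      ((((N : ℝ) / (4 * Real.pi ^ 2) : ℝ) : ℂ) ^ (0 : ℂ) *
        Complex.log (((N : ℝ) / (4 * Real.pi ^ 2) : ℝ) : ℂ) * 1) 0 :=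
    (hasDerivAt_id (0 : ℂ)).const_cpow (Or.inl hK0)
  have d2 : HasDerivAt (fun r : ℂ => DirichletCharacter.LFunction χ (1 + s + r))
      (deriv (DirichletCharacter.LFunction χ) (1 + s + 0)) 0 := by
    have h1 : HasDerivAt (fun r : ℂ => 1 + s + r) 1 0 := (hasDerivAt_id (0 : ℂ)).const_add _
    have h2 := ((DirichletCharacter.differentiable_LFunction hχ (1 + s + 0)).hasDerivAt).comp
      (0 : ℂ) h1
    rw [mul_one] at h2
    exact h2
  have d3 := (d1.mul (d2.pow 2)).mul (ko2_Qe χ he s)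
  have d4 := d3.deriv
  simp only [add_zero, cpow_zero, one_mul, mul_one] at d4
  have d5 : deriv (fun r : ℂ => (((N : ℝ) / (4 * Real.pi ^ 2) : ℝ) : ℂ) ^ r *
      DirichletCharacter.LFunction χ (1 + s + r) ^ 2 * Qe χ e s r) 0 = _ := d4
  rw [d5]
  simp only [Pi.mul_apply, Pi.pow_apply, add_zero, cpow_zero]
  push_cast
  ring

theorem ko2_GAA {χ : DirichletCharacter ℂ q} (hχ : χ ≠ 1) {N e : ℕ} (hN : 1 ≤ N) (he : 1 ≤ e) :
    ko2_G (AA χ N e) := by
  have h0 : AA χ N e = _ := funext fun s => ko2_AA hχ hN he s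
  rw [h0]
  have hL := ko2_L hχ
  have hdL := ko2_dL hχ
  have hp : ∀ p ∈ e.divisorsAntidiagonal, 0 < p.1 ∧ 0 < p.2 := by
    intro p hp
    have hp' := Nat.mem_divisorsAntidiagonal.1 hp
    refine ⟨Nat.pos_of_ne_zero fun h0 => ?_, Nat.pos_of_ne_zero fun h0 => ?_⟩
    · rw [h0, zero_mul] at hp'
      exact hp'.2 hp'.1.symm
    · rw [h0, mul_zero] at hp'
      exact hp'.2 hp'.1.symm
  have hQ0 : ko2_G (fun s => Qe χ e s 0) := by
    unfold Qe
    refine ko2_sum _ fun p h => ?_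
    refine ko2_mul (ko2_mul (ko2_mul (ko2_const _) (ko2_nat (hp p h).1)) (ko2_const _))
      (ko2_sum _ fun d hd => ?_)
    have hd' := Nat.pos_of_mem_divisors hd
    simp only [sub_zero]
    exact ko2_mul (ko2_mul (ko2_const _) (ko2_nat hd')) (ko2_const _)
  have hQ1 : ko2_G (fun s => ko2_Q1 χ e s) := by
    unfold ko2_Q1
    refine ko2_sum _ fun p h => ?_
    refine ko2_mul (ko2_mul (ko2_const _) (ko2_nat (hp p h).1)) (ko2_add (ko2_mul (ko2_const _)
      (ko2_sum _ fun d hd => ?_)) (ko2_mul (ko2_const _) (ko2_sum _ fun d hd => ?_)))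
    · have hd' := Nat.pos_of_mem_divisors hd
      exact ko2_mul (ko2_mul (ko2_const _) (ko2_nat hd')) (ko2_const _)
    · have hd' := Nat.pos_of_mem_divisors hd
      exact ko2_mul (ko2_mul (ko2_const _) (ko2_mul (ko2_nat hd') (ko2_const _))) (ko2_const _)
  exact ko2_add (ko2_mul (ko2_add (ko2_mul (ko2_const _) (ko2_mul hL hL))
    (ko2_mul (ko2_const _) (ko2_mul hL hdL))) hQ0) (ko2_mul (ko2_mul hL hL) hQ1)

theorem ko2_Gamma : ∃ C : ℝ, 0 ≤ C ∧ ∀ s : ℂ, -(5 / 8) < s.re → s.re < 5 / 8 →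
    ‖Complex.Gamma (1 + s)‖ ≤ C * Real.exp (-(13 / 10 * |s.im|)) := by
  have hc : ContinuousOn Real.Gamma (Icc (3 / 8 : ℝ) (13 / 8)) := by
    intro x hx
    refine (Real.differentiableAt_Gamma fun m => ?_).continuousAt.continuousWithinAt
    intro h
    have h1 : (0 : ℝ) ≤ m := Nat.cast_nonneg m
    linarith [hx.1]
  obtain ⟨M, hM⟩ := isCompact_Icc.exists_bound_of_continuousOn hc
  have hpi := Real.pi_gt_d2
  have hcos : 0 < Real.cos (13 / 10) := Real.cos_pos_of_mem_Ioo ⟨by linarith, by linarith⟩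
  have hM0 : 0 ≤ M := (norm_nonneg _).trans (hM 1 ⟨by norm_num, by norm_num⟩)
  refine ⟨M * Real.cos (13 / 10) ^ (-2 : ℝ), by positivity, fun s h1 h2 => ?_⟩
  have key : ∀ θ : ℝ, |θ| = 13 / 10 → θ * s.im = 13 / 10 * |s.im| →
      ‖Complex.Gamma (1 + s)‖ ≤ M * Real.cos (13 / 10) ^ (-2 : ℝ) *
        Real.exp (-(13 / 10 * |s.im|)) := by
    intro θ hθ hθ2
    have h3 := Pool.Agent.H4.norm_Gamma_rot (x := 1 + s.re) (y := s.im) (θ := θ) (by linarith)
      (by rw [hθ]; linarith)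
    have h4 : (((1 + s.re : ℝ) : ℂ) + (s.im : ℂ) * I) = 1 + s := by
      apply Complex.ext <;> simp
    rw [h4, hθ2, ← Real.cos_abs θ, hθ] at h3
    refine h3.trans ?_
    have h5 : Real.Gamma (1 + s.re) ≤ M := by
      have := hM (1 + s.re) ⟨by linarith, by linarith⟩
      exact (le_abs_self _).trans this
    have h6 : Real.cos (13 / 10) ^ (-(1 + s.re)) ≤ Real.cos (13 / 10) ^ (-2 : ℝ) :=
      Real.rpow_le_rpow_of_exponent_ge hcos (Real.cos_le_one _) (by linarith)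
    have h7 : 0 ≤ Real.Gamma (1 + s.re) := (Real.Gamma_pos_of_pos (by linarith)).le
    calc Real.exp (-(13 / 10 * |s.im|)) * Real.Gamma (1 + s.re) *
          Real.cos (13 / 10) ^ (-(1 + s.re)) ≤ Real.exp (-(13 / 10 * |s.im|)) * M *
          Real.cos (13 / 10) ^ (-2 : ℝ) := by gcongr
      _ = _ := by ring
  rcases le_total 0 s.im with h | h
  · exact key (13 / 10) (abs_of_pos (by norm_num)) (by rw [abs_of_nonneg h])
  · refine key (-(13 / 10)) (by rw [abs_neg, abs_of_pos (by norm_num)]) ?_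
    rw [abs_of_nonpos h]
    ring

theorem ko2_exp (A : ℕ) (y : ℝ) (hy : 0 ≤ y) : (y + 2) ^ A * Real.exp (-(13 / 10 * y)) ≤
    (A.factorial * (10 / 3) ^ A * Real.exp (6 / 10)) * Real.exp (-y) := by
  have h1 := Real.pow_div_factorial_le_exp (3 / 10 * (y + 2)) (by positivity) A
  rw [div_le_iff₀ (by positivity), mul_pow] at h1
  have h2 : (y + 2) ^ A = (10 / 3) ^ A * ((3 / 10) ^ A * (y + 2) ^ A) := by
    rw [← mul_assoc, ← mul_pow]
    norm_num
  rw [h2]
  calc (10 / 3 : ℝ) ^ A * ((3 / 10) ^ A * (y + 2) ^ A) * Real.exp (-(13 / 10 * y))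
      ≤ (10 / 3 : ℝ) ^ A * (Real.exp (3 / 10 * (y + 2)) * A.factorial) *
        Real.exp (-(13 / 10 * y)) := by gcongr
    _ = (A.factorial * (10 / 3) ^ A) * (Real.exp (3 / 10 * (y + 2)) *
        Real.exp (-(13 / 10 * y))) := by ring
    _ = (A.factorial * (10 / 3) ^ A) * (Real.exp (6 / 10) * Real.exp (-y)) := by
        rw [← Real.exp_add, ← Real.exp_add]
        congr 2
        ring
    _ = _ := by ring

theorem hh_bound_pr {χ : DirichletCharacter ℂ q} (hχ : χ ≠ 1) {N e : ℕ} (hN : 1 ≤ N) (he : 1 ≤ e)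
    {Y : ℝ} (hY : 0 < Y) : (∀ s : ℂ, -(5 / 8) < s.re → s.re < 5 / 8 →
      DifferentiableAt ℂ (HH χ N e Y) s) ∧
    ∃ C : ℝ, ∀ s : ℂ, -(5 / 8) < s.re → s.re < 5 / 8 →
      ‖HH χ N e Y s‖ ≤ C * Real.exp (-|s.im|) := by
  have hpi := Real.pi_pos
  obtain ⟨h1, C, A, hC, h2⟩ := ko2_mul (ko2_real (x := Y / (2 * Real.pi)) (by positivity))
    (ko2_GAA hχ hN he)
  constructor
  · intro s hs1 hs2
    have d1 : DifferentiableAt ℂ (fun s : ℂ => Complex.Gamma (1 + s)) s := by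
      have hg : DifferentiableAt ℂ Complex.Gamma (1 + s) := by
        refine Complex.differentiableAt_Gamma _ fun m h => ?_
        have h3 := congrArg Complex.re h
        rw [Complex.add_re, Complex.one_re, Complex.neg_re, Complex.natCast_re] at h3
        have h4 : (0 : ℝ) ≤ m := Nat.cast_nonneg m
        linarith
      exact hg.comp s ((differentiableAt_const _).add differentiableAt_id)
    have d2 := (h1 s hs1 hs2).mul d1
    refine d2.congr_of_eventuallyEq (Filter.Eventually.of_forall fun z => ?_)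
    show HH χ N e Y z = _
    unfold HH
    simp only [Pi.mul_apply]
    ring
  · obtain ⟨G, hG0, hG⟩ := ko2_Gamma
    refine ⟨C * G * (A.factorial * (10 / 3) ^ A * Real.exp (6 / 10)), fun s hs1 hs2 => ?_⟩
    have h3 := h2 s hs1 hs2
    have h4 := hG s hs1 hs2
    have h5 := ko2_exp A |s.im| (abs_nonneg _)
    have h6 : HH χ N e Y s = ((((Y / (2 * Real.pi) : ℝ) : ℂ) ^ s) * AA χ N e s) *
        Complex.Gamma (1 + s) := by
      unfold HH
      ring
    rw [h6, norm_mul]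
    calc _ ≤ (C * (|s.im| + 2) ^ A) * (G * Real.exp (-(13 / 10 * |s.im|))) :=
          mul_le_mul h3 h4 (norm_nonneg _) (by positivity)
      _ = C * G * ((|s.im| + 2) ^ A * Real.exp (-(13 / 10 * |s.im|))) := by ring
      _ ≤ C * G * ((A.factorial * (10 / 3) ^ A * Real.exp (6 / 10)) * Real.exp (-|s.im|)) :=
          mul_le_mul_of_nonneg_left h5 (by positivity)
      _ = _ := by ring


end Pool.Agent.LK
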