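import Pool.Agent.Lib_helper31.LK.DefsP
import Pool.Agent.Lib_helper98.H4F.GG
import Mathlib.Analysis.MellinInversion
import Mathlib.Analysis.MellinTransform

/-!
# LK, block KP0: the first weight
-/

namespace Pool.Agent.LK

open Complex MeasureTheory Set
open Pool.Agent.LSP (tau GG tp KerL)

theorem kp0_exp : Integrable (fun u : ℝ => Real.exp (-|u|)) := by
  have h1 : IntegrableOn (fun u : ℝ => Real.exp (-|u|)) (Ioi 0) := by
    apply (integrableOn_exp_neg_Ioi 0).congr_fun _ measurableSet_Ioi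
    intro u hu
    have hu : 0 < u := hu
    change Real.exp (-u) = Real.exp (-|u|)
    rw [abs_of_pos hu]
  have h2 : IntegrableOn (fun u : ℝ => Real.exp (-|u|)) (Iic 0) := by
    apply (integrableOn_exp_Iic 0).congr_fun _ measurableSet_Iic
    intro u hu
    have hu : u ≤ 0 := hu
    change Real.exp u = Real.exp (-|u|)
    rw [abs_of_nonpos hu, neg_neg]
  have h3 := h2.union h1
  rwa [Iic_union_Ioi, integrableOn_univ] at h3

/-- decay of the Gamma function on vertical strips -/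
theorem kp0_Gamma {x y : ℝ} (hx : 0 < x) :
    ∃ C : ℝ, 0 ≤ C ∧ ∀ w : ℂ, x ≤ w.re → w.re ≤ y → ‖Gamma w‖ ≤ C * Real.exp (-|w.im|) := by
  have hθ : (1 : ℝ) < Real.pi / 2 := by linarith [Real.pi_gt_three]
  have hcos : 0 < Real.cos 1 := Real.cos_one_pos
  have hcont : ContinuousOn (fun t : ℝ => Real.Gamma t * (Real.cos 1) ^ (-t)) (Set.Icc x y) := by
    refine ContinuousOn.mul ?_ ?_
    · intro t ht
      refine (Real.differentiableAt_Gamma (fun m hm => ?_)).continuousAt.continuousWithinAt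
      have h1 : 0 < t := lt_of_lt_of_le hx ht.1
      rw [hm] at h1
      have : (0 : ℝ) ≤ m := Nat.cast_nonneg m
      linarith
    · refine Continuous.continuousOn ?_
      exact Continuous.rpow continuous_const (by fun_prop) (fun t => Or.inl hcos.ne')
  obtain ⟨C, hC⟩ := isCompact_Icc.exists_bound_of_continuousOn hcont
  refine ⟨max C 0, le_max_right _ _, fun w h1 h2 => ?_⟩
  have hw : (w.re : ℂ) + (w.im : ℂ) * I = w := re_add_im w
  have hre : 0 < w.re := lt_of_lt_of_le hx h1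
  have h3 := hC w.re ⟨h1, h2⟩
  rw [Real.norm_eq_abs] at h3
  have h4 : Real.Gamma w.re * (Real.cos 1) ^ (-w.re) ≤ max C 0 :=
    (le_abs_self _).trans (h3.trans (le_max_left _ _))
  rcases le_total 0 w.im with him | him
  · have h5 := Pool.Agent.H4.norm_Gamma_rot (x := w.re) (y := w.im) (θ := 1) hre
      (by rw [abs_of_nonneg zero_le_one]; exact hθ)
    rw [hw, one_mul] at h5
    rw [abs_of_nonneg him]
    calc ‖Gamma w‖ ≤ Real.exp (-w.im) * Real.Gamma w.re * Real.cos 1 ^ (-w.re) := h5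
      _ = (Real.Gamma w.re * Real.cos 1 ^ (-w.re)) * Real.exp (-w.im) := by ring
      _ ≤ _ := mul_le_mul_of_nonneg_right h4 (Real.exp_pos _).le
  · have h5 := Pool.Agent.H4.norm_Gamma_rot (x := w.re) (y := w.im) (θ := -1) hre
      (by rw [abs_neg, abs_of_nonneg zero_le_one]; exact hθ)
    rw [hw, Real.cos_neg] at h5
    rw [abs_of_nonpos him]
    calc ‖Gamma w‖ ≤ Real.exp (-(-1 * w.im)) * Real.Gamma w.re * Real.cos 1 ^ (-w.re) := h5
      _ = (Real.Gamma w.re * Real.cos 1 ^ (-w.re)) * Real.exp (- -w.im) := by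
          rw [show -(-1 * w.im) = - -w.im by ring]; ring
      _ ≤ _ := mul_le_mul_of_nonneg_right h4 (Real.exp_pos _).le

theorem kp0_base : (2 * Real.pi : ℂ) = ((2 * Real.pi : ℝ) : ℂ) := by push_cast; rfl

theorem kp0_bound {a b : ℝ} (ha : 0 < a) : ∃ C : ℝ, ∀ s : ℂ, a ≤ s.re → s.re ≤ b →
    ‖(2 * Real.pi : ℂ) ^ (-s) * Gamma s‖ ≤ C * Real.exp (-|s.im|) := by
  obtain ⟨C, hC0, hC⟩ := kp0_Gamma (x := a) (y := b) ha
  refine ⟨C, fun s h1 h2 => ?_⟩
  have h2π : (1 : ℝ) ≤ 2 * Real.pi := by linarith [Real.pi_gt_three]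
  have h3 : ‖(2 * Real.pi : ℂ) ^ (-s)‖ ≤ 1 := by
    rw [kp0_base, Complex.norm_cpow_eq_rpow_re_of_pos (by linarith)]
    rw [Complex.neg_re]
    exact Real.rpow_le_one_of_one_le_of_nonpos h2π (by linarith)
  rw [norm_mul]
  calc ‖(2 * Real.pi : ℂ) ^ (-s)‖ * ‖Gamma s‖ ≤ 1 * ‖Gamma s‖ := by gcongr
    _ = ‖Gamma s‖ := one_mul _
    _ ≤ _ := hC s h1 h2

theorem kp0_diff {s : ℂ} (hs : 0 < s.re) :
    DifferentiableAt ℂ (fun s : ℂ => (2 * Real.pi : ℂ) ^ (-s) * Gamma s) s := by
  have h1 : DifferentiableAt ℂ Gamma s := by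
    refine differentiableAt_Gamma s (fun m hm => ?_)
    rw [hm] at hs
    simp only [neg_re, natCast_re] at hs
    have : (0 : ℝ) ≤ m := Nat.cast_nonneg m
    linarith
  have h2 : DifferentiableAt ℂ (fun s : ℂ => (2 * Real.pi : ℂ) ^ (-s)) s := by
    refine DifferentiableAt.const_cpow (differentiableAt_id.neg) (Or.inl ?_)
    rw [kp0_base]
    exact_mod_cast (by positivity : (2 * Real.pi : ℝ) ≠ 0)
  exact h2.mul h1

theorem kp0_mellin {s : ℂ} (hs : 0 < s.re) :
    mellin (fun y : ℝ => (V 0 y : ℂ)) s = (2 * Real.pi : ℂ) ^ (-s) * Gamma s := by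
  have h1 := Complex.integral_cpow_mul_exp_neg_mul_Ioi (a := s) (r := 2 * Real.pi) hs (by positivity)
  have h2 : (1 / ((2 * Real.pi : ℝ) : ℂ)) ^ s = (2 * Real.pi : ℂ) ^ (-s) := by
    rw [one_div, Complex.inv_cpow, Complex.cpow_neg, kp0_base]
    rw [Complex.arg_ofReal_of_nonneg (by positivity)]
    exact Real.pi_pos.ne
  rw [h2] at h1
  rw [← h1]
  unfold mellin
  refine setIntegral_congr_fun measurableSet_Ioi (fun t _ => ?_)
  change (t : ℂ) ^ (s - 1) • ((V 0 t : ℝ) : ℂ) =
    (t : ℂ) ^ (s - 1) * cexp (-(((2 * Real.pi : ℝ) : ℂ) * t))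
  rw [smul_eq_mul]
  congr 1
  unfold V
  push_cast
  rfl

/-- block KP0 -/
theorem mw_V0_pr : MW (V 0) (fun s => (2 * Real.pi : ℂ) ^ (-s) * Complex.Gamma s) := by
  constructor
  · intro s hs
    exact kp0_diff hs
  · intro a b ha
    exact kp0_bound ha
  · intro c hc y hy
    have hre : ∀ u : ℝ, ((c : ℂ) + u * I).re = c := fun u => by simp
    have him : ∀ u : ℝ, ((c : ℂ) + u * I).im = u := fun u => by simp
    have hconv : MellinConvergent (fun y : ℝ => (V 0 y : ℂ)) (c : ℂ) := by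
      by_contra hn
      have h1 := kp0_mellin (s := (c : ℂ)) (by simpa using hc)
      unfold mellin at h1
      rw [integral_undef hn] at h1
      have h2 : (2 * Real.pi : ℂ) ^ (-(c : ℂ)) * Gamma (c : ℂ) ≠ 0 := by
        refine mul_ne_zero ?_ (Complex.Gamma_ne_zero_of_re_pos (by simpa using hc))
        rw [kp0_base]
        rw [Ne, Complex.cpow_eq_zero_iff, not_and_or]
        left
        exact_mod_cast (by positivity : (2 * Real.pi : ℝ) ≠ 0)
      exact h2 h1.symm
    have hvert : VerticalIntegrable (mellin (fun y : ℝ => (V 0 y : ℂ))) c := by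
      obtain ⟨C, hC⟩ := kp0_bound (a := c) (b := c) hc
      have hEq : (fun u : ℝ => mellin (fun y : ℝ => (V 0 y : ℂ)) ((c : ℂ) + u * I)) =
          fun u : ℝ => (2 * Real.pi : ℂ) ^ (-((c : ℂ) + u * I)) * Gamma ((c : ℂ) + u * I) := by
        funext u
        exact kp0_mellin (by rw [hre]; exact hc)
      unfold VerticalIntegrable
      rw [hEq]
      refine Integrable.mono' (kp0_exp.const_mul C) ?_ ?_
      · refine Continuous.aestronglyMeasurable ?_
        rw [continuous_iff_continuousAt]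
        intro u
        have h1 : ContinuousAt (fun s : ℂ => (2 * Real.pi : ℂ) ^ (-s) * Gamma s) ((c : ℂ) + u * I) :=
          (kp0_diff (by rw [hre]; exact hc)).continuousAt
        have h2 : ContinuousAt (fun u : ℝ => (c : ℂ) + u * I) u := by fun_prop
        exact ContinuousAt.comp (f := fun u : ℝ => (c : ℂ) + u * I) h1 h2
      · refine Filter.Eventually.of_forall (fun u => ?_)
        have := hC ((c : ℂ) + u * I) (hre u).ge (hre u).le
        rwa [him] at this
    have hcont : ContinuousAt (fun y : ℝ => (V 0 y : ℂ)) y := by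
      unfold V
      fun_prop
    have h1 := mellinInv_mellin_eq c (fun y : ℝ => (V 0 y : ℂ)) hy hconv hvert hcont
    have h2 : (V 0 y : ℂ) = mellinInv c (mellin fun y : ℝ => (V 0 y : ℂ)) y := h1.symm
    rw [h2]
    unfold mellinInv
    rw [Complex.real_smul]
    congr 1
    · push_cast
      ring
    · refine integral_congr_ae (Filter.Eventually.of_forall (fun u => ?_))
      change (y : ℂ) ^ (-((c : ℂ) + u * I)) • mellin (fun y : ℝ => (V 0 y : ℂ)) ((c : ℂ) + u * I) =
        (2 * Real.pi : ℂ) ^ (-((c : ℂ) + u * I)) * Gamma ((c : ℂ) + u * I) *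
          (y : ℂ) ^ (-((c : ℂ) + u * I))
      rw [kp0_mellin (by rw [hre]; exact hc), smul_eq_mul, mul_comm]

end Pool.Agent.LK
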