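import Pool.Agent.Lib_helper31.LK.DefsP

/-!
# LK, block KP1: the next weight
-/

namespace Pool.Agent.LK

open Complex MeasureTheory Set
open Pool.Agent.LSP (tau GG tp KerL)

theorem kp1_exp : Integrable (fun u : ℝ => Real.exp (-|u|)) := by
  have h1 : IntegrableOn (fun u : ℝ => Real.exp (-|u|)) (Ioi 0) := by
    apply (integrableOn_exp_neg_Ioi 0).congr_fun _ measurableSet_Ioi
    intro u hu
    have hu : 0 < u := hu
    change Real.exp (-u) = Real.exp (-|u|)
    rw [abs_of_pos hu]
  have h2 : IntegrableOn (fun u : ℝ => Real.exp (-|u|)) (Iic 0) := by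
    apply (integrableOn_exp_Iic 0).congr_fun _ measurableSet_Iic
    intro u hu
    have hu : u ≤ 0 := hu
    change Real.exp u = Real.exp (-|u|)
    rw [abs_of_nonpos hu, neg_neg]
  have h3 := h2.union h1
  rwa [Iic_union_Ioi, integrableOn_univ] at h3

/-- block KP1 -/
theorem mw_succ_pr {w : ℝ → ℝ} {W : ℂ → ℂ} (hw : MW w W) :
    MW (fun y => ∫ t in Ioi y, w t / t) (fun s => W s / s) := by
  constructor
  · intro s hs
    refine (hw.diff s hs).div differentiableAt_id ?_
    intro h
    have h : s = 0 := h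
    rw [h, Complex.zero_re] at hs
    exact lt_irrefl _ hs
  · intro a b ha
    obtain ⟨C, hC⟩ := hw.bdd a b ha
    refine ⟨C / a, fun s h1 h2 => ?_⟩
    have h3 : a ≤ ‖s‖ := h1.trans (Complex.re_le_norm s)
    calc ‖W s / s‖ = ‖W s‖ / ‖s‖ := norm_div _ _
      _ ≤ ‖W s‖ / a := by gcongr
      _ ≤ (C * Real.exp (-|s.im|)) / a := by
        gcongr
        exact hC s h1 h2
      _ = C / a * Real.exp (-|s.im|) := by ring
  · intro c hc y hy
    obtain ⟨C, hC⟩ := hw.bdd c c hc
    have hre : ∀ u : ℝ, ((c : ℂ) + u * I).re = c := fun u => by simp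
    have him : ∀ u : ℝ, ((c : ℂ) + u * I).im = u := fun u => by simp
    have hCu : ∀ u : ℝ, ‖W (c + u * I)‖ ≤ C * Real.exp (-|u|) := fun u => by
      have := hC (c + u * I) (hre u).ge (hre u).le
      rwa [him] at this
    have hWc : Continuous fun u : ℝ => W (c + u * I) := by
      rw [continuous_iff_continuousAt]
      intro u
      have h1 : ContinuousAt W (c + u * I) :=
        (hw.diff _ (by rw [hre]; exact hc)).continuousAt
      exact ContinuousAt.comp (f := fun u : ℝ => (c : ℂ) + u * I) (x := u) h1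
        (by fun_prop)
    let f : ℝ → ℝ → ℂ := fun t u => 1 / (2 * Real.pi) *
      (W (c + u * I) * (t : ℂ) ^ (-(c + u * I : ℂ) - 1))
    have hint : Integrable (Function.uncurry f)
        ((volume.restrict (Ioi y)).prod (volume : Measure ℝ)) := by
      have hdom : Integrable (fun z : ℝ × ℝ => (z.1 ^ (-c - 1)) *
          (1 / (2 * Real.pi) * (C * Real.exp (-|z.2|))))
          ((volume.restrict (Ioi y)).prod (volume : Measure ℝ)) := by
        apply Integrable.mul_prod (f := fun t : ℝ => t ^ (-c - 1))
          (g := fun u : ℝ => 1 / (2 * Real.pi) * (C * Real.exp (-|u|)))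
        · exact integrableOn_Ioi_rpow_of_lt (by linarith) hy
        · exact (kp1_exp.const_mul _).const_mul _
      have h1 : (volume.restrict (Ioi y)).prod (volume : Measure ℝ) =
          (volume : Measure (ℝ × ℝ)).restrict (Ioi y ×ˢ univ) := by
        rw [Measure.volume_eq_prod, ← Measure.prod_restrict, Measure.restrict_univ]
      refine hdom.mono' ?_ ?_
      · rw [h1]
        apply ContinuousOn.aestronglyMeasurable _ (measurableSet_Ioi.prod MeasurableSet.univ)
        rintro ⟨t, u⟩ ⟨ht, _⟩
        have ht : 0 < t := hy.trans ht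
        apply ContinuousAt.continuousWithinAt
        change ContinuousAt (fun z : ℝ × ℝ => 1 / (2 * (Real.pi : ℂ)) *
          (W (c + z.2 * I) * (z.1 : ℂ) ^ (-(c + z.2 * I : ℂ) - 1))) (t, u)
        apply ContinuousAt.mul continuousAt_const
        apply ContinuousAt.mul
        · exact (hWc.comp continuous_snd).continuousAt
        · apply ContinuousAt.cpow
          · fun_prop
          · fun_prop
          · exact Or.inl (by simpa using ht)
      · rw [h1]
        refine (ae_restrict_iff' (measurableSet_Ioi.prod MeasurableSet.univ)).mpr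
          (ae_of_all _ ?_)
        rintro ⟨t, u⟩ ⟨ht, _⟩
        have ht : 0 < t := hy.trans ht
        change ‖1 / (2 * (Real.pi : ℂ)) *
          (W (c + u * I) * (t : ℂ) ^ (-(c + u * I : ℂ) - 1))‖ ≤
            t ^ (-c - 1) * (1 / (2 * Real.pi) * (C * Real.exp (-|u|)))
        have h2 : ‖(t : ℂ) ^ (-(c + u * I : ℂ) - 1)‖ = t ^ (-c - 1) := by
          rw [Complex.norm_cpow_eq_rpow_re_of_pos ht]
          simp
        have h3 : ‖1 / (2 * (Real.pi : ℂ))‖ = 1 / (2 * Real.pi) := by
          rw [norm_div, norm_one, norm_mul, Complex.norm_ofNat, Complex.norm_real,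
            Real.norm_of_nonneg Real.pi_pos.le]
        rw [norm_mul, norm_mul, h2, h3]
        have h4 : 0 ≤ t ^ (-c - 1) := Real.rpow_nonneg ht.le _
        have h5 := hCu u
        have hpi : 0 ≤ 1 / (2 * Real.pi) := by positivity
        calc 1 / (2 * Real.pi) * (‖W (c + u * I)‖ * t ^ (-c - 1))
            ≤ 1 / (2 * Real.pi) * ((C * Real.exp (-|u|)) * t ^ (-c - 1)) := by gcongr
          _ = t ^ (-c - 1) * (1 / (2 * Real.pi) * (C * Real.exp (-|u|))) := by ring
    have hL : ((∫ t in Ioi y, w t / t : ℝ) : ℂ) = ∫ t in Ioi y, ∫ u : ℝ, f t u := by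
      rw [← integral_complex_ofReal]
      apply setIntegral_congr_fun measurableSet_Ioi
      intro t ht
      have ht : 0 < t := hy.trans ht
      have ht0 : (t : ℂ) ≠ 0 := by exact_mod_cast ht.ne'
      change ((w t / t : ℝ) : ℂ) = ∫ u : ℝ, f t u
      rw [Complex.ofReal_div, hw.inv c hc t ht, mul_div_assoc, ← integral_div,
        ← integral_const_mul]
      congr 1
      funext u
      change _ = 1 / (2 * (Real.pi : ℂ)) * (W (c + u * I) * (t : ℂ) ^ (-(c + u * I : ℂ) - 1))
      rw [Complex.cpow_sub _ _ ht0, Complex.cpow_one, mul_div_assoc]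
    rw [hL, integral_integral_swap hint, ← integral_const_mul]
    congr 1
    funext u
    change ∫ t in Ioi y, 1 / (2 * (Real.pi : ℂ)) *
      (W (c + u * I) * (t : ℂ) ^ (-(c + u * I : ℂ) - 1)) = _
    have h1 : ((c : ℂ) + u * I) ≠ 0 := fun h => by
      have := congrArg Complex.re h
      rw [hre, Complex.zero_re] at this
      exact hc.ne' this
    rw [integral_const_mul, integral_const_mul, integral_Ioi_cpow_of_lt (by simp; linarith) hy,
      sub_add_cancel, neg_div_neg_eq]
    ring


end Pool.Agent.LK
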