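import Pool.Agent.Lib_helper31.LK.DefsP
import Pool.Agent.Lib_helper31.LKF.KP0
import Pool.Agent.Lib_helper31.LKF.KP1

/-! ## Block KP2: all weights -/

namespace Pool.Agent.LK

open Complex MeasureTheory Set
open Pool.Agent.LSP (tau GG tp KerL)

theorem mw_V_pr (i : ℕ) :
    MW (V i) (fun s => (2 * Real.pi : ℂ) ^ (-s) * Complex.Gamma s / s ^ i) := by
  induction i with
  | zero =>
    have h := mw_V0_pr
    have e : (fun s : ℂ => (2 * Real.pi : ℂ) ^ (-s) * Complex.Gamma s / s ^ 0) =
        fun s : ℂ => (2 * Real.pi : ℂ) ^ (-s) * Complex.Gamma s := by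
      funext s
      rw [pow_zero, div_one]
    rw [e]
    exact h
  | succ i ih =>
    have h := mw_succ_pr ih
    have e : (fun s : ℂ => (2 * Real.pi : ℂ) ^ (-s) * Complex.Gamma s / s ^ (i + 1)) =
        fun s : ℂ => (2 * Real.pi : ℂ) ^ (-s) * Complex.Gamma s / s ^ i / s := by
      funext s
      rw [pow_succ, div_div]
    rw [e]
    exact h

end Pool.Agent.LK
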