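import Pool.Agent.Lib_helper31.LK.DefsP
import Pool.Agent.Lib_helper31.LKF.KJ
import Pool.Agent.Lib_helper31.LKF.KK
import Pool.Agent.Lib_helper31.LKF.KL
import Pool.Agent.Lib_helper31.LKF.KM
import Pool.Agent.Lib_helper31.LKF.KN
import Pool.Agent.Lib_helper31.LKF.KO1
import Pool.Agent.Lib_helper31.LKF.KO2
import Pool.Agent.Lib_helper31.LKF.KP2

/-! LSP3, part K, block KQ: assembly. -/

namespace Pool.Agent.LK

open Complex MeasureTheory Set
open Pool.Agent.LSP (tau GG tp KerL)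

variable {q : ℕ} [NeZero q]

theorem kq_s {t : ℝ} : (1 / 2 + t * I : ℂ) ≠ 0 := by
  intro h
  have := congrArg Complex.re h
  simp at this

/-- the integrand of the off-diagonal terms is a value of the residue function -/
theorem kq_off {χ : DirichletCharacter ℂ q} (h : PQ χ) {N e : ℕ} (hN : 1 ≤ N) (he : 1 ≤ e)
    {Y : ℝ} (hY : Y = q * Real.sqrt N) (i : ℕ) {s : ℂ} (h0 : 0 < s.re) (h1 : s.re < 1) :
    ((2 * Real.pi : ℂ) ^ (-s) * Complex.Gamma s / s ^ i) * (((Y / N : ℝ) : ℂ) ^ s) *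
      PH χ N e Goo s = χ (-1) * (-1) ^ (i + 1) * (HH χ N e Y (-s) / (-s) ^ (i + 1)) := by
  have hq : (0 : ℝ) < q := by exact_mod_cast Nat.pos_of_ne_zero (NeZero.ne q)
  have hNr : (0 : ℝ) < N := by exact_mod_cast hN
  have hYp : 0 < Y := by rw [hY]; positivity
  have hpi := Real.pi_pos
  have hs : s ≠ 0 := fun h => by rw [h] at h0; simp at h0
  have hG : Complex.Gamma s ≠ 0 := Complex.Gamma_ne_zero_of_re_pos h0
  rw [ph_goo_pr h hN he h0 h1]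
  unfold HH
  rw [add_comm (1 : ℂ) s, Complex.Gamma_add_one s hs]
  -- the powers
  have ex : ∀ x : ℝ, 0 < x → ∀ w : ℂ, (x : ℂ) ^ w = cexp (w * (Real.log x : ℂ)) := by
    intro x hx w
    rw [Complex.cpow_def_of_ne_zero (by exact_mod_cast hx.ne'), Complex.ofReal_log hx.le, mul_comm]
  have hp : (2 * Real.pi : ℂ) ^ (-s) * (((Y / N : ℝ) : ℂ) ^ s) *
      ((((q : ℝ) ^ 2 / (4 * Real.pi ^ 2) : ℝ) : ℂ) ^ (-s)) =
      (((Y / (2 * Real.pi) : ℝ) : ℂ) ^ (-s)) := by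
    have e0 : (2 * Real.pi : ℂ) = ((2 * Real.pi : ℝ) : ℂ) := by push_cast; rfl
    rw [e0, ex _ (by positivity), ex _ (by positivity), ex _ (by positivity),
      ex _ (by positivity), ← Complex.exp_add, ← Complex.exp_add]
    congr 1
    have l1 : Real.log (Y / N) = Real.log Y - Real.log N := Real.log_div hYp.ne' hNr.ne'
    have l2 : Real.log ((q : ℝ) ^ 2 / (4 * Real.pi ^ 2)) = 2 * Real.log q -
        2 * Real.log (2 * Real.pi) := by
      rw [show (4 : ℝ) * Real.pi ^ 2 = (2 * Real.pi) ^ 2 by ring,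
        Real.log_div (by positivity) (by positivity), Real.log_pow, Real.log_pow]
      push_cast
      ring
    have l3 : Real.log (Y / (2 * Real.pi)) = Real.log Y - Real.log (2 * Real.pi) :=
      Real.log_div hYp.ne' (by positivity)
    have l4 : Real.log Y = Real.log q + Real.log N / 2 := by
      rw [hY, Real.log_mul hq.ne' (by positivity), Real.log_sqrt hNr.le]
    rw [l1, l2, l3, l4]
    push_cast
    ring
  have hpow : ((-s : ℂ)) ^ (i + 1) = (-1) ^ (i + 1) * s ^ (i + 1) := by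
    rw [neg_pow]
  have hm : ((-1 : ℂ) ^ (i + 1)) * (-1) ^ (i + 1) = 1 := by
    rw [← mul_pow]
    norm_num
  have hm0 : ((-1 : ℂ) ^ (i + 1)) ≠ 0 := by
    intro h
    rw [h] at hm
    simp at hm
  rw [hpow, sub_eq_add_neg, ← hp]
  have hsi : s ^ i ≠ 0 := pow_ne_zero _ hs
  rw [pow_succ s i]
  rw [show χ (-1) * (-1) ^ (i + 1) * ((2 * (Real.pi : ℂ)) ^ (-s) * (((Y / N : ℝ) : ℂ) ^ s) *
      ((((q : ℝ) ^ 2 / (4 * Real.pi ^ 2) : ℝ) : ℂ) ^ (-s)) * Complex.Gamma (1 + -s) *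
      AA χ N e (-s) / ((-1) ^ (i + 1) * (s ^ i * s))) =
      χ (-1) * ((2 * (Real.pi : ℂ)) ^ (-s) * (((Y / N : ℝ) : ℂ) ^ s) *
      ((((q : ℝ) ^ 2 / (4 * Real.pi ^ 2) : ℝ) : ℂ) ^ (-s)) * Complex.Gamma (1 + -s) *
      AA χ N e (-s) / (s ^ i * s)) by
    field_simp]
  field_simp

/-- the integrand of the diagonal terms -/
theorem kq_diag {χ : DirichletCharacter ℂ q} {N e : ℕ} {Y : ℝ} (hY : 0 < Y) (i : ℕ) {s : ℂ}
    (h0 : 0 < s.re) :
    ((2 * Real.pi : ℂ) ^ (-s) * Complex.Gamma s / s ^ i) * ((Y : ℂ) ^ s) * AA χ N e s =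
      HH χ N e Y s / s ^ (i + 1) := by
  have hpi := Real.pi_pos
  have hs : s ≠ 0 := fun h => by rw [h] at h0; simp at h0
  unfold HH
  rw [add_comm (1 : ℂ) s, Complex.Gamma_add_one s hs]
  have e1 : ((Y / (2 * Real.pi) : ℝ) : ℂ) ^ s = (2 * Real.pi : ℂ) ^ (-s) * (Y : ℂ) ^ s := by
    have ex : ∀ x : ℝ, 0 < x → ∀ w : ℂ, (x : ℂ) ^ w = cexp (w * (Real.log x : ℂ)) := by
      intro x hx w
      rw [Complex.cpow_def_of_ne_zero (by exact_mod_cast hx.ne'), Complex.ofReal_log hx.le,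
        mul_comm]
    have e0 : (2 * Real.pi : ℂ) = ((2 * Real.pi : ℝ) : ℂ) := by push_cast; rfl
    rw [e0, ex _ (by positivity), ex _ (by positivity), ex _ hY, ← Complex.exp_add,
      Real.log_div hY.ne' (by positivity)]
    congr 1
    push_cast
    ring
  rw [e1, pow_succ]
  have hsi : s ^ i ≠ 0 := pow_ne_zero _ hs
  field_simp

/-- block KQ -/
theorem k_main_pr (i : ℕ) : ∃ C : ℝ, ∀ (q : ℕ) [NeZero q] (χ : DirichletCharacter ℂ q), PQ χ →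
    ∀ (T : ℝ), 4 ≤ T → ∀ ρ : ℝ → ℝ, KerC T ρ → ∀ N e : ℕ, 1 ≤ N → 1 ≤ e →
    χ (-(N : ZMod q)) = (-1) ^ i → ∀ Y : ℝ, Y = q * Real.sqrt N →
    ‖SH χ N (fun y => V i (y / Y)) e + OM ρ χ N (fun y => V i (y / Y)) e -
      1 / (i.factorial : ℂ) * iteratedDeriv i (HH χ N e Y) 0‖ ≤
      C * q ^ 2 * (N : ℝ) ^ (-(1 / 4) : ℝ) * (e : ℝ) ^ (-(1 / 2) : ℝ) * tau e ^ 5 *
        (1 + Real.log (q * N * e)) * T ^ (-(1 / 4) : ℝ) := by
  obtain ⟨C, hC⟩ := ph_close_pr (mw_V_pr i)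
  refine ⟨|C|, ?_⟩
  intro q _ χ hχ T hT ρ hρ N e hN he hsign Y hY
  have hq : (0 : ℝ) < q := by exact_mod_cast Nat.pos_of_ne_zero (NeZero.ne q)
  have hq1 : (1 : ℝ) ≤ q := by exact_mod_cast Nat.one_le_iff_ne_zero.mpr (NeZero.ne q)
  have hNr : (0 : ℝ) < N := by exact_mod_cast hN
  have hN1 : (1 : ℝ) ≤ N := by exact_mod_cast hN
  have he1 : (1 : ℝ) ≤ e := by exact_mod_cast he
  have hYp : 0 < Y := by rw [hY]; positivity
  obtain ⟨_, hclose⟩ := hC q χ hχ.ne T hT ρ hρ N e hN he Y hYp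
  obtain ⟨_, hshift⟩ := om_shift_pr hχ.ne hρ (mw_V_pr i) hN he hYp
  have hom := om_mellin_pr hχ.ne hρ (mw_V_pr i) hN he hYp
  have hsh := sh_mellin_pr hχ.ne (mw_V_pr i) hN he hYp (N := N) (e := e)
  obtain ⟨hd, B, hb⟩ := hh_bound_pr hχ.ne hN he hYp
  obtain ⟨_, _, hres⟩ := res_shift_pr hd hb i
  set G1 := ∫ t : ℝ, ((2 * Real.pi : ℂ) ^ (-(1 / 2 + t * I : ℂ)) * Complex.Gamma (1 / 2 + t * I) /
      (1 / 2 + t * I) ^ i) * (((Y / N : ℝ) : ℂ) ^ (1 / 2 + t * I : ℂ)) *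
      PH χ N e (GG ρ) (1 / 2 + t * I) with hG1
  set G2 := ∫ t : ℝ, ((2 * Real.pi : ℂ) ^ (-(1 / 2 + t * I : ℂ)) * Complex.Gamma (1 / 2 + t * I) /
      (1 / 2 + t * I) ^ i) * (((Y / N : ℝ) : ℂ) ^ (1 / 2 + t * I : ℂ)) *
      PH χ N e Goo (1 / 2 + t * I) with hG2
  have hOM : OM ρ χ N (fun y => V i (y / Y)) e = χ N * (1 / (2 * Real.pi)) * G1 := by
    rw [hom, hshift]
  have hre : ∀ t : ℝ, (1 / 2 + t * I : ℂ).re = 1 / 2 := by
    intro t
    simp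
  -- the Goo integral
  have hG2' : G2 = χ (-1) * (-1) ^ (i + 1) *
      ∫ t : ℝ, HH χ N e Y (-(1 / 2) + t * I) / (-(1 / 2) + t * I) ^ (i + 1) := by
    rw [hG2, ← integral_const_mul,
      ← integral_neg_eq_self (fun t : ℝ => χ (-1) * (-1) ^ (i + 1) *
        (HH χ N e Y (-(1 / 2) + t * I) / (-(1 / 2) + t * I) ^ (i + 1)))]
    refine integral_congr_ae (Filter.Eventually.of_forall fun t => ?_)
    have h1 := kq_off hχ hN he hY i (s := 1 / 2 + t * I) (by rw [hre]; norm_num)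
      (by rw [hre]; norm_num)
    have e1 : (-(1 / 2 + t * I) : ℂ) = -(1 / 2) + ((-t : ℝ) : ℂ) * I := by
      push_cast
      ring
    simp only []
    rw [h1, e1]
  have hSH : SH χ N (fun y => V i (y / Y)) e = 1 / (2 * Real.pi) *
      ∫ t : ℝ, HH χ N e Y (1 / 2 + t * I) / (1 / 2 + t * I) ^ (i + 1) := by
    rw [hsh]
    congr 1
    refine integral_congr_ae (Filter.Eventually.of_forall fun t => ?_)
    exact kq_diag hYp i (by rw [hre]; norm_num)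
  have hχN : χ (N : ZMod q) * χ (-1) = (-1) ^ i := by
    rw [← map_mul, mul_neg_one, hsign]
  have hmain : SH χ N (fun y => V i (y / Y)) e + OM ρ χ N (fun y => V i (y / Y)) e -
      1 / (i.factorial : ℂ) * iteratedDeriv i (HH χ N e Y) 0 =
      χ N * (1 / (2 * Real.pi)) * (G1 - G2) := by
    rw [hOM, hSH, ← hres]
    have e2 : χ (N : ZMod q) * (1 / (2 * Real.pi)) * G2 = -(1 / (2 * Real.pi) *
        ∫ t : ℝ, HH χ N e Y (-(1 / 2) + t * I) / (-(1 / 2) + t * I) ^ (i + 1)) := by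
      rw [hG2']
      have e3 : ((-1 : ℂ) ^ i) * (-1) ^ (i + 1) = -1 := by
        rw [← pow_add, show i + (i + 1) = 2 * i + 1 by ring, pow_succ, pow_mul]
        norm_num
      calc χ (N : ZMod q) * (1 / (2 * Real.pi)) * (χ (-1) * (-1) ^ (i + 1) *
            ∫ t : ℝ, HH χ N e Y (-(1 / 2) + t * I) / (-(1 / 2) + t * I) ^ (i + 1))
          = (χ (N : ZMod q) * χ (-1)) * (-1) ^ (i + 1) * (1 / (2 * Real.pi) *
            ∫ t : ℝ, HH χ N e Y (-(1 / 2) + t * I) / (-(1 / 2) + t * I) ^ (i + 1)) := by ring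
        _ = _ := by rw [hχN, e3]; ring
    rw [mul_sub, e2]
    ring
  rw [hmain, norm_mul, norm_mul]
  have hn1 : ‖χ (N : ZMod q)‖ ≤ 1 := χ.norm_le_one _
  have hn2 : ‖(1 / (2 * Real.pi) : ℂ)‖ ≤ 1 := by
    have h3 := Real.pi_gt_three
    rw [show (1 / (2 * Real.pi) : ℂ) = ((1 / (2 * Real.pi) : ℝ) : ℂ) by push_cast; rfl,
      Complex.norm_real, Real.norm_eq_abs, abs_of_pos (by positivity)]
    rw [div_le_one (by positivity)]
    linarith
  have hlog : 0 ≤ 1 + Real.log (q * N * e) := by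
    have : 0 ≤ Real.log (q * N * e) := Real.log_nonneg (by
      have : (1 : ℝ) ≤ q * N := by nlinarith
      nlinarith)
    linarith
  have htau : 0 ≤ tau e := by unfold Pool.Agent.LSP.tau; positivity
  have hT0 : 0 ≤ T := by linarith
  have hYN : (Y / N) ^ (1 / 2 : ℝ) ≤ q * (N : ℝ) ^ (-(1 / 4) : ℝ) := by
    have e4 : Y / N = q * (N : ℝ) ^ (-(1 / 2) : ℝ) := by
      rw [hY, Real.sqrt_eq_rpow, mul_div_assoc]
      congr 1
      rw [div_eq_iff hNr.ne', ← Real.rpow_add_one hNr.ne']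
      norm_num
    rw [e4, Real.mul_rpow hq.le (by positivity), ← Real.rpow_mul hNr.le]
    have e5 : (q : ℝ) ^ (1 / 2 : ℝ) ≤ q := by
      calc (q : ℝ) ^ (1 / 2 : ℝ) ≤ (q : ℝ) ^ (1 : ℝ) :=
            Real.rpow_le_rpow_of_exponent_le hq1 (by norm_num)
        _ = q := Real.rpow_one _
    have e6 : (-(1 / 2) : ℝ) * (1 / 2) = -(1 / 4) := by norm_num
    rw [e6]
    gcongr
  calc ‖χ (N : ZMod q)‖ * ‖(1 / (2 * Real.pi) : ℂ)‖ * ‖G1 - G2‖ ≤ 1 * 1 * ‖G1 - G2‖ := by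
        gcongr
    _ = ‖G1 - G2‖ := by ring
    _ ≤ C * q * (Y / N) ^ (1 / 2 : ℝ) * (e : ℝ) ^ (-(1 / 2) : ℝ) * tau e ^ 5 *
        (1 + Real.log (q * N * e)) * T ^ (-(1 / 4) : ℝ) := hclose
    _ ≤ |C| * q * (q * (N : ℝ) ^ (-(1 / 4) : ℝ)) * (e : ℝ) ^ (-(1 / 2) : ℝ) * tau e ^ 5 *
        (1 + Real.log (q * N * e)) * T ^ (-(1 / 4) : ℝ) := by
        have hc : C ≤ |C| := le_abs_self C
        gcongr
    _ = _ := by ring

end Pool.Agent.LK
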