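import Pool.Agent.Lib_helper31.LK.DefsP

/-! LK, block KE: the weights exist. -/

namespace Pool.Agent.LK

open Complex MeasureTheory Set
open Pool.Agent.LSP (tau GG tp KerL)

/-- the cut-off -/
noncomputable def ke_cut (T t : ℝ) : ℝ := max 0 (min 1 (2 - 2 * |t| / T))

/-- the weight -/
noncomputable def ke_rho (c T t : ℝ) : ℝ := c * (ke_cut T t * rinf t)

lemma ke_cut_nonneg (T t : ℝ) : 0 ≤ ke_cut T t := le_max_left _ _

lemma ke_cut_le (T t : ℝ) : ke_cut T t ≤ 1 := max_le zero_le_one (min_le_left _ _)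

lemma ke_cut_one {T : ℝ} (hT : 0 < T) {t : ℝ} (ht : |t| ≤ T / 2) : ke_cut T t = 1 := by
  unfold ke_cut
  have h1 : 2 * |t| / T ≤ 1 := by
    rw [div_le_one hT]
    linarith
  rw [min_eq_left (by linarith), max_eq_right zero_le_one]

lemma ke_cut_zero {T : ℝ} (hT : 0 < T) {t : ℝ} (ht : T < |t|) : ke_cut T t = 0 := by
  unfold ke_cut
  have h1 : 2 ≤ 2 * |t| / T := by
    rw [le_div_iff₀ hT]
    linarith
  exact max_eq_left ((min_le_right _ _).trans (by linarith))

lemma ke_cut_lip {T : ℝ} (hT : 0 < T) (s t : ℝ) : |ke_cut T s - ke_cut T t| ≤ 2 / T * |s - t| := by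
  unfold ke_cut
  have h1 : |max 0 (min 1 (2 - 2 * |s| / T)) - max 0 (min 1 (2 - 2 * |t| / T))| ≤
      |min 1 (2 - 2 * |s| / T) - min 1 (2 - 2 * |t| / T)| := by
    have := abs_max_sub_max_le_max 0 (min 1 (2 - 2 * |s| / T)) 0 (min 1 (2 - 2 * |t| / T))
    simpa using this
  have h2 : |min 1 (2 - 2 * |s| / T) - min 1 (2 - 2 * |t| / T)| ≤
      |(2 - 2 * |s| / T) - (2 - 2 * |t| / T)| := by
    have := abs_min_sub_min_le_max 1 (2 - 2 * |s| / T) 1 (2 - 2 * |t| / T)
    simpa using this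
  refine h1.trans (h2.trans ?_)
  have e : (2 - 2 * |s| / T) - (2 - 2 * |t| / T) = 2 / T * (|t| - |s|) := by ring
  rw [e, abs_mul, abs_of_pos (by positivity : (0 : ℝ) < 2 / T)]
  refine mul_le_mul_of_nonneg_left ?_ (by positivity)
  rw [abs_sub_comm s t]
  exact abs_abs_sub_abs_le_abs_sub t s

lemma ke_cut_cont (T : ℝ) : Continuous (ke_cut T) := by
  unfold ke_cut
  fun_prop

lemma ke_rinf_pos (t : ℝ) : 0 < rinf t := by
  unfold rinf
  have := Real.pi_pos
  positivity

lemma ke_rinf_le (t : ℝ) : rinf t ≤ 1 / Real.pi := by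
  unfold rinf
  have h := Real.pi_pos
  refine one_div_le_one_div_of_le h ?_
  nlinarith [sq_nonneg t]

lemma ke_rinf_eq (t : ℝ) : rinf t = 1 / Real.pi * (1 + t ^ 2)⁻¹ := by
  unfold rinf
  rw [one_div, one_div, mul_inv]

lemma ke_rinf_lip (s t : ℝ) : |rinf s - rinf t| ≤ 1 / Real.pi * |s - t| := by
  have hs : 0 < 1 + s ^ 2 := by positivity
  have ht : 0 < 1 + t ^ 2 := by positivity
  have hp := Real.pi_pos
  have e : rinf s - rinf t =
      1 / Real.pi * ((t - s) * ((t + s) / ((1 + s ^ 2) * (1 + t ^ 2)))) := by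
    rw [ke_rinf_eq, ke_rinf_eq]
    field_simp
    ring
  rw [e, abs_mul, abs_of_pos (by positivity : 0 < 1 / Real.pi), abs_mul, abs_sub_comm t s]
  refine mul_le_mul_of_nonneg_left ?_ (by positivity)
  refine mul_le_of_le_one_right (abs_nonneg _) ?_
  rw [abs_div, abs_of_pos (mul_pos hs ht), div_le_one (mul_pos hs ht), abs_le]
  constructor <;> nlinarith [sq_nonneg (t - 1), sq_nonneg (t + 1), sq_nonneg (s - 1),
    sq_nonneg (s + 1), mul_nonneg (sq_nonneg s) (sq_nonneg t)]

lemma ke_rinf_cont : Continuous rinf := by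
  unfold rinf
  have hp := Real.pi_pos
  refine continuous_const.div (by fun_prop) fun t => by positivity

lemma ke_rinf_int : Integrable rinf := by
  have h := integrable_inv_one_add_sq.const_mul (1 / Real.pi)
  refine h.congr (Filter.Eventually.of_forall fun t => ?_)
  exact (ke_rinf_eq t).symm

lemma ke_rinf_one : ∫ t, rinf t = 1 := by
  simp only [ke_rinf_eq]
  rw [integral_const_mul, integral_univ_inv_one_add_sq]
  have hp := Real.pi_pos
  field_simp

lemma ke_arctan {x : ℝ} (hx : 0 < x) : Real.pi / 2 - 1 / x ≤ Real.arctan x := by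
  have h1 : Real.arctan x⁻¹ ≤ x⁻¹ := by
    have h2 : 0 ≤ Real.arctan x⁻¹ := Real.arctan_nonneg.2 (by positivity)
    have h3 := Real.le_tan h2 (Real.arctan_lt_pi_div_two _)
    rwa [Real.tan_arctan] at h3
  rw [Real.arctan_inv_of_pos hx] at h1
  rw [one_div]
  linarith

/-- the mass of the cut Cauchy weight -/
noncomputable def ke_m (T : ℝ) : ℝ := ∫ t, ke_cut T t * rinf t

lemma ke_m_integrable (T : ℝ) : Integrable (fun t => ke_cut T t * rinf t) := by
  refine ke_rinf_int.mono' ((ke_cut_cont T).mul ke_rinf_cont).aestronglyMeasurable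
    (Filter.Eventually.of_forall fun t => ?_)
  rw [Real.norm_of_nonneg (mul_nonneg (ke_cut_nonneg _ _) (ke_rinf_pos t).le)]
  exact mul_le_of_le_one_left (ke_rinf_pos t).le (ke_cut_le T t)

lemma ke_m_le (T : ℝ) : ke_m T ≤ 1 := by
  rw [← ke_rinf_one]
  exact integral_mono (ke_m_integrable T) ke_rinf_int fun t =>
    mul_le_of_le_one_left (ke_rinf_pos t).le (ke_cut_le T t)

lemma ke_m_ge {T : ℝ} (hT : 0 < T) : 1 - 4 / (Real.pi * T) ≤ ke_m T := by
  have hp := Real.pi_pos
  have h1 : ∫ t in Ioc (-(T / 2)) (T / 2), ke_cut T t * rinf t ≤ ke_m T :=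
    setIntegral_le_integral (ke_m_integrable T) (Filter.Eventually.of_forall fun t =>
      mul_nonneg (ke_cut_nonneg _ _) (ke_rinf_pos t).le)
  have h2 : ∫ t in Ioc (-(T / 2)) (T / 2), ke_cut T t * rinf t =
      1 / Real.pi * ∫ t in (-(T / 2))..(T / 2), (1 + t ^ 2)⁻¹ := by
    rw [intervalIntegral.integral_of_le (by linarith), ← integral_const_mul]
    refine setIntegral_congr_fun measurableSet_Ioc fun t ht => ?_
    show ke_cut T t * rinf t = 1 / Real.pi * (1 + t ^ 2)⁻¹
    rw [ke_cut_one hT (abs_le.2 ⟨ht.1.le, ht.2⟩), one_mul, ke_rinf_eq]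
  rw [h2, integral_inv_one_add_sq, Real.arctan_neg] at h1
  refine le_trans ?_ h1
  have h3 := ke_arctan (x := T / 2) (by positivity)
  have h4 : 1 / Real.pi * (Real.arctan (T / 2) - -Real.arctan (T / 2)) =
      2 / Real.pi * Real.arctan (T / 2) := by ring
  rw [h4]
  have h5 : 2 / Real.pi * (Real.pi / 2 - 1 / (T / 2)) ≤ 2 / Real.pi * Real.arctan (T / 2) :=
    mul_le_mul_of_nonneg_left h3 (by positivity)
  refine le_trans (le_of_eq ?_) h5
  field_simp
  ring

lemma ke_const {T : ℝ} (hT : 4 ≤ T) : 0 < ke_m T ∧ 1 ≤ (ke_m T)⁻¹ ∧ (ke_m T)⁻¹ ≤ 1 + 4 / T := by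
  have hT0 : 0 < T := by linarith
  have hp := Real.pi_gt_three
  have hp0 := Real.pi_pos
  have h1 := ke_m_ge hT0
  have h2 := ke_m_le T
  have h3 : 1 / (1 + 4 / T) ≤ 1 - 4 / (Real.pi * T) := by
    have e1 : 4 / (Real.pi * T) ≤ 4 / (3 * T) := by
      refine div_le_div_of_nonneg_left (by norm_num) (by positivity) ?_
      nlinarith
    have e2 : 1 / (1 + 4 / T) ≤ 1 - 4 / (3 * T) := by
      rw [div_le_iff₀ (by positivity)]
      have e3 : (1 - 4 / (3 * T)) * (1 + 4 / T) = 1 + (8 * T - 16) / (3 * T ^ 2) := by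
        field_simp
        ring
      rw [e3]
      have e4 : 0 ≤ (8 * T - 16) / (3 * T ^ 2) := div_nonneg (by linarith) (by positivity)
      linarith
    linarith
  have h4 : 0 < 1 / (1 + 4 / T) := by positivity
  have h5 : 0 < ke_m T := by linarith
  refine ⟨h5, (one_le_inv₀ h5).2 h2, ?_⟩
  have h6 : 1 / (1 + 4 / T) ≤ ke_m T := h3.trans h1
  rw [one_div] at h6
  exact inv_le_of_inv_le₀ (by positivity) h6

lemma ke_sgm {T L : ℝ} (hT : 0 < T) (hL : 0 ≤ L) {ρ : ℝ → ℝ} (hc : Continuous ρ)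
    (h0 : ∀ t, 0 ≤ ρ t) (hs : ∀ t, T < |t| → ρ t = 0) (h1 : ∫ t, ρ t = 1)
    (hl : ∀ s t, |ρ s - ρ t| ≤ L * |s - t|) {u : ℝ} (hu : 0 < u) :
    |Pool.Agent.KSL.sgm ρ u| ≤ (1 + L * (T + 1)) / u := by
  have hcs : HasCompactSupport ρ := by
    refine HasCompactSupport.intro (isCompact_Icc (a := -T) (b := T)) fun t ht => ?_
    refine hs t ?_
    by_contra hcon
    exact ht (abs_le.1 (not_lt.1 hcon))
  have hi : Integrable ρ := hc.integrable_of_hasCompactSupport hcs
  rcases le_or_gt u 1 with hu1 | hu1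
  · have h2 : |Pool.Agent.KSL.sgm ρ u| ≤ 1 := by
      unfold Pool.Agent.KSL.sgm
      rw [← Real.norm_eq_abs, ← h1]
      refine norm_integral_le_of_norm_le hi (Filter.Eventually.of_forall fun t => ?_)
      rw [Real.norm_eq_abs, abs_mul, abs_of_nonneg (h0 t)]
      exact mul_le_of_le_one_right (h0 t) (Real.abs_cos_le_one _)
    refine h2.trans ?_
    rw [le_div_iff₀ hu]
    have : 0 ≤ L * (T + 1) := by positivity
    nlinarith
  · set h : ℝ := 1 / (2 * u) with hh
    have hh0 : 0 < h := by positivity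
    have hh1 : h ≤ 1 := by
      rw [hh, div_le_one (by positivity)]
      linarith
    have hcosm : ∀ t : ℝ, Real.cos (2 * Real.pi * u * (t + h)) =
        -Real.cos (2 * Real.pi * u * t) := by
      intro t
      have : 2 * Real.pi * u * (t + h) = 2 * Real.pi * u * t + Real.pi := by
        rw [hh]
        field_simp
      rw [this, Real.cos_add_pi]
    have e1 : Pool.Agent.KSL.sgm ρ u = -∫ t, ρ (t + h) * Real.cos (2 * Real.pi * u * t) := by
      unfold Pool.Agent.KSL.sgm
      rw [← integral_add_right_eq_self (fun t => ρ t * Real.cos (2 * Real.pi * u * t)) h,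
        ← integral_neg]
      refine integral_congr_ae (Filter.Eventually.of_forall fun t => ?_)
      show ρ (t + h) * Real.cos (2 * Real.pi * u * (t + h)) =
        -(ρ (t + h) * Real.cos (2 * Real.pi * u * t))
      rw [hcosm]
      ring
    have i1 : Integrable (fun t => ρ t * Real.cos (2 * Real.pi * u * t)) := by
      refine hi.mono' (hc.mul (by fun_prop)).aestronglyMeasurable
        (Filter.Eventually.of_forall fun t => ?_)
      rw [Real.norm_eq_abs, abs_mul, abs_of_nonneg (h0 t)]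
      exact mul_le_of_le_one_right (h0 t) (Real.abs_cos_le_one _)
    have i2 : Integrable (fun t => ρ (t + h) * Real.cos (2 * Real.pi * u * t)) := by
      refine (hi.comp_add_right h).mono' ((hc.comp (by fun_prop)).mul
        (by fun_prop)).aestronglyMeasurable (Filter.Eventually.of_forall fun t => ?_)
      rw [Real.norm_eq_abs, abs_mul, abs_of_nonneg (h0 _)]
      exact mul_le_of_le_one_right (h0 _) (Real.abs_cos_le_one _)
    have e2 : 2 * Pool.Agent.KSL.sgm ρ u =
        ∫ t, (ρ t - ρ (t + h)) * Real.cos (2 * Real.pi * u * t) := by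
      have e3 : (fun t => (ρ t - ρ (t + h)) * Real.cos (2 * Real.pi * u * t)) = fun t =>
          ρ t * Real.cos (2 * Real.pi * u * t) - ρ (t + h) * Real.cos (2 * Real.pi * u * t) := by
        funext t
        ring
      rw [e3, integral_sub i1 i2]
      have e4 : Pool.Agent.KSL.sgm ρ u = ∫ t, ρ t * Real.cos (2 * Real.pi * u * t) := rfl
      linarith
    have e5 : ∫ t, (ρ t - ρ (t + h)) * Real.cos (2 * Real.pi * u * t) =
        ∫ t in Icc (-(T + 1)) (T + 1), (ρ t - ρ (t + h)) * Real.cos (2 * Real.pi * u * t) := by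
      symm
      refine setIntegral_eq_integral_of_forall_compl_eq_zero fun t ht => ?_
      have ht' : T + 1 < |t| := by
        by_contra hcon
        exact ht (abs_le.1 (not_lt.1 hcon))
      have a1 : ρ t = 0 := hs t (by linarith)
      have a2 : ρ (t + h) = 0 := by
        refine hs _ ?_
        have := abs_sub_abs_le_abs_sub t (-h)
        rw [abs_neg, abs_of_pos hh0, sub_neg_eq_add] at this
        linarith
      rw [a1, a2]
      ring
    have e6 : ‖∫ t in Icc (-(T + 1)) (T + 1), (ρ t - ρ (t + h)) *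
        Real.cos (2 * Real.pi * u * t)‖ ≤ L * h * (volume : Measure ℝ).real
          (Icc (-(T + 1)) (T + 1)) := by
      refine norm_setIntegral_le_of_norm_le_const measure_Icc_lt_top fun t _ => ?_
      rw [Real.norm_eq_abs, abs_mul]
      have a1 := hl t (t + h)
      have a2 : |t - (t + h)| = h := by
        rw [show t - (t + h) = -h by ring, abs_neg, abs_of_pos hh0]
      rw [a2] at a1
      exact (mul_le_of_le_one_right (abs_nonneg _) (Real.abs_cos_le_one _)).trans a1
    rw [Real.volume_real_Icc_of_le (by linarith)] at e6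
    rw [← e5, ← e2, Real.norm_eq_abs, abs_mul, abs_of_pos (by norm_num : (0 : ℝ) < 2)] at e6
    rw [le_div_iff₀ hu]
    have e7 : h * u = 1 / 2 := by
      rw [hh]
      field_simp
    have e8 := mul_le_mul_of_nonneg_right e6 hu.le
    have e9 : L * h * (T + 1 - -(T + 1)) * u = L * (T + 1) := by
      linear_combination 2 * L * (T + 1) * e7
    rw [e9] at e8
    have e10 : 0 ≤ |Pool.Agent.KSL.sgm ρ u| * u := by positivity
    nlinarith

theorem kerC_exists_pr {T : ℝ} (hT : 4 ≤ T) : ∃ ρ : ℝ → ℝ, KerC T ρ := by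
  have hT0 : 0 < T := by linarith
  obtain ⟨hm, hc1, hc2⟩ := ke_const hT
  set c : ℝ := (ke_m T)⁻¹ with hc
  have hc0 : 0 < c := by linarith
  have hT4 : 4 / T ≤ 1 := (div_le_one hT0).2 hT
  have hc3 : c ≤ 2 := by linarith
  have hp := Real.pi_gt_three
  have hp0 := Real.pi_pos
  have hcont : Continuous (ke_rho c T) :=
    continuous_const.mul ((ke_cut_cont T).mul ke_rinf_cont)
  have hnn : ∀ t, 0 ≤ ke_rho c T t := fun t =>
    mul_nonneg hc0.le (mul_nonneg (ke_cut_nonneg _ _) (ke_rinf_pos t).le)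
  have hsupp : ∀ t, T < |t| → ke_rho c T t = 0 := by
    intro t ht
    unfold ke_rho
    rw [ke_cut_zero hT0 ht]
    ring
  have hint : ∫ t, ke_rho c T t = 1 := by
    unfold ke_rho
    rw [integral_const_mul]
    show c * ke_m T = 1
    rw [hc, inv_mul_cancel₀ hm.ne']
  have hlip : ∀ s t, |ke_rho c T s - ke_rho c T t| ≤ 8 * |s - t| := by
    intro s t
    have e : ke_rho c T s - ke_rho c T t = c * ((ke_cut T s - ke_cut T t) * rinf s +
        ke_cut T t * (rinf s - rinf t)) := by
      unfold ke_rho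
      ring
    rw [e, abs_mul, abs_of_pos hc0]
    have h1 : |(ke_cut T s - ke_cut T t) * rinf s + ke_cut T t * (rinf s - rinf t)| ≤
        2 / T * |s - t| * (1 / Real.pi) + 1 * (1 / Real.pi * |s - t|) := by
      refine (abs_add_le _ _).trans (add_le_add ?_ ?_)
      · rw [abs_mul, abs_of_pos (ke_rinf_pos s)]
        exact mul_le_mul (ke_cut_lip hT0 s t) (ke_rinf_le s) (ke_rinf_pos s).le (by positivity)
      · rw [abs_mul, abs_of_nonneg (ke_cut_nonneg T t)]
        exact mul_le_mul (ke_cut_le T t) (ke_rinf_lip s t) (abs_nonneg _) zero_le_one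
    have h2 : 1 / Real.pi ≤ 1 := (div_le_one hp0).2 (by linarith)
    have h3 : 2 / T ≤ 1 := (div_le_one hT0).2 (by linarith)
    have h4 : 0 ≤ |s - t| := abs_nonneg _
    have h5 : 0 < 1 / Real.pi := by positivity
    have h6 : 2 / T * |s - t| * (1 / Real.pi) ≤ |s - t| := by
      calc 2 / T * |s - t| * (1 / Real.pi) ≤ 1 * |s - t| * 1 := by gcongr
        _ = |s - t| := by ring
    have h7 : 1 * (1 / Real.pi * |s - t|) ≤ |s - t| := by
      calc 1 * (1 / Real.pi * |s - t|) ≤ 1 * (1 * |s - t|) := by gcongr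
        _ = |s - t| := by ring
    have h8 : c * |(ke_cut T s - ke_cut T t) * rinf s + ke_cut T t * (rinf s - rinf t)| ≤
        2 * (2 * |s - t|) := mul_le_mul hc3 (by linarith) (abs_nonneg _) (by norm_num)
    linarith
  refine ⟨ke_rho c T, ⟨⟨⟨by linarith, hcont, hnn, ?_, hsupp, hint, ?_⟩, ⟨8, hlip⟩⟩, ?_, ?_, hlip⟩⟩
  · intro t
    unfold ke_rho ke_cut rinf
    rw [abs_neg, neg_sq]
  · exact ⟨1 + 8 * (T + 1), fun u hu => ke_sgm hT0 (by norm_num) hcont hnn hsupp hint hlip hu⟩
  · intro t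
    unfold ke_rho
    have h1 : ke_cut T t * rinf t ≤ rinf t :=
      mul_le_of_le_one_left (ke_rinf_pos t).le (ke_cut_le T t)
    exact mul_le_mul hc3 h1 (mul_nonneg (ke_cut_nonneg _ _) (ke_rinf_pos t).le) (by norm_num)
  · intro t ht
    unfold ke_rho
    rw [ke_cut_one hT0 ht, one_mul]
    have e : c * rinf t - rinf t = (c - 1) * rinf t := by ring
    rw [e, abs_of_nonneg (mul_nonneg (by linarith) (ke_rinf_pos t).le)]
    exact mul_le_mul_of_nonneg_right (by linarith) (ke_rinf_pos t).le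

end Pool.Agent.LK
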